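import Pool.Agent.H336R2.Z5.Defs

/-!
# Partial fractions on the reals
-/

open Polynomial Pool.Agent.H337R2

namespace Pool.Agent.H336R2.Z5

theorem B1_aux_term (s : Finset ℕ) (μ : ℕ → ℕ) (c : ℚ) {k : ℕ} (hk : k ∈ s) {j : ℕ} (hj : j < μ k)
    (t : ℝ) (ht : ∀ k ∈ s, μ k ≠ 0 → t + k ≠ 0) :
    aeval t (C c * (X + C (k : ℚ)) ^ j * QQ (s.erase k) μ) / aeval t (QQ s μ) =
      (c : ℝ) / (t + k) ^ (μ k - j) := by
  rw [QQ_erase s μ hk, map_mul, map_mul, map_mul, map_pow, map_pow, map_add, aeval_X, aeval_C, aeval_C]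
  have e1 : (algebraMap ℚ ℝ) (k : ℚ) = (k : ℝ) := by simp
  have e2 : (algebraMap ℚ ℝ) c = (c : ℝ) := rfl
  rw [e1, e2]
  have hz : t + (k : ℝ) ≠ 0 := ht k hk (by omega)
  have hne : aeval t (QQ (s.erase k) μ) ≠ (0 : ℝ) := by
    unfold QQ
    rw [map_prod]
    apply Finset.prod_ne_zero_iff.2
    intro m hm
    rw [map_pow, map_add, aeval_X, aeval_C]
    have e3 : (algebraMap ℚ ℝ) (m : ℚ) = (m : ℝ) := by simp
    rw [e3]
    by_cases hm0 : μ m = 0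
    · rw [hm0, pow_zero]; exact one_ne_zero
    · exact pow_ne_zero _ (ht m (Finset.mem_of_mem_erase hm) hm0)
  have e3 : (t + (k : ℝ)) ^ μ k = (t + k) ^ (μ k - j) * (t + k) ^ j := by
    rw [← pow_add, Nat.sub_add_cancel hj.le]
  rw [e3]
  have h1 : (t + (k : ℝ)) ^ (μ k - j) ≠ 0 := pow_ne_zero _ hz
  have h2 : (t + (k : ℝ)) ^ j ≠ 0 := pow_ne_zero _ hz
  rw [div_eq_div_iff (mul_ne_zero (mul_ne_zero h1 h2) hne) h1]
  ring

theorem B1_pf_real (s : Finset ℕ) (μ : ℕ → ℕ) (P : ℚ[X]) (hdeg : P.degree < (QQ s μ).degree) (r : ℕ)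
    (hr : ∀ k ∈ s, μ k ≤ r) (t : ℝ) (ht : ∀ k ∈ s, μ k ≠ 0 → t + k ≠ 0) :
    aeval t P / aeval t (QQ s μ) = ∑ k ∈ s, ∑ i ∈ Finset.Icc 1 r, ((pa s μ P k i : ℚ) : ℝ) / (t + k) ^ i := by
  have hid := congrArg (fun R : ℚ[X] => aeval t R / aeval t (QQ s μ)) (pf_identity s μ P hdeg)
  rw [hid, map_sum, Finset.sum_div]
  apply Finset.sum_congr rfl
  intro k hk
  rw [map_sum, Finset.sum_div, ← sum_pfc_eq s μ P r k (hr k hk)
    (fun a i => ((a : ℚ) : ℝ) / (t + k) ^ i) (by intro i; simp)]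
  apply Finset.sum_congr rfl
  intro j hj
  rw [Finset.mem_range] at hj
  exact B1_aux_term s μ _ hk hj t ht

end Pool.Agent.H336R2.Z5
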