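import Pool.Agent.H336R2.Z5.Defs

/-!
# Half-integer zeta tails
-/

open Polynomial Pool.Agent.H337R2

namespace Pool.Agent.H336R2.Z5

lemma b2_ho_succ (e : ℕ) (M : ℤ) : ho e (M + 1) = ho e M + 1 / ((M : ℚ) + 1 / 2) ^ e := by
  unfold ho
  rcases le_or_gt 0 M with h | h
  · have h1 : Finset.Ico 0 (M + 1) = insert M (Finset.Ico 0 M) := by
      ext l
      simp only [Finset.mem_Ico, Finset.mem_insert]
      omega
    have h2 : Finset.Ico M 0 = ∅ := by
      ext l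
      simp only [Finset.mem_Ico, Finset.notMem_empty, iff_false]
      omega
    have h3 : Finset.Ico (M + 1) 0 = ∅ := by
      ext l
      simp only [Finset.mem_Ico, Finset.notMem_empty, iff_false]
      omega
    have h4 : M ∉ Finset.Ico 0 M := by
      simp only [Finset.mem_Ico]
      omega
    rw [h1, h2, h3, Finset.sum_insert h4]
    simp only [Finset.sum_empty]
    ring
  · have h1 : Finset.Ico M 0 = insert M (Finset.Ico (M + 1) 0) := by
      ext l
      simp only [Finset.mem_Ico, Finset.mem_insert]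
      omega
    have h2 : Finset.Ico 0 M = ∅ := by
      ext l
      simp only [Finset.mem_Ico, Finset.notMem_empty, iff_false]
      omega
    have h3 : Finset.Ico 0 (M + 1) = ∅ := by
      ext l
      simp only [Finset.mem_Ico, Finset.notMem_empty, iff_false]
      omega
    have h4 : M ∉ Finset.Ico (M + 1) 0 := by
      simp only [Finset.mem_Ico]
      omega
    rw [h1, h2, h3, Finset.sum_insert h4]
    simp only [Finset.sum_empty]
    ring

lemma b2_zero {e : ℕ} (he : 2 ≤ e) :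
    HasSum (fun j : ℕ => 1 / ((j : ℝ) + 1 / 2) ^ e) ((2 ^ e - 1) * zr e) := by
  have hs := summable_zr he
  have h2e : (2 : ℝ) ^ e ≠ 0 := by positivity
  have hev : Summable (fun j : ℕ => 1 / (((2 * j : ℕ) : ℝ) + 1) ^ e) :=
    hs.comp_injective (i := fun j : ℕ => 2 * j) (fun a b h => by
      have h' : 2 * a = 2 * b := h
      omega)
  have hodd : HasSum (fun j : ℕ => 1 / (((2 * j + 1 : ℕ) : ℝ) + 1) ^ e) ((1 / 2 ^ e) * zr e) := by
    have h1 := (hs.hasSum).mul_left (1 / (2 : ℝ) ^ e)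
    have h2 : (fun j : ℕ => 1 / (2 : ℝ) ^ e * (1 / ((j : ℝ) + 1) ^ e)) =
        fun j : ℕ => 1 / (((2 * j + 1 : ℕ) : ℝ) + 1) ^ e := by
      funext j
      rw [div_mul_div_comm, one_mul, ← mul_pow]
      push_cast
      congr 2
      ring
    rw [h2] at h1
    exact h1
  have hall := HasSum.even_add_odd (f := fun t : ℕ => 1 / ((t : ℝ) + 1) ^ e) hev.hasSum hodd
  have huniq : zr e = ∑' j : ℕ, 1 / (((2 * j : ℕ) : ℝ) + 1) ^ e + (1 / 2 ^ e) * zr e :=
    hs.hasSum.unique hall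
  have hfin := hev.hasSum.mul_left ((2 : ℝ) ^ e)
  have h3 : (fun j : ℕ => (2 : ℝ) ^ e * (1 / (((2 * j : ℕ) : ℝ) + 1) ^ e)) =
      fun j : ℕ => 1 / ((j : ℝ) + 1 / 2) ^ e := by
    funext j
    have h4 : (((2 * j : ℕ) : ℝ) + 1) = 2 * ((j : ℝ) + 1 / 2) := by
      push_cast
      ring
    rw [h4, mul_pow]
    have h5 : ((j : ℝ) + 1 / 2) ^ e ≠ 0 := by positivity
    field_simp
  rw [h3] at hfin
  have h6 : (2 : ℝ) ^ e * ∑' j : ℕ, 1 / (((2 * j : ℕ) : ℝ) + 1) ^ e = (2 ^ e - 1) * zr e := by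
    have h7 : ∑' j : ℕ, 1 / (((2 * j : ℕ) : ℝ) + 1) ^ e = zr e - (1 / 2 ^ e) * zr e := by
      linarith
    rw [h7]
    field_simp
  rw [h6] at hfin
  exact hfin

lemma b2_step {e : ℕ} (M : ℤ) :
    HasSum (fun j : ℕ => 1 / ((j : ℝ) + M + 1 / 2) ^ e) ((2 ^ e - 1) * zr e - ((ho e M : ℚ) : ℝ)) ↔
    HasSum (fun j : ℕ => 1 / ((j : ℝ) + ((M + 1 : ℤ) : ℝ) + 1 / 2) ^ e)
      ((2 ^ e - 1) * zr e - ((ho e (M + 1) : ℚ) : ℝ)) := by
  have h := hasSum_nat_add_iff' (f := fun j : ℕ => 1 / ((j : ℝ) + M + 1 / 2) ^ e)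
    (g := (2 ^ e - 1) * zr e - ((ho e M : ℚ) : ℝ)) 1
  rw [← h]
  have e1 : (fun j : ℕ => 1 / (((j + 1 : ℕ) : ℝ) + M + 1 / 2) ^ e) =
      fun j : ℕ => 1 / ((j : ℝ) + ((M + 1 : ℤ) : ℝ) + 1 / 2) ^ e := by
    funext j
    push_cast
    congr 2
    ring
  have e2 : (2 ^ e - 1) * zr e - ((ho e M : ℚ) : ℝ) -
      ∑ i ∈ Finset.range 1, 1 / ((i : ℝ) + M + 1 / 2) ^ e =
      (2 ^ e - 1) * zr e - ((ho e (M + 1) : ℚ) : ℝ) := by
    rw [b2_ho_succ, Finset.sum_range_one]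
    push_cast
    rw [zero_add]
    ring
  rw [e1, e2]

theorem B2_half {e : ℕ} (he : 2 ≤ e) (M : ℤ) :
    HasSum (fun j : ℕ => 1 / ((j : ℝ) + M + 1 / 2) ^ e) ((2 ^ e - 1) * zr e - ((ho e M : ℚ) : ℝ)) := by
  induction M using Int.induction_on with
  | zero =>
    have h := b2_zero he
    have h0 : ho e 0 = 0 := by
      unfold ho
      simp
    rw [h0]
    simpa using h
  | succ i ih => exact (b2_step _).1 ih
  | pred i ih =>
    apply (b2_step _).2
    have e1 : (-(i : ℤ) - 1 + 1) = -(i : ℤ) := by ring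
    rw [e1]
    exact ih

end Pool.Agent.H336R2.Z5
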