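import Pool.Agent.H336R2.Z5.Defs2
import Pool.Agent.H337R2.FormX

/-! # B3: the terms of order one (integers) -/

open Polynomial Pool.Agent.H337R2 Filter Topology

namespace Pool.Agent.H336R2.Z5

noncomputable section

/-- telescoping sum -/
lemma B3_tel {c : ℝ} (hc : 0 < c) :
    HasSum (fun t : ℕ => 1 / ((t : ℝ) + c) - 1 / ((t : ℝ) + c + 1)) (1 / c) := by
  rw [hasSum_iff_tendsto_nat_of_nonneg]
  · have h1 : ∀ N : ℕ, ∑ t ∈ Finset.range N, (1 / ((t : ℝ) + c) - 1 / ((t : ℝ) + c + 1)) =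
        1 / c - 1 / ((N : ℝ) + c) := by
      intro N
      induction N with
      | zero => simp
      | succ N ih =>
        rw [Finset.sum_range_succ, ih]
        push_cast
        ring
    simp only [h1]
    have h2 : Tendsto (fun N : ℕ => 1 / ((N : ℝ) + c)) atTop (𝓝 0) := by
      simp only [one_div]
      apply Tendsto.inv_tendsto_atTop
      exact tendsto_atTop_add_const_right _ _ tendsto_natCast_atTop_atTop
    simpa using h2.const_sub (1 / c)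
  · intro t
    have h1 : (0 : ℝ) < (t : ℝ) + c := by positivity
    have h2 : 1 / ((t : ℝ) + c + 1) ≤ 1 / ((t : ℝ) + c) :=
      one_div_le_one_div_of_le h1 (by linarith)
    linarith

lemma B3_one (m : ℕ) : HasSum (fun t : ℕ => 1 / ((t : ℝ) + m + 1) - 1 / ((t : ℝ) + 1))
    (-((hs 1 m : ℚ) : ℝ)) := by
  induction m with
  | zero =>
    have : (fun t : ℕ => 1 / ((t : ℝ) + (0 : ℕ) + 1) - 1 / ((t : ℝ) + 1)) = fun _ => 0 := by
      funext t
      simp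
    rw [this]
    simp [hs, hasSum_zero]
  | succ m ih =>
    have h1 := (B3_tel (c := (m : ℝ) + 1) (by positivity)).neg
    have h2 := h1.add ih
    have e1 : (fun t : ℕ => -(1 / ((t : ℝ) + ((m : ℝ) + 1)) - 1 / ((t : ℝ) + ((m : ℝ) + 1) + 1)) +
        (1 / ((t : ℝ) + m + 1) - 1 / ((t : ℝ) + 1))) =
        fun t : ℕ => 1 / ((t : ℝ) + ((m + 1 : ℕ) : ℝ) + 1) - 1 / ((t : ℝ) + 1) := by
      funext t
      push_cast
      rw [show (t : ℝ) + ((m : ℝ) + 1) = (t : ℝ) + m + 1 by ring]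
      ring
    have e2 : -(1 / ((m : ℝ) + 1)) + -((hs 1 m : ℚ) : ℝ) = -((hs 1 (m + 1) : ℚ) : ℝ) := by
      unfold hs
      rw [Finset.sum_range_succ]
      push_cast
      ring
    rw [e1, e2] at h2
    exact h2

theorem B3_res (s : Finset ℕ) (a : ℕ → ℝ) (ha : ∑ k ∈ s, a k = 0) (h1 : ∀ k ∈ s, 1 ≤ k) :
    HasSum (fun t : ℕ => ∑ k ∈ s, a k / ((t : ℝ) + k)) (-∑ k ∈ s, a k * ((hs 1 (k - 1) : ℚ) : ℝ)) := by
  have h2 : HasSum (fun t : ℕ => ∑ k ∈ s, a k * (1 / ((t : ℝ) + ((k - 1 : ℕ) : ℝ) + 1) - 1 / ((t : ℝ) + 1)))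
      (∑ k ∈ s, a k * (-((hs 1 (k - 1) : ℚ) : ℝ))) :=
    hasSum_sum fun k _ => (B3_one (k - 1)).mul_left (a k)
  have e1 : (fun t : ℕ => ∑ k ∈ s, a k * (1 / ((t : ℝ) + ((k - 1 : ℕ) : ℝ) + 1) - 1 / ((t : ℝ) + 1))) =
      fun t : ℕ => ∑ k ∈ s, a k / ((t : ℝ) + k) := by
    funext t
    have h3 : ∑ k ∈ s, a k * (1 / ((t : ℝ) + ((k - 1 : ℕ) : ℝ) + 1) - 1 / ((t : ℝ) + 1)) =
        ∑ k ∈ s, a k / ((t : ℝ) + k) - (∑ k ∈ s, a k) * (1 / ((t : ℝ) + 1)) := by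
      rw [Finset.sum_mul, ← Finset.sum_sub_distrib]
      apply Finset.sum_congr rfl
      intro k hk
      have hk1 := h1 k hk
      rw [Nat.cast_sub hk1]
      rw [show (t : ℝ) + ((k : ℝ) - ((1 : ℕ) : ℝ)) + 1 = (t : ℝ) + k by push_cast; ring]
      ring
    rw [h3, ha]
    ring
  have e2 : ∑ k ∈ s, a k * (-((hs 1 (k - 1) : ℚ) : ℝ)) = -∑ k ∈ s, a k * ((hs 1 (k - 1) : ℚ) : ℝ) := by
    rw [← Finset.sum_neg_distrib]
    apply Finset.sum_congr rfl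
    intro k _
    ring
  rw [e1, e2] at h2
  exact h2

end

end Pool.Agent.H336R2.Z5
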