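import Pool.Agent.H336R2.Z5.B3

/-! # B3h: the terms of order one (half-integers) -/

open Polynomial Pool.Agent.H337R2 Filter Topology

namespace Pool.Agent.H336R2.Z5

noncomputable section

/-- telescoping sum, any starting point -/
lemma B3_telz (c : ℝ) :
    HasSum (fun t : ℕ => 1 / ((t : ℝ) + c) - 1 / ((t : ℝ) + c + 1)) (1 / c) := by
  obtain ⟨k, hk⟩ := exists_nat_gt (-c)
  have hck : 0 < c + (k : ℝ) := by linarith
  have h1 := B3_tel hck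
  have h2 : ∑ t ∈ Finset.range k, (1 / ((t : ℝ) + c) - 1 / ((t : ℝ) + c + 1)) =
      1 / c - 1 / ((k : ℝ) + c) := by
    have h3 : ∀ N : ℕ, ∑ t ∈ Finset.range N, (1 / ((t : ℝ) + c) - 1 / ((t : ℝ) + c + 1)) =
        1 / c - 1 / ((N : ℝ) + c) := by
      intro N
      induction N with
      | zero => simp
      | succ N ih =>
        rw [Finset.sum_range_succ, ih, show ((N + 1 : ℕ) : ℝ) + c = (N : ℝ) + c + 1 by push_cast; ring]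
        ring
    exact h3 k
  have h4 : (1 : ℝ) / c = 1 / (c + (k : ℝ)) +
      ∑ t ∈ Finset.range k, (1 / ((t : ℝ) + c) - 1 / ((t : ℝ) + c + 1)) := by
    rw [h2, add_comm c (k : ℝ)]; ring
  rw [h4, ← hasSum_nat_add_iff (f := fun t : ℕ => 1 / ((t : ℝ) + c) - 1 / ((t : ℝ) + c + 1)) k]
  have e1 : (fun t : ℕ => 1 / (((t + k : ℕ) : ℝ) + c) - 1 / (((t + k : ℕ) : ℝ) + c + 1)) =
      fun t : ℕ => 1 / ((t : ℝ) + (c + k)) - 1 / ((t : ℝ) + (c + k) + 1) := by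
    funext t
    rw [show ((t + k : ℕ) : ℝ) + c = (t : ℝ) + (c + k) by push_cast; ring]
  rw [e1]
  exact h1

lemma B3h_ho_succ (e : ℕ) (M : ℤ) : ho e (M + 1) = ho e M + 1 / ((M : ℚ) + 1 / 2) ^ e := by
  unfold ho
  rcases le_or_gt 0 M with h | h
  · have h1 : Finset.Ico (0 : ℤ) (M + 1) = insert M (Finset.Ico 0 M) := by
      ext x; simp only [Finset.mem_Ico, Finset.mem_insert]; omega
    have h2 : Finset.Ico M 0 = (∅ : Finset ℤ) := by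
      apply Finset.Ico_eq_empty_of_le; omega
    have h3 : Finset.Ico (M + 1) 0 = (∅ : Finset ℤ) := by
      apply Finset.Ico_eq_empty_of_le; omega
    rw [h1, h2, h3, Finset.sum_insert (by simp)]
    simp only [Finset.sum_empty]
    ring
  · have h1 : Finset.Ico M (0 : ℤ) = insert M (Finset.Ico (M + 1) 0) := by
      ext x; simp only [Finset.mem_Ico, Finset.mem_insert]; omega
    have h2 : Finset.Ico 0 M = (∅ : Finset ℤ) := by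
      apply Finset.Ico_eq_empty_of_le; omega
    have h3 : Finset.Ico 0 (M + 1) = (∅ : Finset ℤ) := by
      apply Finset.Ico_eq_empty_of_le; omega
    rw [h1, h2, h3, Finset.sum_insert (by simp)]
    simp only [Finset.sum_empty]
    ring

lemma B3h_ho_zero (e : ℕ) : ho e 0 = 0 := by
  simp [ho]

lemma B3h_one (M : ℤ) : HasSum (fun j : ℕ => 1 / ((j : ℝ) + (M : ℝ) + 1 / 2) - 1 / ((j : ℝ) + 1 / 2))
    (-((ho 1 M : ℚ) : ℝ)) := by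
  induction M using Int.induction_on with
  | zero =>
    have : (fun j : ℕ => 1 / ((j : ℝ) + ((0 : ℤ) : ℝ) + 1 / 2) - 1 / ((j : ℝ) + 1 / 2)) = fun _ => 0 := by
      funext t
      simp
    rw [this, B3h_ho_zero]
    simp [hasSum_zero]
  | succ i ih =>
    have h1 := (B3_telz (((i : ℤ) : ℝ) + 1 / 2)).neg
    have h2 := h1.add ih
    have e1 : (fun j : ℕ => -(1 / ((j : ℝ) + (((i : ℤ) : ℝ) + 1 / 2)) -
          1 / ((j : ℝ) + (((i : ℤ) : ℝ) + 1 / 2) + 1)) +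
        (1 / ((j : ℝ) + ((i : ℤ) : ℝ) + 1 / 2) - 1 / ((j : ℝ) + 1 / 2))) =
        fun j : ℕ => 1 / ((j : ℝ) + (((i : ℤ) + 1 : ℤ) : ℝ) + 1 / 2) - 1 / ((j : ℝ) + 1 / 2) := by
      funext j
      rw [show (j : ℝ) + (((i : ℤ) + 1 : ℤ) : ℝ) + 1 / 2 = (j : ℝ) + (((i : ℤ) : ℝ) + 1 / 2) + 1 by
        push_cast; ring]
      rw [show (j : ℝ) + ((i : ℤ) : ℝ) + 1 / 2 = (j : ℝ) + (((i : ℤ) : ℝ) + 1 / 2) by ring]
      ring
    have e2 : -(1 / (((i : ℤ) : ℝ) + 1 / 2)) + -((ho 1 (i : ℤ) : ℚ) : ℝ) =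
        -((ho 1 ((i : ℤ) + 1) : ℚ) : ℝ) := by
      rw [B3h_ho_succ]
      push_cast
      rw [pow_one]
      ring
    rw [e1, e2] at h2
    exact h2
  | pred i ih =>
    have h1 := B3_telz (((-(i : ℤ) - 1 : ℤ) : ℝ) + 1 / 2)
    have h2 := h1.add ih
    have e1 : (fun j : ℕ => (1 / ((j : ℝ) + (((-(i : ℤ) - 1 : ℤ) : ℝ) + 1 / 2)) -
          1 / ((j : ℝ) + (((-(i : ℤ) - 1 : ℤ) : ℝ) + 1 / 2) + 1)) +
        (1 / ((j : ℝ) + ((-(i : ℤ) : ℤ) : ℝ) + 1 / 2) - 1 / ((j : ℝ) + 1 / 2))) =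
        fun j : ℕ => 1 / ((j : ℝ) + ((-(i : ℤ) - 1 : ℤ) : ℝ) + 1 / 2) - 1 / ((j : ℝ) + 1 / 2) := by
      funext j
      rw [show (j : ℝ) + ((-(i : ℤ) - 1 : ℤ) : ℝ) + 1 / 2 = (j : ℝ) + (((-(i : ℤ) - 1 : ℤ) : ℝ) + 1 / 2) by
        ring]
      rw [show (j : ℝ) + ((-(i : ℤ) : ℤ) : ℝ) + 1 / 2 = (j : ℝ) + (((-(i : ℤ) - 1 : ℤ) : ℝ) + 1 / 2) + 1 by
        push_cast; ring]
      ring
    have e2 : 1 / (((-(i : ℤ) - 1 : ℤ) : ℝ) + 1 / 2) + -((ho 1 (-(i : ℤ)) : ℚ) : ℝ) =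
        -((ho 1 (-(i : ℤ) - 1) : ℚ) : ℝ) := by
      have h3 := B3h_ho_succ 1 (-(i : ℤ) - 1)
      rw [show -(i : ℤ) - 1 + 1 = -(i : ℤ) by ring] at h3
      rw [h3]
      push_cast
      rw [pow_one]
      ring
    rw [e1, e2] at h2
    exact h2

theorem B3_resh (s : Finset ℕ) (a : ℕ → ℝ) (ha : ∑ k ∈ s, a k = 0) (c : ℤ) :
    HasSum (fun j : ℕ => ∑ k ∈ s, a k / ((j : ℝ) + (((k : ℤ) - c : ℤ) : ℝ) + 1 / 2))
      (-∑ k ∈ s, a k * ((ho 1 ((k : ℤ) - c) : ℚ) : ℝ)) := by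
  have h2 : HasSum (fun j : ℕ => ∑ k ∈ s, a k *
      (1 / ((j : ℝ) + (((k : ℤ) - c : ℤ) : ℝ) + 1 / 2) - 1 / ((j : ℝ) + 1 / 2)))
      (∑ k ∈ s, a k * (-((ho 1 ((k : ℤ) - c) : ℚ) : ℝ))) :=
    hasSum_sum fun k _ => (B3h_one ((k : ℤ) - c)).mul_left (a k)
  have e1 : (fun j : ℕ => ∑ k ∈ s, a k *
      (1 / ((j : ℝ) + (((k : ℤ) - c : ℤ) : ℝ) + 1 / 2) - 1 / ((j : ℝ) + 1 / 2))) =
      fun j : ℕ => ∑ k ∈ s, a k / ((j : ℝ) + (((k : ℤ) - c : ℤ) : ℝ) + 1 / 2) := by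
    funext j
    have h3 : ∑ k ∈ s, a k * (1 / ((j : ℝ) + (((k : ℤ) - c : ℤ) : ℝ) + 1 / 2) - 1 / ((j : ℝ) + 1 / 2)) =
        ∑ k ∈ s, a k / ((j : ℝ) + (((k : ℤ) - c : ℤ) : ℝ) + 1 / 2) -
          (∑ k ∈ s, a k) * (1 / ((j : ℝ) + 1 / 2)) := by
      rw [Finset.sum_mul, ← Finset.sum_sub_distrib]
      apply Finset.sum_congr rfl
      intro k hk
      ring
    rw [h3, ha]
    ring
  have e2 : ∑ k ∈ s, a k * (-((ho 1 ((k : ℤ) - c) : ℚ) : ℝ)) =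
      -∑ k ∈ s, a k * ((ho 1 ((k : ℤ) - c) : ℚ) : ℝ) := by
    rw [← Finset.sum_neg_distrib]
    apply Finset.sum_congr rfl
    intro k _
    ring
  rw [e1, e2] at h2
  exact h2

end

end Pool.Agent.H336R2.Z5
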