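import Pool.Agent.H336R2.Z5.B1
import Pool.Agent.H336R2.Z5.B2
import Pool.Agent.H336R2.Z5.B3h

/-! # B5: the linear form at the half-integers as a series -/

open Polynomial Pool.Agent.H337R2 Filter Topology

namespace Pool.Agent.H336R2.Z5

noncomputable section

lemma B5_xp_comp (n : ℕ) : (xp n).comp (-X - C ((24 * n : ℕ) : ℚ)) = xp n := by
  unfold xp
  simp only [Polynomial.mul_comp, Polynomial.add_comp, Polynomial.X_comp, Polynomial.C_comp]
  ring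

lemma B5_EE_comp (n : ℕ) (Q : ℚ[X]) : (EE n Q).comp (-X - C ((24 * n : ℕ) : ℚ)) = EE n Q := by
  unfold EE
  rw [Polynomial.comp_assoc, B5_xp_comp]

lemma B5_P_comp (n : ℕ) (Q : ℚ[X]) :
    (PPn n * EE n Q).comp (-X - C ((24 * n : ℕ) : ℚ)) = -(PPn n * EE n Q) := by
  rw [Polynomial.mul_comp, B5_EE_comp]
  have h := PP_comp 0 24 2 n dz
  rw [h]
  ring

lemma B5_EE_deg (n : ℕ) (Q : ℚ[X]) : (EE n Q).natDegree ≤ 2 * (49 + Q.natDegree) := by
  unfold EE
  refine Polynomial.natDegree_comp_le.trans ?_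
  have h1 : (xp n).natDegree ≤ 2 := by
    unfold xp
    refine Polynomial.natDegree_mul_le.trans ?_
    rw [Polynomial.natDegree_X, Polynomial.natDegree_X_add_C]
  have h2 : (X ^ 49 * Q).natDegree ≤ 49 + Q.natDegree := by
    refine Polynomial.natDegree_mul_le.trans ?_
    rw [Polynomial.natDegree_X_pow]
  calc (X ^ 49 * Q).natDegree * (xp n).natDegree ≤ (49 + Q.natDegree) * 2 := Nat.mul_le_mul h2 h1
    _ = _ := by ring

lemma B5_QQ_deg {n : ℕ} (hn : 1 ≤ n) : (QQ (sN n) (muN n)).natDegree = 96 * n + 6 := by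
  rw [QQ_natDegree, sum_mu_one 24 2 n dz hn (by decide) (by decide)]
  simp only [dz, List.map_cons, List.map_nil, List.sum_cons, List.sum_nil]
  omega

lemma B5_deg {n : ℕ} (hn : 2 ≤ n) (Q : ℚ[X]) (hQ : Q.natDegree ≤ 48 * n - 48) :
    (PPn n * EE n Q).natDegree + 2 ≤ (QQ (sN n) (muN n)).natDegree := by
  rw [B5_QQ_deg (by omega)]
  have h1 := PP_natDegree_le 0 24 2 n dz
  have h2 := B5_EE_deg n Q
  have h3 : (PPn n * EE n Q).natDegree ≤ (PPn n).natDegree + (EE n Q).natDegree :=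
    Polynomial.natDegree_mul_le
  have h4 : (PPn n).natDegree ≤ 1 + 2 * 0 * (2 * n) := h1
  omega

/-- the terms of order `i` -/
lemma B5_term {n : ℕ} (hn : 2 ≤ n) (Q : ℚ[X]) (hQ : Q.natDegree ≤ 48 * n - 48) (i : ℕ) (hi : 1 ≤ i) :
    HasSum (fun j : ℕ => ∑ k ∈ sN n, ((pa (sN n) (muN n) (PPn n * EE n Q) k i : ℚ) : ℝ) /
        (-(4 * (n : ℝ)) + j + 1 / 2 + k) ^ i)
      ((2 ^ i - 1) * zr i * ((∑ k ∈ sN n, pa (sN n) (muN n) (PPn n * EE n Q) k i : ℚ) : ℝ) -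
        ((∑ k ∈ sN n, pa (sN n) (muN n) (PPn n * EE n Q) k i * ho i ((k : ℤ) - 4 * n) : ℚ) : ℝ)) := by
  rcases Nat.lt_or_ge 1 i with h2 | h2
  · have h := hasSum_sum (s := sN n) (fun k _ =>
      (B2_half (e := i) (by omega) ((k : ℤ) - 4 * n)).mul_left
        ((pa (sN n) (muN n) (PPn n * EE n Q) k i : ℚ) : ℝ))
    have e1 : (fun j : ℕ => ∑ k ∈ sN n, ((pa (sN n) (muN n) (PPn n * EE n Q) k i : ℚ) : ℝ) /
        (-(4 * (n : ℝ)) + j + 1 / 2 + k) ^ i) = fun j : ℕ => ∑ k ∈ sN n,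
        ((pa (sN n) (muN n) (PPn n * EE n Q) k i : ℚ) : ℝ) *
          (1 / ((j : ℝ) + (((k : ℤ) - 4 * n : ℤ) : ℝ) + 1 / 2) ^ i) := by
      funext j
      apply Finset.sum_congr rfl
      intro k _
      rw [show (j : ℝ) + (((k : ℤ) - 4 * n : ℤ) : ℝ) + 1 / 2 = -(4 * (n : ℝ)) + j + 1 / 2 + k by
        push_cast; ring]
      ring
    have e2 : (2 ^ i - 1) * zr i * ((∑ k ∈ sN n, pa (sN n) (muN n) (PPn n * EE n Q) k i : ℚ) : ℝ) -
        ((∑ k ∈ sN n, pa (sN n) (muN n) (PPn n * EE n Q) k i * ho i ((k : ℤ) - 4 * n) : ℚ) : ℝ) =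
        ∑ k ∈ sN n, ((pa (sN n) (muN n) (PPn n * EE n Q) k i : ℚ) : ℝ) *
          ((2 ^ i - 1) * zr i - ((ho i ((k : ℤ) - 4 * n) : ℚ) : ℝ)) := by
      push_cast
      rw [Finset.mul_sum, ← Finset.sum_sub_distrib]
      apply Finset.sum_congr rfl
      intro k _
      ring
    rw [e1, e2]
    exact h
  · have hi1 : i = 1 := by omega
    subst hi1
    have h6 := residue_sum (sN n) (muN n) (PPn n * EE n Q) (B5_deg hn Q hQ)
    have h4 : (∑ k ∈ sN n, ((pa (sN n) (muN n) (PPn n * EE n Q) k 1 : ℚ) : ℝ)) = 0 := by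
      have : (((∑ k ∈ sN n, pa (sN n) (muN n) (PPn n * EE n Q) k 1 : ℚ)) : ℝ) = 0 := by
        rw [h6]; simp
      push_cast at this
      exact this
    have h := B3_resh (sN n) (fun k => ((pa (sN n) (muN n) (PPn n * EE n Q) k 1 : ℚ) : ℝ)) h4 (4 * n)
    have e1 : (fun j : ℕ => ∑ k ∈ sN n, ((pa (sN n) (muN n) (PPn n * EE n Q) k 1 : ℚ) : ℝ) /
        (-(4 * (n : ℝ)) + j + 1 / 2 + k) ^ 1) = fun j : ℕ => ∑ k ∈ sN n,
        ((pa (sN n) (muN n) (PPn n * EE n Q) k 1 : ℚ) : ℝ) /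
          ((j : ℝ) + (((k : ℤ) - 4 * n : ℤ) : ℝ) + 1 / 2) := by
      funext j
      apply Finset.sum_congr rfl
      intro k _
      rw [show (j : ℝ) + (((k : ℤ) - 4 * n : ℤ) : ℝ) + 1 / 2 = -(4 * (n : ℝ)) + j + 1 / 2 + k by
        push_cast; ring, pow_one]
    have e2 : (2 ^ 1 - 1) * zr 1 * ((∑ k ∈ sN n, pa (sN n) (muN n) (PPn n * EE n Q) k 1 : ℚ) : ℝ) -
        ((∑ k ∈ sN n, pa (sN n) (muN n) (PPn n * EE n Q) k 1 * ho 1 ((k : ℤ) - 4 * n) : ℚ) : ℝ) =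
        -∑ k ∈ sN n, ((pa (sN n) (muN n) (PPn n * EE n Q) k 1 : ℚ) : ℝ) *
          ((ho 1 ((k : ℤ) - 4 * n) : ℚ) : ℝ) := by
      rw [h6]
      push_cast
      ring
    rw [e1, e2]
    exact h

theorem B5_half {n : ℕ} (hn : 2 ≤ n) (Q : ℚ[X]) (hQ : Q.natDegree ≤ 48 * n - 48) :
    HasSum (fun j : ℕ => aeval (-(4 * (n : ℝ)) + j + 1 / 2) (PPn n * EE n Q) /
        aeval (-(4 * (n : ℝ)) + j + 1 / 2) (QQ (sN n) (muN n)))
      (7 * ((∑ k ∈ sN n, pa (sN n) (muN n) (PPn n * EE n Q) k 3 : ℚ) : ℝ) * zr 3 +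
        31 * ((∑ k ∈ sN n, pa (sN n) (muN n) (PPn n * EE n Q) k 5 : ℚ) : ℝ) * zr 5 -
        ((∑ i ∈ Finset.Icc 1 6, ∑ k ∈ sN n, pa (sN n) (muN n) (PPn n * EE n Q) k i *
          ho i ((k : ℤ) - 4 * n) : ℚ) : ℝ)) := by
  have hd := B5_deg hn Q hQ
  have hdeg' : (PPn n * EE n Q).degree < (QQ (sN n) (muN n)).degree := by
    rw [Polynomial.degree_eq_natDegree (QQ_monic _ _).ne_zero]
    exact lt_of_le_of_lt Polynomial.degree_le_natDegree (by exact_mod_cast (by omega))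
  have hmain := hasSum_sum (s := Finset.Icc 1 6) (fun i hi =>
    B5_term hn Q hQ i (Finset.mem_Icc.1 hi).1)
  -- vanishing of the even coefficients
  have hev : ∀ i : ℕ, Even i → 1 ≤ i →
      ∑ k ∈ sN n, pa (sN n) (muN n) (PPn n * EE n Q) k i = 0 := fun i hi hi1 =>
    even_vanish (sN n) (muN n) (PPn n * EE n Q) (24 * n)
      (fun k hk => ss_reflect 24 2 n hk) (fun k hk => mu_reflect 24 n dz (ss_reflect 24 2 n hk).1)
      (B5_P_comp n Q) (even_sum_mu 24 2 n dz (by omega) (by decide) (by decide) (by decide)) hi hi1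
  have h1 := residue_sum (sN n) (muN n) (PPn n * EE n Q) hd
  convert hmain using 1
  · funext j
    rw [B1_pf_real (sN n) (muN n) (PPn n * EE n Q) hdeg' 6 (fun k _ => mu_le_length 24 n dz k)
      (-(4 * (n : ℝ)) + j + 1 / 2)]
    · rw [Finset.sum_comm]
    · intro k _ _ h0
      have h2 : (2 * ((j : ℤ) + k - 4 * n) + 1 : ℤ) = 0 := by
        have h3 : (2 * ((j : ℝ) + k - 4 * n) + 1 : ℝ) = 0 := by linarith
        exact_mod_cast h3
      omega
  · rw [Finset.sum_sub_distrib]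
    congr 1
    · rw [show Finset.Icc 1 6 = ({1, 2, 3, 4, 5, 6} : Finset ℕ) by decide]
      rw [Finset.sum_insert (by decide), Finset.sum_insert (by decide), Finset.sum_insert (by decide),
        Finset.sum_insert (by decide), Finset.sum_insert (by decide), Finset.sum_singleton]
      rw [h1, hev 2 (by decide) (by norm_num), hev 4 (by decide) (by norm_num),
        hev 6 (by decide) (by norm_num)]
      norm_num
      ring
    · push_cast
      rfl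

end

end Pool.Agent.H336R2.Z5
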