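import Pool.Agent.H336R2.Z5.B3
import Pool.Agent.H336R2.Z5.B5

/-! # B4: the linear form at the integers as a series -/

open Polynomial Pool.Agent.H337R2 Filter Topology

namespace Pool.Agent.H336R2.Z5

noncomputable section

lemma B4_pos {n k : ℕ} (hk : k ∈ sN n) : 1 ≤ k := by
  unfold sN ss at hk
  rw [Finset.mem_Icc] at hk
  omega

/-- the terms of order `i` -/
lemma B4_term {n : ℕ} (hn : 2 ≤ n) (Q : ℚ[X]) (hQ : Q.natDegree ≤ 48 * n - 48) (i : ℕ) (hi : 1 ≤ i) :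
    HasSum (fun t : ℕ => ∑ k ∈ sN n, ((pa (sN n) (muN n) (PPn n * EE n Q) k i : ℚ) : ℝ) /
        ((t : ℝ) + k) ^ i)
      (zr i * ((∑ k ∈ sN n, pa (sN n) (muN n) (PPn n * EE n Q) k i : ℚ) : ℝ) -
        ((∑ k ∈ sN n, pa (sN n) (muN n) (PPn n * EE n Q) k i * hs i (k - 1) : ℚ) : ℝ)) := by
  rcases Nat.lt_or_ge 1 i with h2 | h2
  · have h := hasSum_sum (s := sN n) (fun k _ =>
      (hasSum_tail (e := i) (by omega) (k - 1)).mul_left
        ((pa (sN n) (muN n) (PPn n * EE n Q) k i : ℚ) : ℝ))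
    have e1 : (fun t : ℕ => ∑ k ∈ sN n, ((pa (sN n) (muN n) (PPn n * EE n Q) k i : ℚ) : ℝ) /
        ((t : ℝ) + k) ^ i) = fun t : ℕ => ∑ k ∈ sN n,
        ((pa (sN n) (muN n) (PPn n * EE n Q) k i : ℚ) : ℝ) *
          (1 / ((t : ℝ) + (((k - 1 : ℕ) : ℝ) + 1)) ^ i) := by
      funext t
      apply Finset.sum_congr rfl
      intro k hk
      have hk1 := B4_pos hk
      rw [Nat.cast_sub hk1]
      rw [show (t : ℝ) + (((k : ℝ) - ((1 : ℕ) : ℝ)) + 1) = (t : ℝ) + k by push_cast; ring]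
      ring
    have e2 : zr i * ((∑ k ∈ sN n, pa (sN n) (muN n) (PPn n * EE n Q) k i : ℚ) : ℝ) -
        ((∑ k ∈ sN n, pa (sN n) (muN n) (PPn n * EE n Q) k i * hs i (k - 1) : ℚ) : ℝ) =
        ∑ k ∈ sN n, ((pa (sN n) (muN n) (PPn n * EE n Q) k i : ℚ) : ℝ) *
          (zr i - ((hs i (k - 1) : ℚ) : ℝ)) := by
      push_cast
      rw [Finset.mul_sum, ← Finset.sum_sub_distrib]
      apply Finset.sum_congr rfl
      intro k _
      ring
    rw [e1, e2]
    exact h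
  · have hi1 : i = 1 := by omega
    subst hi1
    have h6 := residue_sum (sN n) (muN n) (PPn n * EE n Q) (B5_deg hn Q hQ)
    have h4 : (∑ k ∈ sN n, ((pa (sN n) (muN n) (PPn n * EE n Q) k 1 : ℚ) : ℝ)) = 0 := by
      have : (((∑ k ∈ sN n, pa (sN n) (muN n) (PPn n * EE n Q) k 1 : ℚ)) : ℝ) = 0 := by
        rw [h6]; simp
      push_cast at this
      exact this
    have h := B3_res (sN n) (fun k => ((pa (sN n) (muN n) (PPn n * EE n Q) k 1 : ℚ) : ℝ)) h4
      (fun k hk => B4_pos hk)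
    have e1 : (fun t : ℕ => ∑ k ∈ sN n, ((pa (sN n) (muN n) (PPn n * EE n Q) k 1 : ℚ) : ℝ) /
        ((t : ℝ) + k) ^ 1) = fun t : ℕ => ∑ k ∈ sN n,
        ((pa (sN n) (muN n) (PPn n * EE n Q) k 1 : ℚ) : ℝ) / ((t : ℝ) + k) := by
      funext t
      apply Finset.sum_congr rfl
      intro k _
      rw [pow_one]
    have e2 : zr 1 * ((∑ k ∈ sN n, pa (sN n) (muN n) (PPn n * EE n Q) k 1 : ℚ) : ℝ) -
        ((∑ k ∈ sN n, pa (sN n) (muN n) (PPn n * EE n Q) k 1 * hs 1 (k - 1) : ℚ) : ℝ) =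
        -∑ k ∈ sN n, ((pa (sN n) (muN n) (PPn n * EE n Q) k 1 : ℚ) : ℝ) *
          ((hs 1 (k - 1) : ℚ) : ℝ) := by
      rw [h6]
      push_cast
      ring
    rw [e1, e2]
    exact h

theorem B4_int {n : ℕ} (hn : 2 ≤ n) (Q : ℚ[X]) (hQ : Q.natDegree ≤ 48 * n - 48) :
    HasSum (fun t : ℕ => aeval (t : ℝ) (PPn n * EE n Q) / aeval (t : ℝ) (QQ (sN n) (muN n)))
      (((∑ k ∈ sN n, pa (sN n) (muN n) (PPn n * EE n Q) k 3 : ℚ) : ℝ) * zr 3 +
        ((∑ k ∈ sN n, pa (sN n) (muN n) (PPn n * EE n Q) k 5 : ℚ) : ℝ) * zr 5 -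
        ((∑ i ∈ Finset.Icc 1 6, ∑ k ∈ sN n, pa (sN n) (muN n) (PPn n * EE n Q) k i * hs i (k - 1) : ℚ) : ℝ)) := by
  have hd := B5_deg hn Q hQ
  have hdeg' : (PPn n * EE n Q).degree < (QQ (sN n) (muN n)).degree := by
    rw [Polynomial.degree_eq_natDegree (QQ_monic _ _).ne_zero]
    exact lt_of_le_of_lt Polynomial.degree_le_natDegree (by exact_mod_cast (by omega))
  have hmain := hasSum_sum (s := Finset.Icc 1 6) (fun i hi =>
    B4_term hn Q hQ i (Finset.mem_Icc.1 hi).1)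
  -- vanishing of the even coefficients
  have hev : ∀ i : ℕ, Even i → 1 ≤ i →
      ∑ k ∈ sN n, pa (sN n) (muN n) (PPn n * EE n Q) k i = 0 := fun i hi hi1 =>
    even_vanish (sN n) (muN n) (PPn n * EE n Q) (24 * n)
      (fun k hk => ss_reflect 24 2 n hk) (fun k hk => mu_reflect 24 n dz (ss_reflect 24 2 n hk).1)
      (B5_P_comp n Q) (even_sum_mu 24 2 n dz (by omega) (by decide) (by decide) (by decide)) hi hi1
  have h1 := residue_sum (sN n) (muN n) (PPn n * EE n Q) hd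
  convert hmain using 1
  · funext t
    rw [B1_pf_real (sN n) (muN n) (PPn n * EE n Q) hdeg' 6 (fun k _ => mu_le_length 24 n dz k)
      (t : ℝ)]
    · rw [Finset.sum_comm]
    · intro k hk _ h0
      have h2 : (1 : ℝ) ≤ k := by exact_mod_cast B4_pos hk
      have h3 : (0 : ℝ) ≤ t := Nat.cast_nonneg t
      linarith
  · rw [Finset.sum_sub_distrib]
    congr 1
    · rw [show Finset.Icc 1 6 = ({1, 2, 3, 4, 5, 6} : Finset ℕ) by decide]
      rw [Finset.sum_insert (by decide), Finset.sum_insert (by decide), Finset.sum_insert (by decide),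
        Finset.sum_insert (by decide), Finset.sum_insert (by decide), Finset.sum_singleton]
      rw [h1, hev 2 (by decide) (by norm_num), hev 4 (by decide) (by norm_num),
        hev 6 (by decide) (by norm_num)]
      push_cast
      ring
    · push_cast
      rfl

end

end Pool.Agent.H336R2.Z5
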