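import Pool.Agent.H336R2.Z5.Defs2

/-!
# Task B6: the linear form as a series
-/

open Polynomial Pool.Agent.H337R2 Filter Topology

namespace Pool.Agent.H336R2.Z5

noncomputable section

namespace B6aux

/-- the statement of `B4_int` -/
def B4st : Prop := ∀ {n : ℕ} (_ : 2 ≤ n) (Q : ℚ[X]) (_ : Q.natDegree ≤ 48 * n - 48),
    HasSum (fun t : ℕ => aeval (t : ℝ) (PPn n * EE n Q) / aeval (t : ℝ) (QQ (sN n) (muN n)))
      (((∑ k ∈ sN n, pa (sN n) (muN n) (PPn n * EE n Q) k 3 : ℚ) : ℝ) * zr 3 +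
        ((∑ k ∈ sN n, pa (sN n) (muN n) (PPn n * EE n Q) k 5 : ℚ) : ℝ) * zr 5 -
        ((∑ i ∈ Finset.Icc 1 6, ∑ k ∈ sN n, pa (sN n) (muN n) (PPn n * EE n Q) k i * hs i (k - 1) : ℚ) : ℝ))

/-- the statement of `B5_half` -/
def B5st : Prop := ∀ {n : ℕ} (_ : 2 ≤ n) (Q : ℚ[X]) (_ : Q.natDegree ≤ 48 * n - 48),
    HasSum (fun j : ℕ => aeval (-(4 * (n : ℝ)) + j + 1 / 2) (PPn n * EE n Q) /
        aeval (-(4 * (n : ℝ)) + j + 1 / 2) (QQ (sN n) (muN n)))
      (7 * ((∑ k ∈ sN n, pa (sN n) (muN n) (PPn n * EE n Q) k 3 : ℚ) : ℝ) * zr 3 +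
        31 * ((∑ k ∈ sN n, pa (sN n) (muN n) (PPn n * EE n Q) k 5 : ℚ) : ℝ) * zr 5 -
        ((∑ i ∈ Finset.Icc 1 6, ∑ k ∈ sN n, pa (sN n) (muN n) (PPn n * EE n Q) k i *
          ho i ((k : ℤ) - 4 * n) : ℚ) : ℝ))

lemma aeval_EE (n : ℕ) (Q : ℚ[X]) (t : ℝ) :
    aeval t (EE n Q) = xr n t ^ 49 * aeval (xr n t) Q := by
  unfold EE
  rw [Polynomial.aeval_comp]
  have h : aeval t (xp n) = xr n t := by
    unfold xp xr
    simp
  rw [h, map_mul, map_pow, aeval_X]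

lemma term_eq (n : ℕ) (Q : ℚ[X]) (t : ℝ) :
    Rr n t * xr n t ^ 49 * aeval (xr n t) Q =
      aeval t (PPn n * EE n Q) / aeval t (QQ (sN n) (muN n)) := by
  unfold Rr
  rw [map_mul, aeval_EE]
  ring

lemma comb {n : ℕ} (hn : 2 ≤ n) (Q : ℚ[X]) (f : ℝ → ℝ)
    (hf : ∀ t, Rr n t * xr n t ^ 49 * aeval (xr n t) Q = f t) {A B : ℝ}
    (hA : HasSum (fun t : ℕ => f (t : ℝ)) A)
    (hB : HasSum (fun j : ℕ => f (-(4 * (n : ℝ)) + j + 1 / 2)) B) :
    HasSum (fun s : ℕ => Wt n s * aeval (xr n (tau n s)) Q) (-B + 7 * A) := by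
  have hev : HasSum (fun j : ℕ => Wt n (2 * j) * aeval (xr n (tau n (2 * j))) Q) (-B) := by
    have e : (fun j : ℕ => Wt n (2 * j) * aeval (xr n (tau n (2 * j))) Q) =
        fun j : ℕ => -f (-(4 * (n : ℝ)) + j + 1 / 2) := by
      funext j
      have ht : tau n (2 * j) = -(4 * (n : ℝ)) + j + 1 / 2 := by
        unfold tau
        push_cast
        ring
      unfold Wt
      rw [if_pos (even_two_mul j), ht, ← hf]
      ring
    rw [e]
    exact hB.neg
  have hod : HasSum (fun j : ℕ => Wt n (2 * j + 1) * aeval (xr n (tau n (2 * j + 1))) Q)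
      (7 * A) := by
    have hinj : Function.Injective (fun t : ℕ => t + (4 * n - 1)) := fun a b h => by
      simp only at h
      omega
    refine (hinj.hasSum_iff ?_).1 ?_
    · intro j hj
      have hlt : ¬ (8 * n ≤ 2 * j + 1 + 1) := by
        intro h
        apply hj
        exact ⟨j - (4 * n - 1), by simp only; omega⟩
      unfold Wt
      rw [if_neg (by rw [Nat.not_even_iff_odd]; exact ⟨j, rfl⟩), if_neg hlt]
      ring
    · have e : ((fun j : ℕ => Wt n (2 * j + 1) * aeval (xr n (tau n (2 * j + 1))) Q) ∘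
          fun t : ℕ => t + (4 * n - 1)) = fun t : ℕ => 7 * f (t : ℝ) := by
        funext t
        simp only [Function.comp]
        have ht : tau n (2 * (t + (4 * n - 1)) + 1) = (t : ℝ) := by
          unfold tau
          have e : ((2 * (t + (4 * n - 1)) + 1 : ℕ) : ℝ) = 2 * t + 8 * n - 1 := by
            have : 2 * (t + (4 * n - 1)) + 1 + 1 = 2 * t + 8 * n := by omega
            have h2 : ((2 * (t + (4 * n - 1)) + 1 : ℕ) : ℝ) + 1 = 2 * t + 8 * n := by
              exact_mod_cast this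
            linarith
          rw [e]
          ring
        unfold Wt
        rw [if_neg (by rw [Nat.not_even_iff_odd]; exact ⟨_, rfl⟩), if_pos (by omega), ht, ← hf]
        ring
      rw [e]
      exact hA.mul_left 7
  exact hev.even_add_odd hod

end B6aux

open B6aux

theorem B6_hasSum (hB4 : B4st) (hB5 : B5st) {n : ℕ} (hn : 2 ≤ n) (u : ℚ) (h5 : zr 5 = (u : ℝ))
    (Q : ℚ[X]) (hQ : Q.natDegree ≤ 48 * n - 48) :
    HasSum (fun s : ℕ => Wt n s * aeval (xr n (tau n s)) Q) ((NL n u Q : ℚ) : ℝ) := by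
  have h4 := hB4 hn Q hQ
  have h6 := hB5 hn Q hQ
  have h := comb hn Q (fun t => aeval t (PPn n * EE n Q) / aeval t (QQ (sN n) (muN n)))
    (term_eq n Q) h4 h6
  convert h using 1
  rw [NL_apply]
  unfold xf
  push_cast
  rw [h5]
  simp only [mul_sub, Finset.sum_sub_distrib]
  have e1 : ∀ (f g : ℕ → ℕ → ℝ), ∑ i ∈ Finset.Icc 1 6, ∑ k ∈ sN n, f i k * (7 * g i k) =
      7 * ∑ i ∈ Finset.Icc 1 6, ∑ k ∈ sN n, f i k * g i k := by
    intro f g
    simp only [Finset.mul_sum]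
    refine Finset.sum_congr rfl fun i _ => Finset.sum_congr rfl fun k _ => ?_
    ring
  rw [e1 (fun i k => ((pa (sN n) (muN n) (PPn n * EE n Q) k i : ℚ) : ℝ))
    (fun i k => ((hs i (k - 1) : ℚ) : ℝ))]
  ring

end

end Pool.Agent.H336R2.Z5
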