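import Pool.Agent.H337R2.Med
import Pool.Agent.H337R2.Cx3

/-!
# Hankel determinants of linear forms in `1, ζ(5)`: definitions

`R(t) = ((18n)!)^2 ((16n)!)^2 ((14n)!)^2 (2t+24n) / (∏_{k=3n}^{21n} (t+k)^2 ∏_{k=4n}^{20n} (t+k)^2 ∏_{k=5n}^{19n} (t+k)^2)`,
`x(t) = t (t+24n)`, and the functional
`G(Q) = 7 ∑_{t ∈ ℤ, t ≥ 0} R(t) x^49 Q(x) - ∑_{t ∈ ℤ + 1/2, t > -4n} R(t) x^49 Q(x)`.
-/

open Polynomial Pool.Agent.H337R2

namespace Pool.Agent.H336R2.Z5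

noncomputable section

/-- six bricks -/
abbrev dz : List ℕ := [3, 3, 4, 4, 5, 5]

/-- index set of helper337's format: `[2n+1, 22n-1]` -/
abbrev sN (n : ℕ) : Finset ℕ := ss 24 2 n

/-- multiplicity of the poles: `2 * #{d ∈ {3,4,5} | d n ≤ k ≤ (24-d) n}` -/
abbrev muN (n : ℕ) : ℕ → ℕ := mu 24 n dz

/-- `((18n)!)^2 ((16n)!)^2 ((14n)!)^2` -/
abbrev cstN (n : ℕ) : ℚ := cst 0 24 2 n dz

/-- numerator of `R`: `cstN n * (2 t + 24 n)` -/
abbrev PPn (n : ℕ) : ℚ[X] := PP 0 24 2 n dz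

/-- the exponent `e_p(k) = v_p(cstN n) - (number of poles in the class of k mod p, with multiplicity)` -/
abbrev eeN (p n k : ℕ) : ℤ := ee p 0 24 2 n dz k

/-- `x(t) = t (t + 24 n)` -/
def xp (n : ℕ) : ℚ[X] := X * (X + C ((24 * n : ℕ) : ℚ))

/-- `x^49 Q(x)` as a polynomial in `t` -/
def EE (n : ℕ) (Q : ℚ[X]) : ℚ[X] := (X ^ 49 * Q).comp (xp n)

/-- half-integer harmonic sums: `∑_{0 ≤ l < M} (l+1/2)^{-e}` for `M ≥ 0`, and `-∑_{M ≤ l < 0} (l+1/2)^{-e}` for `M < 0`,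
so that `∑_{l ≥ M} (l+1/2)^{-e} = (2^e-1) ζ(e) - ho e M` -/
def ho (e : ℕ) (M : ℤ) : ℚ :=
  ∑ l ∈ Finset.Ico 0 M, 1 / ((l : ℚ) + 1 / 2) ^ e - ∑ l ∈ Finset.Ico M 0, 1 / ((l : ℚ) + 1 / 2) ^ e

/-- the linear form as a function of the numerator (`u = ζ(5)`) -/
def xf (n : ℕ) (u : ℚ) (P : ℚ[X]) : ℚ :=
  -24 * (∑ k ∈ sN n, pa (sN n) (muN n) P k 5) * u -
    ∑ i ∈ Finset.Icc 1 6, ∑ k ∈ sN n, pa (sN n) (muN n) P k i * (7 * hs i (k - 1) - ho i ((k : ℤ) - 4 * n))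

lemma pa_add (s : Finset ℕ) (μ : ℕ → ℕ) (P Q : ℚ[X]) (k i : ℕ) :
    pa s μ (P + Q) k i = pa s μ P k i + pa s μ Q k i := by
  unfold pa
  split_ifs
  · unfold pfc; rw [map_add, add_mul, map_add]
  · simp

lemma pa_C_mul (s : Finset ℕ) (μ : ℕ → ℕ) (c : ℚ) (P : ℚ[X]) (k i : ℕ) :
    pa s μ (C c * P) k i = c * pa s μ P k i := by
  unfold pa
  split_ifs
  · unfold pfc; rw [(TS (-(k : ℚ))).map_mul, TS_C, mul_assoc, PowerSeries.coeff_C_mul]
  · simp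

/-- `xf` as a linear map of the numerator -/
def xfL (n : ℕ) (u : ℚ) : ℚ[X] →ₗ[ℚ] ℚ where
  toFun := xf n u
  map_add' P Q := by
    unfold xf
    simp only [pa_add, add_mul, Finset.sum_add_distrib]
    ring
  map_smul' c P := by
    rw [Polynomial.smul_eq_C_mul]
    unfold xf
    simp only [pa_C_mul, RingHom.id_apply, smul_eq_mul, mul_assoc, ← Finset.mul_sum]
    ring

/-- the functional `G(Q)` -/
def NL (n : ℕ) (u : ℚ) : ℚ[X] →ₗ[ℚ] ℚ where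
  toFun Q := xfL n u (PPn n * EE n Q)
  map_add' P Q := by
    rw [← map_add]
    congr 1
    unfold EE
    rw [mul_add, Polynomial.add_comp, mul_add]
  map_smul' c P := by
    rw [RingHom.id_apply, ← map_smul]
    congr 1
    unfold EE
    rw [mul_smul_comm, Polynomial.smul_comp, mul_smul_comm]

lemma NL_apply (n : ℕ) (u : ℚ) (Q : ℚ[X]) : NL n u Q = xf n u (PPn n * EE n Q) := rfl

/-- Hankel determinant -/
def DET (n : ℕ) (u : ℚ) (m : ℕ) : ℚ :=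
  (Matrix.of fun i j : Fin m => NL n u (X ^ (i.1 + j.1))).det

/-- size of the determinant used in the proof -/
abbrev mN (n : ℕ) : ℕ := 23 * (n - 1)

/-- `q` is a denominator of `u` -/
def UInt (q : ℕ) (u : ℚ) : Prop := 0 < q ∧ ∃ z : ℤ, (q : ℚ) * u = z

/-! ### real side -/

/-- `R(t)` on the reals -/
def Rr (n : ℕ) (t : ℝ) : ℝ := aeval t (PPn n) / aeval t (QQ (sN n) (muN n))

/-- `x(t)` on the reals -/
def xr (n : ℕ) (t : ℝ) : ℝ := t * (t + ((24 * n : ℕ) : ℝ))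

/-- summation points `-4n + (s+1)/2`, `s = 0, 1, 2, …` (`s` even: half-integers, `s` odd: integers) -/
def tau (n s : ℕ) : ℝ := -(4 * (n : ℝ)) + ((s : ℝ) + 1) / 2

/-- signed weight of the `s`-th point: `-R x^49` at half-integers, `7 R x^49` at integers `t ≥ 0` -/
def Wt (n s : ℕ) : ℝ :=
  (if Even s then -1 else if 8 * n ≤ s + 1 then 7 else 0) * (Rr n (tau n s) * xr n (tau n s) ^ 49)

/-! ### residue classes -/

/-- representative of the class pair of `k` (for `k ≤ 24 n`) -/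
def kap (n p k : ℕ) : ℕ := min (k % p) ((24 * n - k) % p)

/-- the set of class pairs -/
def Kset (n p : ℕ) : Finset ℕ := (Finset.range p).filter fun r => r ≤ (24 * n - r) % p

/-- node polynomial `x - x(-r)` -/
def XN (n r : ℕ) : ℚ[X] := X + C ((r : ℚ) * (24 * n - r))

end

end Pool.Agent.H336R2.Z5
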