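import Pool.Agent.H336R2.Z5.Defs

/-!
# Local data at `n = p` (non-vanishing)
-/

open Polynomial Pool.Agent.H337R2

namespace Pool.Agent.H336R2.Z5

noncomputable section

/-- multiplicity of the local pole `j` (`3 ≤ j ≤ 20`): `muN p (r + j p) = om j` for `1 ≤ r < p` -/
def om (j : ℕ) : ℕ := 2 * (([3, 4, 5] : List ℕ).countP fun d => d ≤ j ∧ j + d ≤ 23)

/-- local power series at the pole `j` -/
def ser (j e : ℕ) : PowerSeries ℚ :=
  (∏ b ∈ (Finset.Icc 3 20).erase j, iv ((b : ℚ) - j) ^ om b) * (PowerSeries.X + PowerSeries.C (-(j : ℚ))) ^ e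

/-- local weight -/
def wt (j i : ℕ) : ℚ :=
  7 * hs i j - ho i ((j : ℤ) - 4) + (-1) ^ (i + 1) * (7 * hs i (23 - j) - ho i (20 - (j : ℤ)))

/-- local functional, values on monomials -/
def Fm (e : ℕ) : ℚ :=
  - ∑ j ∈ Finset.Icc 3 20, ∑ i ∈ Finset.Icc 1 (om j), PowerSeries.coeff (om j - i) (ser j e) * wt j i

/-- all nodes except `r`, to the power `c` -/
def Nod (p r c : ℕ) : ℚ[X] := ∏ r' ∈ (Finset.Icc 1 ((p - 1) / 2)).erase r, XN p r' ^ c

end

end Pool.Agent.H336R2.Z5
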