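import Pool.Agent.H336R2.Z5.P1Defs

/-!
# Definitions for the p-adic block (P) of the proof that `ζ(5)` is irrational
-/

open Polynomial Pool.Agent.H337R2

namespace Pool.Agent.H336R2.Z5

noncomputable section

/-- `T(y) = ⌊(y+1)²/4⌋` for `y > 0`, and `0` otherwise -/
def TT (y : ℤ) : ℤ := if 0 < y then (y + 1) ^ 2 / 4 else 0

/-- tents -/
def tn (a j p : ℕ) : ℝ := ((a - j * p : ℕ) : ℝ)

/-- the range of `j` -/
abbrev J : Finset ℕ := Finset.Icc 1 920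

/-- `v_p(cstN n)` for `p² > 48 n` -/
def vv (n p : ℕ) : ℕ := 2 * (18 * n / p + 16 * n / p + 14 * n / p)

/-- half of the number of poles (with multiplicity) in the class of `r` -/
def sr (n p r : ℕ) : ℕ :=
  cnt p (3 * n) (21 * n) r + cnt p (4 * n) (20 * n) r + cnt p (5 * n) (19 * n) r

/-- `round(2n/p)` -/
def rh (n p : ℕ) : ℕ := (4 * n + p) / (2 * p)

/-- exponent for `n/20 < p < 12 n` -/
def EA (n p : ℕ) : ℝ :=
  91 * n - 23 * n * (vv n p : ℝ) +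
    ∑ j ∈ J, (tn (18 * n) j p + 2 * tn (17 * n) j p + 3 * tn (16 * n) j p + 2 * tn (15 * n) j p
      + tn (14 * n) j p - 4 * tn n j p - 2 * tn (2 * n) j p)
    - 1 / 2 * ∑ j ∈ J.filter Odd, tn (4 * n) j p

/-- exponent for `12 n ≤ p < 34 n` -/
def EB (n p : ℕ) : ℝ :=
  tn (34 * n) 1 p + tn (32 * n) 1 p + tn (30 * n) 1 p + 2 * tn (20 * n) 1 p + 2 * tn (19 * n) 1 p
    + tn (18 * n) 1 p + 2 * tn (17 * n) 1 p + 4 * tn (16 * n) 1 p + 2 * tn (15 * n) 1 p + tn (14 * n) 1 p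
    - tn (40 * n) 3 p - 23 * n * (vv n p : ℝ)

/-- the exponent -/
def EW (n p : ℕ) : ℝ := if p < 12 * n then EA n p else EB n p

/-- primes between `lo n` and `hi n` -/
def PS (lo hi : ℝ) (n : ℕ) : Finset ℕ := by
  classical exact (Finset.range (49 * n)).filter (fun p : ℕ => p.Prime ∧ lo * n < p ∧ (p : ℝ) < hi * n)

/-- limit of the tent sums: `∫_{lo}^{hi} (α - j y)_+ dy` -/
def It (α j : ℕ) (lo hi : ℚ) : ℚ :=
  let c := max lo (min hi ((α : ℚ) / j))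
  α * (c - lo) - j * (c ^ 2 - lo ^ 2) / 2

/-- limit of the floor sums -/
def Ifl (α : ℕ) (lo hi : ℚ) : ℚ := ∑ j ∈ J, (max lo (min hi ((α : ℚ) / j)) - lo)

/-- the three limits -/
def LA : ℚ := 91 * (12 - 1 / 20) - 46 * (Ifl 18 (1 / 20) 12 + Ifl 16 (1 / 20) 12 + Ifl 14 (1 / 20) 12) +
  ∑ j ∈ J, (It 18 j (1 / 20) 12 + 2 * It 17 j (1 / 20) 12 + 3 * It 16 j (1 / 20) 12 + 2 * It 15 j (1 / 20) 12
    + It 14 j (1 / 20) 12 - 4 * It 1 j (1 / 20) 12 - 2 * It 2 j (1 / 20) 12)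
  - 1 / 2 * ∑ j ∈ J.filter Odd, It 4 j (1 / 20) 12

def LB : ℚ := It 34 1 12 34 + It 32 1 12 34 + It 30 1 12 34 + 2 * It 20 1 12 34 + 2 * It 19 1 12 34
    + It 18 1 12 34 + 2 * It 17 1 12 34 + 4 * It 16 1 12 34 + 2 * It 15 1 12 34 + It 14 1 12 34
    - It 40 3 12 34 - 46 * (Ifl 18 12 34 + Ifl 16 12 34 + Ifl 14 12 34)

def LU : ℚ := ∑ j ∈ J, It 46 j (1 / 20) 46

end

end Pool.Agent.H336R2.Z5
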