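import Pool.Agent.H336R2.Z5.DefsSw

/-! `Sw` and `gw` are defined in `Pool.Agent.H336R2.Z5.DefsSw` (helper899). -/
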