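import Pool.Agent.H336R2.Z5.DefsP

/-!
# Definitions `Sw`, `gw` for the range `12 n ≤ p < 34 n` (copied from StubsP)
-/

open Polynomial Pool.Agent.H337R2

namespace Pool.Agent.H336R2.Z5

noncomputable section

/-- multiplicity at distance `w` from the centre -/
def Sw (n w : ℕ) : ℤ := 2 * ((if w ≤ 9 * n then 1 else 0) + (if w ≤ 8 * n then 1 else 0) + (if w ≤ 7 * n then 1 else 0))

/-- capacity at distance `w` from the centre (`p ≥ 12 n`) -/
def gw (n p w : ℕ) : ℕ := (if p < 16 * n + 2 * w then 1 else 0) + (if 2 * w + p < 16 * n then 1 else 0) +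
  (if p < 12 * n + w then 1 else 0)

end

end Pool.Agent.H336R2.Z5
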