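import Pool.Agent.H336R2.Z5.Defs2

/-!
# H1: `p`-adic size of the half-integer harmonic sums
-/

open Polynomial Pool.Agent.H337R2

namespace Pool.Agent.H336R2.Z5

lemma H1_ho_zero (e : ℕ) : ho e 0 = 0 := by
  unfold ho
  simp

lemma H1_ho_succ (e : ℕ) (M : ℤ) : ho e (M + 1) = ho e M + 1 / ((M : ℚ) + 1 / 2) ^ e := by
  unfold ho
  rcases le_or_gt 0 M with h | h
  · have e1 : Finset.Ico 0 (M + 1) = insert M (Finset.Ico 0 M) := by
      ext x
      simp only [Finset.mem_insert, Finset.mem_Ico]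
      omega
    have e2 : Finset.Ico (M + 1) 0 = ∅ := Finset.Ico_eq_empty (by omega)
    have e3 : Finset.Ico M 0 = ∅ := Finset.Ico_eq_empty (by omega)
    rw [e1, e2, e3, Finset.sum_insert (by simp)]
    simp only [Finset.sum_empty, sub_zero]
    ring
  · have e1 : Finset.Ico M 0 = insert M (Finset.Ico (M + 1) 0) := by
      ext x
      simp only [Finset.mem_insert, Finset.mem_Ico]
      omega
    have e2 : Finset.Ico 0 (M + 1) = ∅ := Finset.Ico_eq_empty (by omega)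
    have e3 : Finset.Ico 0 M = ∅ := Finset.Ico_eq_empty (by omega)
    rw [e1, e2, e3, Finset.sum_insert (by simp)]
    simp only [Finset.sum_empty, zero_sub]
    ring

lemma H1_ho_add (e : ℕ) (M : ℤ) (n : ℕ) :
    ho e (M + n) = ho e M + ∑ s ∈ Finset.range n, 1 / ((M : ℚ) + s + 1 / 2) ^ e := by
  induction n with
  | zero => simp
  | succ n ih =>
    rw [Finset.sum_range_succ, ← add_assoc, ← ih]
    have h := H1_ho_succ e (M + n)
    push_cast at h ⊢
    rw [← add_assoc, h]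

/-- a term that is a `p`-adic unit times `p ^ e` -/
lemma H1_ho_term {p : ℕ} [hpf : Fact p.Prime] (hp2 : p ≠ 2) (e : ℕ) (he : 1 ≤ e) (l : ℤ)
    (hl : ¬ (p : ℤ) ∣ 2 * l + 1) :
    padicNorm p ((p : ℚ) ^ e * (1 / ((l : ℚ) + 1 / 2) ^ e)) ≤ (p : ℚ)⁻¹ := by
  have hp := hpf.out
  have hne : ((2 * l + 1 : ℤ) : ℚ) ≠ 0 := by
    intro h
    rw [Int.cast_eq_zero] at h
    exact hl (h ▸ dvd_zero _)
  have h1 : (p : ℚ) ^ e * (1 / ((l : ℚ) + 1 / 2) ^ e) =
      ((p : ℚ) * (((2 : ℕ) : ℚ) / ((2 * l + 1 : ℤ) : ℚ))) ^ e := by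
    have h2 : (l : ℚ) + 1 / 2 = ((2 * l + 1 : ℤ) : ℚ) / 2 := by
      push_cast; ring
    rw [h2, mul_pow, div_pow, div_pow, one_div_div]
    push_cast
    rfl
  have h2n : padicNorm p ((2 : ℕ) : ℚ) = 1 := by
    rw [padicNorm.nat_eq_one_iff]
    intro h
    exact hp2 ((Nat.prime_dvd_prime_iff_eq hp Nat.prime_two).1 h)
  have h3n : padicNorm p ((2 * l + 1 : ℤ) : ℚ) = 1 := by
    rw [padicNorm.int_eq_one_iff]
    exact hl
  have hpn : padicNorm p (p : ℚ) = (p : ℚ)⁻¹ := padicNorm.padicNorm_p_of_prime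
  have key : padicNorm p ((p : ℚ) ^ e * (1 / ((l : ℚ) + 1 / 2) ^ e)) = ((p : ℚ)⁻¹) ^ e := by
    rw [h1]
    have h4 : ∀ (x : ℚ) (k : ℕ), padicNorm p (x ^ k) = padicNorm p x ^ k := by
      intro x k
      induction k with
      | zero => simp
      | succ k ih => rw [pow_succ, pow_succ, padicNorm.mul, ih]
    rw [h4, padicNorm.mul, padicNorm.div, h2n, h3n, hpn]
    norm_num
  rw [key]
  have hp1 : (p : ℚ)⁻¹ ≤ 1 := by
    apply inv_le_one_of_one_le₀
    exact_mod_cast hp.one_lt.le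
  calc ((p : ℚ)⁻¹) ^ e ≤ ((p : ℚ)⁻¹) ^ 1 :=
        pow_le_pow_of_le_one (by positivity) hp1 he
    _ = (p : ℚ)⁻¹ := pow_one _

/-- the case `r = 0`, one step -/
lemma H1_ho_step {p : ℕ} [hpf : Fact p.Prime] (hp2 : p ≠ 2) (e : ℕ) (he : 1 ≤ e) (a : ℤ) :
    padicNorm p (((p : ℚ) ^ e * ho e ((a + 1) * p) - ho e (a + 1)) -
      ((p : ℚ) ^ e * ho e (a * p) - ho e a)) ≤ (p : ℚ)⁻¹ := by
  have hp := hpf.out
  have hp0 : (p : ℚ) ≠ 0 := by exact_mod_cast hp.ne_zero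
  have hodd : p % 2 = 1 := by
    rcases hp.eq_two_or_odd with h | h
    · exact absurd h hp2
    · exact h
  have h1 : ho e ((a + 1) * p) = ho e (a * p) +
      ∑ s ∈ Finset.range p, 1 / (((a * p : ℤ) : ℚ) + s + 1 / 2) ^ e := by
    rw [← H1_ho_add]
    congr 1
    ring
  have hmem : (p - 1) / 2 ∈ Finset.range p := by
    rw [Finset.mem_range]
    omega
  rw [h1, H1_ho_succ, ← Finset.add_sum_erase _ _ hmem]
  have h2 : (((a * p : ℤ) : ℚ) + (((p - 1) / 2 : ℕ) : ℚ) + 1 / 2) = (p : ℚ) * ((a : ℚ) + 1 / 2) := by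
    have h3 : 2 * ((p - 1) / 2) + 1 = p := by omega
    have h4 : (2 : ℚ) * (((p - 1) / 2 : ℕ) : ℚ) + 1 = p := by exact_mod_cast h3
    push_cast
    linarith
  rw [h2]
  have h5 : (p : ℚ) ^ e * (ho e (a * p) + (1 / ((p : ℚ) * ((a : ℚ) + 1 / 2)) ^ e +
      ∑ x ∈ (Finset.range p).erase ((p - 1) / 2), 1 / (((a * p : ℤ) : ℚ) + x + 1 / 2) ^ e)) -
      (ho e a + 1 / ((a : ℚ) + 1 / 2) ^ e) - ((p : ℚ) ^ e * ho e (a * p) - ho e a) =
      ∑ x ∈ (Finset.range p).erase ((p - 1) / 2),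
        (p : ℚ) ^ e * (1 / ((((a * p + x : ℤ)) : ℚ) + 1 / 2) ^ e) := by
    rw [← Finset.mul_sum]
    have h6 : (p : ℚ) ^ e * (1 / ((p : ℚ) * ((a : ℚ) + 1 / 2)) ^ e) =
        1 / ((a : ℚ) + 1 / 2) ^ e := by
      have h7 : (p : ℚ) ^ e ≠ 0 := pow_ne_zero _ hp0
      have h8 : (1 : ℚ) / ((p : ℚ) * ((a : ℚ) + 1 / 2)) ^ e =
          ((p : ℚ) ^ e)⁻¹ * (1 / ((a : ℚ) + 1 / 2) ^ e) := by
        rw [mul_pow, ← one_div, div_mul_div_comm, one_mul]
      rw [h8, ← mul_assoc, mul_inv_cancel₀ h7, one_mul]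
    push_cast
    linear_combination h6
  rw [h5]
  refine padicNorm.sum_le' (fun x hx => ?_) (by positivity)
  apply H1_ho_term hp2 e he
  rw [Finset.mem_erase, Finset.mem_range] at hx
  obtain ⟨hx1, hx2⟩ := hx
  intro hd
  have h8 : (p : ℤ) ∣ 2 * (x : ℤ) + 1 := by
    have h9 : 2 * (x : ℤ) + 1 = (2 * (a * p + x) + 1) - p * (2 * a) := by ring
    rw [h9]
    exact dvd_sub hd (dvd_mul_right _ _)
  obtain ⟨c, hc⟩ := h8
  have hc1 : 0 < c := by
    by_contra h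
    push Not at h
    have : (p : ℤ) * c ≤ 0 := mul_nonpos_of_nonneg_of_nonpos (by positivity) h
    omega
  have hc2 : c < 2 := by
    by_contra h
    push Not at h
    have h10 : (p : ℤ) * 2 ≤ p * c := mul_le_mul_of_nonneg_left h (by positivity)
    have h11 : (x : ℤ) < p := by exact_mod_cast hx2
    omega
  have hc3 : c = 1 := by omega
  rw [hc3, mul_one] at hc
  apply hx1
  omega

lemma H1_ho_r0 {p : ℕ} [hpf : Fact p.Prime] (hp2 : p ≠ 2) (e : ℕ) (he : 1 ≤ e) (a : ℤ) :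
    padicNorm p ((p : ℚ) ^ e * ho e (a * p) - ho e a) ≤ (p : ℚ)⁻¹ := by
  induction a using Int.induction_on with
  | zero =>
    rw [zero_mul, H1_ho_zero, mul_zero, sub_zero, padicNorm.zero]
    positivity
  | succ i ih =>
    have h := H1_ho_step hp2 e he (i : ℤ)
    have e1 : (p : ℚ) ^ e * ho e (((i : ℤ) + 1) * p) - ho e ((i : ℤ) + 1) =
        (((p : ℚ) ^ e * ho e (((i : ℤ) + 1) * p) - ho e ((i : ℤ) + 1)) -
          ((p : ℚ) ^ e * ho e ((i : ℤ) * p) - ho e (i : ℤ))) +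
          ((p : ℚ) ^ e * ho e ((i : ℤ) * p) - ho e (i : ℤ)) := by ring
    rw [e1]
    exact (padicNorm.nonarchimedean).trans (max_le h ih)
  | pred i ih =>
    have h := H1_ho_step hp2 e he (-(i : ℤ) - 1)
    rw [sub_add_cancel] at h
    have e1 : (p : ℚ) ^ e * ho e ((-(i : ℤ) - 1) * p) - ho e (-(i : ℤ) - 1) =
        ((p : ℚ) ^ e * ho e (-(i : ℤ) * p) - ho e (-(i : ℤ))) -
        (((p : ℚ) ^ e * ho e (-(i : ℤ) * p) - ho e (-(i : ℤ))) -
          ((p : ℚ) ^ e * ho e ((-(i : ℤ) - 1) * p) - ho e (-(i : ℤ) - 1))) := by ring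
    rw [e1]
    exact (padicNorm.sub).trans (max_le ih h)

/-- `p`-adic size of the half-integer harmonic sums -/
theorem H1_ho {p : ℕ} [Fact p.Prime] (a r : ℤ) (e : ℕ) (hp : 41 < p) (_ha : |a| ≤ 20)
    (hr : 2 * |r| < p) (he : 1 ≤ e) :
    padicNorm p ((p : ℚ) ^ e * ho e (a * p + r) - ho e a) ≤ (p : ℚ)⁻¹ := by
  have hp2 : p ≠ 2 := by omega
  have h0 := H1_ho_r0 hp2 e he a
  have hndvd : ∀ s : ℤ, -(p : ℤ) < 2 * s + 1 → 2 * s + 1 < p → ¬ (p : ℤ) ∣ 2 * (a * p + s) + 1 := by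
    intro s h1 h2 hd
    have h3 : (p : ℤ) ∣ 2 * s + 1 := by
      have h4 : 2 * s + 1 = (2 * (a * p + s) + 1) - p * (2 * a) := by ring
      rw [h4]
      exact dvd_sub hd (dvd_mul_right _ _)
    have h5 : 2 * s + 1 = 0 := by
      apply Int.eq_zero_of_abs_lt_dvd h3
      rw [abs_lt]
      exact ⟨h1, h2⟩
    omega
  have hpos : ∀ n : ℕ, 2 * n < p →
      padicNorm p ((p : ℚ) ^ e * ho e (a * p + n) - ho e a) ≤ (p : ℚ)⁻¹ := by
    intro n
    induction n with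
    | zero =>
      intro _
      simpa using h0
    | succ n ih =>
      intro hn
      have h1 := ih (by omega)
      have h2 := H1_ho_term hp2 e he (a * p + n) (hndvd n (by omega) (by omega))
      have e1 : (p : ℚ) ^ e * ho e (a * p + ((n + 1 : ℕ) : ℤ)) - ho e a =
          ((p : ℚ) ^ e * ho e (a * p + n) - ho e a) +
            (p : ℚ) ^ e * (1 / (((a * p + n : ℤ) : ℚ) + 1 / 2) ^ e) := by
        push_cast
        rw [← add_assoc, H1_ho_succ]
        push_cast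
        ring
      rw [e1]
      exact (padicNorm.nonarchimedean).trans (max_le h1 h2)
  have hneg : ∀ n : ℕ, 2 * n < p →
      padicNorm p ((p : ℚ) ^ e * ho e (a * p - n) - ho e a) ≤ (p : ℚ)⁻¹ := by
    intro n
    induction n with
    | zero =>
      intro _
      simpa using h0
    | succ n ih =>
      intro hn
      have h1 := ih (by omega)
      have h2 := H1_ho_term hp2 e he (a * p + (-(n : ℤ) - 1))
        (hndvd (-(n : ℤ) - 1) (by omega) (by omega))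
      have h3 := H1_ho_succ e (a * p + (-(n : ℤ) - 1))
      have h4 : a * (p : ℤ) + (-(n : ℤ) - 1) + 1 = a * p - n := by ring
      rw [h4] at h3
      have h5 : a * (p : ℤ) - ((n + 1 : ℕ) : ℤ) = a * p + (-(n : ℤ) - 1) := by
        push_cast; ring
      have e1 : (p : ℚ) ^ e * ho e (a * p - ((n + 1 : ℕ) : ℤ)) - ho e a =
          ((p : ℚ) ^ e * ho e (a * p - n) - ho e a) -
            (p : ℚ) ^ e * (1 / (((a * p + (-(n : ℤ) - 1) : ℤ) : ℚ) + 1 / 2) ^ e) := by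
        rw [h5, h3]
        ring
      rw [e1]
      exact (padicNorm.sub).trans (max_le h1 h2)
  rcases le_or_gt 0 r with h | h
  · obtain ⟨n, rfl⟩ := Int.eq_ofNat_of_zero_le h
    apply hpos
    rw [abs_of_nonneg h] at hr
    exact_mod_cast hr
  · obtain ⟨n, hn⟩ := Int.eq_ofNat_of_zero_le (show 0 ≤ -r by omega)
    have hrn : r = -(n : ℤ) := by omega
    rw [hrn, ← sub_eq_add_neg]
    apply hneg
    rw [hrn, abs_neg, Nat.abs_cast] at hr
    exact_mod_cast hr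

end Pool.Agent.H336R2.Z5
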