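import Pool.Agent.H336R2.Z5.H3pre
import Pool.Agent.H336R2.Z5.H1
import Pool.Agent.H336R2.Z5.H2

/-!
# H3: the diagonal entries modulo p
-/

open Polynomial Pool.Agent.H337R2

namespace Pool.Agent.H336R2.Z5

open H3

theorem H3_diag {p : ℕ} [Fact p.Prime] (hp : 60 ≤ p) (u : ℚ) (hu : padicNorm p u ≤ 1)
    (r : ℕ) (hr1 : 1 ≤ r) (hr2 : 2 * r < p) :
    ∃ w : ℚ, padicNorm p w = 1 ∧ ∀ e : ℕ, e ≤ 90 →
      padicNorm p ((p : ℚ) ^ (-(e : ℤ)) * NL p u (XN p r ^ e * Nod p r 92) - w * (-2 * r) ^ e * Fm e) ≤ (p : ℚ)⁻¹ :=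
  H3_of (fun a r e he ha hr => H1_ho a r e (by omega) ha hr he) hp u hu r hr1 hr2 (H2_pa hp r hr1 hr2)

end Pool.Agent.H336R2.Z5
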