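import Pool.Agent.H336R2.Z5.Defs2
import Pool.Agent.H336R2.HD.H1

/-! Task H3 (helper398): the diagonal blocks; `H1_ho` and `H2_pa` enter as hypotheses. -/

open Polynomial Pool.Agent.H337R2

namespace Pool.Agent.H336R2.Z5.H3

noncomputable section

variable {p : ℕ} [hp : Fact p.Prime]

/-! ### p-adic size of the coefficients -/

theorem C1_pa_mul {n : ℕ} (hn : 1 ≤ n) (hp2 : 24 * n < p ^ 2) (E : ℚ[X]) {k : ℕ}
    (hk : k ∈ sN n) (A : ℚ) (hA : 0 ≤ A) (hE : PB p (p : ℚ) A (TS (-(k : ℚ)) E)) (i : ℕ) :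
    padicNorm p (pa (sN n) (muN n) (PPn n * E) k i) ≤ (p : ℚ) ^ (-(eeN p n k) - i : ℤ) * A := by
  have hp0 : (0 : ℚ) ≤ p := p_pos'.le
  have hpne : (p : ℚ) ≠ 0 := p_pos'.ne'
  have hinv : (0 : ℚ) ≤ (p : ℚ)⁻¹ := inv_nonneg.2 hp0
  have hcst : 0 ≤ padicNorm p (cstN n) := padicNorm.nonneg _
  have hc : ∀ d ∈ dz, 2 < d := by decide
  have h2 : ∀ d ∈ dz, 2 * d < 24 := by decide
  have key : padicNorm p (pa (sN n) (muN n) (PPn n * E) k i) ≤
      (padicNorm p (cstN n) * ((p : ℚ)⁻¹) ^ (0 * n1 p 24 2 n k + i) * (p : ℚ) ^ (nq p 24 n dz k)) * A := by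
    unfold pa
    split_ifs with hi
    · have hPP := PB_PP (p := p) 0 24 2 n dz (by norm_num) (by omega) k
      have hPE := PB.mul hp0 (by positivity) hA hPP hE
      rw [← map_mul] at hPE
      have h1 := pfc_bound (p := p) (sN n) (muN n) (PPn n * E) k (p : ℚ) _
        (fun m => if (p : ℤ) ∣ (m : ℤ) - k then (p : ℚ) else 1) hp0 (by positivity)
        hPE
        (by
          intro m hm _
          rw [mem_ss_ne (Finset.mem_of_mem_erase hm) hk (Finset.ne_of_mem_erase hm) hp2]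
          split_ifs
          · simp
          · simp [(Fact.out : p.Prime).one_lt.le])
        (by
          intro m _
          split_ifs
          · exact hp0
          · exact zero_le_one) (muN n k - i)
      refine h1.trans (le_of_eq ?_)
      rw [prod_ite_pow, nq_split 24 2 n k dz hn hc h2 hk]
      have h3 : ((p : ℚ)⁻¹) ^ i * (p : ℚ) ^ i = 1 := by
        rw [← mul_pow, inv_mul_cancel₀ hpne, one_pow]
      have h4 : (p : ℚ) ^ (mu 24 n dz k) = (p : ℚ) ^ (mu 24 n dz k - i) * (p : ℚ) ^ i := by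
        rw [← pow_add, Nat.sub_add_cancel hi]
      rw [pow_add, pow_add, h4]
      linear_combination (padicNorm p (cst 0 24 2 n dz) * ((p : ℚ)⁻¹) ^ (0 * n1 p 24 2 n k) *
        (p : ℚ) ^ (∑ m ∈ (ss 24 2 n).erase k, mu 24 n dz m * (if (p : ℤ) ∣ (m : ℤ) - k then 1 else 0)) *
        (p : ℚ) ^ (mu 24 n dz k - i)) * A * (-1) * h3
    · rw [padicNorm.zero]
      positivity
  refine key.trans (le_of_eq ?_)
  rw [norm_cst 0 24 2 n dz hp2 h2 (by norm_num)]
  congr 1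
  rw [inv_pow, ← zpow_natCast, ← zpow_natCast, ← zpow_neg, ← zpow_add₀ hpne, ← zpow_add₀ hpne]
  congr 1
  unfold eeN ee
  push_cast; ring

/-! ### the exponent `ee` -/

theorem cnt_d (d : ℕ) (hd : 2 * d < 24) (k : ℕ) (hk : ¬ (p : ℤ) ∣ (k : ℤ)) :
    cnt p (d * p) (24 * p - d * p) k = 24 - 2 * d := by
  have hp0 : 0 < p := hp.out.pos
  have hpz : (p : ℤ) ≠ 0 := by exact_mod_cast hp0.ne'
  have hpz' : (0 : ℤ) < p := by exact_mod_cast hp0
  have e2 : (cnt p (d * p) (24 * p - d * p) k : ℤ) = ((24 - 2 * d : ℕ) : ℤ) := by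
    rw [cnt_brick p 24 d p k hp0 hd, Nat.cast_sub hd.le]
    push_cast
    rw [show (24 : ℤ) * p - d * p - k = -(k : ℤ) + (24 - d) * p by ring,
      show (d : ℤ) * p - 1 - k = (-1 - k) + d * p by ring,
      Int.add_mul_ediv_right _ _ hpz, Int.add_mul_ediv_right _ _ hpz]
    have h1 := succ_ediv' (p : ℤ) hpz' (-1 - (k : ℤ))
    rw [show (-1 - (k : ℤ) + 1) = -(k : ℤ) by ring, if_neg (by rwa [dvd_neg])] at h1
    rw [h1]
    ring
  exact_mod_cast e2

theorem ee_zero (k : ℕ) (hk : ¬ (p : ℤ) ∣ (k : ℤ)) : eeN p p k = 0 := by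
  have hp0 : 0 < p := hp.out.pos
  have e3 := cnt_d (p := p) 3 (by norm_num) k hk
  have e4 := cnt_d (p := p) 4 (by norm_num) k hk
  have e5 := cnt_d (p := p) 5 (by norm_num) k hk
  have e6 : nq p 24 p dz k = 96 := by
    unfold nq
    simp only [List.map_cons, List.map_nil, List.sum_cons, List.sum_nil, e3, e4, e5]
    norm_num
  have f3 : (24 - 2 * 3) * p / p = 24 - 2 * 3 := Nat.mul_div_cancel _ hp0
  have f4 : (24 - 2 * 4) * p / p = 24 - 2 * 4 := Nat.mul_div_cancel _ hp0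
  have f5 : (24 - 2 * 5) * p / p = 24 - 2 * 5 := Nat.mul_div_cancel _ hp0
  unfold eeN ee
  rw [e6]
  simp only [List.map_cons, List.map_nil, List.sum_cons, List.sum_nil, f3, f4, f5]
  norm_num

theorem ee_ge6 (k : ℕ) : -6 ≤ eeN p p k := by
  have := ee_ge p 0 24 2 p k dz hp.out.pos (by norm_num) (by have := hp.out.pos; omega)
    (by simp)
  simpa using this

/-! ### the numerator -/

omit hp in
theorem XN_comp (n r : ℕ) : (XN n r).comp (xp n) = (X + C (r : ℚ)) * (X + C (24 * (n : ℚ) - r)) := by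
  unfold XN xp
  rw [Polynomial.add_comp, Polynomial.X_comp, Polynomial.C_comp, Nat.cast_mul, map_mul C (r : ℚ),
    map_sub, Nat.cast_ofNat]
  ring

omit hp in
theorem xp_eq (n : ℕ) : xp n = (X + C (0 : ℚ)) * (X + C (24 * (n : ℚ))) := by
  unfold xp
  push_cast
  simp

/-- the polynomial -/
def Qr (p r e : ℕ) : ℚ[X] := XN p r ^ e * Nod p r 92

omit hp in
theorem EE_Qr (r e : ℕ) : EE p (Qr p r e) = xp p ^ 49 * ((XN p r).comp (xp p) ^ e *
    ∏ r' ∈ (Finset.Icc 1 ((p - 1) / 2)).erase r, (XN p r').comp (xp p) ^ 92) := by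
  unfold EE Qr Nod
  simp only [Polynomial.mul_comp, Polynomial.pow_comp, Polynomial.prod_comp, Polynomial.X_comp]

theorem inv0 : (0 : ℚ) ≤ (p : ℚ)⁻¹ := inv_nonneg.2 p_pos'.le

theorem PB_lin1 (a : ℤ) (k : ℕ) : PB p (p : ℚ) 1 (TS (-(k : ℚ)) (X + C (a : ℚ))) := by
  rw [TS_lin]
  apply PB.linX p_pos'.le zero_le_one
  · have := padicNorm.of_int (p := p) (-(k : ℤ) + a)
    push_cast at this
    exact this
  · rw [one_mul]; exact p_one'

theorem PB_linp (a : ℤ) (k : ℕ) (h : (p : ℤ) ∣ a - k) :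
    PB p (p : ℚ) (p : ℚ)⁻¹ (TS (-(k : ℚ)) (X + C (a : ℚ))) := by
  rw [TS_lin]
  apply PB.linX p_pos'.le inv0
  · have := norm_le_ite (p := p) (a - k)
    rw [if_pos h] at this
    rw [show -(k : ℚ) + a = ((a - k : ℤ) : ℚ) by push_cast; ring]
    exact this
  · rw [inv_mul_cancel₀ p_pos'.ne']

theorem PB_XN (r k : ℕ) : PB p (p : ℚ) 1 (TS (-(k : ℚ)) ((XN p r).comp (xp p))) := by
  rw [XN_comp, map_mul]
  have h1 := PB_lin1 (p := p) (r : ℤ) k
  have h2 := PB_lin1 (p := p) (24 * (p : ℤ) - r) k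
  push_cast at h1 h2
  have h3 := PB.mul p_pos'.le zero_le_one zero_le_one h1 h2
  rwa [one_mul] at h3

theorem PB_XNp (r k : ℕ) (h : (p : ℤ) ∣ (k : ℤ) - r ∨ (p : ℤ) ∣ (k : ℤ) + r) :
    PB p (p : ℚ) (p : ℚ)⁻¹ (TS (-(k : ℚ)) ((XN p r).comp (xp p))) := by
  rw [XN_comp, map_mul]
  rcases h with h | h
  · have h1 := PB_linp (p := p) (r : ℤ) k (by
      rw [show (r : ℤ) - k = -((k : ℤ) - r) by ring, dvd_neg]; exact h)
    have h2 := PB_lin1 (p := p) (24 * (p : ℤ) - r) k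
    push_cast at h1 h2
    have h3 := PB.mul p_pos'.le inv0 zero_le_one h1 h2
    rwa [mul_one] at h3
  · have h1 := PB_lin1 (p := p) (r : ℤ) k
    have h2 := PB_linp (p := p) (24 * (p : ℤ) - r) k (by
      rw [show 24 * (p : ℤ) - r - k = (p : ℤ) * 24 - ((k : ℤ) + r) by ring]
      exact dvd_sub (dvd_mul_right _ _) h)
    push_cast at h1 h2
    have h3 := PB.mul p_pos'.le zero_le_one inv0 h1 h2
    rwa [one_mul] at h3

theorem PB_xp (k : ℕ) : PB p (p : ℚ) 1 (TS (-(k : ℚ)) (xp p)) := by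
  rw [xp_eq, map_mul]
  have h1 := PB_lin1 (p := p) 0 k
  have h2 := PB_lin1 (p := p) (24 * (p : ℤ)) k
  push_cast at h1 h2
  have h3 := PB.mul p_pos'.le zero_le_one zero_le_one h1 h2
  rwa [one_mul] at h3

theorem PB_xpp (k : ℕ) (h : (p : ℤ) ∣ (k : ℤ)) :
    PB p (p : ℚ) ((p : ℚ)⁻¹ * (p : ℚ)⁻¹) (TS (-(k : ℚ)) (xp p)) := by
  rw [xp_eq, map_mul]
  have h1 := PB_linp (p := p) 0 k (by rw [zero_sub, dvd_neg]; exact h)
  have h2 := PB_linp (p := p) (24 * (p : ℤ)) k (dvd_sub (dvd_mul_left _ _) h)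
  push_cast at h1 h2
  exact PB.mul p_pos'.le inv0 inv0 h1 h2

/-- all factors of `EE` with individual bounds -/
theorem PB_EE (r e k : ℕ) (a0 ar : ℚ) (a : ℕ → ℚ) (h0 : 0 ≤ a0) (hr : 0 ≤ ar) (ha : ∀ r', 0 ≤ a r')
    (b0 : PB p (p : ℚ) a0 (TS (-(k : ℚ)) (xp p)))
    (br : PB p (p : ℚ) ar (TS (-(k : ℚ)) ((XN p r).comp (xp p))))
    (b : ∀ r' ∈ (Finset.Icc 1 ((p - 1) / 2)).erase r,
      PB p (p : ℚ) (a r') (TS (-(k : ℚ)) ((XN p r').comp (xp p)))) :
    PB p (p : ℚ) (a0 ^ 49 * (ar ^ e * ∏ r' ∈ (Finset.Icc 1 ((p - 1) / 2)).erase r, a r' ^ 92))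
      (TS (-(k : ℚ)) (EE p (Qr p r e))) := by
  rw [EE_Qr, map_mul, map_mul, map_pow, map_pow, map_prod]
  simp only [map_pow]
  have h1 := PB.prod (p := p) ((Finset.Icc 1 ((p - 1) / 2)).erase r) (fun r' => a r' ^ 92)
    (fun r' => (TS (-(k : ℚ)) ((XN p r').comp (xp p))) ^ 92) p_pos'.le
    (fun r' _ => pow_nonneg (ha r') _) (fun r' hr' => PB.pow p_pos'.le (ha r') (b r' hr') 92)
  exact PB.mul p_pos'.le (pow_nonneg h0 _) (mul_nonneg (pow_nonneg hr _)
    (Finset.prod_nonneg fun r' _ => pow_nonneg (ha r') _)) (PB.pow p_pos'.le h0 b0 49)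
    (PB.mul p_pos'.le (pow_nonneg hr _) (Finset.prod_nonneg fun r' _ => pow_nonneg (ha r') _)
      (PB.pow p_pos'.le hr br e) h1)

theorem PB_near (r e k : ℕ) (h : (p : ℤ) ∣ (k : ℤ) - r ∨ (p : ℤ) ∣ (k : ℤ) + r) :
    PB p (p : ℚ) ((p : ℚ)⁻¹ ^ e) (TS (-(k : ℚ)) (EE p (Qr p r e))) := by
  have := PB_EE (p := p) r e k 1 (p : ℚ)⁻¹ (fun _ => 1) zero_le_one inv0 (fun _ => zero_le_one)
    (PB_xp k) (PB_XNp r k h) (fun r' _ => PB_XN r' k)
  simpa using this

theorem PB_zero (r e k : ℕ) (h : (p : ℤ) ∣ (k : ℤ)) :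
    PB p (p : ℚ) ((p : ℚ)⁻¹ ^ 98) (TS (-(k : ℚ)) (EE p (Qr p r e))) := by
  have := PB_EE (p := p) r e k ((p : ℚ)⁻¹ * (p : ℚ)⁻¹) 1 (fun _ => 1) (mul_nonneg inv0 inv0)
    zero_le_one (fun _ => zero_le_one) (PB_xpp k h) (PB_XN r k) (fun r' _ => PB_XN r' k)
  rw [show ((p : ℚ)⁻¹ ^ 98) = ((p : ℚ)⁻¹ * (p : ℚ)⁻¹) ^ 49 * (1 ^ e *
    ∏ r' ∈ (Finset.Icc 1 ((p - 1) / 2)).erase r, (1 : ℚ) ^ 92) by
      simp only [one_pow, Finset.prod_const_one, mul_one]
      rw [← pow_two, ← pow_mul]]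
  exact this

theorem PB_far (r e k r'' : ℕ) (hr'' : r'' ∈ Finset.Icc 1 ((p - 1) / 2)) (hne : r'' ≠ r)
    (h : (p : ℤ) ∣ (k : ℤ) - r'' ∨ (p : ℤ) ∣ (k : ℤ) + r'') :
    PB p (p : ℚ) ((p : ℚ)⁻¹ ^ 92) (TS (-(k : ℚ)) (EE p (Qr p r e))) := by
  classical
  have := PB_EE (p := p) r e k 1 1 (fun r' => if r' = r'' then (p : ℚ)⁻¹ else 1) zero_le_one
    zero_le_one (fun r' => by split_ifs; exacts [inv0, zero_le_one]) (PB_xp k) (PB_XN r k)
    (fun r' _ => by
      split_ifs with h'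
      · rw [h']; exact PB_XNp r'' k h
      · exact PB_XN r' k)
  have h2 : ∏ r' ∈ (Finset.Icc 1 ((p - 1) / 2)).erase r, (if r' = r'' then (p : ℚ)⁻¹ else 1) ^ 92 =
      (p : ℚ)⁻¹ ^ 92 := by
    rw [Finset.prod_eq_single r'']
    · rw [if_pos rfl]
    · intro b _ hb
      rw [if_neg hb, one_pow]
    · intro h3
      exact absurd (Finset.mem_erase.2 ⟨hne, hr''⟩) h3
  rw [h2] at this
  simpa using this

theorem exists_rep (hp2 : p ≠ 2) (k : ℕ) (hk : ¬ (p : ℤ) ∣ (k : ℤ)) :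
    ∃ r'' ∈ Finset.Icc 1 ((p - 1) / 2), (p : ℤ) ∣ (k : ℤ) - r'' ∨ (p : ℤ) ∣ (k : ℤ) + r'' := by
  have hp0 := hp.out.pos
  have hodd := hp.out.eq_two_or_odd.resolve_left hp2
  have hm := Nat.mod_lt k hp0
  have hm0 : k % p ≠ 0 := by
    intro h
    exact hk (by exact_mod_cast Nat.dvd_of_mod_eq_zero h)
  have hdm := Nat.div_add_mod k p
  have hdz : (k : ℤ) = p * ((k / p : ℕ) : ℤ) + ((k % p : ℕ) : ℤ) := by exact_mod_cast hdm.symm
  by_cases h : k % p ≤ (p - 1) / 2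
  · refine ⟨k % p, Finset.mem_Icc.2 ⟨by omega, h⟩, Or.inl ⟨((k / p : ℕ) : ℤ), ?_⟩⟩
    linarith
  · refine ⟨p - k % p, Finset.mem_Icc.2 ⟨by omega, by omega⟩, Or.inr ⟨((k / p : ℕ) : ℤ) + 1, ?_⟩⟩
    rw [Nat.cast_sub hm.le]
    linarith

/-- bound of the coefficients in the classes `±r` -/
theorem pa_near (hp60 : 60 ≤ p) (r e k i : ℕ) (hk : k ∈ sN p)
    (hk0 : ¬ (p : ℤ) ∣ (k : ℤ))
    (h : (p : ℤ) ∣ (k : ℤ) - r ∨ (p : ℤ) ∣ (k : ℤ) + r) :
    padicNorm p (pa (sN p) (muN p) (PPn p * EE p (Qr p r e)) k i) ≤ (p : ℚ) ^ (-(i : ℤ) - e) := by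
  have h1 := C1_pa_mul (n := p) (p := p) (by omega) (by nlinarith) (EE p (Qr p r e)) hk _
    (pow_nonneg inv0 e) (PB_near r e k h) i
  refine h1.trans (le_of_eq ?_)
  rw [ee_zero k hk0, inv_pow, ← zpow_natCast, ← zpow_neg, ← zpow_add₀ p_pos'.ne']
  congr 1
  ring

/-- bound of the coefficients in the other classes -/
theorem pa_far (hp60 : 60 ≤ p) (r e k i : ℕ) (hk : k ∈ sN p)
    (h : ¬ ((p : ℤ) ∣ (k : ℤ) - r ∨ (p : ℤ) ∣ (k : ℤ) + r)) :
    padicNorm p (pa (sN p) (muN p) (PPn p * EE p (Qr p r e)) k i) ≤ (p : ℚ) ^ (-(i : ℤ) - 92) := by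
  by_cases hk0 : (p : ℤ) ∣ (k : ℤ)
  · have h1 := C1_pa_mul (n := p) (p := p) (by omega) (by nlinarith) (EE p (Qr p r e)) hk _
      (pow_nonneg inv0 98) (PB_zero r e k hk0) i
    refine h1.trans ?_
    rw [inv_pow, ← zpow_natCast, ← zpow_neg, ← zpow_add₀ p_pos'.ne']
    apply zpow_le_zpow_right₀ p_one'
    have := ee_ge6 (p := p) k
    push_cast
    linarith
  · obtain ⟨r'', hr'', h''⟩ := exists_rep (p := p) (by omega) k hk0
    have h1 := C1_pa_mul (n := p) (p := p) (by omega) (by nlinarith) (EE p (Qr p r e)) hk _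
      (pow_nonneg inv0 92) (PB_far r e k r'' hr'' (fun e => h (e ▸ h'')) h'') i
    refine h1.trans (le_of_eq ?_)
    rw [ee_zero k hk0, inv_pow, ← zpow_natCast, ← zpow_neg, ← zpow_add₀ p_pos'.ne']
    congr 1
    push_cast
    ring

/-! ### reflection -/

omit hp in
theorem EE_reflect (n : ℕ) (Q : ℚ[X]) : (EE n Q).comp (-X - C ((24 * n : ℕ) : ℚ)) = EE n Q := by
  unfold EE
  rw [Polynomial.comp_assoc]
  congr 1
  unfold xp
  simp only [Polynomial.mul_comp, Polynomial.add_comp, Polynomial.X_comp, Polynomial.C_comp]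
  ring

omit hp in
theorem mem_sN (k : ℕ) : k ∈ sN p ↔ 2 * p + 1 ≤ k ∧ k ≤ 22 * p - 1 := by
  unfold sN ss
  rw [Finset.mem_Icc]
  omega

omit hp in
theorem muN_zero {k : ℕ} (h : ¬ (3 * p ≤ k ∧ k ≤ 21 * p)) : muN p k = 0 := by
  unfold muN mu
  rw [List.countP_eq_zero]
  intro d hd
  rw [decide_eq_true_eq]
  have h3 : 3 ≤ d := by
    have : ∀ d ∈ dz, 3 ≤ d := by decide
    exact this d hd
  have h4 : 3 * p ≤ d * p := Nat.mul_le_mul_right p h3
  omega

omit hp in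
theorem muN_om {r : ℕ} (hr1 : 1 ≤ r) (hr2 : r < p) (j : ℕ) : muN p (r + j * p) = om j := by
  have key : ∀ d : ℕ, (d * p ≤ r + j * p ∧ r + j * p + d * p ≤ 24 * p) ↔ (d ≤ j ∧ j + d ≤ 23) := by
    intro d
    constructor
    · rintro ⟨h1, h2⟩
      constructor
      · by_contra hcon
        have h3 : (j + 1) * p ≤ d * p := Nat.mul_le_mul_right p (by omega)
        have h4 : (j + 1) * p = j * p + p := by ring
        omega
      · by_contra hcon
        have h3 : 24 * p ≤ (j + d) * p := Nat.mul_le_mul_right p (by omega)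
        have h4 : (j + d) * p = j * p + d * p := by ring
        omega
    · rintro ⟨h1, h2⟩
      have h3 : d * p ≤ j * p := Nat.mul_le_mul_right p h1
      have h4 : (j + d) * p ≤ 23 * p := Nat.mul_le_mul_right p h2
      have h5 : (j + d) * p = j * p + d * p := by ring
      constructor <;> omega
  unfold muN mu om
  simp only [key, List.countP_cons, List.countP_nil]
  ring

/-- reflection of the coefficients -/
theorem pa_reflect (Q : ℚ[X]) {k i : ℕ} (hk : k ∈ sN p) (hi : 1 ≤ i) :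
    pa (sN p) (muN p) (PPn p * EE p Q) (24 * p - k) i =
      (-1) ^ (i + 1) * pa (sN p) (muN p) (PPn p * EE p Q) k i := by
  have hp0 := hp.out.pos
  have h3 : muN p (24 * p - k) = muN p k := mu_reflect 24 p dz (ss_reflect 24 2 p hk).1
  unfold pa
  rw [h3]
  by_cases hi6 : i ≤ muN p k
  · rw [if_pos hi6, if_pos hi6]
    have h5 := pfc_reflect (sN p) (muN p) (PPn p * EE p Q) (24 * p)
      (fun k hk => ss_reflect 24 2 p hk)
      (fun k hk => mu_reflect 24 p dz (ss_reflect 24 2 p hk).1)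
      (by rw [Polynomial.mul_comp, EE_reflect, PPn, PP_comp, neg_mul])
      (even_sum_mu 24 2 p dz hp0 (by simp) (by simp) (by decide))
      (k := k) hk (j := muN p k - i) (by omega)
    rw [h5, show muN p k - (muN p k - i) = i by omega, pow_succ]
    ring
  · rw [if_neg hi6, if_neg hi6, mul_zero]

/-! ### splitting the sum over the poles -/

omit hp in
theorem sum_split {r : ℕ} (hr1 : 1 ≤ r) (hr2 : 2 * r < p) : ∃ S ⊆ sN p,
    (∀ k ∈ S, ∀ j ∈ Finset.Icc 3 20, k ≠ r + j * p ∧ k ≠ 24 * p - (r + j * p)) ∧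
    ∀ g : ℕ → ℚ, ∑ k ∈ sN p, g k =
      (∑ j ∈ Finset.Icc 3 20, (g (r + j * p) + g (24 * p - (r + j * p)))) + ∑ k ∈ S, g k := by
  classical
  have hb : ∀ j ∈ Finset.Icc 3 20, 3 * p ≤ j * p ∧ j * p ≤ 20 * p := fun j hj => by
    rw [Finset.mem_Icc] at hj
    exact ⟨Nat.mul_le_mul_right p hj.1, Nat.mul_le_mul_right p hj.2⟩
  have hdis : Disjoint ((Finset.Icc 3 20).image (fun j => r + j * p))
      ((Finset.Icc 3 20).image (fun j => 24 * p - (r + j * p))) := by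
    rw [Finset.disjoint_left]
    intro k hk hk'
    rw [Finset.mem_image] at hk hk'
    obtain ⟨j, hj, rfl⟩ := hk
    obtain ⟨j', hj', h⟩ := hk'
    have h1 := hb j hj
    have h2 := hb j' hj'
    -- `2 r + (j + j') p = 24 p`
    have h3 : 2 * r + (j + j') * p = 24 * p := by
      have : (j + j') * p = j * p + j' * p := by ring
      omega
    have h4 : j + j' < 24 := by
      by_contra hcon
      have : 24 * p ≤ (j + j') * p := Nat.mul_le_mul_right p (by omega)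
      omega
    have h5 : (j + j') * p ≤ 23 * p := Nat.mul_le_mul_right p (by omega)
    omega
  have hsub : (Finset.Icc 3 20).image (fun j => r + j * p) ∪
      (Finset.Icc 3 20).image (fun j => 24 * p - (r + j * p)) ⊆ sN p := by
    intro k hk
    rw [Finset.mem_union, Finset.mem_image, Finset.mem_image] at hk
    rw [mem_sN]
    rcases hk with ⟨j, hj, rfl⟩ | ⟨j, hj, rfl⟩
    · have := hb j hj
      omega
    · have := hb j hj
      omega
  refine ⟨sN p \ ((Finset.Icc 3 20).image (fun j => r + j * p) ∪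
      (Finset.Icc 3 20).image (fun j => 24 * p - (r + j * p))), Finset.sdiff_subset, ?_, ?_⟩
  · intro k hk j hj
    rw [Finset.mem_sdiff, Finset.mem_union, not_or] at hk
    exact ⟨fun h => hk.2.1 (Finset.mem_image.2 ⟨j, hj, h.symm⟩),
      fun h => hk.2.2 (Finset.mem_image.2 ⟨j, hj, h.symm⟩)⟩
  · intro g
    have h1 : ∑ j ∈ Finset.Icc 3 20, g (r + j * p) =
        ∑ k ∈ (Finset.Icc 3 20).image (fun j => r + j * p), g k := by
      rw [Finset.sum_image]
      intro a _ b _ hab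
      have : a * p = b * p := by simpa using hab
      exact Nat.eq_of_mul_eq_mul_right (by omega) this
    have h2 : ∑ j ∈ Finset.Icc 3 20, g (24 * p - (r + j * p)) =
        ∑ k ∈ (Finset.Icc 3 20).image (fun j => 24 * p - (r + j * p)), g k := by
      rw [Finset.sum_image]
      intro a ha b hb' hab
      have h3 := hb a ha
      have h4 := hb b hb'
      have : a * p = b * p := by
        simp only at hab
        omega
      exact Nat.eq_of_mul_eq_mul_right (by omega) this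
    rw [Finset.sum_add_distrib, h1, h2, ← Finset.sum_union hdis, add_comm]
    exact (Finset.sum_sdiff hsub).symm

theorem rest_class {r k : ℕ} (hr1 : 1 ≤ r) (hr2 : 2 * r < p) (h1 : 3 * p ≤ k) (h2 : k ≤ 21 * p)
    (h : ∀ j ∈ Finset.Icc 3 20, k ≠ r + j * p ∧ k ≠ 24 * p - (r + j * p)) :
    ¬ ((p : ℤ) ∣ (k : ℤ) - r ∨ (p : ℤ) ∣ (k : ℤ) + r) := by
  have hp0 := hp.out.pos
  rintro (⟨m, hm⟩ | ⟨m, hm⟩)
  · have hm' : (k : ℤ) = r + p * m := by linarith
    have h3 : 2 < m := by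
      by_contra hcon
      push Not at hcon
      have := mul_le_mul_of_nonneg_left hcon (by positivity : (0 : ℤ) ≤ p)
      have h1' : (3 : ℤ) * p ≤ k := by exact_mod_cast h1
      have h2' : (2 : ℤ) * r < p := by exact_mod_cast hr2
      linarith
    have h4 : m < 21 := by
      by_contra hcon
      push Not at hcon
      have := mul_le_mul_of_nonneg_left hcon (by positivity : (0 : ℤ) ≤ p)
      have h1' : (k : ℤ) ≤ 21 * p := by exact_mod_cast h2
      have h2' : (1 : ℤ) ≤ r := by exact_mod_cast hr1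
      linarith
    have h5 := (h m.toNat (by rw [Finset.mem_Icc]; omega)).1
    apply h5
    have h6 : ((m.toNat : ℕ) : ℤ) = m := Int.toNat_of_nonneg (by omega)
    have : (k : ℤ) = ((r + m.toNat * p : ℕ) : ℤ) := by
      push_cast
      rw [h6, hm']
      ring
    exact_mod_cast this
  · have hm' : (k : ℤ) = p * m - r := by linarith
    have h3 : 3 < m := by
      by_contra hcon
      push Not at hcon
      have h0 : m ≤ 3 := hcon
      have := mul_le_mul_of_nonneg_left h0 (by positivity : (0 : ℤ) ≤ p)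
      have h1' : (3 : ℤ) * p ≤ k := by exact_mod_cast h1
      have h2' : (1 : ℤ) ≤ r := by exact_mod_cast hr1
      linarith
    have h4 : m < 22 := by
      by_contra hcon
      push Not at hcon
      have := mul_le_mul_of_nonneg_left hcon (by positivity : (0 : ℤ) ≤ p)
      have h1' : (k : ℤ) ≤ 21 * p := by exact_mod_cast h2
      have h2' : (2 : ℤ) * r < p := by exact_mod_cast hr2
      linarith
    have h5 := (h (24 - m).toNat (by rw [Finset.mem_Icc]; omega)).2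
    apply h5
    have h6 : (((24 - m).toNat : ℕ) : ℤ) = 24 - m := Int.toNat_of_nonneg (by omega)
    have h7 : r + (24 - m).toNat * p ≤ 24 * p := by
      have : ((r + (24 - m).toNat * p : ℕ) : ℤ) ≤ ((24 * p : ℕ) : ℤ) := by
        push_cast
        rw [h6]
        have : (0 : ℤ) ≤ k := by positivity
        linarith
      exact_mod_cast this
    have : (k : ℤ) = ((24 * p - (r + (24 - m).toNat * p) : ℕ) : ℤ) := by
      rw [Nat.cast_sub h7]
      push_cast
      rw [h6, hm']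
      ring
    exact_mod_cast this

/-! ### small facts on norms -/

theorem nadd {a b c : ℚ} (ha : padicNorm p a ≤ c) (hb : padicNorm p b ≤ c) :
    padicNorm p (a + b) ≤ c := padicNorm.nonarchimedean.trans (max_le ha hb)

theorem nsub {a b c : ℚ} (ha : padicNorm p a ≤ c) (hb : padicNorm p b ≤ c) :
    padicNorm p (a - b) ≤ c := padicNorm.sub.trans (max_le ha hb)

theorem nmul {a b x y : ℚ} (ha : padicNorm p a ≤ x) (hb : padicNorm p b ≤ y) :
    padicNorm p (a * b) ≤ x * y := by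
  rw [padicNorm.mul]
  exact mul_le_mul ha hb (padicNorm.nonneg _) ((padicNorm.nonneg _).trans ha)

theorem norm_ppow (m : ℕ) : padicNorm p ((p : ℚ) ^ m) = (p : ℚ) ^ (-(m : ℤ)) := by
  rw [padicNorm_pow', padicNorm.padicNorm_p_of_prime, inv_pow, zpow_neg, zpow_natCast]

theorem norm_pzpow (e : ℕ) : padicNorm p ((p : ℚ) ^ (-(e : ℤ))) = (p : ℚ) ^ (e : ℤ) := by
  have h1 : (p : ℚ) ^ (-(e : ℤ)) = 1 / (p : ℚ) ^ e := by
    rw [zpow_neg, zpow_natCast, one_div]
  rw [h1, padicNorm.div, norm_ppow, padicNorm.one, zpow_neg, one_div, inv_inv]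

theorem norm_int_le (z : ℤ) : padicNorm p (z : ℚ) ≤ 1 := padicNorm.of_int z

theorem norm_sgn (i : ℕ) : padicNorm p ((-1 : ℚ) ^ i) ≤ 1 := by
  have := norm_int_le (p := p) ((-1) ^ i)
  push_cast at this
  exact this

theorem norm_half (hp2 : p ≠ 2) (l : ℤ) : padicNorm p ((l : ℚ) + 1 / 2) = padicNorm p ((2 * l + 1 : ℤ) : ℚ) := by
  have h2 : padicNorm p (2 : ℚ) = 1 := by
    have := (padicNorm.nat_eq_one_iff (p := p) 2).2 (by
      intro h
      have h3 := Nat.le_of_dvd (by norm_num) h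
      have := hp.out.two_le
      omega)
    push_cast at this
    exact this
  have h3 : ((2 * l + 1 : ℤ) : ℚ) = 2 * ((l : ℚ) + 1 / 2) := by push_cast; ring
  rw [h3, padicNorm.mul, h2, one_mul]

theorem ho_norm (hp2 : p ≠ 2) (e : ℕ) (M : ℤ) (B : ℚ) (hB : 0 ≤ B)
    (h : ∀ l : ℤ, (0 ≤ l ∧ l < M) ∨ (M ≤ l ∧ l < 0) →
      (padicNorm p ((2 * l + 1 : ℤ) : ℚ))⁻¹ ^ e ≤ B) :
    padicNorm p (ho e M) ≤ B := by
  unfold ho
  refine nsub ?_ ?_
  · apply padicNorm.sum_le' _ hB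
    intro l hl
    rw [Finset.mem_Ico] at hl
    rw [padicNorm.div, padicNorm.one, padicNorm_pow', one_div, ← inv_pow, norm_half hp2]
    exact h l (Or.inl hl)
  · apply padicNorm.sum_le' _ hB
    intro l hl
    rw [Finset.mem_Ico] at hl
    rw [padicNorm.div, padicNorm.one, padicNorm_pow', one_div, ← inv_pow, norm_half hp2]
    exact h l (Or.inr hl)

theorem ho_norm_small (hp60 : 60 ≤ p) (e : ℕ) (M : ℤ) (h1 : -20 ≤ M) (h2 : M ≤ 20) :
    padicNorm p (ho e M) ≤ 1 := by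
  apply ho_norm (by omega) e M 1 zero_le_one
  intro l hl
  have h3 : padicNorm p ((2 * l + 1 : ℤ) : ℚ) = 1 := by
    rw [padicNorm.int_eq_one_iff]
    intro h
    have h4 := Int.le_of_dvd (a := (p : ℤ)) (b := |2 * l + 1|) (by
      rw [abs_pos]; omega) ((dvd_abs _ _).2 h)
    have h5 : |2 * l + 1| ≤ 41 := by
      rw [abs_le]; constructor <;> omega
    omega
  rw [h3]; simp

theorem ho_norm_med (hp60 : 60 ≤ p) (e : ℕ) (M : ℤ) (h1 : -20 * (p : ℤ) ≤ M) (h2 : M ≤ 20 * (p : ℤ)) :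
    padicNorm p (ho e M) ≤ (p : ℚ) ^ e := by
  have hp0 : (0 : ℚ) ≤ p := p_pos'.le
  apply ho_norm (by omega) e M _ (pow_nonneg hp0 _)
  intro l hl
  apply pow_le_pow_left₀ (inv_nonneg.2 (padicNorm.nonneg _))
  have h4 : |2 * l + 1| < (p : ℤ) ^ 2 := by
    have hp' : (60 : ℤ) ≤ p := by exact_mod_cast hp60
    have h6 : 60 * (p : ℤ) ≤ (p : ℤ) ^ 2 := by nlinarith
    rw [abs_lt]; constructor <;> rcases hl with hl | hl <;> linarith [hl.1, hl.2]
  have h5 := norm_small (p := p) (a := 2 * l + 1) (by omega) h4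
  rw [h5]
  split_ifs
  · simp
  · simpa using hp.out.one_lt.le

/-- statement of `H1_ho` -/
def H1st (p : ℕ) : Prop := ∀ (a r : ℤ) (e : ℕ), 1 ≤ e → |a| ≤ 20 → 2 * |r| < p →
    padicNorm p ((p : ℚ) ^ e * ho e (a * p + r) - ho e a) ≤ (p : ℚ)⁻¹

/-- statement of `H2_pa` -/
def H2st (p r : ℕ) : Prop :=
    ∃ w : ℚ, padicNorm p w = 1 ∧ ∀ e j i : ℕ, e ≤ 90 → 3 ≤ j → j ≤ 20 → 1 ≤ i → i ≤ om j →
      padicNorm p (pa (sN p) (muN p) (PPn p * EE p (XN p r ^ e * Nod p r 92)) (r + j * p) i / (p : ℚ) ^ (i + e) -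
        w * (-2 * r) ^ e * PowerSeries.coeff (om j - i) (ser j e)) ≤ (p : ℚ)⁻¹

omit hp in
theorem not_dvd_near {r k : ℕ} (hr1 : 1 ≤ r) (hr2 : 2 * r < p)
    (h : (p : ℤ) ∣ (k : ℤ) - r ∨ (p : ℤ) ∣ (k : ℤ) + r) : ¬ (p : ℤ) ∣ (k : ℤ) := by
  intro hk
  have h1 : (p : ℤ) ∣ (r : ℤ) := by
    rcases h with h | h
    · have := dvd_sub hk h
      rwa [show (k : ℤ) - ((k : ℤ) - r) = r by ring] at this
    · have := dvd_sub h hk
      rwa [show (k : ℤ) + r - (k : ℤ) = r by ring] at this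
  have h2 : p ∣ r := by exact_mod_cast h1
  have := Nat.le_of_dvd hr1 h2
  omega

/-- every coefficient, in the form needed for the `u` term -/
theorem u_term (hp60 : 60 ≤ p) {r e k : ℕ} (hr1 : 1 ≤ r) (hr2 : 2 * r < p) (he : e ≤ 90) (hk : k ∈ sN p) :
    padicNorm p ((p : ℚ) ^ (-(e : ℤ)) *
      pa (sN p) (muN p) (PPn p * EE p (Qr p r e)) k 5) ≤ (p : ℚ)⁻¹ := by
  by_cases h : (p : ℤ) ∣ (k : ℤ) - r ∨ (p : ℤ) ∣ (k : ℤ) + r
  · have h1 := nmul (norm_pzpow (p := p) e).le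
      (pa_near (p := p) hp60 r e k 5 hk (not_dvd_near hr1 hr2 h) h)
    refine h1.trans ?_
    rw [← zpow_add₀ p_pos'.ne', ← zpow_neg_one]
    apply zpow_le_zpow_right₀ p_one'
    push_cast
    omega
  · have h1 := nmul (norm_pzpow (p := p) e).le (pa_far (p := p) hp60 r e k 5 hk h)
    refine h1.trans ?_
    rw [← zpow_add₀ p_pos'.ne', ← zpow_neg_one]
    apply zpow_le_zpow_right₀ p_one'
    push_cast
    omega

/-- the contribution of one pair of poles -/
theorem pair_term (H1_ho : H1st p) (hp60 : 60 ≤ p)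
    {r e i j : ℕ} (hr1 : 1 ≤ r) (hr2 : 2 * r < p) (hj3 : 3 ≤ j) (hj20 : j ≤ 20)
    (hi1 : 1 ≤ i) (α : ℚ)
    (hα : padicNorm p (pa (sN p) (muN p) (PPn p * EE p (Qr p r e)) (r + j * p) i /
      (p : ℚ) ^ (i + e) - α) ≤ (p : ℚ)⁻¹) :
    padicNorm p ((p : ℚ) ^ (-(e : ℤ)) *
      (pa (sN p) (muN p) (PPn p * EE p (Qr p r e)) (r + j * p) i *
        (7 * hs i (r + j * p - 1) - ho i (((r + j * p : ℕ) : ℤ) - 4 * p)) +
      pa (sN p) (muN p) (PPn p * EE p (Qr p r e)) (24 * p - (r + j * p)) i *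
        (7 * hs i (24 * p - (r + j * p) - 1) - ho i (((24 * p - (r + j * p) : ℕ) : ℤ) - 4 * p))) -
      α * wt j i) ≤ (p : ℚ)⁻¹ := by
  have hp0 := hp.out.pos
  have hjp : 3 * p ≤ j * p ∧ j * p ≤ 20 * p :=
    ⟨Nat.mul_le_mul_right p hj3, Nat.mul_le_mul_right p hj20⟩
  have e1 : r + j * p - 1 = j * p + (r - 1) := by omega
  have e2 : 24 * p - (r + j * p) - 1 = (23 - j) * p + (p - r - 1) := by
    have : (23 - j) * p + j * p = 23 * p := by
      rw [← Nat.add_mul]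
      congr 1
      omega
    omega
  have e3 : ((r + j * p : ℕ) : ℤ) - 4 * p = ((j : ℤ) - 4) * p + r := by push_cast; ring
  have e4 : ((24 * p - (r + j * p) : ℕ) : ℤ) - 4 * p = (20 - (j : ℤ)) * p + (-(r : ℤ)) := by
    rw [Nat.cast_sub (by omega)]
    push_cast; ring
  have hk : r + j * p ∈ sN p := (mem_sN _).2 (by omega)
  have hnear : (p : ℤ) ∣ ((r + j * p : ℕ) : ℤ) - r ∨ (p : ℤ) ∣ ((r + j * p : ℕ) : ℤ) + r :=
    Or.inl ⟨j, by push_cast; ring⟩
  have hka := pa_near (p := p) hp60 r e (r + j * p) i hk (not_dvd_near hr1 hr2 hnear) hnear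
  rw [pa_reflect (p := p) (Qr p r e) (k := r + j * p) (i := i) hk hi1, e1, e2, e3, e4]
  set a := pa (sN p) (muN p) (PPn p * EE p (Qr p r e)) (r + j * p) i with ha
  have hpi : (p : ℚ) ^ (i + e) ≠ 0 := pow_ne_zero _ p_pos'.ne'
  -- normalised coefficient
  set A := a / (p : ℚ) ^ (i + e) with hA
  have hA1 : padicNorm p A ≤ 1 := by
    rw [hA, padicNorm.div, norm_ppow, div_le_one (zpow_pos p_pos' _)]
    refine hka.trans (le_of_eq ?_)
    congr 1
    push_cast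
    ring
  have haA : (p : ℚ) ^ (-(e : ℤ)) * a = A * (p : ℚ) ^ i := by
    rw [hA, zpow_neg, zpow_natCast, pow_add]
    have h1 : (p : ℚ) ^ i ≠ 0 := pow_ne_zero _ p_pos'.ne'
    have h2 : (p : ℚ) ^ e ≠ 0 := pow_ne_zero _ p_pos'.ne'
    field_simp
  have hb := HD.H1_hs (p := p) (r - 1) j i (by omega) (by omega) hi1
  have hb' := HD.H1_hs (p := p) (p - r - 1) (23 - j) i (by omega) (by omega) hi1
  have hc := H1_ho ((j : ℤ) - 4) (r : ℤ) i hi1 (by rw [abs_le]; omega) (by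
    rw [Nat.abs_cast]; exact_mod_cast hr2)
  have hc' := H1_ho (20 - (j : ℤ)) (-(r : ℤ)) i hi1 (by rw [abs_le]; omega) (by
    rw [abs_neg, Nat.abs_cast]; exact_mod_cast hr2)
  have hH := hs_norm_small (p := p) i j (by omega)
  have hH' := hs_norm_small (p := p) i (23 - j) (by omega)
  have hO := ho_norm_small (p := p) hp60 i ((j : ℤ) - 4) (by omega) (by omega)
  have hO' := ho_norm_small (p := p) hp60 i (20 - (j : ℤ)) (by omega) (by omega)
  set b := (p : ℚ) ^ i * hs i (j * p + (r - 1)) with hbd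
  set b' := (p : ℚ) ^ i * hs i ((23 - j) * p + (p - r - 1)) with hbd'
  set c := (p : ℚ) ^ i * ho i (((j : ℤ) - 4) * p + r) with hcd
  set c' := (p : ℚ) ^ i * ho i ((20 - (j : ℤ)) * p + (-(r : ℤ))) with hcd'
  unfold wt
  set H := hs i j with hHd
  set H' := hs i (23 - j) with hHd'
  set O := ho i ((j : ℤ) - 4) with hOd
  set O' := ho i (20 - (j : ℤ)) with hOd'
  have key : (p : ℚ) ^ (-(e : ℤ)) *
      (a * (7 * hs i (j * p + (r - 1)) - ho i (((j : ℤ) - 4) * p + r)) +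
      (-1) ^ (i + 1) * a * (7 * hs i ((23 - j) * p + (p - r - 1)) -
        ho i ((20 - (j : ℤ)) * p + (-(r : ℤ))))) -
      α * (7 * H - O + (-1) ^ (i + 1) * (7 * H' - O')) =
      A * (7 * (b - H) - (c - O)) + (-1) ^ (i + 1) * (A * (7 * (b' - H') - (c' - O'))) +
      (A - α) * ((7 * H - O) + (-1) ^ (i + 1) * (7 * H' - O')) := by
    have h1 : (p : ℚ) ^ (-(e : ℤ)) * a * (7 * hs i (j * p + (r - 1)) - ho i (((j : ℤ) - 4) * p + r))
        = A * (7 * b - c) := by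
      rw [haA, hbd, hcd]; ring
    have h2 : (p : ℚ) ^ (-(e : ℤ)) * a * (7 * hs i ((23 - j) * p + (p - r - 1)) -
        ho i ((20 - (j : ℤ)) * p + (-(r : ℤ)))) = A * (7 * b' - c') := by
      rw [haA, hbd', hcd']; ring
    linear_combination h1 + (-1) ^ (i + 1) * h2
  rw [key]
  have hs1 := norm_sgn (p := p) (i + 1)
  have h7 : padicNorm p (7 : ℚ) ≤ 1 := by
    have := norm_int_le (p := p) 7
    push_cast at this
    exact this
  have hle : ∀ {x : ℚ}, padicNorm p x ≤ (p : ℚ)⁻¹ →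
      padicNorm p ((-1) ^ (i + 1) * x) ≤ (p : ℚ)⁻¹ := fun {x} hx => by
    have := nmul hs1 hx
    rwa [one_mul] at this
  have h7le : ∀ {x : ℚ}, padicNorm p x ≤ (p : ℚ)⁻¹ →
      padicNorm p (7 * x) ≤ (p : ℚ)⁻¹ := fun {x} hx => by
    have := nmul h7 hx
    rwa [one_mul] at this
  have h7le1 : ∀ {x : ℚ}, padicNorm p x ≤ 1 → padicNorm p (7 * x) ≤ 1 := fun {x} hx => by
    have := nmul h7 hx
    rwa [one_mul] at this
  have hAb : ∀ {x : ℚ}, padicNorm p x ≤ (p : ℚ)⁻¹ → padicNorm p (A * x) ≤ (p : ℚ)⁻¹ :=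
    fun {x} hx => by
    have := nmul hA1 hx
    rwa [one_mul] at this
  have hHH : padicNorm p ((7 * H - O) + (-1) ^ (i + 1) * (7 * H' - O')) ≤ 1 := by
    refine nadd (nsub (h7le1 hH) hO) ?_
    have := nmul hs1 (nsub (h7le1 hH') hO')
    rwa [one_mul] at this
  refine nadd (nadd (hAb (nsub (h7le hb) hc)) (hle (hAb (nsub (h7le hb') hc')))) ?_
  have := nmul hα hHH
  rwa [mul_one] at this

/-- the contribution of the other poles -/
theorem rest_term (hp60 : 60 ≤ p)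
    {r e i k : ℕ} (hr1 : 1 ≤ r) (hr2 : 2 * r < p) (he : e ≤ 90) (hi1 : 1 ≤ i) (hk : k ∈ sN p)
    (hrest : ∀ j ∈ Finset.Icc 3 20, k ≠ r + j * p ∧ k ≠ 24 * p - (r + j * p)) :
    padicNorm p ((p : ℚ) ^ (-(e : ℤ)) *
      (pa (sN p) (muN p) (PPn p * EE p (Qr p r e)) k i * (7 * hs i (k - 1) - ho i ((k : ℤ) - 4 * p)))) ≤
      (p : ℚ)⁻¹ := by
  by_cases h : 3 * p ≤ k ∧ k ≤ 21 * p
  · have h1 := pa_far (p := p) hp60 r e k i hk (rest_class hr1 hr2 h.1 h.2 hrest)
    have h2 := hs_norm_med (p := p) i (k - 1) (by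
      have : k ≤ 21 * p := h.2
      nlinarith [Nat.sub_le k 1])
    have h7 : padicNorm p (7 : ℚ) ≤ 1 := by
      have := norm_int_le (p := p) 7
      push_cast at this
      exact this
    have h2' : padicNorm p (7 * hs i (k - 1)) ≤ (p : ℚ) ^ i := by
      have := nmul h7 h2
      rwa [one_mul] at this
    have h2'' := ho_norm_med (p := p) hp60 i ((k : ℤ) - 4 * p) (by omega) (by omega)
    have h3 := nsub h2' h2''
    have h4 := nmul (norm_pzpow (p := p) e).le (nmul h1 h3)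
    refine h4.trans ?_
    rw [← zpow_natCast (p : ℚ) i, ← zpow_add₀ p_pos'.ne', ← zpow_add₀ p_pos'.ne', ← zpow_neg_one]
    apply zpow_le_zpow_right₀ p_one'
    omega
  · have h1 : pa (sN p) (muN p) (PPn p * EE p (Qr p r e)) k i = 0 := by
      unfold pa
      rw [muN_zero h, if_neg (by omega)]
    rw [h1, zero_mul, mul_zero, padicNorm.zero]
    exact inv0

omit hp in
theorem om_le (j : ℕ) : om j ≤ 6 := by
  unfold om
  have : ([3, 4, 5] : List ℕ).countP (fun d => d ≤ j ∧ j + d ≤ 23) ≤ ([3, 4, 5] : List ℕ).length :=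
    List.countP_le_length
  simp only [List.length_cons, List.length_nil] at this
  omega

end

end Pool.Agent.H336R2.Z5.H3

namespace Pool.Agent.H336R2.Z5

open H3

theorem H3_of {p : ℕ} [Fact p.Prime] (h1s : H1st p) (hp : 60 ≤ p) (u : ℚ)
    (hu : padicNorm p u ≤ 1) (r : ℕ) (hr1 : 1 ≤ r) (hr2 : 2 * r < p) (h2s : H2st p r) :
    ∃ w : ℚ, padicNorm p w = 1 ∧ ∀ e : ℕ, e ≤ 90 →
      padicNorm p ((p : ℚ) ^ (-(e : ℤ)) * NL p u (XN p r ^ e * Nod p r 92) - w * (-2 * r) ^ e * Fm e) ≤ (p : ℚ)⁻¹ := by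
  obtain ⟨w, hw1, hw⟩ := h2s
  refine ⟨w, hw1, fun e he => ?_⟩
  obtain ⟨S, hS, hSr, hsum⟩ := sum_split (p := p) hr1 hr2
  show padicNorm p ((p : ℚ) ^ (-(e : ℤ)) * NL p u (Qr p r e) - w * (-2 * r) ^ e * Fm e) ≤ _
  set F : ℕ → ℕ → ℚ := fun i k => pa (sN p) (muN p) (PPn p * EE p (Qr p r e)) k i *
    (7 * hs i (k - 1) - ho i ((k : ℤ) - 4 * p)) with hF
  set T : ℕ → ℕ → ℚ := fun j i => if i ≤ om j then
    (w * (-2 * (r : ℚ)) ^ e * PowerSeries.coeff (om j - i) (ser j e)) * wt j i else 0 with hT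
  have h1 : w * (-2 * (r : ℚ)) ^ e * Fm e = -∑ i ∈ Finset.Icc 1 6, ∑ j ∈ Finset.Icc 3 20, T j i := by
    unfold Fm
    rw [mul_neg, Finset.sum_comm, Finset.mul_sum]
    congr 1
    refine Finset.sum_congr rfl fun j _ => ?_
    rw [Finset.mul_sum]
    have h2 : ∑ i ∈ Finset.Icc 1 6, T j i = ∑ i ∈ Finset.Icc 1 (om j), T j i := by
      symm
      apply Finset.sum_subset
      · intro i hi
        rw [Finset.mem_Icc] at *
        have := om_le j
        omega
      · intro i hi hi2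
        rw [Finset.mem_Icc] at *
        rw [hT]
        simp only
        rw [if_neg (by omega)]
    rw [h2]
    refine Finset.sum_congr rfl fun i hi => ?_
    rw [Finset.mem_Icc] at hi
    rw [hT]
    simp only
    rw [if_pos hi.2]
    ring
  have h2 : NL p u (Qr p r e) = -24 * u * (∑ k ∈ sN p,
      pa (sN p) (muN p) (PPn p * EE p (Qr p r e)) k 5) - ∑ i ∈ Finset.Icc 1 6, ∑ k ∈ sN p, F i k := by
    rw [NL_apply]
    unfold xf
    rw [hF]
    ring
  have hN : (p : ℚ) ^ (-(e : ℤ)) * NL p u (Qr p r e) - w * (-2 * r) ^ e * Fm e =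
      (-24 * u) * (∑ k ∈ sN p, (p : ℚ) ^ (-(e : ℤ)) *
        pa (sN p) (muN p) (PPn p * EE p (Qr p r e)) k 5) -
      ∑ i ∈ Finset.Icc 1 6,
      ((∑ j ∈ Finset.Icc 3 20, ((p : ℚ) ^ (-(e : ℤ)) * (F i (r + j * p) + F i (24 * p - (r + j * p))) - T j i)) +
      ∑ k ∈ S, (p : ℚ) ^ (-(e : ℤ)) * F i k) := by
    rw [h1, sub_neg_eq_add, h2]
    have h3 : ∑ i ∈ Finset.Icc 1 6, ∑ k ∈ sN p, F i k = ∑ i ∈ Finset.Icc 1 6,
      ((∑ j ∈ Finset.Icc 3 20, (F i (r + j * p) + F i (24 * p - (r + j * p)))) + ∑ k ∈ S, F i k) :=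
      Finset.sum_congr rfl fun i _ => hsum (F i)
    rw [h3]
    simp only [Finset.sum_add_distrib, Finset.sum_sub_distrib, ← Finset.mul_sum]
    ring
  rw [hN]
  have h24 : padicNorm p (-24 * u) ≤ 1 := by
    have := norm_int_le (p := p) (-24)
    push_cast at this
    have := nmul this hu
    rwa [one_mul] at this
  refine nsub ?_ ?_
  · have h4 : padicNorm p (∑ k ∈ sN p, (p : ℚ) ^ (-(e : ℤ)) *
        pa (sN p) (muN p) (PPn p * EE p (Qr p r e)) k 5) ≤ (p : ℚ)⁻¹ := by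
      apply padicNorm.sum_le' _ inv0
      intro k hk
      exact u_term hp hr1 hr2 he hk
    have := nmul h24 h4
    rwa [one_mul] at this
  · apply padicNorm.sum_le' _ inv0
    intro i hi
    rw [Finset.mem_Icc] at hi
    refine nadd ?_ ?_
    · apply padicNorm.sum_le' _ inv0
      intro j hj
      rw [Finset.mem_Icc] at hj
      by_cases hij : i ≤ om j
      · have h5 := pair_term h1s hp hr1 hr2 hj.1 hj.2 hi.1 _ (hw e j i he hj.1 hj.2 hi.1 hij)
        have h6 : T j i = (w * (-2 * (r : ℚ)) ^ e * PowerSeries.coeff (om j - i) (ser j e)) * wt j i := by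
          rw [hT]
          simp only
          rw [if_pos hij]
        rw [h6]
        exact h5
      · have hk : r + j * p ∈ sN p := by
          rw [mem_sN]
          have : 3 * p ≤ j * p := Nat.mul_le_mul_right p hj.1
          have : j * p ≤ 20 * p := Nat.mul_le_mul_right p hj.2
          omega
        have h6 : T j i = 0 := by
          rw [hT]
          simp only
          rw [if_neg hij]
        have h7 : pa (sN p) (muN p) (PPn p * EE p (Qr p r e)) (r + j * p) i = 0 := by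
          unfold pa
          rw [muN_om hr1 (by omega), if_neg hij]
        have h8 : pa (sN p) (muN p) (PPn p * EE p (Qr p r e)) (24 * p - (r + j * p)) i = 0 := by
          rw [pa_reflect (p := p) (Qr p r e) hk hi.1, h7, mul_zero]
        have h9 : F i (r + j * p) = 0 := by
          rw [hF]; simp only; rw [h7, zero_mul]
        have h10 : F i (24 * p - (r + j * p)) = 0 := by
          rw [hF]; simp only; rw [h8, zero_mul]
        rw [h6, h9, h10, add_zero, mul_zero, sub_zero, padicNorm.zero]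
        exact inv0
    · apply padicNorm.sum_le' _ inv0
      intro k hk
      exact rest_term hp hr1 hr2 he hi.1 (hS hk) (hSr k hk)

end Pool.Agent.H336R2.Z5
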