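import Pool.Agent.H336R2.Z5.Defs2

/-!
Task H4 (helper132): the off-diagonal entries at `n = p` (adapted from `HD/H1.lean`).
-/

open Polynomial Pool.Agent.H337R2

namespace Pool.Agent.H336R2.Z5

noncomputable section

set_option linter.unusedSectionVars false

section off

variable {p : ℕ} [hp : Fact p.Prime]

lemma H4_norm_zpow (z : ℤ) : padicNorm p ((p : ℚ) ^ z) = (p : ℚ) ^ (-z) := by
  have h1 : ∀ n : ℕ, padicNorm p ((p : ℚ) ^ n) = (p : ℚ) ^ (-(n : ℤ)) := by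
    intro n
    rw [padicNorm_pow', padicNorm.padicNorm_p hp.out.one_lt, inv_pow, zpow_neg, zpow_natCast]
  cases z with
  | ofNat n => rw [Int.ofNat_eq_natCast, zpow_natCast]; exact h1 n
  | negSucc n =>
    rw [zpow_negSucc, ← one_div, padicNorm.div, padicNorm.one, h1, Int.neg_negSucc, one_div,
      ← zpow_neg, neg_neg]

/-- number of elements of a brick congruent to `k` -/
lemma H4_cnt (d k : ℕ) (hd : 2 * d < 24) :
    (cnt p (d * p) (24 * p - d * p) k : ℤ) = (24 - 2 * d : ℤ) + if (p : ℤ) ∣ (k : ℤ) then 1 else 0 := by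
  have hp' : (0 : ℤ) < p := by exact_mod_cast hp.out.pos
  have hp0 : 0 < p := hp.out.pos
  rw [cnt_brick p 24 d p k hp0 hd]
  have a1 : (((24 : ℕ) : ℤ) * p - ((d : ℕ) : ℤ) * p - k) / p = (-(k : ℤ)) / p + (24 - d) := by
    rw [show (((24 : ℕ) : ℤ) * p - ((d : ℕ) : ℤ) * p - k) = -(k : ℤ) + (24 - d) * p by push_cast; ring,
      Int.add_mul_ediv_right _ _ hp'.ne']
  have a2 : (((d : ℕ) : ℤ) * p - 1 - k) / p = (-(k : ℤ) - 1) / p + d := by
    rw [show (((d : ℕ) : ℤ) * p - 1 - k) = (-(k : ℤ) - 1) + d * p by push_cast; ring,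
      Int.add_mul_ediv_right _ _ hp'.ne']
  have a3 := succ_ediv' (p : ℤ) hp' (-(k : ℤ) - 1)
  rw [sub_add_cancel] at a3
  rw [a1, a2, a3]
  simp only [Int.dvd_neg]
  ring

/-- the exponents `e_p(k)` for `n = p` -/
lemma H4_ee (k : ℕ) : eeN p p k = if (p : ℤ) ∣ (k : ℤ) then -6 else 0 := by
  have hp0 : 0 < p := hp.out.pos
  have e3 := H4_cnt (p := p) 3 k (by norm_num)
  have e4 := H4_cnt (p := p) 4 k (by norm_num)
  have e5 := H4_cnt (p := p) 5 k (by norm_num)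
  have f3 : ((24 - 2 * 3) * p / p : ℕ) = 18 := Nat.mul_div_cancel _ hp0
  have f4 : ((24 - 2 * 4) * p / p : ℕ) = 16 := Nat.mul_div_cancel _ hp0
  have f5 : ((24 - 2 * 5) * p / p : ℕ) = 14 := Nat.mul_div_cancel _ hp0
  unfold eeN ee
  unfold nq
  simp only [dz, List.map_cons, List.map_nil, List.sum_cons, List.sum_nil]
  rw [f3, f4, f5]
  push_cast
  rw [e3, e4, e5]
  split_ifs <;> norm_num

/-- a linear factor -/
lemma H4_lin (k : ℕ) (c : ℤ) (A : ℚ) (hA : A = 1 ∨ (A = (p : ℚ)⁻¹ ∧ (p : ℤ) ∣ c - k)) :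
    PB p (p : ℚ) A (PowerSeries.X + PowerSeries.C (-(k : ℚ) + (c : ℚ))) := by
  have hp0 : (0 : ℚ) ≤ p := p_pos'.le
  have hle := norm_le_ite (p := p) (c - k)
  have he : ((c - k : ℤ) : ℚ) = -(k : ℚ) + c := by push_cast; ring
  rw [he] at hle
  rcases hA with rfl | ⟨rfl, hd⟩
  · apply PB.linX hp0 zero_le_one
    · refine hle.trans ?_
      split_ifs
      · exact inv_le_one_of_one_le₀ p_one'
      · exact le_rfl
    · rw [one_mul]; exact p_one'
  · rw [if_pos hd] at hle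
    apply PB.linX hp0 (inv_nonneg.2 hp0) hle
    rw [inv_mul_cancel₀ p_pos'.ne']

lemma H4_XN_comp (n r : ℕ) : (XN n r).comp (xp n) =
    (X + C ((r : ℤ) : ℚ)) * (X + C (((24 * n - r : ℤ)) : ℚ)) := by
  unfold XN xp
  simp only [add_comp, X_comp, C_comp]
  push_cast
  simp only [map_mul, map_sub, map_natCast, map_ofNat]
  ring

/-- the size of a node at the pole `k` -/
def H4_a (p k r : ℕ) : ℚ :=
  if (p : ℤ) ∣ (r : ℤ) - k ∨ (p : ℤ) ∣ (24 * p - r : ℤ) - k then (p : ℚ)⁻¹ else 1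

lemma H4_a_nonneg (k r : ℕ) : 0 ≤ H4_a p k r := by
  unfold H4_a; split_ifs
  · exact inv_nonneg.2 p_pos'.le
  · exact zero_le_one

lemma H4_a_le_one (k r : ℕ) : H4_a p k r ≤ 1 := by
  unfold H4_a; split_ifs
  · exact inv_le_one_of_one_le₀ p_one'
  · exact le_rfl

lemma H4_node (k r : ℕ) : PB p (p : ℚ) (H4_a p k r) (TS (-(k : ℚ)) ((XN p r).comp (xp p))) := by
  have hp0 : (0 : ℚ) ≤ p := p_pos'.le
  have hinv : (0 : ℚ) ≤ (p : ℚ)⁻¹ := inv_nonneg.2 hp0
  rw [H4_XN_comp, map_mul, TS_lin, TS_lin]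
  unfold H4_a
  split_ifs with h
  · rcases h with h | h
    · have := PB.mul hp0 hinv zero_le_one (H4_lin k (r : ℤ) _ (Or.inr ⟨rfl, h⟩))
        (H4_lin (p := p) k (24 * p - r : ℤ) 1 (Or.inl rfl))
      rwa [mul_one] at this
    · have := PB.mul hp0 zero_le_one hinv (H4_lin (p := p) k (r : ℤ) 1 (Or.inl rfl))
        (H4_lin k (24 * p - r : ℤ) _ (Or.inr ⟨rfl, h⟩))
      rwa [one_mul] at this
  · have := PB.mul hp0 zero_le_one zero_le_one (H4_lin (p := p) k (r : ℤ) 1 (Or.inl rfl))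
        (H4_lin (p := p) k (24 * p - r : ℤ) 1 (Or.inl rfl))
    rwa [one_mul] at this

/-- the factor `x ^ 49` -/
def H4_b (p k : ℕ) : ℚ := if (p : ℤ) ∣ (k : ℤ) then ((p : ℚ)⁻¹) ^ 98 else 1

lemma H4_b_nonneg (k : ℕ) : 0 ≤ H4_b p k := by
  unfold H4_b; split_ifs
  · exact pow_nonneg (inv_nonneg.2 p_pos'.le) _
  · exact zero_le_one

lemma H4_b_le_one (k : ℕ) : H4_b p k ≤ 1 := by
  unfold H4_b; split_ifs
  · exact pow_le_one₀ (inv_nonneg.2 p_pos'.le) (inv_le_one_of_one_le₀ p_one')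
  · exact le_rfl

lemma H4_x49 (k : ℕ) : PB p (p : ℚ) (H4_b p k) (TS (-(k : ℚ)) ((xp p) ^ 49)) := by
  have hp0 : (0 : ℚ) ≤ p := p_pos'.le
  have hinv : (0 : ℚ) ≤ (p : ℚ)⁻¹ := inv_nonneg.2 hp0
  have e1 : xp p = (X + C ((0 : ℤ) : ℚ)) * (X + C (((24 * p : ℤ)) : ℚ)) := by
    unfold xp; push_cast; simp
  rw [map_pow, e1, map_mul, TS_lin, TS_lin]
  unfold H4_b
  split_ifs with h
  · have h1 : (p : ℤ) ∣ (0 : ℤ) - k := by simpa using h
    have h2 : (p : ℤ) ∣ (24 * p : ℤ) - k := (Dvd.intro_left _ rfl).sub h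
    have h3 := PB.pow hp0 (by positivity) (PB.mul hp0 hinv hinv (H4_lin k (0 : ℤ) _ (Or.inr ⟨rfl, h1⟩))
      (H4_lin k (24 * p : ℤ) _ (Or.inr ⟨rfl, h2⟩))) 49
    have h4 : ((p : ℚ)⁻¹) ^ 98 = ((p : ℚ)⁻¹ * (p : ℚ)⁻¹) ^ 49 := by ring
    rw [h4]; exact h3
  · have h3 := PB.pow hp0 (by positivity) (PB.mul hp0 zero_le_one zero_le_one
      (H4_lin (p := p) k (0 : ℤ) 1 (Or.inl rfl)) (H4_lin (p := p) k (24 * p : ℤ) 1 (Or.inl rfl))) 49
    simpa using h3

lemma H4_prod_le {ι : Type*} [DecidableEq ι] (S : Finset ι) (f : ι → ℚ) (h0 : ∀ i, 0 ≤ f i) (h1 : ∀ i, f i ≤ 1)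
    (i : ι) (hi : i ∈ S) : ∏ j ∈ S, f j ≤ f i := by
  rw [← Finset.mul_prod_erase S f hi]
  have := Finset.prod_le_one (s := S.erase i) (f := f) (fun j _ => h0 j) (fun j _ => h1 j)
  exact mul_le_of_le_one_right (h0 i) this

lemma H4_prod_le_one {ι : Type*} (S : Finset ι) (f : ι → ℚ) (h0 : ∀ i, 0 ≤ f i) (h1 : ∀ i, f i ≤ 1) :
    ∏ j ∈ S, f j ≤ 1 := Finset.prod_le_one (fun j _ => h0 j) (fun j _ => h1 j)

/-- the total bound at the pole `k` -/
def H4_A (p r s l l' k : ℕ) : ℚ :=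
  H4_b p k * ((H4_a p k r ^ l * ∏ r' ∈ (Finset.Icc 1 ((p - 1) / 2)).erase r, H4_a p k r' ^ 46) *
    (H4_a p k s ^ l' * ∏ r' ∈ (Finset.Icc 1 ((p - 1) / 2)).erase s, H4_a p k r' ^ 46))

lemma H4_A_nonneg (r s l l' k : ℕ) : 0 ≤ H4_A p r s l l' k := by
  unfold H4_A
  have h1 := H4_b_nonneg (p := p) k
  have h2 : ∀ r, 0 ≤ H4_a p k r := fun r => H4_a_nonneg k r
  have h3 : ∀ S : Finset ℕ, 0 ≤ ∏ r' ∈ S, H4_a p k r' ^ 46 := fun S =>
    Finset.prod_nonneg fun i _ => pow_nonneg (h2 i) _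
  exact mul_nonneg h1 (mul_nonneg (mul_nonneg (pow_nonneg (h2 _) _) (h3 _))
    (mul_nonneg (pow_nonneg (h2 _) _) (h3 _)))

lemma H4_PB (r s l l' k : ℕ) : PB p (p : ℚ) (H4_A p r s l l' k) (TS (-(k : ℚ)) (EE p
    ((XN p r ^ l * ∏ r' ∈ (Finset.Icc 1 ((p - 1) / 2)).erase r, XN p r' ^ 46) *
       (XN p s ^ l' * ∏ r' ∈ (Finset.Icc 1 ((p - 1) / 2)).erase s, XN p r' ^ 46)))) := by
  have hp0 : (0 : ℚ) ≤ p := p_pos'.le
  have h2 : ∀ r, 0 ≤ H4_a p k r := fun r => H4_a_nonneg k r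
  have h3 : ∀ S : Finset ℕ, 0 ≤ ∏ r' ∈ S, H4_a p k r' ^ 46 := fun S =>
    Finset.prod_nonneg fun i _ => pow_nonneg (h2 i) _
  unfold EE H4_A
  simp only [mul_comp, pow_comp, prod_comp, X_comp]
  rw [map_mul, map_mul, map_mul, map_mul, map_prod, map_prod, map_pow (TS (-(k : ℚ))) ((XN p r).comp (xp p)),
    map_pow (TS (-(k : ℚ))) ((XN p s).comp (xp p))]
  have hprod : ∀ S : Finset ℕ, PB p (p : ℚ) (∏ r' ∈ S, H4_a p k r' ^ 46)
      (∏ r' ∈ S, TS (-(k : ℚ)) (((XN p r').comp (xp p)) ^ 46)) := by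
    intro S
    apply PB.prod _ _ _ hp0
    · intro i _; exact pow_nonneg (h2 i) _
    · intro i _
      rw [map_pow]
      exact PB.pow hp0 (h2 i) (H4_node k i) 46
  refine PB.mul hp0 (H4_b_nonneg k) (mul_nonneg (mul_nonneg (pow_nonneg (h2 _) _) (h3 _))
    (mul_nonneg (pow_nonneg (h2 _) _) (h3 _))) (H4_x49 k) ?_
  refine PB.mul hp0 (mul_nonneg (pow_nonneg (h2 _) _) (h3 _)) (mul_nonneg (pow_nonneg (h2 _) _) (h3 _)) ?_ ?_
  · exact PB.mul hp0 (pow_nonneg (h2 _) _) (h3 _) (PB.pow hp0 (h2 _) (H4_node k r) l) (hprod _)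
  · exact PB.mul hp0 (pow_nonneg (h2 _) _) (h3 _) (PB.pow hp0 (h2 _) (H4_node k s) l') (hprod _)

/-- numerical value of the bound -/
lemma H4_A_le (hp60 : 60 ≤ p) (r s l l' : ℕ) (hr1 : 1 ≤ r) (hr2 : 2 * r < p) (hs1 : 1 ≤ s)
    (hs2 : 2 * s < p) (hrs : r ≠ s) (hl : l < 46) (hl' : l' < 46) (k : ℕ) :
    (p : ℚ) ^ (((l : ℤ) + l') - eeN p p k) * H4_A p r s l l' k ≤ (p : ℚ)⁻¹ := by
  have hp1 : (1 : ℚ) ≤ p := p_one'
  have hp0 : (0 : ℚ) < p := p_pos'
  have hpz : (0 : ℤ) < p := by exact_mod_cast hp.out.pos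
  have h2 : ∀ r, 0 ≤ H4_a p k r := fun r => H4_a_nonneg k r
  have h2' : ∀ r, H4_a p k r ≤ 1 := fun r => H4_a_le_one k r
  have h2p : ∀ r, H4_a p k r ^ 46 ≤ 1 := fun r => pow_le_one₀ (h2 r) (h2' r)
  have h2n : ∀ r, 0 ≤ H4_a p k r ^ 46 := fun r => pow_nonneg (h2 r) _
  have h3 : ∀ S : Finset ℕ, 0 ≤ ∏ r' ∈ S, H4_a p k r' ^ 46 := fun S =>
    Finset.prod_nonneg fun i _ => h2n i
  have h3' : ∀ S : Finset ℕ, ∏ r' ∈ S, H4_a p k r' ^ 46 ≤ 1 := fun S =>
    H4_prod_le_one S _ h2n h2p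
  have hb0 := H4_b_nonneg (p := p) k
  have hb1 := H4_b_le_one (p := p) k
  have hal : H4_a p k r ^ l ≤ 1 := pow_le_one₀ (h2 r) (h2' r)
  have hal' : H4_a p k s ^ l' ≤ 1 := pow_le_one₀ (h2 s) (h2' s)
  have hal0 : 0 ≤ H4_a p k r ^ l := pow_nonneg (h2 r) _
  have hal0' : 0 ≤ H4_a p k s ^ l' := pow_nonneg (h2 s) _
  have hrI : r ∈ Finset.Icc 1 ((p - 1) / 2) := by rw [Finset.mem_Icc]; omega
  have hsI : s ∈ Finset.Icc 1 ((p - 1) / 2) := by rw [Finset.mem_Icc]; omega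
  -- reduction to an exponent
  have fin : ∀ m : ℕ, H4_A p r s l l' k ≤ ((p : ℚ)⁻¹) ^ m → (l : ℤ) + l' - eeN p p k - m ≤ -1 →
      (p : ℚ) ^ (((l : ℤ) + l') - eeN p p k) * H4_A p r s l l' k ≤ (p : ℚ)⁻¹ := by
    intro m h4 h5
    calc (p : ℚ) ^ (((l : ℤ) + l') - eeN p p k) * H4_A p r s l l' k
        ≤ (p : ℚ) ^ (((l : ℤ) + l') - eeN p p k) * ((p : ℚ)⁻¹) ^ m :=
          mul_le_mul_of_nonneg_left h4 (zpow_nonneg hp0.le _)
      _ = (p : ℚ) ^ ((l : ℤ) + l' - eeN p p k - m) := by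
          rw [inv_pow, ← zpow_natCast, ← zpow_neg, ← zpow_add₀ hp0.ne']
          congr 1
      _ ≤ (p : ℚ) ^ (-1 : ℤ) := zpow_le_zpow_right₀ hp1 h5
      _ = (p : ℚ)⁻¹ := zpow_neg_one _
  by_cases hk : (p : ℤ) ∣ (k : ℤ)
  · apply fin 98
    · unfold H4_A
      have e1 : H4_b p k = ((p : ℚ)⁻¹) ^ 98 := by unfold H4_b; rw [if_pos hk]
      rw [e1]
      apply mul_le_of_le_one_right (by positivity)
      refine mul_le_one₀ (mul_le_one₀ hal (h3 _) (h3' _)) (mul_nonneg hal0' (h3 _))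
        (mul_le_one₀ hal' (h3 _) (h3' _))
    · rw [H4_ee, if_pos hk]; push_cast; omega
  · have hee : eeN p p k = 0 := by rw [H4_ee, if_neg hk]
    -- the class of k
    obtain ⟨c, hc1, hc2, hc⟩ : ∃ c : ℕ, 1 ≤ c ∧ c ≤ (p - 1) / 2 ∧
        ((p : ℤ) ∣ (c : ℤ) - k ∨ (p : ℤ) ∣ (24 * p - c : ℤ) - k) := by
      have h5 : k % p < p := Nat.mod_lt _ hp.out.pos
      have h6 : 1 ≤ k % p := by
        rcases Nat.eq_zero_or_pos (k % p) with h | h
        · exfalso; apply hk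
          exact_mod_cast Nat.dvd_of_mod_eq_zero h
        · exact h
      have h7 : p * (k / p) + k % p = k := Nat.div_add_mod k p
      have h7z : (p : ℤ) * ((k / p : ℕ) : ℤ) + ((k % p : ℕ) : ℤ) = k := by exact_mod_cast h7
      have hodd : p % 2 = 1 := by
        rcases hp.out.eq_two_or_odd with h | h
        · omega
        · exact h
      by_cases h8 : k % p ≤ (p - 1) / 2
      · refine ⟨k % p, h6, h8, Or.inl ⟨-((k / p : ℕ) : ℤ), ?_⟩⟩
        linarith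
      · refine ⟨p - k % p, by omega, by omega, Or.inr ⟨23 - ((k / p : ℕ) : ℤ), ?_⟩⟩
        rw [Nat.cast_sub h5.le]
        linarith
    have hac : H4_a p k c = (p : ℚ)⁻¹ := by unfold H4_a; rw [if_pos hc]
    by_cases hcr : c = r
    · subst hcr
      apply fin (l + 46)
      · unfold H4_A
        have e1 : ∏ r' ∈ (Finset.Icc 1 ((p - 1) / 2)).erase s, H4_a p k r' ^ 46 ≤ H4_a p k c ^ 46 :=
          H4_prod_le _ (fun r' => H4_a p k r' ^ 46) h2n h2p c (Finset.mem_erase.2 ⟨hrs, hrI⟩)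
        rw [pow_add, ← hac]
        calc _ ≤ 1 * ((H4_a p k c ^ l * 1) * (1 * H4_a p k c ^ 46)) := by
              apply mul_le_mul hb1 _ (mul_nonneg (mul_nonneg hal0 (h3 _)) (mul_nonneg hal0' (h3 _))) zero_le_one
              apply mul_le_mul _ _ (mul_nonneg hal0' (h3 _)) (by rw [mul_one]; exact hal0)
              · exact mul_le_mul_of_nonneg_left (h3' _) hal0
              · exact mul_le_mul hal' e1 (h3 _) zero_le_one
          _ = _ := by ring
      · rw [hee]; push_cast; omega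
    · by_cases hcs : c = s
      · subst hcs
        apply fin (l' + 46)
        · unfold H4_A
          have e1 : ∏ r' ∈ (Finset.Icc 1 ((p - 1) / 2)).erase r, H4_a p k r' ^ 46 ≤ H4_a p k c ^ 46 :=
            H4_prod_le _ (fun r' => H4_a p k r' ^ 46) h2n h2p c (Finset.mem_erase.2 ⟨hcr, hsI⟩)
          rw [pow_add, ← hac]
          calc _ ≤ 1 * ((1 * H4_a p k c ^ 46) * (H4_a p k c ^ l' * 1)) := by
                apply mul_le_mul hb1 _ (mul_nonneg (mul_nonneg hal0 (h3 _)) (mul_nonneg hal0' (h3 _))) zero_le_one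
                apply mul_le_mul _ _ (mul_nonneg hal0' (h3 _)) (by rw [one_mul]; exact h2n _)
                · exact mul_le_mul hal e1 (h3 _) zero_le_one
                · exact mul_le_mul_of_nonneg_left (h3' _) hal0'
            _ = _ := by ring
        · rw [hee]; push_cast; omega
      · apply fin 92
        · unfold H4_A
          have hcI : c ∈ Finset.Icc 1 ((p - 1) / 2) := Finset.mem_Icc.2 ⟨hc1, hc2⟩
          have e1 : ∏ r' ∈ (Finset.Icc 1 ((p - 1) / 2)).erase r, H4_a p k r' ^ 46 ≤ H4_a p k c ^ 46 :=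
            H4_prod_le _ (fun r' => H4_a p k r' ^ 46) h2n h2p c (Finset.mem_erase.2 ⟨hcr, hcI⟩)
          have e2 : ∏ r' ∈ (Finset.Icc 1 ((p - 1) / 2)).erase s, H4_a p k r' ^ 46 ≤ H4_a p k c ^ 46 :=
            H4_prod_le _ (fun r' => H4_a p k r' ^ 46) h2n h2p c (Finset.mem_erase.2 ⟨hcs, hcI⟩)
          rw [show (92 : ℕ) = 46 + 46 from rfl, pow_add, ← hac]
          calc _ ≤ 1 * ((1 * H4_a p k c ^ 46) * (1 * H4_a p k c ^ 46)) := by
                apply mul_le_mul hb1 _ (mul_nonneg (mul_nonneg hal0 (h3 _)) (mul_nonneg hal0' (h3 _))) zero_le_one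
                apply mul_le_mul _ _ (mul_nonneg hal0' (h3 _)) (by rw [one_mul]; exact h2n _)
                · exact mul_le_mul hal e1 (h3 _) zero_le_one
                · exact mul_le_mul hal' e2 (h3 _) zero_le_one
            _ = _ := by ring
        · rw [hee]; push_cast; omega

/-- the half-integer harmonic sums -/
lemma H4_ho_norm (e : ℕ) (M : ℤ) (hM : 2 * |M| + 1 < (p : ℤ) ^ 2) :
    padicNorm p (ho e M) ≤ (p : ℚ) ^ e := by
  have hp1 : (1 : ℚ) ≤ p := p_one'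
  have key : ∀ l : ℤ, 2 * |l| + 1 < (p : ℤ) ^ 2 →
      padicNorm p (1 / ((l : ℚ) + 1 / 2) ^ e) ≤ (p : ℚ) ^ e := by
    intro l hl
    have h0 : (2 * l + 1 : ℤ) ≠ 0 := by omega
    have h1 : |2 * l + 1| < (p : ℤ) ^ 2 := by
      have := abs_add_le (2 * l) 1
      rw [abs_mul] at this
      norm_num at this
      linarith
    have h2 := norm_small (p := p) h0 h1
    have h3 : ((l : ℚ) + 1 / 2) = ((2 * l + 1 : ℤ) : ℚ) / 2 := by push_cast; ring
    rw [padicNorm.div, padicNorm.one, padicNorm_pow', one_div, ← inv_pow]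
    apply pow_le_pow_left₀ (inv_nonneg.2 (padicNorm.nonneg _))
    rw [h3, padicNorm.div, inv_div, h2]
    have h4 : padicNorm p (2 : ℚ) ≤ 1 := by
      have := padicNorm.of_nat (p := p) 2
      exact_mod_cast this
    split_ifs
    · rw [div_inv_eq_mul]
      calc _ ≤ 1 * (p : ℚ) := mul_le_mul_of_nonneg_right h4 p_pos'.le
        _ = p := one_mul _
    · rw [div_one]
      exact h4.trans hp1
  unfold ho
  refine padicNorm.sub.trans (max_le ?_ ?_)
  · apply padicNorm.sum_le' _ (by positivity)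
    intro l hl
    rw [Finset.mem_Ico] at hl
    apply key
    have h5 : |l| ≤ |M| := by
      rw [abs_of_nonneg hl.1, abs_of_nonneg (by omega)]
      omega
    omega
  · apply padicNorm.sum_le' _ (by positivity)
    intro l hl
    rw [Finset.mem_Ico] at hl
    apply key
    have h5 : |l| ≤ |M| := by
      rw [abs_of_neg hl.2, abs_of_neg (by omega)]
      omega
    omega

/-- `xf` is small if all partial fraction coefficients are -/
lemma H4_xf_le (u : ℚ) (hu : padicNorm p u ≤ 1) (hp60 : 60 ≤ p) (P : ℚ[X]) (W : ℚ)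
    (hW : 0 ≤ W) (h : ∀ k ∈ sN p, ∀ i, padicNorm p (pa (sN p) (muN p) P k i) * (p : ℚ) ^ i ≤ W) :
    padicNorm p (xf p u P) ≤ W := by
  have hp1 : (1 : ℚ) ≤ p := p_one'
  have hsq : 60 * p ≤ p ^ 2 := by
    rw [sq]
    exact Nat.mul_le_mul_right p hp60
  unfold xf
  refine padicNorm.sub.trans (max_le ?_ ?_)
  · rw [padicNorm.mul, padicNorm.mul]
    have e1 : padicNorm p (-24 : ℚ) ≤ 1 := by
      rw [padicNorm.neg]
      have := padicNorm.of_nat (p := p) 24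
      exact_mod_cast this
    have e2 : padicNorm p (∑ k ∈ sN p, pa (sN p) (muN p) P k 5) ≤ W := by
      apply padicNorm.sum_le' _ hW
      intro k hk
      refine le_trans ?_ (h k hk 5)
      exact le_mul_of_one_le_right (padicNorm.nonneg _) (one_le_pow₀ hp1)
    calc _ ≤ (1 * W) * 1 := by
          apply mul_le_mul _ hu (padicNorm.nonneg _) (by positivity)
          exact mul_le_mul e1 e2 (padicNorm.nonneg _) zero_le_one
      _ = W := by ring
  · apply padicNorm.sum_le' _ hW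
    intro i _
    apply padicNorm.sum_le' _ hW
    intro k hk
    rw [padicNorm.mul]
    refine le_trans ?_ (h k hk i)
    apply mul_le_mul_of_nonneg_left _ (padicNorm.nonneg _)
    rw [sN, ss, Finset.mem_Icc] at hk
    refine padicNorm.sub.trans (max_le ?_ ?_)
    · rw [padicNorm.mul]
      have e1 : padicNorm p (7 : ℚ) ≤ 1 := by
        have := padicNorm.of_nat (p := p) 7
        exact_mod_cast this
      have e2 : padicNorm p (hs i (k - 1)) ≤ (p : ℚ) ^ i := by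
        apply hs_norm_med
        omega
      calc _ ≤ 1 * (p : ℚ) ^ i := mul_le_mul e1 e2 (padicNorm.nonneg _) zero_le_one
        _ = _ := one_mul _
    · apply H4_ho_norm
      have h1 : (60 : ℤ) * p ≤ (p : ℤ) ^ 2 := by exact_mod_cast hsq
      have h2 : |((k : ℤ) - 4 * p)| ≤ 18 * p := by
        rw [abs_le]
        constructor <;> omega
      have h3 : (0 : ℤ) < p := by exact_mod_cast hp.out.pos
      omega

/-- p-adic size of the partial fraction coefficients -/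
theorem H4_pa_mul {n : ℕ} (hn : 1 ≤ n) (hp2 : 24 * n < p ^ 2) (E : ℚ[X]) {k : ℕ}
    (hk : k ∈ sN n) (A : ℚ) (hA : 0 ≤ A) (hE : PB p (p : ℚ) A (TS (-(k : ℚ)) E)) (i : ℕ) :
    padicNorm p (pa (sN n) (muN n) (PPn n * E) k i) ≤ (p : ℚ) ^ (-(eeN p n k) - i : ℤ) * A := by
  have hp0 : (0 : ℚ) ≤ p := p_pos'.le
  have hpne : (p : ℚ) ≠ 0 := p_pos'.ne'
  have hinv : (0 : ℚ) ≤ (p : ℚ)⁻¹ := inv_nonneg.2 hp0
  have hcst : 0 ≤ padicNorm p (cstN n) := padicNorm.nonneg _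
  have hc : ∀ d ∈ dz, 2 < d := by decide
  have h2 : ∀ d ∈ dz, 2 * d < 24 := by decide
  have key : padicNorm p (pa (sN n) (muN n) (PPn n * E) k i) ≤
      (padicNorm p (cstN n) * ((p : ℚ)⁻¹) ^ (0 * n1 p 24 2 n k + i) * (p : ℚ) ^ (nq p 24 n dz k)) * A := by
    unfold pa
    split_ifs with hi
    · have hPP := PB_PP (p := p) 0 24 2 n dz (by norm_num) (by omega) k
      have hPE := PB.mul hp0 (by positivity) hA hPP hE
      rw [← map_mul] at hPE
      have h1 := pfc_bound (p := p) (sN n) (muN n) (PPn n * E) k (p : ℚ) _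
        (fun m => if (p : ℤ) ∣ (m : ℤ) - k then (p : ℚ) else 1) hp0 (by positivity)
        hPE
        (by
          intro m hm _
          rw [mem_ss_ne (Finset.mem_of_mem_erase hm) hk (Finset.ne_of_mem_erase hm) hp2]
          split_ifs
          · simp
          · simp [(Fact.out : p.Prime).one_lt.le])
        (by
          intro m _
          split_ifs
          · exact hp0
          · exact zero_le_one) (muN n k - i)
      refine h1.trans (le_of_eq ?_)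
      rw [prod_ite_pow, nq_split 24 2 n k dz hn hc h2 hk]
      have h3 : ((p : ℚ)⁻¹) ^ i * (p : ℚ) ^ i = 1 := by
        rw [← mul_pow, inv_mul_cancel₀ hpne, one_pow]
      have h4 : (p : ℚ) ^ (mu 24 n dz k) = (p : ℚ) ^ (mu 24 n dz k - i) * (p : ℚ) ^ i := by
        rw [← pow_add, Nat.sub_add_cancel hi]
      rw [pow_add, pow_add, h4]
      linear_combination (padicNorm p (cst 0 24 2 n dz) * ((p : ℚ)⁻¹) ^ (0 * n1 p 24 2 n k) *
        (p : ℚ) ^ (∑ m ∈ (ss 24 2 n).erase k, mu 24 n dz m * (if (p : ℤ) ∣ (m : ℤ) - k then 1 else 0)) *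
        (p : ℚ) ^ (mu 24 n dz k - i)) * A * (-1) * h3
    · rw [padicNorm.zero]
      positivity
  refine key.trans (le_of_eq ?_)
  rw [norm_cst 0 24 2 n dz hp2 h2 (by norm_num)]
  congr 1
  rw [inv_pow, ← zpow_natCast, ← zpow_natCast, ← zpow_neg, ← zpow_add₀ hpne, ← zpow_add₀ hpne]
  congr 1
  unfold eeN ee
  push_cast; ring

end off

theorem H4_offdiag {p : ℕ} [Fact p.Prime] (hp : 60 ≤ p) (u : ℚ) (hu : padicNorm p u ≤ 1)
    (r s l l' : ℕ) (hr1 : 1 ≤ r) (hr2 : 2 * r < p) (hs1 : 1 ≤ s) (hs2 : 2 * s < p) (hrs : r ≠ s)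
    (hl : l < 46) (hl' : l' < 46) :
    padicNorm p ((p : ℚ) ^ (-(l : ℤ) - (l' : ℤ)) * NL p u
      ((XN p r ^ l * Nod p r 46) * (XN p s ^ l' * Nod p s 46))) ≤ (p : ℚ)⁻¹ := by
  have hp0 : (0 : ℚ) < p := p_pos'
  have hp2 : 24 * p < p ^ 2 := by
    have : 24 * p < p * p := Nat.mul_lt_mul_of_pos_right (by omega) (by omega)
    rw [sq]
    exact this
  unfold Nod
  rw [NL_apply]
  have key := H4_xf_le u hu hp (PPn p * EE p
      ((XN p r ^ l * ∏ r' ∈ (Finset.Icc 1 ((p - 1) / 2)).erase r, XN p r' ^ 46) *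
       (XN p s ^ l' * ∏ r' ∈ (Finset.Icc 1 ((p - 1) / 2)).erase s, XN p r' ^ 46)))
    ((p : ℚ) ^ (-(l : ℤ) - (l' : ℤ)) * (p : ℚ)⁻¹) (by positivity) (by
      intro k hk i
      have h1 := H4_pa_mul (n := p) (by omega) hp2 _ hk _ (H4_A_nonneg r s l l' k)
        (H4_PB r s l l' k) i
      have h2 := H4_A_le hp r s l l' hr1 hr2 hs1 hs2 hrs hl hl' k
      calc _ ≤ ((p : ℚ) ^ (-(eeN p p k) - i : ℤ) * H4_A p r s l l' k) * (p : ℚ) ^ i :=
            mul_le_mul_of_nonneg_right h1 (by positivity)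
        _ = (p : ℚ) ^ (-(l : ℤ) - (l' : ℤ)) *
            ((p : ℚ) ^ (((l : ℤ) + l') - eeN p p k) * H4_A p r s l l' k) := by
            have e1 : (p : ℚ) ^ (-(eeN p p k) - i : ℤ) * (p : ℚ) ^ i =
                (p : ℚ) ^ (-(l : ℤ) - (l' : ℤ)) * (p : ℚ) ^ (((l : ℤ) + l') - eeN p p k) := by
              rw [← zpow_natCast (p : ℚ) i, ← zpow_add₀ hp0.ne', ← zpow_add₀ hp0.ne']
              congr 1
              ring
            linear_combination (H4_A p r s l l' k) * e1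
        _ ≤ _ := mul_le_mul_of_nonneg_left h2 (by positivity))
  rw [padicNorm.mul]
  have h5 : padicNorm p ((p : ℚ) ^ (-(l : ℤ) - (l' : ℤ))) = (p : ℚ) ^ (-(-(l : ℤ) - (l' : ℤ))) :=
    H4_norm_zpow _
  rw [h5]
  calc _ ≤ (p : ℚ) ^ (-(-(l : ℤ) - (l' : ℤ))) * ((p : ℚ) ^ (-(l : ℤ) - (l' : ℤ)) * (p : ℚ)⁻¹) :=
        mul_le_mul_of_nonneg_left key (by positivity)
    _ = (p : ℚ)⁻¹ := by
        rw [← mul_assoc, ← zpow_add₀ hp0.ne', neg_add_cancel, zpow_zero, one_mul]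

end

end Pool.Agent.H336R2.Z5
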