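import Pool.Agent.H128R3.Z5.H5a

/-!
# The local Hankel determinant of size 46 is nonzero (task H5)

The determinant is nonzero modulo `53`.
-/

set_option autoImplicit false

open Polynomial Pool.Agent.H337R2

namespace Pool.Agent.H336R2.Z5

namespace H5

/-- `l` is the list of the first six coefficients of `f` -/
def Rep (f : PowerSeries ℚ) (l : List ℚ) : Prop :=
  ∀ d, d < 6 → PowerSeries.coeff d f = l.getD d 0

theorem sum_range_list (f : ℕ → ℚ) (n : ℕ) :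
    ((List.range n).map f).sum = ∑ m ∈ Finset.range n, f m := by
  induction n with
  | zero => simp
  | succ n ih => rw [List.range_succ, List.map_append, List.sum_append, ih, Finset.sum_range_succ]; simp

theorem Rep.mul {f g : PowerSeries ℚ} {l l' : List ℚ} (hf : Rep f l) (hg : Rep g l') :
    Rep (f * g) (conv l l') := by
  intro d hd
  have h1 : (conv l l').getD d 0 =
      ((List.range (d + 1)).map fun m => l.getD m 0 * l'.getD (d - m) 0).sum := by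
    unfold conv
    rw [List.getD_eq_getElem?_getD, List.getElem?_map, List.getElem?_range hd]
    rfl
  rw [h1, sum_range_list, PowerSeries.coeff_mul,
    Finset.Nat.sum_antidiagonal_eq_sum_range_succ
      (fun i j => PowerSeries.coeff i f * PowerSeries.coeff j g) d]
  apply Finset.sum_congr rfl
  intro m hm
  rw [Finset.mem_range] at hm
  rw [hf m (by omega), hg (d - m) (by omega)]

theorem coeff_lin_pow (c : ℚ) (n d : ℕ) :
    PowerSeries.coeff d ((PowerSeries.X + PowerSeries.C c) ^ n : PowerSeries ℚ) =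
      c ^ (n - d) * (n.choose d : ℚ) := by
  have h : ((PowerSeries.X + PowerSeries.C c) ^ n : PowerSeries ℚ) =
      (((X + C c : ℚ[X]) ^ n : ℚ[X]) : PowerSeries ℚ) := by
    rw [Polynomial.coe_pow, Polynomial.coe_add, Polynomial.coe_X, Polynomial.coe_C]
  rw [h, Polynomial.coeff_coe, Polynomial.coeff_X_add_C_pow]

theorem rep_iv (a : ℚ) (ha : a ≠ 0) (w : ℕ) (hw : w = 2 ∨ w = 4 ∨ w = 6) :
    Rep (iv a ^ w) (ivc a w) := by
  intro d hd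
  rcases hw with rfl | rfl | rfl
  · rw [show (2 : ℕ) = 1 + 1 from rfl, coeff_iv_pow ha]
    interval_cases d <;> simp [ivc, Nat.choose] <;> ring
  · rw [show (4 : ℕ) = 3 + 1 from rfl, coeff_iv_pow ha]
    interval_cases d <;> simp [ivc, Nat.choose] <;> ring
  · rw [show (6 : ℕ) = 5 + 1 from rfl, coeff_iv_pow ha]
    interval_cases d <;> simp [ivc, Nat.choose] <;> ring

theorem om_cases : ∀ b < 21, 3 ≤ b → (om b = 2 ∨ om b = 4 ∨ om b = 6) := by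
  decide

theorem rep_bl (j : ℕ) (L : List ℕ) (hL : ∀ b ∈ L, b ≠ j ∧ 3 ≤ b ∧ b < 21) :
    Rep ((L.map fun b : ℕ => iv ((b : ℚ) - j) ^ om b).prod) (bl j L) := by
  induction L with
  | nil =>
    intro d hd
    simp only [List.map_nil, List.prod_nil, bl, PowerSeries.coeff_one]
    interval_cases d <;> rfl
  | cons b L ih =>
    rw [List.map_cons, List.prod_cons]
    have hb := hL b (by simp)
    refine Rep.mul (rep_iv _ ?_ _ (om_cases b hb.2.2 hb.2.1)) (ih fun c hc => hL c (by simp [hc]))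
    rw [sub_ne_zero]
    exact_mod_cast hb.1

theorem mem_bs {j b : ℕ} : b ∈ bs j ↔ b ≠ j ∧ 3 ≤ b ∧ b < 21 := by
  unfold bs
  rw [List.mem_filter, List.mem_range'_1]
  simp
  tauto

theorem nodup_bs (j : ℕ) : (bs j).Nodup := by
  unfold bs
  exact List.Nodup.filter _ List.nodup_range'

theorem prod_bs (j : ℕ) : (∏ b ∈ (Finset.Icc 3 20).erase j, iv ((b : ℚ) - j) ^ om b) =
    ((bs j).map fun b : ℕ => iv ((b : ℚ) - j) ^ om b).prod := by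
  rw [← List.prod_toFinset _ (nodup_bs j)]
  apply Finset.prod_congr _ fun _ _ => rfl
  ext b
  rw [List.mem_toFinset, mem_bs, Finset.mem_erase, Finset.mem_Icc]
  omega

theorem coeff_ser (j e d : ℕ) (hd : d < 6) : PowerSeries.coeff d (ser j e) =
    ∑ m ∈ Finset.range (d + 1), (-(j : ℚ)) ^ (e - m) * (e.choose m : ℚ) * (bl j (bs j)).getD (d - m) 0 := by
  have h : ser j e = (PowerSeries.X + PowerSeries.C (-(j : ℚ))) ^ e *
      ((bs j).map fun b : ℕ => iv ((b : ℚ) - j) ^ om b).prod := by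
    unfold ser
    rw [prod_bs, mul_comm]
  rw [h, PowerSeries.coeff_mul,
    Finset.Nat.sum_antidiagonal_eq_sum_range_succ
      (fun i k => PowerSeries.coeff i ((PowerSeries.X + PowerSeries.C (-(j : ℚ))) ^ e) *
        PowerSeries.coeff k ((bs j).map fun b : ℕ => iv ((b : ℚ) - j) ^ om b).prod) d]
  apply Finset.sum_congr rfl
  intro m hm
  rw [Finset.mem_range] at hm
  rw [coeff_lin_pow, rep_bl j (bs j) (fun b hb => mem_bs.1 hb) (d - m) (by omega)]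

theorem hs_eq (i M : ℕ) : hs i M = hsc i M := by
  unfold hs hsc
  rw [sum_range_list]

theorem ho_eq (i M : ℕ) : ho i (M : ℤ) = hoc i M := by
  unfold ho hoc
  rw [sum_range_list, Finset.Ico_eq_empty (a := (M : ℤ)) (b := 0) (by omega), Finset.sum_empty, sub_zero]
  symm
  apply Finset.sum_bij (fun (l : ℕ) _ => (l : ℤ))
  · intro a ha
    rw [Finset.mem_range] at ha
    rw [Finset.mem_Ico]
    omega
  · intro a _ b _ h
    exact_mod_cast h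
  · intro b hb
    rw [Finset.mem_Ico] at hb
    exact ⟨b.toNat, by rw [Finset.mem_range]; omega, by omega⟩
  · intro a _
    push_cast
    rfl

theorem ho_neg (i : ℕ) : ho i (-1) = -(1 / (-1 / 2) ^ i) := by
  unfold ho
  rw [Finset.Ico_eq_empty (a := (0 : ℤ)) (b := -1) (by omega), Finset.sum_empty,
    show Finset.Ico (-1 : ℤ) 0 = {-1} from rfl, Finset.sum_singleton]
  norm_num

theorem wt_eq (j i : ℕ) (h1 : 3 ≤ j) (h2 : j ≤ 20) : wt j i = wtc j i := by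
  unfold wt wtc
  rw [hs_eq, hs_eq, show ((20 : ℤ) - j) = ((20 - j : ℕ) : ℤ) by omega, ho_eq]
  by_cases h3 : j = 3
  · rw [if_pos h3, h3, show (((3 : ℕ) : ℤ) - 4) = -1 by norm_num, ho_neg]
  · rw [if_neg h3, show ((j : ℤ) - 4) = ((j - 4 : ℕ) : ℤ) by omega, ho_eq]

theorem wl_getD (j i : ℕ) (hi : i < 6) : (wl j).getD i 0 = wtc j (i + 1) := by
  unfold wl
  rw [List.getD_eq_getElem?_getD, List.getElem?_map, List.getElem?_range hi]
  rfl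

theorem inner (j e : ℕ) (h1 : 3 ≤ j) (h2 : j ≤ 20) :
    ∑ i ∈ Finset.Icc 1 (om j), PowerSeries.coeff (om j - i) (ser j e) * wt j i =
      ∑ m ∈ Finset.range (om j), (-(j : ℚ)) ^ (e - m) * (e.choose m : ℚ) *
        ccg (bl j (bs j)) (wl j) (om j) m := by
  have ho : om j ≤ 6 := by
    rcases om_cases j (by omega) h1 with h | h | h <;> omega
  have e1 : ∀ i ∈ Finset.Icc 1 (om j), PowerSeries.coeff (om j - i) (ser j e) * wt j i =
      ∑ m ∈ Finset.range (om j - i + 1), (-(j : ℚ)) ^ (e - m) * (e.choose m : ℚ) *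
        ((bl j (bs j)).getD (om j - i - m) 0 * (wl j).getD (i - 1) 0) := by
    intro i hi
    rw [Finset.mem_Icc] at hi
    rw [coeff_ser j e (om j - i) (by omega), wt_eq j i h1 h2, wl_getD j (i - 1) (by omega),
      Nat.sub_add_cancel hi.1, Finset.sum_mul]
    apply Finset.sum_congr rfl
    intro m _
    ring
  rw [Finset.sum_congr rfl e1, Finset.sum_comm' (s' := fun m => Finset.Icc 1 (om j - m))
    (t' := Finset.range (om j)) (h := ?_)]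
  · apply Finset.sum_congr rfl
    intro m _
    unfold ccg
    rw [sum_range_list, ← Finset.mul_sum]
    congr 1
    rw [Finset.range_eq_Ico, ← Finset.Ico_succ_right_eq_Icc,
      Finset.sum_Ico_eq_sum_range, Finset.sum_Ico_eq_sum_range]
    apply Finset.sum_congr
    · simp
    · intro i _
      rw [show 1 + i - 1 = 0 + i by omega, show om j - (1 + i) - m = om j - (0 + i + 1) - m by omega]
  · intro i m
    rw [Finset.mem_Icc, Finset.mem_range, Finset.mem_Icc, Finset.mem_range]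
    omega

/-- the integer coefficients -/
def KK : ℕ → List ℤ
  | 3 => K3
  | 4 => K4
  | 5 => K5
  | 6 => K6
  | 7 => K7
  | 8 => K8
  | 9 => K9
  | 10 => K10
  | 11 => K11
  | 12 => K12
  | 13 => K13
  | 14 => K14
  | 15 => K15
  | 16 => K16
  | 17 => K17
  | 18 => K18
  | 19 => K19
  | 20 => K20
  | _ => []

/-- the integer coefficients modulo `53` -/
def KN : ℕ → List ℕ
  | 3 => [11, 16]
  | 4 => [34, 46, 51, 11]
  | 5 => [17, 47, 4, 44, 35, 16]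
  | 6 => [6, 26, 21, 0, 12, 48]
  | 7 => [15, 40, 2, 41, 11, 36]
  | 8 => [49, 9, 25, 37, 30, 47]
  | 9 => [9, 39, 51, 14, 46, 2]
  | 10 => [37, 34, 4, 52, 27, 41]
  | 11 => [8, 50, 23, 35, 30, 17]
  | 12 => [12, 23, 40, 43, 35, 2]
  | 13 => [12, 2, 19, 52, 9, 12]
  | 14 => [12, 21, 49, 2, 12, 18]
  | 15 => [51, 38, 16, 37, 41, 45]
  | 16 => [11, 25, 4, 18, 22, 12]
  | 17 => [34, 13, 11, 18, 7, 11]
  | 18 => [20, 40, 18, 50, 7, 13]
  | 19 => [52, 42, 46, 13]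
  | 20 => [17, 34]
  | _ => []

theorem ccg_eq (j m : ℕ) (h1 : 3 ≤ j) (h2 : j ≤ 20) (hm : m < om j) :
    ccg (bl j (bs j)) (wl j) (om j) m * D0 = (((KK j).getD m 0 : ℤ) : ℚ) := by
  interval_cases j
  · rw [bl_3, wl_3]; exact cc_3 m hm
  · rw [bl_4, wl_4]; exact cc_4 m hm
  · rw [bl_5, wl_5]; exact cc_5 m hm
  · rw [bl_6, wl_6]; exact cc_6 m hm
  · rw [bl_7, wl_7]; exact cc_7 m hm
  · rw [bl_8, wl_8]; exact cc_8 m hm
  · rw [bl_9, wl_9]; exact cc_9 m hm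
  · rw [bl_10, wl_10]; exact cc_10 m hm
  · rw [bl_11, wl_11]; exact cc_11 m hm
  · rw [bl_12, wl_12]; exact cc_12 m hm
  · rw [bl_13, wl_13]; exact cc_13 m hm
  · rw [bl_14, wl_14]; exact cc_14 m hm
  · rw [bl_15, wl_15]; exact cc_15 m hm
  · rw [bl_16, wl_16]; exact cc_16 m hm
  · rw [bl_17, wl_17]; exact cc_17 m hm
  · rw [bl_18, wl_18]; exact cc_18 m hm
  · rw [bl_19, wl_19]; exact cc_19 m hm
  · rw [bl_20, wl_20]; exact cc_20 m hm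

theorem KN_eq : ∀ j < 21, 3 ≤ j → ∀ m < 6, ((KK j).getD m 0 - (((KN j).getD m 0 : ℕ) : ℤ)) % 53 = 0 := by
  decide +kernel

/-- the integers `-D0 * Fm e` -/
def NZ (e : ℕ) : ℤ :=
  ∑ j ∈ Finset.Icc 3 20, ∑ m ∈ Finset.range (om j), (-(j : ℤ)) ^ (e - m) * (e.choose m : ℤ) * (KK j).getD m 0

theorem Fm_eq (e : ℕ) : -(D0 : ℚ) * Fm e = (NZ e : ℚ) := by
  unfold Fm NZ
  rw [neg_mul_neg, Int.cast_sum, Finset.mul_sum]
  apply Finset.sum_congr rfl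
  intro j hj
  rw [Finset.mem_Icc] at hj
  rw [inner j e hj.1 hj.2, Finset.mul_sum, Int.cast_sum]
  apply Finset.sum_congr rfl
  intro m hm
  rw [Finset.mem_range] at hm
  rw [Int.cast_mul, ← ccg_eq j m hj.1 hj.2 hm]
  push_cast
  ring

/-- binomial coefficients, fast -/
def ch (e m : ℕ) : ℕ := e.descFactorial m / m.factorial

/-- fast computation modulo `53` -/
def fN (e : ℕ) : ℕ :=
  ((List.range' 3 18).map fun j => ((List.range (om j)).map fun m =>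
    (53 - j) ^ (e - m) * ch e m * (KN j).getD m 0).sum).sum

theorem sum_range_list' (f : ℕ → ℕ) (n : ℕ) :
    ((List.range n).map f).sum = ∑ m ∈ Finset.range n, f m := by
  induction n with
  | zero => simp
  | succ n ih => rw [List.range_succ, List.map_append, List.sum_append, ih, Finset.sum_range_succ]; simp

theorem fN_eq (e : ℕ) : ((fN e : ℕ) : ZMod 53) = ((NZ e : ℤ) : ZMod 53) := by
  have h1 : fN e = ∑ j ∈ Finset.Icc 3 20, ∑ m ∈ Finset.range (om j),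
      (53 - j) ^ (e - m) * e.choose m * (KN j).getD m 0 := by
    unfold fN
    rw [← List.sum_toFinset _ List.nodup_range']
    have h2 : (List.range' 3 18).toFinset = Finset.Icc 3 20 := by
      ext b
      rw [List.mem_toFinset, List.mem_range'_1, Finset.mem_Icc]
      omega
    rw [h2]
    apply Finset.sum_congr rfl
    intro j _
    rw [sum_range_list']
    apply Finset.sum_congr rfl
    intro m _
    rw [ch, Nat.choose_eq_descFactorial_div_factorial]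
  rw [h1]
  unfold NZ
  rw [Nat.cast_sum, Int.cast_sum]
  apply Finset.sum_congr rfl
  intro j hj
  rw [Finset.mem_Icc] at hj
  rw [Nat.cast_sum, Int.cast_sum]
  apply Finset.sum_congr rfl
  intro m hm
  rw [Finset.mem_range] at hm
  have ho : om j ≤ 6 := by
    rcases om_cases j (by omega) hj.1 with h | h | h <;> omega
  have h3 := KN_eq j (by omega) hj.1 m (by omega)
  have h4 : (((KK j).getD m 0 : ℤ) : ZMod 53) = (((KN j).getD m 0 : ℕ) : ZMod 53) := by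
    have h5 := Int.dvd_of_emod_eq_zero h3
    have h6 := (ZMod.intCast_zmod_eq_zero_iff_dvd ((KK j).getD m 0 - (((KN j).getD m 0 : ℕ) : ℤ)) 53).2 h5
    rw [Int.cast_sub, Int.cast_natCast] at h6
    exact sub_eq_zero.1 h6
  have h7 : (((53 - j : ℕ)) : ZMod 53) = -(j : ZMod 53) := by
    rw [Nat.cast_sub (by omega)]
    have : ((53 : ℕ) : ZMod 53) = 0 := by decide
    rw [this, zero_sub]
  rw [Int.cast_mul, h4]
  push_cast [h7]
  rfl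

/-- the values modulo `53` -/
def gg : List ℕ := [36, 49, 20, 6, 47, 8, 22, 2, 47, 15, 38, 21, 34, 45, 4, 52, 4, 38, 0, 52, 12, 21, 10, 3, 46, 33, 11, 29, 47, 0, 43, 41, 38, 48, 25, 25, 22, 30, 18, 2, 12, 50, 49, 42, 51, 13, 51, 10, 19, 32, 13, 37, 6, 34, 7, 7, 6, 48, 10, 43, 20, 11, 0, 3, 43, 41, 17, 10, 1, 12, 15, 44, 15, 4, 37, 2, 10, 19, 19, 36, 51, 1, 33, 45, 52, 41, 50, 24, 49, 19, 1]

theorem gg_eq : ∀ e < 91, fN e % 53 = gg.getD e 0 := by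
  decide +kernel

/-- the columns of the inverse matrix modulo `53` -/
def BB : List (List ℕ) := [
  [19, 9, 29, 49, 43, 38, 20, 26, 23, 36, 19, 18, 3, 21, 8, 1, 3, 21, 32, 22, 6, 46, 24, 38, 30, 23, 45, 42, 43, 43, 50, 23, 46, 50, 38, 30, 18, 29, 50, 8, 29, 47, 6, 28, 52, 4],
  [9, 13, 52, 2, 25, 37, 24, 17, 34, 29, 41, 1, 8, 20, 1, 4, 6, 14, 11, 34, 37, 25, 7, 50, 31, 31, 21, 7, 17, 43, 7, 7, 16, 10, 38, 48, 17, 32, 21, 44, 35, 15, 52, 39, 11, 32],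
  [29, 52, 39, 5, 28, 25, 5, 14, 0, 37, 0, 25, 8, 16, 47, 38, 15, 9, 39, 13, 23, 49, 36, 39, 21, 17, 21, 13, 39, 12, 22, 42, 41, 25, 28, 23, 8, 9, 3, 7, 17, 1, 8, 34, 1, 52],
  [49, 2, 5, 33, 43, 11, 5, 23, 8, 4, 32, 30, 18, 9, 20, 8, 47, 11, 33, 26, 12, 47, 13, 26, 44, 49, 38, 36, 52, 38, 32, 42, 30, 22, 32, 10, 52, 10, 5, 47, 6, 45, 39, 13, 21, 51],
  [43, 25, 28, 43, 34, 36, 8, 4, 15, 49, 2, 21, 21, 7, 42, 35, 29, 4, 36, 48, 20, 20, 9, 13, 20, 32, 12, 47, 47, 37, 11, 46, 28, 37, 15, 10, 43, 10, 35, 48, 32, 13, 46, 20, 39, 27],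
  [38, 37, 25, 11, 36, 39, 2, 22, 10, 13, 47, 26, 41, 11, 7, 18, 0, 18, 45, 51, 40, 26, 29, 2, 26, 10, 47, 11, 2, 19, 44, 28, 25, 50, 29, 31, 37, 42, 14, 24, 28, 26, 31, 12, 31, 11],
  [20, 24, 5, 5, 8, 2, 28, 11, 47, 32, 2, 46, 13, 15, 22, 29, 16, 46, 45, 1, 11, 1, 5, 32, 41, 4, 18, 4, 15, 25, 21, 38, 5, 51, 13, 6, 27, 19, 22, 9, 43, 46, 10, 19, 51, 13],
  [26, 17, 14, 23, 4, 22, 11, 49, 10, 47, 22, 10, 10, 48, 41, 6, 11, 45, 43, 40, 34, 36, 27, 27, 10, 28, 48, 15, 44, 7, 32, 11, 34, 39, 24, 45, 25, 34, 14, 15, 42, 30, 17, 4, 37, 9],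
  [23, 34, 0, 8, 15, 10, 47, 10, 32, 8, 14, 52, 20, 25, 42, 35, 31, 25, 49, 43, 20, 15, 34, 41, 1, 11, 20, 8, 38, 36, 30, 13, 7, 21, 1, 3, 40, 32, 43, 26, 6, 33, 22, 42, 35, 6],
  [36, 29, 37, 4, 49, 13, 32, 47, 8, 2, 40, 39, 4, 42, 47, 10, 49, 35, 47, 6, 41, 1, 6, 32, 35, 25, 18, 10, 23, 40, 24, 18, 7, 17, 39, 46, 11, 41, 47, 25, 2, 49, 41, 25, 6, 28],
  [19, 41, 0, 32, 2, 47, 2, 22, 14, 40, 14, 27, 13, 28, 3, 42, 5, 13, 52, 49, 31, 6, 22, 25, 16, 24, 33, 8, 49, 16, 6, 27, 26, 21, 30, 13, 6, 6, 1, 29, 11, 11, 45, 28, 39, 39],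
  [18, 1, 25, 30, 21, 26, 46, 10, 52, 39, 27, 45, 3, 37, 10, 2, 39, 3, 16, 24, 26, 51, 4, 43, 18, 33, 19, 4, 30, 39, 23, 1, 15, 14, 28, 22, 28, 26, 1, 47, 42, 25, 28, 20, 50, 16],
  [3, 8, 8, 18, 21, 41, 13, 10, 20, 4, 13, 3, 25, 18, 14, 1, 17, 43, 3, 13, 18, 7, 5, 27, 27, 50, 0, 31, 44, 46, 19, 0, 48, 43, 28, 1, 50, 40, 6, 18, 39, 8, 35, 49, 3, 14],
  [21, 20, 16, 9, 7, 11, 15, 48, 25, 42, 28, 37, 18, 47, 26, 29, 12, 48, 22, 4, 32, 45, 19, 45, 16, 47, 25, 28, 49, 25, 1, 52, 44, 2, 45, 39, 3, 23, 18, 5, 12, 10, 29, 48, 20, 5],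
  [8, 1, 47, 20, 42, 7, 22, 41, 42, 47, 3, 10, 14, 26, 10, 32, 10, 0, 33, 10, 48, 5, 43, 42, 9, 48, 21, 5, 50, 47, 39, 31, 33, 2, 35, 20, 43, 30, 38, 4, 37, 26, 1, 27, 5, 44],
  [1, 4, 38, 8, 35, 18, 29, 6, 35, 10, 42, 2, 1, 29, 32, 16, 16, 31, 50, 4, 4, 49, 15, 23, 43, 43, 38, 46, 50, 50, 41, 11, 10, 26, 15, 11, 11, 36, 29, 21, 7, 2, 12, 33, 33, 33],
  [3, 6, 15, 47, 29, 0, 16, 11, 31, 49, 5, 39, 17, 12, 10, 16, 44, 34, 38, 35, 51, 21, 48, 3, 0, 50, 23, 18, 38, 30, 41, 43, 19, 36, 15, 11, 40, 7, 33, 52, 11, 10, 20, 42, 39, 21],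
  [21, 14, 9, 11, 4, 18, 46, 45, 25, 35, 13, 3, 43, 48, 0, 31, 34, 35, 39, 17, 2, 51, 31, 22, 8, 25, 0, 32, 18, 32, 13, 31, 0, 11, 6, 21, 50, 14, 21, 42, 31, 39, 31, 20, 52, 11],
  [32, 11, 39, 33, 36, 45, 45, 43, 49, 47, 52, 16, 3, 22, 33, 50, 38, 39, 24, 51, 30, 45, 30, 41, 26, 37, 4, 18, 44, 46, 30, 1, 17, 28, 24, 0, 15, 23, 34, 44, 3, 52, 2, 0, 15, 28],
  [22, 34, 13, 26, 48, 51, 1, 40, 43, 6, 49, 24, 13, 4, 10, 4, 35, 17, 51, 9, 11, 36, 25, 51, 26, 30, 31, 30, 2, 18, 3, 26, 42, 3, 2, 2, 16, 40, 0, 5, 43, 36, 16, 40, 42, 6],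
  [6, 37, 23, 12, 20, 40, 11, 34, 20, 41, 31, 26, 18, 32, 48, 4, 51, 2, 30, 11, 0, 3, 16, 35, 9, 6, 37, 10, 11, 18, 37, 2, 13, 27, 25, 40, 47, 48, 44, 43, 24, 52, 45, 8, 10, 20],
  [46, 25, 49, 47, 20, 26, 1, 36, 15, 1, 6, 51, 7, 45, 5, 49, 21, 51, 45, 36, 3, 13, 31, 11, 6, 10, 47, 0, 19, 44, 29, 6, 52, 51, 41, 40, 36, 13, 15, 13, 48, 45, 24, 8, 5, 12],
  [24, 7, 36, 13, 9, 29, 5, 27, 34, 6, 22, 4, 5, 19, 43, 15, 48, 31, 30, 25, 16, 31, 10, 5, 25, 37, 50, 44, 29, 7, 26, 1, 36, 18, 49, 15, 36, 48, 0, 3, 20, 21, 10, 39, 29, 41],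
  [38, 50, 39, 26, 13, 2, 32, 27, 41, 32, 25, 43, 27, 45, 42, 23, 3, 22, 41, 51, 35, 11, 5, 23, 4, 28, 10, 13, 22, 12, 1, 41, 25, 45, 9, 28, 12, 19, 48, 52, 42, 6, 1, 22, 51, 33],
  [30, 31, 21, 44, 20, 26, 41, 10, 1, 35, 16, 18, 27, 16, 9, 43, 0, 8, 26, 26, 9, 6, 25, 4, 18, 8, 38, 9, 4, 31, 1, 26, 29, 51, 4, 46, 43, 1, 17, 5, 24, 3, 33, 29, 9, 4],
  [23, 31, 17, 49, 32, 10, 4, 28, 11, 25, 24, 33, 50, 47, 48, 43, 50, 25, 37, 30, 6, 10, 37, 28, 8, 9, 35, 2, 36, 36, 2, 47, 17, 28, 51, 8, 47, 21, 24, 22, 36, 33, 3, 52, 35, 7],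
  [45, 21, 21, 38, 12, 47, 18, 48, 20, 18, 33, 19, 0, 25, 21, 38, 23, 0, 4, 31, 37, 47, 50, 10, 38, 35, 46, 15, 39, 28, 31, 23, 4, 40, 15, 5, 3, 18, 16, 21, 51, 29, 52, 12, 51, 11],
  [42, 7, 13, 36, 47, 11, 4, 15, 8, 10, 8, 4, 31, 28, 5, 46, 18, 32, 18, 30, 10, 0, 44, 13, 9, 2, 15, 42, 0, 48, 32, 4, 41, 43, 52, 4, 29, 11, 15, 34, 41, 36, 42, 40, 46, 30],
  [43, 17, 39, 52, 47, 2, 15, 44, 38, 23, 49, 30, 44, 49, 50, 50, 38, 18, 44, 2, 11, 19, 29, 22, 4, 36, 39, 0, 19, 45, 2, 43, 2, 43, 10, 35, 13, 19, 18, 14, 17, 31, 4, 48, 38, 3],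
  [43, 43, 12, 38, 37, 19, 25, 7, 36, 40, 16, 39, 46, 25, 47, 50, 30, 32, 46, 18, 18, 44, 7, 12, 31, 36, 28, 48, 45, 45, 25, 1, 29, 29, 27, 2, 36, 3, 17, 34, 24, 5, 38, 19, 37, 50],
  [50, 7, 22, 32, 11, 44, 21, 32, 30, 24, 6, 23, 19, 1, 39, 41, 41, 13, 30, 3, 37, 29, 26, 1, 1, 2, 31, 32, 2, 25, 39, 5, 22, 49, 9, 48, 2, 26, 40, 33, 22, 45, 3, 43, 32, 46],
  [23, 7, 42, 42, 46, 28, 38, 11, 13, 18, 27, 1, 0, 52, 31, 11, 43, 31, 1, 26, 2, 6, 1, 41, 26, 47, 23, 4, 43, 1, 5, 28, 15, 36, 9, 3, 4, 31, 34, 18, 49, 30, 8, 13, 5, 29],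
  [46, 16, 41, 30, 28, 25, 5, 34, 7, 7, 26, 15, 48, 44, 33, 10, 19, 0, 17, 42, 13, 52, 36, 25, 29, 17, 4, 41, 2, 29, 22, 15, 0, 8, 7, 21, 6, 2, 22, 25, 22, 1, 46, 30, 41, 33],
  [50, 10, 25, 22, 37, 50, 51, 39, 21, 17, 21, 14, 43, 2, 2, 26, 36, 11, 28, 3, 27, 51, 18, 45, 51, 28, 40, 43, 43, 29, 49, 36, 8, 51, 47, 4, 47, 8, 26, 28, 35, 18, 4, 15, 37, 40],
  [38, 38, 28, 32, 15, 29, 13, 24, 1, 39, 30, 28, 28, 45, 35, 15, 15, 6, 24, 2, 25, 41, 49, 9, 4, 51, 15, 52, 10, 27, 9, 9, 7, 47, 42, 0, 42, 13, 2, 50, 18, 30, 34, 5, 43, 12],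
  [30, 48, 23, 10, 10, 31, 6, 45, 3, 46, 13, 22, 1, 39, 20, 11, 11, 21, 0, 2, 40, 40, 15, 28, 46, 8, 5, 4, 35, 2, 48, 3, 21, 4, 0, 28, 40, 4, 41, 0, 44, 35, 17, 8, 32, 40],
  [18, 17, 8, 52, 43, 37, 27, 25, 40, 11, 6, 28, 50, 3, 43, 11, 40, 50, 15, 16, 47, 36, 36, 12, 43, 47, 3, 29, 13, 36, 2, 4, 6, 47, 42, 40, 18, 17, 42, 16, 40, 10, 42, 37, 8, 47],
  [29, 32, 9, 10, 10, 42, 19, 34, 32, 41, 6, 26, 40, 23, 30, 36, 7, 14, 23, 40, 48, 13, 48, 19, 1, 21, 18, 11, 19, 3, 26, 31, 2, 8, 13, 4, 17, 7, 32, 23, 3, 30, 44, 5, 0, 44],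
  [50, 21, 3, 5, 35, 14, 22, 14, 43, 47, 1, 1, 6, 18, 38, 29, 33, 21, 34, 0, 44, 15, 0, 48, 17, 24, 16, 15, 18, 17, 40, 34, 22, 26, 2, 41, 42, 32, 40, 0, 28, 13, 25, 29, 37, 8],
  [8, 44, 7, 47, 48, 24, 9, 15, 26, 25, 29, 47, 18, 5, 4, 21, 52, 42, 44, 5, 43, 13, 3, 52, 5, 22, 21, 34, 14, 34, 33, 18, 25, 28, 50, 0, 16, 23, 0, 9, 9, 50, 49, 45, 2, 48],
  [29, 35, 17, 6, 32, 28, 43, 42, 6, 2, 11, 42, 39, 12, 37, 7, 11, 31, 3, 43, 24, 48, 20, 42, 24, 36, 51, 41, 17, 24, 22, 49, 22, 35, 18, 44, 40, 3, 28, 9, 36, 38, 42, 33, 35, 41],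
  [47, 15, 1, 45, 13, 26, 46, 30, 33, 49, 11, 25, 8, 10, 26, 2, 10, 39, 52, 36, 52, 45, 21, 6, 3, 33, 29, 36, 31, 5, 45, 30, 1, 18, 30, 35, 10, 30, 13, 50, 38, 38, 26, 44, 12, 43],
  [6, 52, 8, 39, 46, 31, 10, 17, 22, 41, 45, 28, 35, 29, 1, 12, 20, 31, 2, 16, 45, 24, 10, 1, 33, 3, 52, 42, 4, 38, 3, 8, 46, 4, 34, 17, 42, 44, 25, 49, 42, 26, 28, 14, 5, 41],
  [28, 39, 34, 13, 20, 12, 19, 4, 42, 25, 28, 20, 49, 48, 27, 33, 42, 20, 0, 40, 8, 8, 39, 22, 29, 52, 12, 40, 48, 19, 43, 13, 30, 15, 5, 8, 37, 5, 29, 45, 33, 44, 14, 52, 11, 19],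
  [52, 11, 1, 21, 39, 31, 51, 37, 35, 6, 39, 50, 3, 20, 5, 33, 39, 52, 15, 42, 10, 5, 29, 51, 9, 35, 51, 46, 38, 37, 32, 5, 41, 37, 43, 32, 8, 0, 37, 2, 35, 12, 5, 11, 37, 22],
  [4, 32, 52, 51, 27, 11, 13, 9, 6, 28, 39, 16, 14, 5, 44, 33, 21, 11, 28, 6, 20, 12, 41, 33, 4, 7, 11, 30, 3, 50, 46, 29, 33, 40, 12, 40, 47, 44, 8, 48, 41, 43, 41, 19, 22, 8]]

def dot : List ℕ → List ℕ → ℕ
  | a :: l, b :: l' => a * b + dot l l'
  | _, _ => 0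

theorem dot_eq (l' : List ℕ) : ∀ l : List ℕ, dot l l' =
    ∑ k ∈ Finset.range l'.length, l.getD k 0 * l'.getD k 0 := by
  induction l' with
  | nil => intro l; cases l <;> simp [dot]
  | cons b l' ih =>
    intro l
    cases l with
    | nil => simp [dot]
    | cons a l =>
      rw [dot, ih l, List.length_cons, Finset.sum_range_succ']
      simp [add_comm]

theorem BB_len : ∀ j < 46, (BB.getD j []).length = 46 := by
  decide +kernel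

theorem BB_mul : ∀ i < 46, ∀ j < 46, dot (gg.drop i) (BB.getD j []) % 53 = if i = j then 1 else 0 := by
  decide +kernel

/-- the matrix modulo `53` -/
def Gm : Matrix (Fin 46) (Fin 46) (ZMod 53) := Matrix.of fun l l' => ((gg.getD (l.1 + l'.1) 0 : ℕ) : ZMod 53)

/-- the inverse matrix modulo `53` -/
def Bm : Matrix (Fin 46) (Fin 46) (ZMod 53) := Matrix.of fun l l' => (((BB.getD l'.1 []).getD l.1 0 : ℕ) : ZMod 53)

theorem mul_Bm : Gm * Bm = 1 := by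
  ext i j
  rw [Matrix.mul_apply, Matrix.one_apply]
  have h1 : ∑ k : Fin 46, Gm i k * Bm k j =
      ((dot (gg.drop i.1) (BB.getD j.1 []) : ℕ) : ZMod 53) := by
    rw [dot_eq, BB_len j.1 j.2, Nat.cast_sum, Finset.sum_range]
    apply Finset.sum_congr rfl
    intro k _
    show ((gg.getD (i.1 + k.1) 0 : ℕ) : ZMod 53) * (((BB.getD j.1 []).getD k.1 0 : ℕ) : ZMod 53) = _
    rw [Nat.cast_mul]
    congr 2
    rw [List.getD_eq_getElem?_getD, List.getD_eq_getElem?_getD, List.getElem?_drop]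
  rw [h1]
  have h2 := BB_mul i.1 i.2 j.1 j.2
  rw [← ZMod.natCast_mod, h2]
  by_cases h : i = j
  · rw [if_pos h, if_pos (congrArg Fin.val h), Nat.cast_one]
  · rw [if_neg h, if_neg (fun h3 => h (Fin.ext h3)), Nat.cast_zero]

/-- the integer matrix -/
def Nm : Matrix (Fin 46) (Fin 46) ℤ := Matrix.of fun l l' => NZ (l.1 + l'.1)

theorem det_Nm : Nm.det ≠ 0 := by
  intro h
  have h0 : Nm.map (Int.cast : ℤ → ZMod 53) = Gm := by
    ext l l'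
    show ((NZ (l.1 + l'.1) : ℤ) : ZMod 53) = ((gg.getD (l.1 + l'.1) 0 : ℕ) : ZMod 53)
    rw [← fN_eq, ← gg_eq (l.1 + l'.1) (by omega), ZMod.natCast_mod]
  have h1 : Gm.det = 0 := by
    rw [← h0]
    have h2 := (Int.castRingHom (ZMod 53)).map_det Nm
    rw [h, map_zero] at h2
    exact h2.symm
  have h3 := congrArg Matrix.det mul_Bm
  rw [Matrix.det_mul, h1, zero_mul, Matrix.det_one] at h3
  exact absurd h3 (by decide)

end H5

open H5 in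
theorem H5_local : (Matrix.of fun l l' : Fin 46 => Fm (l.1 + l'.1)).det ≠ 0 := by
  intro h
  apply det_Nm
  have h1 : Nm.map (Int.cast : ℤ → ℚ) =
      (-(D0 : ℚ)) • (Matrix.of fun l l' : Fin 46 => Fm (l.1 + l'.1)) := by
    ext l l'
    exact (Fm_eq (l.1 + l'.1)).symm
  have h3 : (Nm.map (Int.cast : ℤ → ℚ)).det = 0 := by
    rw [h1, Matrix.det_smul, h, mul_zero]
  have h4 := (Int.castRingHom ℚ).map_det Nm
  have h5 : ((Nm.det : ℤ) : ℚ) = 0 := by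
    rw [← h3]
    exact h4
  exact_mod_cast h5

end Pool.Agent.H336R2.Z5
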