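import Pool.Agent.H336R2.Z5.H6pre
import Pool.Agent.H336R2.HD.A1
import Pool.Agent.H336R2.Z5.H3
import Pool.Agent.H336R2.Z5.H4
import Pool.Agent.H336R2.Z5.H5

/-! Task H6: non-vanishing of the determinant. -/

open Polynomial Pool.Agent.H337R2 Filter Topology

namespace Pool.Agent.H336R2.Z5

noncomputable section

theorem H6_nonvanish (u : ℚ) : ∃ p0 : ℕ, ∀ p : ℕ, p0 ≤ p → p.Prime → DET p u (mN p) ≠ 0 :=
  H6_of (fun N m _ _ _ e P hP h => Pool.Agent.H336R2.HD.A2_gram_ne N m e P hP h)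
    (fun hp u hu r hr1 hr2 => H3_diag hp u hu r hr1 hr2)
    (fun hp u hu r s l l' hr1 hr2 hs1 hs2 hrs hl hl' =>
      H4_offdiag hp u hu r s l l' hr1 hr2 hs1 hs2 hrs hl hl')
    H5_local u

end

end Pool.Agent.H336R2.Z5
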