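import Pool.Agent.H336R2.Z5.Defs

/-!
# Definitions of the local p-adic part
-/

open Polynomial Pool.Agent.H337R2

namespace Pool.Agent.H336R2.Z5

noncomputable section

/-- capped greedy cost: `∑_{a < g} max 0 (y - 2a)` -/
def TC (g : ℕ) (y : ℤ) : ℤ := ∑ a ∈ Finset.range g, max 0 (y - 2 * a)

/-- evaluation points `-w/2` in the class of `-k` mod `p` (double coordinate): integers outside `[3n, 21n]` and
half-integers between `4n` and `20n` -/
def Dz (n p k : ℕ) : Finset ℕ := (Finset.range (48 * n)).filter fun w =>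
  (p : ℤ) ∣ (w : ℤ) - 2 * k ∧ w ≠ 0 ∧
    ((Even w ∧ (w < 6 * n ∨ 42 * n < w)) ∨ (¬ Even w ∧ 8 * n < w ∧ w < 40 * n))

/-- the class of `r` contains two poles -/
def multi (n p r : ℕ) : Prop :=
  ∃ k ∈ Finset.Icc (3 * n) (21 * n), ∃ k' ∈ Finset.Icc (3 * n) (21 * n), k ≠ k' ∧ k % p = r ∧ k' % p = r

/-- number of nodes needed in the class of `r` -/
def gz (n p r : ℕ) : ℕ := by
  classical exact if multi n p r then 6 else (Dz n p r).card

/-- node polynomial of the point `-w/2` -/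
def XD (n w : ℕ) : ℚ[X] := X + C ((w : ℚ) * (48 * n - w) / 4)

/-- product of the node polynomials -/
def ND (n : ℕ) (ω : ℕ → ℕ) (i : ℕ) : ℚ[X] := ∏ l ∈ Finset.range i, XD n (ω l)

/-- polynomials with zeros at consecutive integers (in `t`), around `-12n` -/
def CP (n i : ℕ) : ℚ[X] := ∏ l ∈ Finset.range i, (X + C (144 * (n : ℚ) ^ 2 - (l : ℚ) ^ 2))

end

end Pool.Agent.H336R2.Z5
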