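import Mathlib

/-!
# The greedy algorithm with capacities
-/

namespace Pool.Agent.H336R2.Z5

theorem P1a_greedy_caps {K : Type} [DecidableEq K] (S : Finset K) (c : K → ℤ) (g : K → ℕ) (μ : ℤ) (m : ℕ) :
    ∃ (κ : ℕ → Option K) (s : ℕ → ℤ), (∀ i k, κ i = some k → k ∈ S) ∧ (∀ i, μ ≤ s i) ∧
      (∑ i ∈ Finset.range m, s i ≤ m * μ + ∑ k ∈ S, ∑ a ∈ Finset.range (g k), max 0 (c k - 2 * (a : ℤ) - μ)) ∧
      (∀ i k, κ i = some k → ((Finset.range i).filter fun l => κ l = some k).card < g k) ∧
      ∀ k ∈ S, ∀ i, c k - 2 * (((Finset.range i).filter fun l => κ l = some k).card : ℤ) ≤ s i ∨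
        g k ≤ ((Finset.range i).filter fun l => κ l = some k).card := by
  classical
  -- choice of the next node
  have hpick : ∀ l : K → ℕ, ∃ o : Option K, (∀ k, o = some k → k ∈ S ∧ l k < g k ∧
      ∀ k' ∈ S, l k' < g k' → c k' - 2 * (l k' : ℤ) ≤ c k - 2 * (l k : ℤ)) ∧
      (o = none → ∀ k ∈ S, g k ≤ l k) := by
    intro l
    rcases (S.filter fun k => l k < g k).eq_empty_or_nonempty with h | h
    · refine ⟨none, by simp, fun _ k hk => ?_⟩
      by_contra hlt
      have : k ∈ S.filter fun k => l k < g k := Finset.mem_filter.2 ⟨hk, by omega⟩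
      rw [h] at this
      simp at this
    · obtain ⟨k, hk, hmax⟩ := Finset.exists_max_image _ (fun k => c k - 2 * (l k : ℤ)) h
      rw [Finset.mem_filter] at hk
      refine ⟨some k, ?_, by simp⟩
      intro k0 hk0
      obtain rfl : k = k0 := by simpa using hk0
      exact ⟨hk.1, hk.2, fun k' hk' hl => hmax k' (Finset.mem_filter.2 ⟨hk', hl⟩)⟩
  choose pick hp1 hp2 using hpick
  obtain ⟨L, hL0, hLs⟩ : ∃ L : ℕ → K → ℕ, (∀ k, L 0 k = 0) ∧
      ∀ i k, L (i + 1) k = L i k + if pick (L i) = some k then 1 else 0 :=
    ⟨fun i => Nat.rec (motive := fun _ => K → ℕ) (fun _ => 0)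
      (fun _ l k => l k + if pick l = some k then 1 else 0) i, fun _ => rfl, fun _ _ => rfl⟩
  have hcount : ∀ i k, ((Finset.range i).filter fun l => pick (L l) = some k).card = L i k := by
    intro i k
    induction i with
    | zero => simp [hL0]
    | succ i ih =>
      rw [hLs, Finset.range_add_one, Finset.filter_insert]
      split_ifs with h
      · rw [Finset.card_insert_of_notMem (by simp), ih]
      · rw [ih, add_zero]
  let sq : ℕ → ℤ := fun i => match pick (L i) with
    | none => μ
    | some k => max μ (c k - 2 * ((L i k : ℕ) : ℤ))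
  let Φ : (K → ℕ) → ℤ := fun l => ∑ k ∈ S, ∑ a ∈ (Finset.range (g k)).filter (fun a => l k ≤ a), max 0 (c k - 2 * (a : ℤ) - μ)
  have hΦ0 : ∀ l, 0 ≤ Φ l := fun l => Finset.sum_nonneg fun _ _ => Finset.sum_nonneg fun _ _ => le_max_left _ _
  refine ⟨fun i => pick (L i), sq, fun i k h => (hp1 _ k h).1, ?_, ?_, ?_, ?_⟩
  · intro i
    simp only [sq]
    split
    · exact le_rfl
    · exact le_max_left _ _
  · have key : ∀ m : ℕ, ∑ i ∈ Finset.range m, sq i + Φ (L m) ≤ m * μ + Φ (L 0) := by
      intro m
      induction m with
      | zero => simp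
      | succ m ih =>
        rw [Finset.sum_range_succ]
        have hstep : sq m + Φ (L (m + 1)) ≤ μ + Φ (L m) := by
          simp only [sq]
          split
          · rename_i h
            have : L (m + 1) = L m := by
              funext k; rw [hLs, h]; simp
            rw [this]
          · rename_i k0 h
            obtain ⟨hk0S, hk0g, -⟩ := hp1 _ _ h
            have h1 : Φ (L m) - Φ (L (m + 1)) = max 0 (c k0 - 2 * ((L m k0 : ℕ) : ℤ) - μ) := by
              simp only [Φ]
              rw [← Finset.add_sum_erase S _ hk0S,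
                ← Finset.add_sum_erase S (fun k => ∑ a ∈ (Finset.range (g k)).filter (fun a => L (m + 1) k ≤ a), max 0 (c k - 2 * (a : ℤ) - μ)) hk0S]
              have h2 : ∑ k ∈ S.erase k0, ∑ a ∈ (Finset.range (g k)).filter (fun a => L (m + 1) k ≤ a), max 0 (c k - 2 * (a : ℤ) - μ) =
                  ∑ k ∈ S.erase k0, ∑ a ∈ (Finset.range (g k)).filter (fun a => L m k ≤ a), max 0 (c k - 2 * (a : ℤ) - μ) := by
                apply Finset.sum_congr rfl
                intro k hk
                have : L (m + 1) k = L m k := by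
                  rw [hLs, h, if_neg, add_zero]
                  intro h3
                  exact (Finset.ne_of_mem_erase hk) (by simpa using h3.symm)
                rw [this]
              have h3 : (Finset.range (g k0)).filter (fun a => L m k0 ≤ a) =
                  insert (L m k0) ((Finset.range (g k0)).filter (fun a => L (m + 1) k0 ≤ a)) := by
                have hs : L (m + 1) k0 = L m k0 + 1 := by rw [hLs, if_pos h]
                ext a
                simp only [Finset.mem_filter, Finset.mem_range, Finset.mem_insert]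
                omega
              have h4 : L m k0 ∉ (Finset.range (g k0)).filter (fun a => L (m + 1) k0 ≤ a) := by
                have hs : L (m + 1) k0 = L m k0 + 1 := by rw [hLs, if_pos h]
                simp [hs]
              rw [h2, h3, Finset.sum_insert h4]
              ring
            have h5 : max μ (c k0 - 2 * ((L m k0 : ℕ) : ℤ)) = μ + max 0 (c k0 - 2 * ((L m k0 : ℕ) : ℤ) - μ) := by
              rcases le_total μ (c k0 - 2 * ((L m k0 : ℕ) : ℤ)) with h6 | h6
              · rw [max_eq_right h6, max_eq_right (by linarith)]; ring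
              · rw [max_eq_left h6, max_eq_left (by linarith)]; ring
            rw [h5]
            linarith
        push_cast
        linarith
    have h6 : Φ (L 0) = ∑ k ∈ S, ∑ a ∈ Finset.range (g k), max 0 (c k - 2 * (a : ℤ) - μ) := by
      simp only [Φ, hL0]
      simp
    have := key m
    rw [h6] at this
    linarith [hΦ0 (L m)]
  · intro i k h
    rw [hcount]
    exact (hp1 _ k h).2.1
  · intro k hk i
    rw [hcount]
    by_cases hg : g k ≤ L i k
    · exact Or.inr hg
    · left
      simp only [sq]
      split
      · rename_i h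
        exact absurd (hp2 _ h k hk) hg
      · rename_i k0 h
        exact ((hp1 _ _ h).2.2 k hk (by omega)).trans (le_max_right _ _)

end Pool.Agent.H336R2.Z5
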