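import Pool.Agent.H336R2.Z5.P1a

/-!
# The greedy algorithm with capacities, in terms of `TC`
-/

namespace Pool.Agent.H336R2.Z5

theorem P1_greedy_sum {K : Type} [DecidableEq K] (S : Finset K) (c : K → ℤ) (g : K → ℕ) (μ : ℤ) (m : ℕ) :
    ∃ (κ : ℕ → Option K) (s : ℕ → ℤ), (∀ i k, κ i = some k → k ∈ S) ∧ (∀ i, μ ≤ s i) ∧
      (∑ i ∈ Finset.range m, s i ≤ m * μ + ∑ k ∈ S, ∑ a ∈ Finset.range (g k), max 0 (c k - μ - 2 * (a : ℤ))) ∧
      (∀ i k, κ i = some k → ((Finset.range i).filter fun l => κ l = some k).card < g k) ∧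
      ∀ k ∈ S, ∀ i, c k - 2 * (((Finset.range i).filter fun l => κ l = some k).card : ℤ) ≤ s i ∨
        g k ≤ ((Finset.range i).filter fun l => κ l = some k).card := by
  obtain ⟨κ, s, h1, h2, h3, h4, h5⟩ := P1a_greedy_caps S c g μ m
  refine ⟨κ, s, h1, h2, h3.trans (le_of_eq ?_), h4, h5⟩
  congr 1
  refine Finset.sum_congr rfl fun k _ => Finset.sum_congr rfl fun a _ => ?_
  congr 1
  ring

end Pool.Agent.H336R2.Z5
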