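import Pool.Agent.H336R2.Z5.P1c

/-!
# The one-site block: p-adic size of the linear form for `p ≥ 9n`
-/

open Polynomial Pool.Agent.H337R2

namespace Pool.Agent.H336R2.Z5

noncomputable section

/-! ### partial fractions: evaluation at a point -/

lemma P1_pf_eval (s : Finset ℕ) (μ : ℕ → ℕ) (P : ℚ[X]) (hdeg : P.degree < (QQ s μ).degree) (r : ℕ)
    (hr : ∀ k ∈ s, μ k ≤ r) (c : ℚ) (hc : ∀ m ∈ s, μ m ≠ 0 → c + (m : ℚ) ≠ 0) :
    P.eval c = (QQ s μ).eval c * ∑ k ∈ s, ∑ i ∈ Finset.Icc 1 r, pa s μ P k i / (c + k) ^ i := by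
  conv_lhs => rw [pf_identity s μ P hdeg]
  rw [Polynomial.eval_finsetSum, Finset.mul_sum]
  apply Finset.sum_congr rfl
  intro k hk
  rw [Polynomial.eval_finsetSum]
  -- reorganise the right-hand side
  have h1 : ∑ i ∈ Finset.Icc 1 r, pa s μ P k i / (c + k) ^ i =
      ∑ i ∈ Finset.Icc 1 (μ k), pfc s μ P k (μ k - i) / (c + k) ^ i := by
    have hsub : Finset.Icc 1 (μ k) ⊆ Finset.Icc 1 r := Finset.Icc_subset_Icc le_rfl (hr k hk)
    rw [← Finset.sum_subset hsub]
    · apply Finset.sum_congr rfl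
      intro i hi
      rw [Finset.mem_Icc] at hi
      unfold pa
      rw [if_pos hi.2]
    · intro i _ hi
      unfold pa
      rw [if_neg, zero_div]
      intro h
      rw [Finset.mem_Icc] at *
      omega
  rw [h1]
  rw [Finset.mul_sum]
  have h2 : ∑ i ∈ Finset.Icc 1 (μ k), (QQ s μ).eval c * (pfc s μ P k (μ k - i) / (c + k) ^ i) =
      ∑ j ∈ Finset.range (μ k), (QQ s μ).eval c * (pfc s μ P k j / (c + k) ^ (μ k - j)) := by
    symm
    apply Finset.sum_bij (fun j _ => μ k - j)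
    · intro j hj
      rw [Finset.mem_range] at hj
      rw [Finset.mem_Icc]; omega
    · intro a ha b hb hab
      rw [Finset.mem_range] at ha hb
      omega
    · intro b hb
      rw [Finset.mem_Icc] at hb
      exact ⟨μ k - b, by rw [Finset.mem_range]; omega, by omega⟩
    · intro j hj
      rw [Finset.mem_range] at hj
      rw [Nat.sub_sub_self hj.le]
  rw [h2]
  apply Finset.sum_congr rfl
  intro j hj
  rw [Finset.mem_range] at hj
  have hne : c + (k : ℚ) ≠ 0 := hc k hk (by omega)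
  rw [QQ_erase s μ hk]
  simp only [Polynomial.eval_mul, Polynomial.eval_C, Polynomial.eval_pow, Polynomial.eval_add, Polynomial.eval_X]
  have h3 : (c + (k : ℚ)) ^ μ k = (c + k) ^ j * (c + k) ^ (μ k - j) := by
    rw [← pow_add]; congr 1; omega
  rw [h3]
  field_simp


lemma P1_mu_le (n k : ℕ) : muN n k ≤ 6 := by
  unfold muN mu
  exact List.countP_le_length

lemma P1_deg {n : ℕ} (hn : 1 ≤ n) (E : ℚ[X]) (hE : E.natDegree ≤ 96 * n + 4) :
    (PPn n * E).degree < (QQ (sN n) (muN n)).degree := by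
  have h1 : (QQ (sN n) (muN n)).natDegree = 96 * n + 6 := by
    rw [QQ_natDegree, sum_mu_one 24 2 n dz hn (by decide) (by decide)]
    simp only [List.map_cons, List.map_nil, List.sum_cons, List.sum_nil]
    ring
  have h2 : (PPn n).natDegree ≤ 1 + 2 * 0 * (2 * n) := PP_natDegree_le 0 24 2 n dz
  have h3 : (PPn n * E).natDegree ≤ (PPn n).natDegree + E.natDegree := Polynomial.natDegree_mul_le
  rw [Polynomial.degree_eq_natDegree (QQ_monic _ _).ne_zero]
  exact lt_of_le_of_lt Polynomial.degree_le_natDegree (by exact_mod_cast (by omega))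

variable {p : ℕ} [hp : Fact p.Prime]

/-- the principal part of an isolated pole at a zero of the numerator -/
lemma P1_pp_le {n : ℕ} (hn : 1 ≤ n) (E : ℚ[X]) (hdeg : E.natDegree ≤ 96 * n + 4) (W : ℚ) (hW : 0 ≤ W)
    (hpa : ∀ k ∈ sN n, ∀ i, 1 ≤ i → padicNorm p (pa (sN n) (muN n) (PPn n * E) k i) ≤ W)
    {k : ℕ} (hk : k ∈ sN n) (c : ℚ) (hE0 : E.eval c = 0) (hck : c + k ≠ 0)
    (hunit : ∀ k' ∈ Finset.Icc (3 * n) (21 * n), k' ≠ k → padicNorm p (c + k') = 1) :
    padicNorm p (∑ i ∈ Finset.Icc 1 6, pa (sN n) (muN n) (PPn n * E) k i / (c + k) ^ i) ≤ W := by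
  have hc : ∀ m ∈ sN n, muN n m ≠ 0 → c + (m : ℚ) ≠ 0 := by
    intro m _ hm0
    by_cases hmk : m = k
    · rw [hmk]; exact hck
    · intro h
      have := hunit m (P1_mem_Icc hm0) hmk
      rw [h, padicNorm.zero] at this
      exact zero_ne_one this
  have h1 := P1_pf_eval (sN n) (muN n) (PPn n * E) (P1_deg hn E hdeg) 6 (fun k _ => P1_mu_le n k) c hc
  have hQ : (QQ (sN n) (muN n)).eval c ≠ 0 := by
    unfold QQ
    rw [Polynomial.eval_prod]
    apply Finset.prod_ne_zero_iff.2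
    intro m hm
    simp only [Polynomial.eval_pow, Polynomial.eval_add, Polynomial.eval_X, Polynomial.eval_C]
    by_cases hm0 : muN n m = 0
    · rw [hm0, pow_zero]; exact one_ne_zero
    · exact pow_ne_zero _ (hc m hm hm0)
  rw [Polynomial.eval_mul, hE0, mul_zero] at h1
  have h2 : ∑ k ∈ sN n, ∑ i ∈ Finset.Icc 1 6, pa (sN n) (muN n) (PPn n * E) k i / (c + k) ^ i = 0 := by
    rcases mul_eq_zero.1 h1.symm with h | h
    · exact absurd h hQ
    · exact h
  rw [← Finset.add_sum_erase _ _ hk] at h2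
  have h3 : ∑ i ∈ Finset.Icc 1 6, pa (sN n) (muN n) (PPn n * E) k i / (c + k) ^ i =
      - ∑ k' ∈ (sN n).erase k, ∑ i ∈ Finset.Icc 1 6, pa (sN n) (muN n) (PPn n * E) k' i / (c + k') ^ i := by
    linarith
  rw [h3, padicNorm.neg]
  apply padicNorm.sum_le' _ hW
  intro k' hk'
  apply padicNorm.sum_le' _ hW
  intro i hi
  rw [Finset.mem_Icc] at hi
  by_cases hm : muN n k' = 0
  · rw [pa_zero_of_mu hi.1 hm, zero_div, padicNorm.zero]
    exact hW
  · rw [padicNorm.div, padicNorm_pow', hunit k' (P1_mem_Icc hm) (Finset.ne_of_mem_erase hk'), one_pow, div_one]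
    exact hpa k' (Finset.mem_of_mem_erase hk') i hi.1

theorem P1_xf_le {n p : ℕ} [Fact p.Prime] (hn : 2 ≤ n) (hp9 : 9 * n ≤ p) (q : ℕ) (u : ℚ) (hu : UInt q u)
    (E : ℚ[X]) (hdeg : E.natDegree ≤ 96 * n + 4) (W : ℚ) (A : ℕ → ℚ) (hA : ∀ k, 0 ≤ A k)
    (hE : ∀ k ∈ Finset.Icc (3 * n) (21 * n), PB p (p : ℚ) (A k) (TS (-(k : ℚ)) E))
    (hE1 : ∀ k ∈ Finset.Icc (3 * n) (21 * n), PB p 1 1 (TS (-(k : ℚ)) E))
    (hc : padicNorm p (cstN n) ≤ W)
    (h : ∀ k ∈ Finset.Icc (3 * n) (21 * n), (p : ℚ) ^ (-(eeN p n k)) * A k ≤ W ∨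
      ((∀ k' ∈ Finset.Icc (3 * n) (21 * n), k' ≠ k → ¬ (p : ℤ) ∣ (k' : ℤ) - k) ∧
        ∀ w ∈ Dz n p k, E.eval (-(w : ℚ) / 2) = 0)) :
    padicNorm p ((q : ℚ) * xf n u (PPn n * E)) ≤ W := by
  have hp' := (Fact.out : p.Prime)
  have hW : 0 ≤ W := le_trans (padicNorm.nonneg _) hc
  have hpo : p ≠ 2 := by omega
  have hp2 : 48 * n < p ^ 2 := by nlinarith
  have hn1 : 1 ≤ n := by omega
  have hpa : ∀ k ∈ sN n, ∀ i, 1 ≤ i → padicNorm p (pa (sN n) (muN n) (PPn n * E) k i) ≤ W := by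
    intro k hk i hi
    by_cases hm : muN n k = 0
    · rw [pa_zero_of_mu hi hm, padicNorm.zero]
      exact hW
    have hkI := P1_mem_Icc hm
    rcases h k hkI with h3 | ⟨h3, -⟩
    · exact (P1_left hn1 hp2 hpo E W (A k) (hA k) hk (hE k hkI) h3 i).1
    · refine (P1_pa_mul_int hn1 E hk 1 zero_le_one (hE1 k hkI) i h3).trans ?_
      rw [mul_one]
      exact hc
  apply P1_xf_aux n q u hu _ W hW
  · intro k hk
    exact hpa k hk 5 (by norm_num)
  intro k hk
  by_cases hm : muN n k = 0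
  · apply padicNorm.sum_le' _ hW
    intro i hi
    rw [Finset.mem_Icc] at hi
    rw [pa_zero_of_mu hi.1 hm, zero_mul, padicNorm.zero]
    exact hW
  have hkI := P1_mem_Icc hm
  rcases h k hkI with h3 | ⟨hal, hz⟩
  · apply padicNorm.sum_le' _ hW
    intro i hi
    exact (P1_left hn1 hp2 hpo E W (A k) (hA k) hk (hE k hkI) h3 i).2
  -- the isolated pole
  rw [Finset.mem_Icc] at hkI
  have hint : ∀ l ∈ Finset.range (k - 1),
      padicNorm p (∑ i ∈ Finset.Icc 1 6, pa (sN n) (muN n) (PPn n * E) k i / ((l : ℚ) + 1) ^ i) ≤ W := by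
    intro l hl
    rw [Finset.mem_range] at hl
    by_cases hd : (p : ℤ) ∣ (l : ℤ) + 1
    · have e1 : (l : ℚ) + 1 = ((l : ℚ) + 1 - k) + k := by ring
      rw [e1]
      have hlt : k - (l + 1) < 3 * n := by
        by_contra hcon
        have hmem : k - (l + 1) ∈ Finset.Icc (3 * n) (21 * n) := by rw [Finset.mem_Icc]; omega
        refine hal _ hmem (by omega) ?_
        have : ((k - (l + 1) : ℕ) : ℤ) - k = -((l : ℤ) + 1) := by
          rw [Nat.cast_sub (by omega)]; push_cast; ring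
        rw [this]
        exact hd.neg_right
      apply P1_pp_le hn1 E hdeg W hW hpa hk
      · have hw := hz (2 * (k - (l + 1))) (by
          unfold Dz
          rw [Finset.mem_filter, Finset.mem_range]
          refine ⟨by omega, ?_, by omega, Or.inl ⟨even_two_mul _, Or.inl (by omega)⟩⟩
          have : ((2 * (k - (l + 1)) : ℕ) : ℤ) - 2 * k = -(2 * ((l : ℤ) + 1)) := by
            rw [Nat.cast_mul, Nat.cast_sub (by omega)]; push_cast; ring
          rw [this]
          exact (hd.mul_left 2).neg_right)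
        have e2 : (l : ℚ) + 1 - k = -((2 * (k - (l + 1)) : ℕ) : ℚ) / 2 := by
          rw [Nat.cast_mul, Nat.cast_sub (by omega)]; push_cast; ring
        rw [e2]
        exact hw
      · have : (l : ℚ) + 1 - k + k = (l : ℚ) + 1 := by ring
        rw [this]
        positivity
      · intro k' hk' hkk
        have h1 : (l : ℚ) + 1 - k + k' = (((l : ℤ) + 1 + ((k' : ℤ) - k) : ℤ) : ℚ) := by push_cast; ring
        rw [h1, padicNorm.int_eq_one_iff]
        intro h2
        exact hal k' hk' hkk ((Int.dvd_add_right hd).1 h2)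
    · apply padicNorm.sum_le' _ hW
      intro i hi
      rw [Finset.mem_Icc] at hi
      have h1 : padicNorm p ((l : ℚ) + 1) = 1 := by
        have : (l : ℚ) + 1 = (((l : ℤ) + 1 : ℤ) : ℚ) := by push_cast; ring
        rw [this, padicNorm.int_eq_one_iff]
        exact hd
      rw [padicNorm.div, padicNorm_pow', h1, one_pow, div_one]
      exact hpa k hk i hi.1
  have hhalf : ∀ l : ℤ, (0 ≤ l ∧ l < (k : ℤ) - 4 * n ∨ (k : ℤ) - 4 * n ≤ l ∧ l < 0) →
      padicNorm p (∑ i ∈ Finset.Icc 1 6, pa (sN n) (muN n) (PPn n * E) k i / ((l : ℚ) + 1 / 2) ^ i) ≤ W := by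
    intro l hl
    by_cases hd : (p : ℤ) ∣ 2 * l + 1
    · have hl0 : 0 ≤ l ∧ l < (k : ℤ) - 4 * n := by
        rcases hl with h | h
        · exact h
        · exfalso
          have h1 := Int.le_of_dvd (a := p) (b := |2 * l + 1|) (abs_pos.2 (by omega)) ((dvd_abs _ _).2 hd)
          rw [abs_of_neg (by omega)] at h1
          omega
      have h9 : (p : ℤ) ≤ 2 * l + 1 := Int.le_of_dvd (by omega) hd
      obtain ⟨m, hm'⟩ : ∃ m : ℕ, l = m := ⟨l.toNat, by omega⟩
      subst hm'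
      have e1 : (((m : ℤ) : ℚ)) + 1 / 2 = ((((m : ℤ) : ℚ)) + 1 / 2 - k) + k := by ring
      rw [e1]
      apply P1_pp_le hn1 E hdeg W hW hpa hk
      · have hw := hz (2 * k - (2 * m + 1)) (by
          unfold Dz
          rw [Finset.mem_filter, Finset.mem_range]
          refine ⟨by omega, ?_, by omega, Or.inr ⟨?_, by omega, by omega⟩⟩
          · have : ((2 * k - (2 * m + 1) : ℕ) : ℤ) - 2 * k = -(2 * (m : ℤ) + 1) := by
              rw [Nat.cast_sub (by omega)]; push_cast; ring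
            rw [this]
            exact hd.neg_right
          · rw [Nat.not_even_iff_odd]
            exact ⟨k - m - 1, by omega⟩)
        have e2 : ((m : ℤ) : ℚ) + 1 / 2 - k = -((2 * k - (2 * m + 1) : ℕ) : ℚ) / 2 := by
          rw [Nat.cast_sub (by omega)]; push_cast; ring
        rw [e2]
        exact hw
      · have : ((m : ℤ) : ℚ) + 1 / 2 - k + k = ((m : ℤ) : ℚ) + 1 / 2 := by ring
        rw [this]
        positivity
      · intro k' hk' hkk
        have h1 : ((m : ℤ) : ℚ) + 1 / 2 - k + k' = (((m : ℤ) + ((k' : ℤ) - k) : ℤ) : ℚ) + 1 / 2 := by push_cast; ring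
        rw [h1, P1_half_norm hpo, padicNorm.int_eq_one_iff]
        intro h2
        have h4 : (p : ℤ) ∣ 2 * ((k' : ℤ) - k) := by
          have : 2 * ((m : ℤ) + ((k' : ℤ) - k)) + 1 = (2 * (m : ℤ) + 1) + 2 * ((k' : ℤ) - k) := by ring
          rw [this] at h2
          exact (Int.dvd_add_right hd).1 h2
        rcases (Nat.prime_iff_prime_int.1 hp').dvd_or_dvd h4 with h5 | h5
        · have := Int.le_of_dvd (by norm_num) h5
          omega
        · exact hal k' hk' hkk h5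
    · apply padicNorm.sum_le' _ hW
      intro i hi
      rw [Finset.mem_Icc] at hi
      have h1 : padicNorm p ((l : ℚ) + 1 / 2) = 1 := by
        rw [P1_half_norm hpo, padicNorm.int_eq_one_iff]
        exact hd
      rw [padicNorm.div, padicNorm_pow', h1, one_pow, div_one]
      exact hpa k hk i hi.1
  have hsplit : ∑ i ∈ Finset.Icc 1 6, pa (sN n) (muN n) (PPn n * E) k i *
      (7 * hs i (k - 1) - ho i ((k : ℤ) - 4 * n)) =
      7 * ∑ l ∈ Finset.range (k - 1), ∑ i ∈ Finset.Icc 1 6, pa (sN n) (muN n) (PPn n * E) k i / ((l : ℚ) + 1) ^ i -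
      (∑ l ∈ Finset.Ico 0 ((k : ℤ) - 4 * n), ∑ i ∈ Finset.Icc 1 6,
          pa (sN n) (muN n) (PPn n * E) k i / ((l : ℚ) + 1 / 2) ^ i -
        ∑ l ∈ Finset.Ico ((k : ℤ) - 4 * n) 0, ∑ i ∈ Finset.Icc 1 6,
          pa (sN n) (muN n) (PPn n * E) k i / ((l : ℚ) + 1 / 2) ^ i) := by
    rw [Finset.sum_comm (s := Finset.range (k - 1)), Finset.sum_comm (s := Finset.Ico 0 ((k : ℤ) - 4 * n)),
      Finset.sum_comm (s := Finset.Ico ((k : ℤ) - 4 * n) 0), Finset.mul_sum, ← Finset.sum_sub_distrib,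
      ← Finset.sum_sub_distrib]
    apply Finset.sum_congr rfl
    intro i _
    unfold hs ho
    simp only [div_eq_mul_inv, one_mul, ← Finset.mul_sum]
    ring
  rw [hsplit]
  refine padicNorm.sub.trans (max_le ?_ (padicNorm.sub.trans (max_le ?_ ?_)))
  · rw [padicNorm.mul]
    have h7 : padicNorm p (7 : ℚ) ≤ 1 := by exact_mod_cast padicNorm.of_nat 7
    calc _ ≤ 1 * W := mul_le_mul h7 (padicNorm.sum_le' hint hW) (padicNorm.nonneg _) zero_le_one
      _ = W := one_mul W
  · apply padicNorm.sum_le' _ hW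
    intro l hl
    rw [Finset.mem_Ico] at hl
    exact hhalf l (Or.inl hl)
  · apply padicNorm.sum_le' _ hW
    intro l hl
    rw [Finset.mem_Ico] at hl
    exact hhalf l (Or.inr hl)

end

end Pool.Agent.H336R2.Z5
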