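import Pool.Agent.H336R2.Z5.P1Defs

/-!
# p-adic size of the partial fraction coefficients and of the harmonic sums
-/

open Polynomial Pool.Agent.H337R2

namespace Pool.Agent.H336R2.Z5

noncomputable section

theorem P1_pa_mul {n p : ℕ} [Fact p.Prime] (hn : 1 ≤ n) (hp2 : 48 * n < p ^ 2) (E : ℚ[X]) {k : ℕ}
    (hk : k ∈ sN n) (A : ℚ) (hA : 0 ≤ A) (hE : PB p (p : ℚ) A (TS (-(k : ℚ)) E)) (i : ℕ) :
    padicNorm p (pa (sN n) (muN n) (PPn n * E) k i) ≤ (p : ℚ) ^ (-(eeN p n k) - i : ℤ) * A := by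
  have hp0 : (0 : ℚ) ≤ p := p_pos'.le
  have hpne : (p : ℚ) ≠ 0 := p_pos'.ne'
  have hinv : (0 : ℚ) ≤ (p : ℚ)⁻¹ := inv_nonneg.2 hp0
  have hcst : 0 ≤ padicNorm p (cstN n) := padicNorm.nonneg _
  have hc : ∀ d ∈ dz, 2 < d := by decide
  have h2 : ∀ d ∈ dz, 2 * d < 24 := by decide
  have hp3 : 24 * n < p ^ 2 := by omega
  have key : padicNorm p (pa (sN n) (muN n) (PPn n * E) k i) ≤
      (padicNorm p (cstN n) * ((p : ℚ)⁻¹) ^ (0 * n1 p 24 2 n k + i) * (p : ℚ) ^ (nq p 24 n dz k)) * A := by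
    unfold pa
    split_ifs with hi
    · have hPP := PB_PP (p := p) 0 24 2 n dz (by norm_num) (by omega) k
      have hPE := PB.mul hp0 (by positivity) hA hPP hE
      rw [← map_mul] at hPE
      have h1 := pfc_bound (p := p) (sN n) (muN n) (PPn n * E) k (p : ℚ) _
        (fun m => if (p : ℤ) ∣ (m : ℤ) - k then (p : ℚ) else 1) hp0 (by positivity)
        hPE
        (by
          intro m hm _
          rw [mem_ss_ne (Finset.mem_of_mem_erase hm) hk (Finset.ne_of_mem_erase hm) hp3]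
          split_ifs
          · simp
          · simp [(Fact.out : p.Prime).one_lt.le])
        (by
          intro m _
          split_ifs
          · exact hp0
          · exact zero_le_one) (muN n k - i)
      refine h1.trans (le_of_eq ?_)
      rw [prod_ite_pow, nq_split 24 2 n k dz hn hc h2 hk]
      have h3 : ((p : ℚ)⁻¹) ^ i * (p : ℚ) ^ i = 1 := by
        rw [← mul_pow, inv_mul_cancel₀ hpne, one_pow]
      have h4 : (p : ℚ) ^ (mu 24 n dz k) = (p : ℚ) ^ (mu 24 n dz k - i) * (p : ℚ) ^ i := by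
        rw [← pow_add, Nat.sub_add_cancel hi]
      rw [pow_add, pow_add, h4]
      linear_combination (padicNorm p (cst 0 24 2 n dz) * ((p : ℚ)⁻¹) ^ (0 * n1 p 24 2 n k) *
        (p : ℚ) ^ (∑ m ∈ (ss 24 2 n).erase k, mu 24 n dz m * (if (p : ℤ) ∣ (m : ℤ) - k then 1 else 0)) *
        (p : ℚ) ^ (mu 24 n dz k - i)) * A * (-1) * h3
    · rw [padicNorm.zero]
      positivity
  refine key.trans (le_of_eq ?_)
  rw [norm_cst 0 24 2 n dz hp3 h2 (by norm_num)]
  congr 1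
  rw [inv_pow, ← zpow_natCast, ← zpow_natCast, ← zpow_neg, ← zpow_add₀ hpne, ← zpow_add₀ hpne]
  congr 1
  unfold eeN ee
  push_cast; ring

lemma P1_mem_Icc {n k : ℕ} (h : muN n k ≠ 0) : k ∈ Finset.Icc (3 * n) (21 * n) := by
  obtain ⟨d, hd, hd1, hd2⟩ := mu_ne_zero h
  have hd3 : 3 ≤ d := by
    have : ∀ d ∈ dz, 3 ≤ d := by decide
    exact this d hd
  have hd4 := Nat.mul_le_mul_right n hd3
  rw [Finset.mem_Icc]
  omega

theorem P1_pa_mul_int {n p : ℕ} [Fact p.Prime] (_hn : 1 ≤ n) (E : ℚ[X]) {k : ℕ}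
    (_hk : k ∈ sN n) (A : ℚ) (hA : 0 ≤ A) (hE : PB p 1 A (TS (-(k : ℚ)) E)) (i : ℕ)
    (hno : ∀ k' ∈ Finset.Icc (3 * n) (21 * n), k' ≠ k → ¬ (p : ℤ) ∣ (k' : ℤ) - k) :
    padicNorm p (pa (sN n) (muN n) (PPn n * E) k i) ≤ padicNorm p (cstN n) * A := by
  have hcst : 0 ≤ padicNorm p (cstN n) := padicNorm.nonneg _
  unfold pa
  split_ifs with hi
  · have hPP := PB_PP_int (p := p) 0 24 2 n dz k 1 le_rfl
    have hPE := PB.mul zero_le_one hcst hA hPP hE
    rw [← map_mul] at hPE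
    have h1 := pfc_bound (p := p) (sN n) (muN n) (PPn n * E) k 1 _
      (fun _ => 1) zero_le_one (by positivity) hPE
      (by
        intro m hm hm0
        have h2 := hno m (P1_mem_Icc hm0) (Finset.ne_of_mem_erase hm)
        have h3 := (padicNorm.int_eq_one_iff (p := p) _).2 h2
        push_cast at h3
        rw [h3]; simp)
      (by intro m _; exact zero_le_one) (muN n k - i)
    simpa using h1
  · rw [padicNorm.zero]
    positivity

section ho

variable {p : ℕ} [hp : Fact p.Prime]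

/-- a general bound of the half-integer sums -/
lemma P1_ho_gen (e : ℕ) (M : ℤ) (B : ℚ) (hB : 0 ≤ B)
    (h : ∀ l : ℤ, (0 ≤ l ∧ l < M ∨ M ≤ l ∧ l < 0) → padicNorm p (1 / ((l : ℚ) + 1 / 2) ^ e) ≤ B) :
    padicNorm p (ho e M) ≤ B := by
  unfold ho
  refine padicNorm.sub.trans (max_le ?_ ?_)
  · apply padicNorm.sum_le' _ hB
    intro l hl
    rw [Finset.mem_Ico] at hl
    exact h l (Or.inl hl)
  · apply padicNorm.sum_le' _ hB
    intro l hl
    rw [Finset.mem_Ico] at hl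
    exact h l (Or.inr hl)

lemma P1_half_norm (hp2 : p ≠ 2) (l : ℤ) : padicNorm p ((l : ℚ) + 1 / 2) = padicNorm p ((2 * l + 1 : ℤ) : ℚ) := by
  have h1 : ((2 * l + 1 : ℤ) : ℚ) = 2 * ((l : ℚ) + 1 / 2) := by push_cast; ring
  rw [h1, padicNorm.mul]
  have h2 : padicNorm p ((2 : ℕ) : ℚ) = 1 := by
    rw [padicNorm.nat_eq_one_iff]
    intro h
    exact hp2 ((Nat.prime_dvd_prime_iff_eq hp.out Nat.prime_two).1 h)
  have h3 : padicNorm p (2 : ℚ) = 1 := by exact_mod_cast h2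
  rw [h3, one_mul]

lemma P1_term_unit (hp2 : p ≠ 2) (e : ℕ) (l : ℤ) (h : ¬ (p : ℤ) ∣ 2 * l + 1) :
    padicNorm p (1 / ((l : ℚ) + 1 / 2) ^ e) = 1 := by
  rw [padicNorm.div, padicNorm.one, padicNorm_pow', P1_half_norm hp2, (padicNorm.int_eq_one_iff _).2 h]
  simp

lemma P1_term_med (hp2 : p ≠ 2) (e : ℕ) (l : ℤ) (h : |2 * l + 1| < (p : ℤ) ^ 2) :
    padicNorm p (1 / ((l : ℚ) + 1 / 2) ^ e) ≤ (p : ℚ) ^ e := by
  have hp1 : (1 : ℚ) ≤ p := p_one'
  rw [padicNorm.div, padicNorm.one, padicNorm_pow', P1_half_norm hp2, one_div, ← inv_pow]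
  apply pow_le_pow_left₀ (inv_nonneg.2 (padicNorm.nonneg _))
  rw [norm_small (p := p) (a := 2 * l + 1) (by omega) h]
  split_ifs
  · simp
  · simpa using hp.out.one_lt.le

/-- half-integer sums without terms divisible by `p` -/
theorem P1_ho_small (hp2 : p ≠ 2) (e : ℕ) (M : ℤ) (hM : 2 * |M| ≤ p) : padicNorm p (ho e M) ≤ 1 := by
  have hab := abs_le.1 (show |M| ≤ |M| from le_rfl)
  apply P1_ho_gen e M 1 zero_le_one
  intro l hl
  rw [P1_term_unit hp2]
  intro hdvd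
  have h0 : 2 * l + 1 ≠ 0 := by omega
  have h1 := Int.le_of_dvd (a := (p : ℤ)) (b := |2 * l + 1|) (by positivity) ((dvd_abs _ _).2 hdvd)
  have h2 : |2 * l + 1| < p := by
    rw [abs_lt]
    constructor <;> omega
  omega

theorem P1_ho_med (hp2 : p ≠ 2) (e : ℕ) (M : ℤ) (hM : 2 * |M| ≤ (p : ℤ) ^ 2) : padicNorm p (ho e M) ≤ (p : ℚ) ^ e := by
  have hab := abs_le.1 (show |M| ≤ |M| from le_rfl)
  apply P1_ho_gen e M _ (by positivity)
  intro l hl
  apply P1_term_med hp2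
  rw [abs_lt]
  constructor <;> omega

theorem P1_ho_crude (e : ℕ) (M : ℤ) (B : ℚ) (hM : 2 * |(M : ℚ)| ≤ B) (hB : 1 ≤ B) :
    padicNorm p (ho e M) ≤ B ^ e := by
  apply P1_ho_gen e M _ (by positivity)
  intro l hl
  rw [padicNorm.div, padicNorm.one, padicNorm_pow', one_div, ← inv_pow]
  apply pow_le_pow_left₀ (inv_nonneg.2 (padicNorm.nonneg _))
  have h1 : ((2 * l + 1 : ℤ) : ℚ) = 2 * ((l : ℚ) + 1 / 2) := by push_cast; ring
  have h2 := norm_inv_le (p := p) (a := 2 * l + 1) (by omega) (M := B) (by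
    refine le_trans ?_ hM
    have h3 : |2 * l + 1| ≤ 2 * |M| := by
      have hab := abs_le.1 (show |M| ≤ |M| from le_rfl)
      rw [abs_le]
      constructor <;> omega
    exact_mod_cast h3)
  refine le_trans ?_ h2
  rw [h1, padicNorm.mul]
  have h4 : padicNorm p (2 : ℚ) ≤ 1 := by exact_mod_cast padicNorm.of_nat 2
  have h5 : (l : ℚ) + 1 / 2 ≠ 0 := by
    intro h0
    have : ((2 * l + 1 : ℤ) : ℚ) = 0 := by rw [h1, h0, mul_zero]
    have h6 : (2 * l + 1 : ℤ) = 0 := by exact_mod_cast this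
    omega
  have h7 : 0 < padicNorm p ((l : ℚ) + 1 / 2) :=
    lt_of_le_of_ne (padicNorm.nonneg _) (Ne.symm (padicNorm.nonzero h5))
  have h8 : 0 < padicNorm p (2 : ℚ) :=
    lt_of_le_of_ne (padicNorm.nonneg _) (Ne.symm (padicNorm.nonzero (by norm_num)))
  apply inv_anti₀ (mul_pos h8 h7)
  calc _ ≤ 1 * padicNorm p ((l : ℚ) + 1 / 2) := mul_le_mul_of_nonneg_right h4 h7.le
    _ = _ := one_mul _

end ho

section xf

variable {p : ℕ} [hp : Fact p.Prime]

/-- the estimate of the linear form from the estimates of its terms -/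
lemma P1_xf_aux (n : ℕ) (q : ℕ) (u : ℚ) (hu : UInt q u) (P : ℚ[X]) (W : ℚ) (hW : 0 ≤ W)
    (h1 : ∀ k ∈ sN n, padicNorm p (pa (sN n) (muN n) P k 5) ≤ W)
    (h2 : ∀ k ∈ sN n, padicNorm p (∑ i ∈ Finset.Icc 1 6, pa (sN n) (muN n) P k i *
      (7 * hs i (k - 1) - ho i ((k : ℤ) - 4 * n))) ≤ W) :
    padicNorm p ((q : ℚ) * xf n u P) ≤ W := by
  have hq1 : padicNorm p (q : ℚ) ≤ 1 := padicNorm.of_nat q
  unfold xf
  rw [mul_sub]
  refine padicNorm.sub.trans (max_le ?_ ?_)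
  · obtain ⟨z, hz⟩ := hu.2
    have e : (q : ℚ) * (-24 * (∑ k ∈ sN n, pa (sN n) (muN n) P k 5) * u) =
        (((-24 * z : ℤ)) : ℚ) * ∑ k ∈ sN n, pa (sN n) (muN n) P k 5 := by
      push_cast
      rw [← hz]
      ring
    rw [e, padicNorm.mul]
    calc _ ≤ 1 * W := mul_le_mul (padicNorm.of_int _) (padicNorm.sum_le' h1 hW) (padicNorm.nonneg _) zero_le_one
      _ = W := one_mul W
  · rw [padicNorm.mul, Finset.sum_comm]
    calc _ ≤ 1 * W := mul_le_mul hq1 (padicNorm.sum_le' h2 hW) (padicNorm.nonneg _) zero_le_one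
      _ = W := one_mul W

/-- terms for which the left alternative holds -/
lemma P1_left {n : ℕ} (hn : 1 ≤ n) (hp2 : 48 * n < p ^ 2) (hpo : p ≠ 2) (E : ℚ[X]) (W : ℚ) {k : ℕ} (A : ℚ)
    (hA : 0 ≤ A) (hk : k ∈ sN n)
    (hE : PB p (p : ℚ) A (TS (-(k : ℚ)) E)) (h : (p : ℚ) ^ (-(eeN p n k)) * A ≤ W) (i : ℕ) :
    padicNorm p (pa (sN n) (muN n) (PPn n * E) k i) ≤ W ∧
    padicNorm p (pa (sN n) (muN n) (PPn n * E) k i * (7 * hs i (k - 1) - ho i ((k : ℤ) - 4 * n))) ≤ W := by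
  have hp0 : (p : ℚ) ≠ 0 := p_pos'.ne'
  have hp1 : (1 : ℚ) ≤ p := p_one'
  have hpa := P1_pa_mul hn hp2 E hk A hA hE i
  have hk2 := hk
  rw [sN, ss, Finset.mem_Icc] at hk2
  constructor
  · refine hpa.trans (le_trans ?_ h)
    apply mul_le_mul_of_nonneg_right _ hA
    apply zpow_le_zpow_right₀ hp1
    have : (0 : ℤ) ≤ i := by positivity
    linarith
  · have h4 : padicNorm p (7 * hs i (k - 1) - ho i ((k : ℤ) - 4 * n)) ≤ (p : ℚ) ^ i := by
      refine padicNorm.sub.trans (max_le ?_ ?_)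
      · rw [padicNorm.mul]
        have h7 : padicNorm p (7 : ℚ) ≤ 1 := by exact_mod_cast padicNorm.of_nat 7
        calc _ ≤ 1 * (p : ℚ) ^ i := mul_le_mul h7 (hs_norm_med i (k - 1) (by omega))
              (padicNorm.nonneg _) zero_le_one
          _ = _ := one_mul _
      · apply P1_ho_med hpo
        have hab : |(k : ℤ) - 4 * n| ≤ 24 * n := by
          rw [abs_le]
          constructor <;> omega
        have h5 : ((48 * n : ℕ) : ℤ) < ((p ^ 2 : ℕ) : ℤ) := by exact_mod_cast hp2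
        push_cast at h5
        linarith
    rw [padicNorm.mul]
    refine (mul_le_mul hpa h4 (padicNorm.nonneg _) (by positivity)).trans (le_trans (le_of_eq ?_) h)
    rw [← zpow_natCast (p : ℚ) i, mul_right_comm, ← zpow_add₀ hp0]
    congr 2
    ring

end xf

/-- all classes estimated by the left alternative -/
theorem P1_xf_le_all {n p : ℕ} [Fact p.Prime] (hn : 1 ≤ n) (hp2 : 48 * n < p ^ 2) (q : ℕ) (u : ℚ)
    (hu : UInt q u) (E : ℚ[X]) (W : ℚ) (hW : 0 ≤ W) (A : ℕ → ℚ) (hA : ∀ k, 0 ≤ A k)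
    (hE : ∀ k ∈ Finset.Icc (3 * n) (21 * n), PB p (p : ℚ) (A k) (TS (-(k : ℚ)) E))
    (h : ∀ k ∈ Finset.Icc (3 * n) (21 * n), (p : ℚ) ^ (-(eeN p n k)) * A k ≤ W) :
    padicNorm p ((q : ℚ) * xf n u (PPn n * E)) ≤ W := by
  have hpo : p ≠ 2 := by
    rintro rfl
    omega
  have key : ∀ i, 1 ≤ i → ∀ k ∈ sN n,
      padicNorm p (pa (sN n) (muN n) (PPn n * E) k i) ≤ W ∧
      padicNorm p (pa (sN n) (muN n) (PPn n * E) k i * (7 * hs i (k - 1) - ho i ((k : ℤ) - 4 * n))) ≤ W := by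
    intro i hi k hk
    by_cases hm : muN n k = 0
    · rw [pa_zero_of_mu hi hm]
      simp [hW]
    have hkI := P1_mem_Icc hm
    exact P1_left hn hp2 hpo E W (A k) (hA k) hk (hE k hkI) (h k hkI) i
  apply P1_xf_aux n q u hu _ W hW
  · intro k hk
    exact (key 5 (by norm_num) k hk).1
  · intro k hk
    apply padicNorm.sum_le' _ hW
    intro i hi
    rw [Finset.mem_Icc] at hi
    exact (key i hi.1 k hk).2

end

end Pool.Agent.H336R2.Z5
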