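import Pool.Agent.H336R2.Z5.P1c
import Pool.Agent.H336R2.HD.A1
import Pool.Agent.H336R2.HD.A3
import Pool.Agent.H336R2.HD.C4

/-!
# Small primes
-/

open Polynomial Pool.Agent.H337R2

namespace Pool.Agent.H336R2.Z5

noncomputable section

theorem P1_CP (n i : ℕ) : (CP n i).Monic ∧ (CP n i).natDegree = i := by
  unfold CP
  constructor
  · exact Polynomial.monic_prod_of_monic _ _ fun _ _ => Polynomial.monic_X_add_C _
  · rw [Polynomial.natDegree_prod_of_monic _ _ fun _ _ => Polynomial.monic_X_add_C _,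
      Finset.sum_congr rfl fun l _ => Polynomial.natDegree_X_add_C _]
    simp

lemma P1_TS_xp (n k : ℕ) : TS (-(k : ℚ)) (xp n) =
    (PowerSeries.X + PowerSeries.C ((-(k : ℤ) : ℤ) : ℚ)) *
      (PowerSeries.X + PowerSeries.C ((24 * n - (k : ℤ) : ℤ) : ℚ)) := by
  unfold xp
  rw [map_mul, TS_X, TS_lin]
  push_cast
  congr 3
  ring

lemma P1_TS_CP (n k i : ℕ) : TS (-(k : ℚ)) ((CP n i).comp (xp n)) =
    ∏ l ∈ Finset.range i, ((PowerSeries.X + PowerSeries.C ((12 * n - k - l : ℤ) : ℚ)) *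
      (PowerSeries.X + PowerSeries.C ((12 * n - k + l : ℤ) : ℚ))) := by
  unfold CP
  rw [Polynomial.prod_comp, map_prod]
  apply Finset.prod_congr rfl
  intro l _
  rw [Polynomial.add_comp, Polynomial.X_comp, Polynomial.C_comp]
  have : xp n + C (144 * (n : ℚ) ^ 2 - (l : ℚ) ^ 2) =
      (X + C (12 * (n : ℚ) - l)) * (X + C (12 * (n : ℚ) + l)) := by
    unfold xp
    simp only [map_sub, map_add, map_mul, map_pow, Nat.cast_mul, Nat.cast_ofNat]
    have e1 : (C (24 : ℚ)) = 24 := rfl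
    have e2 : (C (12 : ℚ)) = 12 := rfl
    have e3 : (C (144 : ℚ)) = 144 := rfl
    rw [e1, e2, e3]
    ring
  rw [this, map_mul, TS_lin, TS_lin]
  push_cast
  congr 3 <;> ring

lemma P1_PB_CP {n p : ℕ} [Fact p.Prime] (ρ : ℚ) (hρ1 : 1 ≤ ρ)
    (hρ : ∀ l : ℕ, 1 ≤ l → l ≤ 48 * n → (padicNorm p (l : ℚ))⁻¹ ≤ ρ) (i : ℕ) (hi : 2 * i ≤ 48 * n)
    (k : ℕ) :
    PB p ρ (padicNorm p (((2 * i - 1).factorial : ℕ) : ℚ)) (TS (-(k : ℚ)) ((CP n i).comp (xp n))) := by
  have hρ0 : (0 : ℚ) ≤ ρ := by linarith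
  rw [P1_TS_CP]
  rcases i with _ | i
  · simpa using PB.one (p := p) hρ0
  · have h := HD.prod_sym (12 * n - k) i
    rw [h]
    have h2 := PB.mul hρ0 zero_le_one (padicNorm.nonneg _) (HD.PB_linInt (p := p) hρ1 (12 * n - k))
      (HD.PB_fN (n := 4 * n) ρ hρ1 (fun l h1 h2 => hρ l h1 (by omega)) (2 * i + 1) (by omega) (12 * n - k - i))
    rw [one_mul] at h2
    rw [show 2 * (i + 1) - 1 = 2 * i + 1 by omega]
    exact h2

theorem P1_CP_PB {n p : ℕ} [Fact p.Prime] (ρ : ℚ) (hρ1 : 1 ≤ ρ)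
    (hρ : ∀ l : ℕ, 1 ≤ l → l ≤ 48 * n → (padicNorm p (l : ℚ))⁻¹ ≤ ρ) (i j : ℕ) (hi : 2 * i ≤ 48 * n)
    (hj : 2 * j ≤ 48 * n) (k : ℕ) :
    PB p ρ (padicNorm p (((2 * i - 1).factorial : ℕ) : ℚ) * padicNorm p (((2 * j - 1).factorial : ℕ) : ℚ))
      (TS (-(k : ℚ)) (EE n (CP n i * CP n j))) := by
  have hρ0 : (0 : ℚ) ≤ ρ := by linarith
  have h1 : TS (-(k : ℚ)) (EE n (CP n i * CP n j)) =
      (TS (-(k : ℚ)) (xp n)) ^ 49 * (TS (-(k : ℚ)) ((CP n i).comp (xp n)) *
        TS (-(k : ℚ)) ((CP n j).comp (xp n))) := by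
    unfold EE
    rw [Polynomial.mul_comp, Polynomial.mul_comp, Polynomial.pow_comp, Polynomial.X_comp, map_mul,
      map_mul, map_pow]
  rw [h1, P1_TS_xp]
  have h2 : PB p ρ 1 (((PowerSeries.X + PowerSeries.C ((-(k : ℤ) : ℤ) : ℚ)) *
      (PowerSeries.X + PowerSeries.C ((24 * n - (k : ℤ) : ℤ) : ℚ))) ^ 49) := by
    have := PB.pow hρ0 (by norm_num) (PB.mul hρ0 zero_le_one zero_le_one (HD.PB_linInt (p := p) hρ1 (-(k : ℤ)))
      (HD.PB_linInt (p := p) hρ1 (24 * n - (k : ℤ)))) 49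
    simpa using this
  have h3 := PB.mul hρ0 (padicNorm.nonneg _) (padicNorm.nonneg _) (P1_PB_CP ρ hρ1 hρ i hi k)
    (P1_PB_CP ρ hρ1 hρ j hj k)
  have h4 := PB.mul hρ0 zero_le_one (mul_nonneg (padicNorm.nonneg _) (padicNorm.nonneg _)) h2 h3
  rwa [one_mul] at h4

lemma P1_pa_crude {n p : ℕ} [hp : Fact p.Prime] (hn : 1 ≤ n) (E : ℚ[X]) (A : ℚ) (hA : 0 ≤ A) {k : ℕ} (hk : k ∈ sN n)
    (hE : PB p ((48 * n + 1 : ℕ) : ℚ) A (TS (-(k : ℚ)) E)) (i : ℕ) :
    padicNorm p (pa (sN n) (muN n) (PPn n * E) k i) ≤ ((48 * n + 1 : ℕ) : ℚ) ^ 18 * A := by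
  have hc : ∀ d ∈ dz, 2 < d := by decide
  have h2 : ∀ d ∈ dz, 2 * d < 24 := by decide
  set M : ℚ := ((48 * n + 1 : ℕ) : ℚ) with hM
  have hM1 : 1 ≤ M := by rw [hM]; exact_mod_cast (by omega : 1 ≤ 48 * n + 1)
  have hM0 : (0 : ℚ) ≤ M := by linarith
  have hcst : 0 ≤ padicNorm p (cst 0 24 2 n dz) := padicNorm.nonneg _
  have hlen : dz.length = 6 := rfl
  unfold pa
  split_ifs with hi
  · have hkk := hk
    rw [sN, ss, Finset.mem_Icc] at hkk
    have hB0 : 0 ≤ padicNorm p (cst 0 24 2 n dz) * (padicNorm p (Nat.factorial (2 * n) : ℚ)) ^ (2 * 0) :=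
      mul_nonneg hcst (pow_nonneg (padicNorm.nonneg _) _)
    have hPB : PB p M (padicNorm p (cst 0 24 2 n dz) * (padicNorm p (Nat.factorial (2 * n) : ℚ)) ^ (2 * 0) * A)
        (TS (-(k : ℚ)) (PPn n * E)) := by
      rw [map_mul]
      exact PB.mul hM0 hB0 hA
        (PB_PP_crude 0 24 2 n dz k hk M hM1 (by
          rw [hM]; push_cast
          have : (0 : ℚ) ≤ n := by positivity
          linarith) (by norm_num)) hE
    have h1 := pfc_bound (p := p) (sN n) (muN n) (PPn n * E) k M _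
      (fun m => if m = k then 1 else (padicNorm p ((m : ℚ) - k))⁻¹) hM0
      (mul_nonneg hB0 hA) hPB
      (by
        intro m hm _
        have hmk := Finset.ne_of_mem_erase hm
        have hm2 := Finset.mem_of_mem_erase hm
        rw [sN, ss, Finset.mem_Icc] at hm2
        simp only [hmk, if_false]
        refine ⟨le_rfl, ?_⟩
        have h3 := norm_inv_le (p := p) (a := (m : ℤ) - k) (by omega) (M := M) (by
          push_cast
          rw [abs_le, hM]
          push_cast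
          have h5 : (m : ℚ) ≤ 24 * n := by exact_mod_cast (by omega : m ≤ 24 * n)
          have h6 : (k : ℚ) ≤ 24 * n := by exact_mod_cast (by omega : k ≤ 24 * n)
          have h7 : (0 : ℚ) ≤ m := by positivity
          have h8 : (0 : ℚ) ≤ k := by positivity
          constructor <;> linarith)
        push_cast at h3
        exact h3)
      (by
        intro m _
        beta_reduce
        split_ifs
        · exact zero_le_one
        · exact inv_nonneg.2 (padicNorm.nonneg _)) (muN n k - i)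
    refine h1.trans ?_
    have h4 : ∏ m ∈ (sN n).erase k, (if m = k then 1 else (padicNorm p ((m : ℚ) - k))⁻¹) ^ muN n m
        = (dz.map fun d => ∏ m ∈ Finset.Icc (d * n) (24 * n - d * n), (if m = k then 1 else (padicNorm p ((m : ℚ) - k))⁻¹)).prod := by
      rw [← prod_mu 24 2 n dz hn hc h2, ← Finset.mul_prod_erase _ _ hk]
      simp
    rw [h4]
    have hF : 0 < padicNorm p (Nat.factorial (2 * n) : ℚ) :=
      lt_of_le_of_ne (padicNorm.nonneg _) (Ne.symm (padicNorm.nonzero (by exact_mod_cast Nat.factorial_ne_zero _)))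
    have h5 : padicNorm p (cst 0 24 2 n dz) * (padicNorm p (Nat.factorial (2 * n) : ℚ)) ^ (2 * 0)
        = (dz.map fun d => padicNorm p (Nat.factorial ((24 - 2 * d) * n) : ℚ)).prod := by
      unfold cst
      rw [padicNorm.div, padicNorm_pow', padicNorm_listprod, div_mul_cancel₀]
      exact pow_ne_zero _ hF.ne'
    have h6 : ∀ l : List ℕ, (∀ d ∈ l, 2 * d < 24) → (l.map fun d => padicNorm p (Nat.factorial ((24 - 2 * d) * n) : ℚ) *
        ∏ m ∈ Finset.Icc (d * n) (24 * n - d * n), (if m = k then 1 else (padicNorm p ((m : ℚ) - k))⁻¹)).prod ≤ (M ^ 2) ^ l.length := by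
      intro l hl
      induction l with
      | nil => simp
      | cons d l ih =>
        rw [List.map_cons, List.prod_cons, List.length_cons, pow_succ']
        have hd := hl d (by simp)
        have hdn : 24 * n = (24 - 2 * d) * n + 2 * (d * n) := by
          have : 24 = (24 - 2 * d) + 2 * d := by omega
          conv_lhs => rw [this]
          ring
        have e1 : 24 * n - d * n = d * n + (24 - 2 * d) * n := by omega
        rw [e1]
        apply mul_le_mul
        · apply brick_bound (p := p) (d * n) ((24 - 2 * d) * n) k M hM1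
          · rw [hM]; exact_mod_cast (by omega : (24 - 2 * d) * n + 1 ≤ 48 * n + 1)
          · rw [hM]; exact_mod_cast (by omega : d * n + (24 - 2 * d) * n ≤ 48 * n + 1)
          · rw [hM]; exact_mod_cast (by omega : k ≤ 48 * n + 1)
        · have := ih (fun d' hd' => hl d' (List.mem_cons_of_mem _ hd'))
          exact this
        · apply List.prod_nonneg
          intro a ha
          rw [List.mem_map] at ha
          obtain ⟨d', _, rfl⟩ := ha
          apply mul_nonneg (padicNorm.nonneg _)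
          apply Finset.prod_nonneg
          intro m _
          split_ifs
          · exact zero_le_one
          · exact inv_nonneg.2 (padicNorm.nonneg _)
        · positivity
    have h7 : muN n k - i ≤ 6 := (Nat.sub_le _ _).trans (mu_le_length 24 n dz k)
    have h8 := h6 dz h2
    rw [List.prod_map_mul, ← h5, hlen] at h8
    set P1 : ℚ := padicNorm p (cst 0 24 2 n dz) * (padicNorm p (Nat.factorial (2 * n) : ℚ)) ^ (2 * 0) with hP1
    set P2 : ℚ := (dz.map fun d => ∏ m ∈ Finset.Icc (d * n) (24 * n - d * n), (if m = k then 1 else (padicNorm p ((m : ℚ) - k))⁻¹)).prod with hP2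
    calc P1 * A * P2 * M ^ (muN n k - i) = (P1 * P2) * (A * M ^ (muN n k - i)) := by ring
      _ ≤ (M ^ 2) ^ 6 * (A * M ^ 6) := by
          apply mul_le_mul h8 _ (by positivity) (by positivity)
          exact mul_le_mul_of_nonneg_left (pow_le_pow_right₀ hM1 h7) hA
      _ = M ^ 18 * A := by ring
  · rw [padicNorm.zero]; positivity

theorem P1_xf_crude {n p : ℕ} [hp : Fact p.Prime] (hn : 1 ≤ n) (q : ℕ) (u : ℚ) (hu : UInt q u)
    (E : ℚ[X]) (A : ℚ) (hA : 0 ≤ A)
    (hE : ∀ k ∈ sN n, PB p ((48 * n + 1 : ℕ) : ℚ) A (TS (-(k : ℚ)) E)) :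
    padicNorm p ((q : ℚ) * xf n u (PPn n * E)) ≤ ((48 * n + 1 : ℕ) : ℚ) ^ 24 * A := by
  have hpa : ∀ i : ℕ, ∀ k ∈ sN n, padicNorm p (pa (sN n) (muN n) (PPn n * E) k i) ≤
      ((48 * n + 1 : ℕ) : ℚ) ^ 18 * A :=
    fun i k hk => P1_pa_crude hn E A hA hk (hE k hk) i
  have hM1 : (1 : ℚ) ≤ ((48 * n + 1 : ℕ) : ℚ) := by exact_mod_cast (by omega : 1 ≤ 48 * n + 1)
  have hH : ∀ i : ℕ, i ≤ 6 → ∀ k ∈ sN n, padicNorm p (7 * hs i (k - 1) - ho i ((k : ℤ) - 4 * n)) ≤
      ((48 * n + 1 : ℕ) : ℚ) ^ 6 := by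
    intro i hi k hk
    rw [sN, ss, Finset.mem_Icc] at hk
    refine padicNorm.sub.trans (max_le ?_ ?_)
    · rw [padicNorm.mul]
      have h7 : padicNorm p (7 : ℚ) ≤ 1 := by exact_mod_cast padicNorm.of_nat 7
      have h8 := hs_norm_crude (p := p) i (k - 1) ((48 * n + 1 : ℕ) : ℚ)
        (by exact_mod_cast (by omega : k - 1 ≤ 48 * n + 1)) hM1
      have h9 : ((48 * n + 1 : ℕ) : ℚ) ^ i ≤ ((48 * n + 1 : ℕ) : ℚ) ^ 6 := pow_le_pow_right₀ hM1 hi
      have h10 := mul_le_mul h7 (h8.trans h9) (padicNorm.nonneg _) zero_le_one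
      rwa [one_mul] at h10
    · refine (P1_ho_crude i ((k : ℤ) - 4 * n) ((48 * n + 1 : ℕ) : ℚ) ?_ hM1).trans
        (pow_le_pow_right₀ hM1 hi)
      have hab : 2 * |(k : ℤ) - 4 * n| ≤ ((48 * n + 1 : ℕ) : ℤ) := by
        have : |(k : ℤ) - 4 * n| ≤ 24 * n := by
          rw [abs_le]
          constructor <;> omega
        push_cast
        omega
      have hab2 : ((2 * |(k : ℤ) - 4 * n| : ℤ) : ℚ) ≤ (((48 * n + 1 : ℕ) : ℤ) : ℚ) := by exact_mod_cast hab
      rw [Int.cast_natCast, Int.cast_mul, Int.cast_abs] at hab2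
      exact_mod_cast hab2
  generalize ((48 * n + 1 : ℕ) : ℚ) = M at hpa hM1 hH hE ⊢
  have hM0 : (0 : ℚ) ≤ M := by linarith
  have hW : 0 ≤ M ^ 24 * A := mul_nonneg (pow_nonneg hM0 _) hA
  have hW1 : 0 ≤ M ^ 18 * A := mul_nonneg (pow_nonneg hM0 _) hA
  apply P1_xf_aux n q u hu _ _ hW
  · intro k hk
    refine (hpa 5 k hk).trans ?_
    exact mul_le_mul_of_nonneg_right (pow_le_pow_right₀ hM1 (by norm_num)) hA
  · intro k hk
    apply padicNorm.sum_le' _ hW
    intro i hi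
    rw [Finset.mem_Icc] at hi
    have h4 := hH i hi.2 k hk
    have h5 := hpa i k hk
    rw [padicNorm.mul]
    have h6 := mul_le_mul h5 h4 (padicNorm.nonneg _) hW1
    refine h6.trans (le_of_eq ?_)
    rw [mul_right_comm, ← pow_add]

/-- the assembly common to both cases -/
lemma P1_small_aux {n p : ℕ} [Fact p.Prime] (q : ℕ) (u : ℚ) (m : ℕ) (U : ℚ) (hU : 0 ≤ U)
    (h : ∀ i j : ℕ, i < m → j < m → padicNorm p ((q : ℚ) * xf n u (PPn n * EE n (CP n i * CP n j))) ≤
      U * (padicNorm p (((2 * i - 1).factorial : ℕ) : ℚ) * padicNorm p (((2 * j - 1).factorial : ℕ) : ℚ))) :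
    padicNorm p ((q : ℚ) ^ m * DET n u m) ≤
      U ^ m * ∏ i ∈ Finset.range m, padicNorm p (((2 * i - 1).factorial : ℕ) : ℚ) ^ 2 := by
  have h1 : (q : ℚ) ^ m * DET n u m =
      ((q : ℚ) • (Matrix.of fun i j : Fin m => NL n u (CP n i * CP n j))).det := by
    rw [Matrix.det_smul, Fintype.card_fin, DET, ← HD.A1_det_monic (NL n u) m (CP n) (fun i _ => P1_CP n i)]
  rw [h1]
  have h2 := HD.A3_padic_det p m ((q : ℚ) • (Matrix.of fun i j : Fin m => NL n u (CP n i * CP n j)))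
    (fun i => U * padicNorm p (((2 * i - 1).factorial : ℕ) : ℚ) ^ 2)
    (fun i => mul_nonneg hU (by positivity)) (by
      intro i j
      have h3 := h i j i.2 j.2
      have h4 : (((q : ℚ) • (Matrix.of fun i j : Fin m => NL n u (CP n i * CP n j))) i j) =
          (q : ℚ) * xf n u (PPn n * EE n (CP n i * CP n j)) := by
        rw [Matrix.smul_apply, Matrix.of_apply, smul_eq_mul, NL_apply]
      rw [h4]
      calc _ ≤ (U * (padicNorm p (((2 * (i : ℕ) - 1).factorial : ℕ) : ℚ) *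
            padicNorm p (((2 * (j : ℕ) - 1).factorial : ℕ) : ℚ))) ^ 2 :=
            pow_le_pow_left₀ (padicNorm.nonneg _) h3 2
        _ = _ := by ring)
  refine h2.trans (le_of_eq ?_)
  rw [Finset.prod_mul_distrib, Finset.prod_const, Finset.card_range]

theorem P2_small_med {n p : ℕ} [Fact p.Prime] (hn : 1 ≤ n) (hp2 : 48 * n < p ^ 2) (q : ℕ) (u : ℚ)
    (hu : UInt q u) (m : ℕ) (hm : m ≤ 23 * n) :
    padicNorm p ((q : ℚ) ^ m * DET n u m) ≤
      ((p : ℚ) ^ 6) ^ m * ∏ i ∈ Finset.range m, padicNorm p (((2 * i - 1).factorial : ℕ) : ℚ) ^ 2 := by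
  have hp : p.Prime := Fact.out
  have hp1 : (1 : ℚ) ≤ p := by exact_mod_cast hp.one_lt.le
  apply P1_small_aux q u m _ (by positivity)
  intro i j hi hj
  have hA : 0 ≤ padicNorm p (((2 * i - 1).factorial : ℕ) : ℚ) * padicNorm p (((2 * j - 1).factorial : ℕ) : ℚ) :=
    mul_nonneg (padicNorm.nonneg _) (padicNorm.nonneg _)
  apply P1_xf_le_all hn hp2 q u hu (EE n (CP n i * CP n j)) _ (by positivity)
    (fun _ => padicNorm p (((2 * i - 1).factorial : ℕ) : ℚ) * padicNorm p (((2 * j - 1).factorial : ℕ) : ℚ))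
    (fun _ => hA)
  · intro k _
    apply P1_CP_PB (p : ℚ) hp1 _ i j (by omega) (by omega) k
    intro l hl1 hl2
    have h1 := norm_small (p := p) (a := (l : ℤ)) (by omega) (by
      rw [abs_of_nonneg (by positivity)]
      have h2 : l < p ^ 2 := by omega
      exact_mod_cast h2)
    rw [Int.cast_natCast] at h1
    rw [h1]
    split_ifs
    · rw [inv_inv]
    · rw [inv_one]; exact hp1
  · intro k _
    apply mul_le_mul_of_nonneg_right _ hA
    rw [← zpow_natCast (p : ℚ) 6]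
    apply zpow_le_zpow_right₀ hp1
    have h3 := ee_ge p 0 24 2 n k dz hp.pos (by norm_num) (by omega) (by decide)
    have h4 : dz.length = 6 := rfl
    rw [h4] at h3
    push_cast at h3 ⊢
    linarith

theorem P2_small_crude {n p : ℕ} [Fact p.Prime] (hn : 1 ≤ n) (q : ℕ) (u : ℚ)
    (hu : UInt q u) (m : ℕ) (hm : m ≤ 23 * n) :
    padicNorm p ((q : ℚ) ^ m * DET n u m) ≤
      (((48 * n + 1 : ℕ) : ℚ) ^ 60) ^ m * ∏ i ∈ Finset.range m, padicNorm p (((2 * i - 1).factorial : ℕ) : ℚ) ^ 2 := by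
  have hM1 : (1 : ℚ) ≤ ((48 * n + 1 : ℕ) : ℚ) := by exact_mod_cast (by omega : 1 ≤ 48 * n + 1)
  apply P1_small_aux q u m _ (by positivity)
  intro i j hi hj
  have hA : 0 ≤ padicNorm p (((2 * i - 1).factorial : ℕ) : ℚ) * padicNorm p (((2 * j - 1).factorial : ℕ) : ℚ) :=
    mul_nonneg (padicNorm.nonneg _) (padicNorm.nonneg _)
  have h1 : ((48 * n + 1 : ℕ) : ℚ) ^ 24 * (padicNorm p (((2 * i - 1).factorial : ℕ) : ℚ) *
      padicNorm p (((2 * j - 1).factorial : ℕ) : ℚ)) ≤ ((48 * n + 1 : ℕ) : ℚ) ^ 60 *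
      (padicNorm p (((2 * i - 1).factorial : ℕ) : ℚ) * padicNorm p (((2 * j - 1).factorial : ℕ) : ℚ)) :=
    mul_le_mul_of_nonneg_right (pow_le_pow_right₀ hM1 (by norm_num)) hA
  refine le_trans (P1_xf_crude hn q u hu (EE n (CP n i * CP n j)) _ hA ?_) h1
  intro k _
  apply P1_CP_PB _ hM1 _ i j (by omega) (by omega) k
  intro l hl1 hl2
  have h1 := norm_inv_le (p := p) (a := (l : ℤ)) (by omega) (M := ((48 * n + 1 : ℕ) : ℚ)) (by
    rw [Int.cast_natCast, abs_of_nonneg (by positivity)]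
    exact_mod_cast (by omega : l ≤ 48 * n + 1))
  rw [Int.cast_natCast] at h1
  exact h1

end

end Pool.Agent.H336R2.Z5
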