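import Pool.Agent.H336R2.Z5.P1c
import Pool.Agent.H336R2.Z5.DefsP
import Pool.Agent.H336R2.HD.A1
import Pool.Agent.H336R2.HD.A3
import Pool.Agent.H336R2.HD.D1
import Pool.Agent.H336R2.HD.D2

/-!
# Node polynomials, class pairs, determinant for medium primes
-/

open Polynomial Pool.Agent.H337R2

namespace Pool.Agent.H336R2.Z5

noncomputable section

/-! ### node polynomials -/

lemma P1_ND (n : ℕ) (ω : ℕ → ℕ) (i : ℕ) : (ND n ω i).Monic ∧ (ND n ω i).natDegree = i := by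
  unfold ND XD
  refine ⟨Polynomial.monic_prod_of_monic _ _ fun l _ => Polynomial.monic_X_add_C _, ?_⟩
  rw [Polynomial.natDegree_prod_of_monic _ _ fun l _ => Polynomial.monic_X_add_C _]
  simp only [Polynomial.natDegree_X_add_C, Finset.sum_const, Finset.card_range, smul_eq_mul, mul_one]

lemma P1_XD_comp (n w : ℕ) :
    (XD n w).comp (xp n) = (X + C ((w : ℚ) / 2)) * (X + C ((48 * n - w : ℚ) / 2)) := by
  unfold XD xp
  rw [Polynomial.add_comp, Polynomial.X_comp, Polynomial.C_comp]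
  have e1 : (X + C ((w : ℚ) / 2)) * (X + C ((48 * n - w : ℚ) / 2)) =
      X * (X + (C ((w : ℚ) / 2) + C ((48 * n - w : ℚ) / 2))) + C ((w : ℚ) / 2) * C ((48 * n - w : ℚ) / 2) := by
    ring
  rw [e1, ← C_add, ← C_mul]
  congr 3
  · congr 1
    push_cast
    ring
  · ring

lemma P1_norm_half {p : ℕ} [hp : Fact p.Prime] (hp2 : p ≠ 2) (z : ℤ) :
    padicNorm p ((z : ℚ) / 2) = padicNorm p (z : ℚ) := by
  rw [padicNorm.div]
  have h2 : padicNorm p ((2 : ℕ) : ℚ) = 1 := by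
    rw [padicNorm.nat_eq_one_iff]
    intro h
    exact hp2 ((Nat.prime_dvd_prime_iff_eq hp.out Nat.prime_two).1 h)
  have h3 : padicNorm p (2 : ℚ) = 1 := by exact_mod_cast h2
  rw [h3, div_one]

lemma P1_lin {p : ℕ} [Fact p.Prime] (hp2 : p ≠ 2) (ρ : ℚ) (hρ : 1 ≤ ρ) (z : ℤ) (a : ℚ) (ha : a = (z : ℚ) / 2) :
    PB p ρ 1 (PowerSeries.X + PowerSeries.C a) := by
  refine PB.linX (by linarith) zero_le_one ?_ (by linarith)
  rw [ha, P1_norm_half hp2]
  exact padicNorm.of_int z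

lemma P1_lin_dvd {p : ℕ} [hp : Fact p.Prime] (hp2 : p ≠ 2) (z : ℤ) (hz : (p : ℤ) ∣ z) (a : ℚ)
    (ha : a = (z : ℚ) / 2) : PB p (p : ℚ) (p : ℚ)⁻¹ (PowerSeries.X + PowerSeries.C a) := by
  have hp0 : (0 : ℚ) < p := by exact_mod_cast hp.1.pos
  refine PB.linX hp0.le (inv_nonneg.2 hp0.le) ?_ (by rw [inv_mul_cancel₀ hp0.ne'])
  rw [ha, P1_norm_half hp2]
  have := (padicNorm.dvd_iff_norm_le (p := p) (n := 1) (z := z)).1 (by simpa using hz)
  simpa using this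

lemma P1_e1 (k w : ℕ) : -(k : ℚ) + (w : ℚ) / 2 = (((w : ℤ) - 2 * k : ℤ) : ℚ) / 2 := by
  push_cast; ring

lemma P1_e2 (n k w : ℕ) : -(k : ℚ) + (48 * n - w : ℚ) / 2 = ((-((w : ℤ) + 2 * k - 48 * n) : ℤ) : ℚ) / 2 := by
  push_cast; ring

lemma P1_XD_PB1 {p : ℕ} [Fact p.Prime] (hp2 : p ≠ 2) (ρ : ℚ) (hρ : 1 ≤ ρ) (n k w : ℕ) :
    PB p ρ 1 (TS (-(k : ℚ)) ((XD n w).comp (xp n))) := by
  rw [P1_XD_comp, map_mul, TS_lin, TS_lin]
  have h1 := P1_lin hp2 ρ hρ _ _ (P1_e1 k w)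
  have h2 := P1_lin hp2 ρ hρ _ _ (P1_e2 n k w)
  have := PB.mul (by linarith) zero_le_one zero_le_one h1 h2
  simpa using this

lemma P1_XD_PB {p : ℕ} [hp : Fact p.Prime] (hp2 : p ≠ 2) (n k w : ℕ)
    (h : (p : ℤ) ∣ (w : ℤ) - 2 * k ∨ (p : ℤ) ∣ (w : ℤ) + 2 * k - 48 * n) :
    PB p (p : ℚ) (p : ℚ)⁻¹ (TS (-(k : ℚ)) ((XD n w).comp (xp n))) := by
  have hp0 : (0 : ℚ) < p := by exact_mod_cast hp.1.pos
  have hp1 : (1 : ℚ) ≤ p := by exact_mod_cast hp.1.one_le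
  rw [P1_XD_comp, map_mul, TS_lin, TS_lin]
  rcases h with h | h
  · have h1 := P1_lin_dvd hp2 _ h _ (P1_e1 k w)
    have h2 := P1_lin hp2 (p : ℚ) hp1 _ _ (P1_e2 n k w)
    have := PB.mul hp0.le (inv_nonneg.2 hp0.le) zero_le_one h1 h2
    simpa using this
  · have h1 := P1_lin hp2 (p : ℚ) hp1 _ _ (P1_e1 k w)
    have h2 := P1_lin_dvd hp2 _ ((dvd_neg).2 h) _ (P1_e2 n k w)
    have := PB.mul hp0.le zero_le_one (inv_nonneg.2 hp0.le) h1 h2
    simpa using this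

lemma P1_ND_PB1 {p : ℕ} [Fact p.Prime] (hp2 : p ≠ 2) (ρ : ℚ) (hρ : 1 ≤ ρ) (n k : ℕ) (ω : ℕ → ℕ) (i : ℕ) :
    PB p ρ 1 (TS (-(k : ℚ)) ((ND n ω i).comp (xp n))) := by
  unfold ND
  rw [Polynomial.prod_comp, map_prod]
  have := PB.prod (p := p) (Finset.range i) (fun _ => (1 : ℚ))
    (fun l => TS (-(k : ℚ)) ((XD n (ω l)).comp (xp n))) (by linarith : (0 : ℚ) ≤ ρ)
    (fun _ _ => zero_le_one) (fun l _ => P1_XD_PB1 hp2 ρ hρ n k (ω l))
  simpa using this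

lemma P1_ND_PB {p : ℕ} [hp : Fact p.Prime] (hp2 : p ≠ 2) (n k : ℕ) (ω : ℕ → ℕ) (i : ℕ)
    (T : Finset ℕ) (hT : T ⊆ Finset.range i)
    (hd : ∀ l ∈ T, (p : ℤ) ∣ (ω l : ℤ) - 2 * k ∨ (p : ℤ) ∣ (ω l : ℤ) + 2 * k - 48 * n) :
    PB p (p : ℚ) ((p : ℚ)⁻¹ ^ T.card) (TS (-(k : ℚ)) ((ND n ω i).comp (xp n))) := by
  classical
  have hp0 : (0 : ℚ) < p := by exact_mod_cast hp.1.pos
  have hp1 : (1 : ℚ) ≤ p := by exact_mod_cast hp.1.one_le
  unfold ND
  rw [Polynomial.prod_comp, map_prod]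
  have h := PB.prod (p := p) (Finset.range i) (fun l => if l ∈ T then (p : ℚ)⁻¹ else 1)
    (fun l => TS (-(k : ℚ)) ((XD n (ω l)).comp (xp n))) hp0.le
    (fun l _ => by split_ifs <;> positivity) (fun l _ => by
      show PB p (p : ℚ) (if l ∈ T then (p : ℚ)⁻¹ else 1) _
      split_ifs with hl
      · exact P1_XD_PB hp2 n k (ω l) (hd l hl)
      · exact P1_XD_PB1 hp2 (p : ℚ) hp1 n k (ω l))
  rw [Finset.prod_ite, Finset.prod_const, Finset.prod_const_one, mul_one] at h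
  have e : (Finset.range i).filter (fun l => l ∈ T) = T := by
    ext l
    rw [Finset.mem_filter]
    exact ⟨fun h => h.2, fun h => ⟨hT h, h⟩⟩
  rw [e] at h
  exact h

lemma P1_ND_eval (n : ℕ) (ω : ℕ → ℕ) (i w : ℕ) (h : ∃ l < i, ω l = w ∨ ω l + w = 48 * n) :
    ((ND n ω i).comp (xp n)).eval (-((w : ℚ) / 2)) = 0 := by
  obtain ⟨l, hl, h⟩ := h
  unfold ND
  rw [Polynomial.prod_comp, Polynomial.eval_prod]
  apply Finset.prod_eq_zero (Finset.mem_range.2 hl)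
  rw [P1_XD_comp]
  simp only [eval_mul, eval_add, eval_X, eval_C]
  rcases h with h | h
  · rw [h]; ring
  · have h2 : (ω l : ℚ) = 48 * n - w := by
      have h3 : ((ω l + w : ℕ) : ℚ) = ((48 * n : ℕ) : ℚ) := by rw [h]
      push_cast at h3
      linarith
    rw [h2]; ring

lemma P1_EE_mul (n : ℕ) (Q Q' : ℚ[X]) : EE n (Q * Q') = xp n ^ 49 * (Q.comp (xp n) * Q'.comp (xp n)) := by
  unfold EE
  rw [Polynomial.mul_comp, Polynomial.mul_comp, Polynomial.X_pow_comp]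

lemma P1_xp_PB {p : ℕ} [Fact p.Prime] (ρ : ℚ) (hρ : 1 ≤ ρ) (n k : ℕ) :
    PB p ρ 1 (TS (-(k : ℚ)) (xp n)) := by
  unfold xp
  rw [map_mul, TS_X, TS_lin]
  have h1 : PB p ρ 1 (PowerSeries.X + PowerSeries.C (-(k : ℚ))) := by
    refine PB.linX (by linarith) zero_le_one ?_ (by linarith)
    rw [padicNorm.neg]
    exact padicNorm.of_nat k
  have h2 : PB p ρ 1 (PowerSeries.X + PowerSeries.C (-(k : ℚ) + ((24 * n : ℕ) : ℚ))) := by
    refine PB.linX (by linarith) zero_le_one ?_ (by linarith)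
    have := padicNorm.of_int (p := p) (-(k : ℤ) + (24 * n : ℕ))
    push_cast at this ⊢
    exact this
  have := PB.mul (by linarith) zero_le_one zero_le_one h1 h2
  simpa using this

/-- Taylor coefficients of `x^49 Q Q'` -/
lemma P1_EE_PB {p : ℕ} [Fact p.Prime] (ρ : ℚ) (hρ : 1 ≤ ρ) (n k : ℕ) (Q Q' : ℚ[X]) (A B : ℚ) (hA : 0 ≤ A)
    (hB : 0 ≤ B) (h1 : PB p ρ A (TS (-(k : ℚ)) (Q.comp (xp n)))) (h2 : PB p ρ B (TS (-(k : ℚ)) (Q'.comp (xp n)))) :
    PB p ρ (A * B) (TS (-(k : ℚ)) (EE n (Q * Q'))) := by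
  have hρ0 : (0 : ℚ) ≤ ρ := by linarith
  rw [P1_EE_mul, map_mul, map_pow, map_mul]
  have h3 := PB.pow hρ0 zero_le_one (P1_xp_PB (p := p) ρ hρ n k) 49
  have h4 := PB.mul hρ0 (by positivity) (by positivity) h3 (PB.mul hρ0 hA hB h1 h2)
  simpa using h4

/-! ### class pairs -/

theorem P1_kap_mem {n p k : ℕ} (hp : 0 < p) (hk : k ≤ 24 * n) : kap n p k ∈ Kset n p := by
  unfold kap Kset
  rw [Finset.mem_filter, Finset.mem_range]
  refine ⟨(min_le_left _ _).trans_lt (Nat.mod_lt _ hp), ?_⟩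
  rcases le_total (k % p) ((24 * n - k) % p) with h | h
  · rw [min_eq_left h, HD.D2_mod1 hk]
    exact h
  · rw [min_eq_right h, HD.D2_mod2 hk]
    exact h

lemma P1_ee_congr {n p k k' : ℕ} (h : k % p = k' % p) : eeN p n k = eeN p n k' := by
  unfold eeN ee n1 nq
  simp only [HD.D2_cnt_congr h]

lemma P1_ee_refl {n p k : ℕ} (hk : k ≤ 24 * n) : eeN p n (24 * n - k) = eeN p n k := by
  have h1 : ∀ d ∈ dz, cnt p (d * n) (24 * n - d * n) (24 * n - k) = cnt p (d * n) (24 * n - d * n) k := by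
    intro d hd
    have hd2 : d ≤ 24 := by
      have : ∀ d ∈ dz, d ≤ 24 := by decide
      exact this d hd
    have hd3 := Nat.mul_le_mul_right n hd2
    rw [HD.D2_cnt_refl hd3 (Nat.sub_le _ _) hk, Nat.sub_sub_self hd3]
  have h2 : nq p 24 n dz (24 * n - k) = nq p 24 n dz k := by
    unfold nq
    congr 1
    exact List.map_congr_left h1
  unfold eeN ee
  rw [h2]
  ring

theorem P1_ee_kap {n p k : ℕ} (hk : k ≤ 24 * n) : eeN p n (kap n p k) = eeN p n k := by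
  unfold kap
  rcases le_total (k % p) ((24 * n - k) % p) with h | h
  · rw [min_eq_left h]
    exact P1_ee_congr (Nat.mod_mod _ _)
  · rw [min_eq_right h, P1_ee_congr (Nat.mod_mod _ _), P1_ee_refl hk]

/-- if `kap n p k = r` then `p` divides one of the two differences -/
lemma P1_kap_dvd {n p k r : ℕ} (hk : k ≤ 24 * n) (h : r = kap n p k) :
    (p : ℤ) ∣ (r : ℤ) - k ∨ (p : ℤ) ∣ (r : ℤ) + k - 24 * n := by
  have h1 : (p : ℤ) ∣ (k : ℤ) - (k % p : ℕ) := by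
    rw [Int.natCast_mod]
    exact Int.dvd_self_sub_emod
  have h2 : (p : ℤ) ∣ ((24 * n - k : ℕ) : ℤ) - ((24 * n - k) % p : ℕ) := by
    rw [Int.natCast_mod]
    exact Int.dvd_self_sub_emod
  unfold kap at h
  rcases min_choice (k % p) ((24 * n - k) % p) with h' | h'
  · left
    rw [h, h', ← dvd_neg, neg_sub]
    exact h1
  · right
    rw [h, h']
    have e : ((24 * n - k) % p : ℕ) + (k : ℤ) - 24 * n =
        -(((24 * n - k : ℕ) : ℤ) - ((24 * n - k) % p : ℕ)) := by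
      rw [Nat.cast_sub hk]
      push_cast
      ring
    rw [e, dvd_neg]
    exact h2

/-! ### the determinant from its entries -/

theorem P1_det_step {n p : ℕ} [Fact p.Prime] (q : ℕ) (u : ℚ) (m : ℕ) (P : ℕ → ℚ[X])
    (hP : ∀ i < m, (P i).Monic ∧ (P i).natDegree = i) (s : ℕ → ℤ)
    (h : ∀ i j : ℕ, i < m → j < m → padicNorm p ((q : ℚ) * xf n u (PPn n * EE n (P i * P j))) ^ 2 ≤
      (p : ℚ) ^ (s i) * (p : ℚ) ^ (s j)) :
    padicNorm p ((q : ℚ) ^ m * DET n u m) ≤ (p : ℚ) ^ (∑ i ∈ Finset.range m, s i) := by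
  have hp0 : (0 : ℚ) < p := by exact_mod_cast (Fact.out : p.Prime).pos
  have h1 : (q : ℚ) ^ m * DET n u m =
      ((q : ℚ) • (Matrix.of fun i j : Fin m => NL n u (P i * P j))).det := by
    rw [Matrix.det_smul, Fintype.card_fin, DET, ← HD.A1_det_monic (NL n u) m P hP]
  rw [h1]
  have h2 := HD.A3_padic_det p m ((q : ℚ) • (Matrix.of fun i j : Fin m => NL n u (P i * P j)))
    (fun i => (p : ℚ) ^ (s i)) (fun i => by positivity) (by
      intro i j
      rw [Matrix.smul_apply, Matrix.of_apply, smul_eq_mul, NL_apply]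
      exact h i j i.2 j.2)
  refine h2.trans (le_of_eq ?_)
  clear h2 h1 h hP
  induction m with
  | zero => simp
  | succ m ih => rw [Finset.prod_range_succ, Finset.sum_range_succ, zpow_add₀ hp0.ne', ih]

theorem P1_det_med {n p : ℕ} [Fact p.Prime] (hn : 1 ≤ n) (hp2 : 48 * n < p ^ 2) (q : ℕ) (u : ℚ)
    (hu : UInt q u) (m : ℕ) (μ : ℤ) :
    padicNorm p ((q : ℚ) ^ m * DET n u m) ≤ (p : ℚ) ^ (m * μ + ∑ κ ∈ Kset n p, TT (-(eeN p n κ) - μ)) := by
  have hpp : p.Prime := Fact.out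
  have hpo : p ≠ 2 := by
    rintro rfl
    omega
  have hp0 : (0 : ℚ) < p := by exact_mod_cast hpp.pos
  have hp1 : (1 : ℚ) ≤ p := by exact_mod_cast hpp.one_le
  have hKne : (Kset n p).Nonempty := ⟨kap n p 0, P1_kap_mem hpp.pos (Nat.zero_le _)⟩
  obtain ⟨κ, s, -, hs1, hs2, hs3⟩ := HD.D1_greedy (Kset n p) hKne (fun k => -(eeN p n k)) μ m
  have hTT : ∀ y, TT y = HD.TT y := fun y => rfl
  have hgoal : (p : ℚ) ^ (∑ i ∈ Finset.range m, s i) ≤
      (p : ℚ) ^ (m * μ + ∑ κ ∈ Kset n p, TT (-(eeN p n κ) - μ)) := by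
    apply zpow_le_zpow_right₀ hp1
    simp only [hTT]
    exact hs2
  refine le_trans (P1_det_step q u m (fun i => ND n (fun l => 2 * κ l) i)
    (fun i _ => P1_ND n _ i) s ?_) hgoal
  intro i j _ _
  have hW : padicNorm p ((q : ℚ) * xf n u (PPn n * EE n (ND n (fun l => 2 * κ l) i * ND n (fun l => 2 * κ l) j))) ≤
      (p : ℚ) ^ ((s i + s j) / 2) := by
    refine P1_xf_le_all hn hp2 q u hu _ ((p : ℚ) ^ ((s i + s j) / 2)) (by positivity)
      (fun k => (p : ℚ)⁻¹ ^ ((Finset.range i).filter fun l => κ l = kap n p k).card *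
        (p : ℚ)⁻¹ ^ ((Finset.range j).filter fun l => κ l = kap n p k).card)
      (fun k => by positivity) ?_ ?_
    · intro k hk
      have hk24 : k ≤ 24 * n := by
        have := (Finset.mem_Icc.1 hk).2
        omega
      have hdv : ∀ i' : ℕ, ∀ l ∈ (Finset.range i').filter (fun l => κ l = kap n p k),
          (p : ℤ) ∣ ((2 * κ l : ℕ) : ℤ) - 2 * k ∨ (p : ℤ) ∣ ((2 * κ l : ℕ) : ℤ) + 2 * k - 48 * n := by
        intro i' l hl
        rw [Finset.mem_filter] at hl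
        rcases P1_kap_dvd hk24 hl.2 with h | h
        · left
          have e : ((2 * κ l : ℕ) : ℤ) - 2 * k = 2 * ((κ l : ℤ) - k) := by push_cast; ring
          rw [e]
          exact Dvd.dvd.mul_left h 2
        · right
          have e : ((2 * κ l : ℕ) : ℤ) + 2 * k - 48 * n = 2 * ((κ l : ℤ) + k - 24 * n) := by push_cast; ring
          rw [e]
          exact Dvd.dvd.mul_left h 2
      exact P1_EE_PB (p : ℚ) hp1 n k _ _ _ _ (by positivity) (by positivity)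
        (P1_ND_PB hpo n k _ i _ (Finset.filter_subset _ _) (hdv i))
        (P1_ND_PB hpo n k _ j _ (Finset.filter_subset _ _) (hdv j))
    · intro k hk
      have hk24 : k ≤ 24 * n := by
        have := (Finset.mem_Icc.1 hk).2
        omega
      have h1 := P1_kap_mem (n := n) hpp.pos hk24
      have h2 := hs3 _ h1 i
      have h3 := hs3 _ h1 j
      rw [P1_ee_kap hk24] at h2 h3
      set a := ((Finset.range i).filter fun l => κ l = kap n p k).card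
      set b := ((Finset.range j).filter fun l => κ l = kap n p k).card
      have e : (p : ℚ) ^ (-(eeN p n k)) * ((p : ℚ)⁻¹ ^ a * (p : ℚ)⁻¹ ^ b) =
          (p : ℚ) ^ (-(eeN p n k) - a - b : ℤ) := by
        generalize -(eeN p n k) = z
        rw [zpow_sub₀ hp0.ne', zpow_sub₀ hp0.ne', zpow_natCast, zpow_natCast,
          inv_pow, inv_pow, div_eq_mul_inv, div_eq_mul_inv, mul_assoc]
      rw [e]
      refine zpow_le_zpow_right₀ hp1 ?_
      omega
  calc padicNorm p ((q : ℚ) * xf n u (PPn n * EE n (ND n (fun l => 2 * κ l) i * ND n (fun l => 2 * κ l) j))) ^ 2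
      ≤ ((p : ℚ) ^ ((s i + s j) / 2)) ^ 2 := pow_le_pow_left₀ (padicNorm.nonneg _) hW 2
    _ = (p : ℚ) ^ ((s i + s j) / 2 * 2) := by
        rw [← zpow_natCast, ← zpow_mul]
        rfl
    _ ≤ (p : ℚ) ^ (s i + s j) := zpow_le_zpow_right₀ hp1 (by omega)
    _ = (p : ℚ) ^ (s i) * (p : ℚ) ^ (s j) := zpow_add₀ hp0.ne' _ _

end

end Pool.Agent.H336R2.Z5
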