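import Pool.Agent.H336R2.HD.A1
import Pool.Agent.H336R2.HD.A3
import Pool.Agent.H336R2.Z5.P1aTC
import Pool.Agent.H336R2.Z5.P1b

/-!
# p-adic size of the Hankel determinant for `p ≥ 9n`
-/

open Polynomial Pool.Agent.H337R2

namespace Pool.Agent.H336R2.Z5

noncomputable section

/-! ### class pairs -/

lemma P1f_mod1 {N p k : ℕ} (hk : k ≤ N) : (N - k % p) % p = (N - k) % p := by
  have h1 : N - k % p = (N - k) + p * (k / p) := by
    have := Nat.mod_add_div k p
    omega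
  rw [h1, Nat.add_mul_mod_self_left]

lemma P1f_mod2 {N p k : ℕ} (hk : k ≤ N) : (N - (N - k) % p) % p = k % p := by
  rw [P1f_mod1 (Nat.sub_le _ _), Nat.sub_sub_self hk]

theorem P1f_kap_mem {n p k : ℕ} (hp : 0 < p) (hk : k ≤ 24 * n) : kap n p k ∈ Kset n p := by
  unfold kap Kset
  rw [Finset.mem_filter, Finset.mem_range]
  refine ⟨(min_le_left _ _).trans_lt (Nat.mod_lt _ hp), ?_⟩
  rcases le_total (k % p) ((24 * n - k) % p) with h | h
  · rw [min_eq_left h, P1f_mod1 hk]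
    exact h
  · rw [min_eq_right h, P1f_mod2 hk]
    exact h

lemma P1f_cnt_congr {p A B k k' : ℕ} (h : k % p = k' % p) : cnt p A B k = cnt p A B k' := by
  unfold cnt
  congr 1
  apply Finset.filter_congr
  intro m _
  have h1 : (p : ℤ) ∣ (k : ℤ) - k' := by
    have : (k : ℤ) ≡ k' [ZMOD p] := by
      exact (Int.natCast_modEq_iff).2 h
    exact this.symm.dvd
  constructor
  · intro h2
    have := dvd_add h2 h1
    simpa using this
  · intro h2
    have := dvd_sub h2 h1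
    simpa using this

lemma P1f_cnt_refl {p A B N k : ℕ} (hA : A ≤ N) (hB : B ≤ N) (hk : k ≤ N) :
    cnt p A B (N - k) = cnt p (N - B) (N - A) k := by
  unfold cnt
  apply Finset.card_bij (fun m _ => N - m)
  · intro m hm
    rw [Finset.mem_filter, Finset.mem_Icc] at hm ⊢
    refine ⟨by omega, ?_⟩
    have h1 : ((N - m : ℕ) : ℤ) = N - m := by omega
    have h2 : ((N - k : ℕ) : ℤ) = N - k := by omega
    rw [h2] at hm
    rw [h1]
    have := (dvd_neg).2 hm.2
    have h3 : -((m : ℤ) - (N - k)) = (N : ℤ) - m - k := by ring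
    rwa [h3] at this
  · intro a ha b hb hab
    rw [Finset.mem_filter, Finset.mem_Icc] at ha hb
    omega
  · intro b hb
    rw [Finset.mem_filter, Finset.mem_Icc] at hb
    refine ⟨N - b, ?_, by omega⟩
    rw [Finset.mem_filter, Finset.mem_Icc]
    refine ⟨by omega, ?_⟩
    have h1 : ((N - b : ℕ) : ℤ) = N - b := by omega
    have h2 : ((N - k : ℕ) : ℤ) = N - k := by omega
    rw [h1, h2]
    have := (dvd_neg).2 hb.2
    have h3 : -((b : ℤ) - k) = (N : ℤ) - b - (N - k) := by ring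
    rwa [h3] at this

lemma P1f_ee (p n k : ℕ) : eeN p n k = - (nq p 24 n dz k : ℤ) + ((dz.map fun d => (24 - 2 * d) * n / p).sum : ℕ) := by
  unfold eeN ee
  push_cast
  ring

lemma P1f_nq_congr {n p k k' : ℕ} (h : k % p = k' % p) : nq p 24 n dz k = nq p 24 n dz k' := by
  unfold nq
  simp only [P1f_cnt_congr h]

lemma P1f_nq_refl {n p k : ℕ} (hk : k ≤ 24 * n) : nq p 24 n dz (24 * n - k) = nq p 24 n dz k := by
  unfold nq
  have h : ∀ d ∈ dz, cnt p (d * n) (24 * n - d * n) (24 * n - k) = cnt p (d * n) (24 * n - d * n) k := by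
    intro d hd
    have hd24 : d ≤ 24 := by
      have : ∀ d ∈ dz, d ≤ 24 := by decide
      exact this d hd
    have h1 : d * n ≤ 24 * n := Nat.mul_le_mul_right n hd24
    rw [P1f_cnt_refl h1 (Nat.sub_le _ _) hk, Nat.sub_sub_self h1]
  rw [List.map_congr_left h]

theorem P1f_ee_kap {n p k : ℕ} (hk : k ≤ 24 * n) : eeN p n (kap n p k) = eeN p n k := by
  rw [P1f_ee, P1f_ee]
  congr 2
  unfold kap
  rcases le_total (k % p) ((24 * n - k) % p) with h | h
  · rw [min_eq_left h, P1f_nq_congr (Nat.mod_mod _ _)]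
  · rw [min_eq_right h, P1f_nq_congr (Nat.mod_mod _ _), P1f_nq_refl hk]

/-- if `kap n p k = r`, then `k` or `24 n - k` is congruent to `r` -/
lemma P1f_kap_cases {n p k : ℕ} (hk : k ≤ 24 * n) :
    (k % p = kap n p k ∧ (p : ℤ) ∣ (k : ℤ) - kap n p k) ∨
      ((24 * n - k) % p = kap n p k ∧ (p : ℤ) ∣ 24 * (n : ℤ) - k - kap n p k) := by
  unfold kap
  rcases min_choice (k % p) ((24 * n - k) % p) with h' | h'
  · left
    rw [h']
    refine ⟨rfl, ?_⟩
    rw [Int.natCast_mod]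
    exact Int.dvd_self_sub_emod
  · right
    rw [h']
    refine ⟨rfl, ?_⟩
    have e : 24 * (n : ℤ) - k = ((24 * n - k : ℕ) : ℤ) := by
      rw [Nat.cast_sub hk]; push_cast; ring
    rw [e, Int.natCast_mod]
    exact Int.dvd_self_sub_emod

lemma P1f_multi_of {n p k k' : ℕ} (hk : k ∈ Finset.Icc (3 * n) (21 * n)) (hk' : k' ∈ Finset.Icc (3 * n) (21 * n))
    (hkk : k' ≠ k) (hd : (p : ℤ) ∣ (k' : ℤ) - k) : multi n p (kap n p k) := by
  rw [Finset.mem_Icc] at hk hk'
  have hmod : k' % p = k % p := by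
    have h1 : (k : ℤ) ≡ k' [ZMOD p] := (Int.modEq_iff_dvd).2 hd
    exact ((Int.natCast_modEq_iff).1 h1).symm
  rcases P1f_kap_cases (n := n) (p := p) (k := k) (by omega) with h | h
  · exact ⟨k, Finset.mem_Icc.2 hk, k', Finset.mem_Icc.2 hk', fun e => hkk e.symm, h.1, by rw [hmod, h.1]⟩
  · refine ⟨24 * n - k, Finset.mem_Icc.2 (by omega), 24 * n - k', Finset.mem_Icc.2 (by omega), by omega, h.1, ?_⟩
    rw [← h.1]
    have h2 : ((24 * n - k' : ℕ) : ℤ) ≡ ((24 * n - k : ℕ) : ℤ) [ZMOD p] := by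
      refine (Int.modEq_iff_dvd).2 ?_
      have e : ((24 * n - k : ℕ) : ℤ) - ((24 * n - k' : ℕ) : ℤ) = (k' : ℤ) - k := by omega
      rw [e]
      exact hd
    exact (Int.natCast_modEq_iff).1 h2

/-- at most two poles of each brick in a class -/
lemma P1f_cnt_le {n p d k : ℕ} (hp : 9 * n < p) (hd : 3 ≤ d) : cnt p (d * n) (24 * n - d * n) k ≤ 2 := by
  by_cases hAB : d * n ≤ 24 * n - d * n + 1
  · have hp0 : 0 < p := by omega
    have h := cnt_eq p (d * n) (24 * n - d * n) k hp0 hAB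
    have hp' : (0 : ℤ) < p := by exact_mod_cast hp0
    have h1 := Int.mul_ediv_self_le (x := ((24 * n - d * n : ℕ) : ℤ) - k) (k := (p : ℤ)) hp'.ne'
    have h2 := Int.lt_mul_ediv_self_add (x := ((d * n : ℕ) : ℤ) - 1 - k) (k := (p : ℤ)) hp'
    have h3 : 3 * n ≤ d * n := Nat.mul_le_mul_right n hd
    generalize (((24 * n - d * n : ℕ) : ℤ) - k) / (p : ℤ) = a at *
    generalize (((d * n : ℕ) : ℤ) - 1 - k) / (p : ℤ) = b at *
    have h4 : (p : ℤ) * (a - b) < 3 * p := by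
      have e : (p : ℤ) * (a - b) = p * a - p * b := by ring
      rw [e]
      omega
    have h5 : a - b < 3 := by
      by_contra hcon
      push Not at hcon
      have := mul_le_mul_of_nonneg_left hcon hp'.le
      linarith
    omega
  · unfold cnt
    rw [Finset.Icc_eq_empty (by omega)]
    simp

lemma P1f_ee_multi {n p : ℕ} [Fact p.Prime] (hp : 9 * n < p) (hp2 : 24 * n < p ^ 2) (k : ℕ) (μ : ℤ)
    (hcst : padicNorm p (cstN n) ≤ (p : ℚ) ^ μ) : -(eeN p n k) - 12 ≤ μ := by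
  have hp1 : (1 : ℚ) < p := by exact_mod_cast (Fact.out : p.Prime).one_lt
  have hn2 : ∀ d ∈ dz, 2 * d < 24 := by decide
  have h1 := norm_cst (p := p) 0 24 2 n dz hp2 hn2 (by norm_num)
  rw [h1] at hcst
  have h2 := (zpow_le_zpow_iff_right₀ hp1).1 hcst
  rw [P1f_ee]
  have h3 : nq p 24 n dz k ≤ 12 := by
    unfold nq
    have h4 : ∀ x ∈ dz.map (fun d => cnt p (d * n) (24 * n - d * n) k), x ≤ 2 := by
      intro x hx
      rw [List.mem_map] at hx
      obtain ⟨d, hd, rfl⟩ := hx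
      have : ∀ d ∈ dz, 3 ≤ d := by decide
      exact P1f_cnt_le hp (this d hd)
    have h5 := List.sum_le_card_nsmul _ 2 h4
    simpa using h5
  push_cast at h2 h3 ⊢
  omega

/-! ### nodes -/

lemma P1f_XD_comp (n w : ℕ) :
    (XD n w).comp (xp n) = (X + C ((w : ℚ) / 2)) * (X + C (((24 * n : ℕ) : ℚ) - (w : ℚ) / 2)) := by
  unfold XD xp
  rw [Polynomial.add_comp, Polynomial.X_comp, Polynomial.C_comp]
  have e : (w : ℚ) * (48 * n - w) / 4 = (w : ℚ) / 2 * (((24 * n : ℕ) : ℚ) - (w : ℚ) / 2) := by push_cast; ring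
  rw [e]
  simp only [Polynomial.C_mul, Polynomial.C_sub]
  ring

lemma P1f_norm_half {p : ℕ} [hp : Fact p.Prime] (hp2 : p ≠ 2) (z : ℤ) (a : ℚ) (ha : a = (z : ℚ) / 2) :
    padicNorm p a = padicNorm p (z : ℚ) := by
  rw [ha, padicNorm.div]
  have : padicNorm p (2 : ℚ) = 1 := by
    have h1 : (2 : ℚ) = ((2 : ℤ) : ℚ) := by norm_num
    rw [h1, padicNorm.int_eq_one_iff]
    intro h
    have h2 := Int.le_of_dvd (by norm_num) h
    have h3 := hp.1.two_le
    omega
  rw [this, div_one]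

lemma P1f_lin {p : ℕ} [Fact p.Prime] (hp2 : p ≠ 2) (ρ : ℚ) (hρ : 1 ≤ ρ) (z : ℤ) (a : ℚ) (ha : a = (z : ℚ) / 2) :
    PB p ρ 1 (PowerSeries.X + PowerSeries.C a) := by
  refine PB.linX (by linarith) zero_le_one ?_ (by linarith)
  rw [P1f_norm_half hp2 z a ha]
  exact padicNorm.of_int z

lemma P1f_lin_dvd {p : ℕ} [hp : Fact p.Prime] (hp2 : p ≠ 2) (z : ℤ) (hz : (p : ℤ) ∣ z) (a : ℚ)
    (ha : a = (z : ℚ) / 2) : PB p (p : ℚ) (p : ℚ)⁻¹ (PowerSeries.X + PowerSeries.C a) := by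
  have hp0 : (0 : ℚ) < p := by exact_mod_cast hp.1.pos
  refine PB.linX hp0.le (inv_nonneg.2 hp0.le) ?_ (by rw [inv_mul_cancel₀ hp0.ne'])
  rw [P1f_norm_half hp2 z a ha]
  have := (padicNorm.dvd_iff_norm_le (p := p) (n := 1) (z := z)).1 (by simpa using hz)
  simpa using this

lemma P1f_xp (p : ℕ) [Fact p.Prime] (hp2 : p ≠ 2) (ρ : ℚ) (hρ : 1 ≤ ρ) (n k : ℕ) :
    PB p ρ 1 (TS (-(k : ℚ)) (xp n)) := by
  unfold xp
  rw [map_mul, TS_X, TS_lin]
  have h1 := P1f_lin (p := p) hp2 ρ hρ (-2 * (k : ℤ)) (-(k : ℚ)) (by push_cast; ring)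
  have h2 := P1f_lin (p := p) hp2 ρ hρ (-2 * (k : ℤ) + 2 * (24 * n : ℕ)) (-(k : ℚ) + ((24 * n : ℕ) : ℚ))
    (by push_cast; ring)
  have := PB.mul (by linarith) zero_le_one zero_le_one h1 h2
  simpa using this

lemma P1f_XD (p : ℕ) [Fact p.Prime] (hp2 : p ≠ 2) (ρ : ℚ) (hρ : 1 ≤ ρ) (n k w : ℕ) :
    PB p ρ 1 (TS (-(k : ℚ)) ((XD n w).comp (xp n))) := by
  rw [P1f_XD_comp, map_mul, TS_lin, TS_lin]
  have h1 := P1f_lin (p := p) hp2 ρ hρ (-2 * (k : ℤ) + w) (-(k : ℚ) + (w : ℚ) / 2) (by push_cast; ring)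
  have h2 := P1f_lin (p := p) hp2 ρ hρ (-2 * (k : ℤ) + (2 * (24 * n : ℕ) - w))
    (-(k : ℚ) + (((24 * n : ℕ) : ℚ) - (w : ℚ) / 2)) (by push_cast; ring)
  have := PB.mul (by linarith) zero_le_one zero_le_one h1 h2
  simpa using this

lemma P1f_XD_zero (p : ℕ) [hp : Fact p.Prime] (hp2 : p ≠ 2) (n k w : ℕ)
    (h : (p : ℤ) ∣ (w : ℤ) - 2 * k ∨ (p : ℤ) ∣ 48 * (n : ℤ) - w - 2 * k) :
    PB p (p : ℚ) (p : ℚ)⁻¹ (TS (-(k : ℚ)) ((XD n w).comp (xp n))) := by
  have hp0 : (0 : ℚ) < p := by exact_mod_cast hp.1.pos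
  have hp1 : (1 : ℚ) ≤ p := by exact_mod_cast hp.1.one_le
  rw [P1f_XD_comp, map_mul, TS_lin, TS_lin]
  have e1 : (-(k : ℚ) + (w : ℚ) / 2) = (((w : ℤ) - 2 * k : ℤ) : ℚ) / 2 := by push_cast; ring
  have e2 : (-(k : ℚ) + (((24 * n : ℕ) : ℚ) - (w : ℚ) / 2)) = ((48 * (n : ℤ) - w - 2 * k : ℤ) : ℚ) / 2 := by
    push_cast; ring
  rcases h with h | h
  · have h1 := P1f_lin_dvd (p := p) hp2 _ h _ e1
    have h2 := P1f_lin (p := p) hp2 (p : ℚ) hp1 _ _ e2
    have := PB.mul hp0.le (inv_nonneg.2 hp0.le) zero_le_one h1 h2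
    simpa using this
  · have h1 := P1f_lin (p := p) hp2 (p : ℚ) hp1 _ _ e1
    have h2 := P1f_lin_dvd (p := p) hp2 _ h _ e2
    have := PB.mul hp0.le zero_le_one (inv_nonneg.2 hp0.le) h1 h2
    simpa using this

/-- number of nodes of class `r` among the first `i` -/
def P1f_ct (κ : ℕ → Option ℕ) (r i : ℕ) : ℕ := ((Finset.range i).filter fun l => κ l = some r).card

lemma P1f_ct_succ (κ : ℕ → Option ℕ) (r i : ℕ) :
    P1f_ct κ r (i + 1) = P1f_ct κ r i + if κ i = some r then 1 else 0 := by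
  unfold P1f_ct
  rw [Finset.range_add_one, Finset.filter_insert]
  split_ifs with h
  · rw [Finset.card_insert_of_notMem (by simp)]
  · rw [add_zero]

lemma P1f_ct_zero (κ : ℕ → Option ℕ) (r : ℕ) : P1f_ct κ r 0 = 0 := by
  unfold P1f_ct
  simp

lemma P1f_ct_ivt (κ : ℕ → Option ℕ) (r : ℕ) (a : ℕ) (i : ℕ) (h : a < P1f_ct κ r i) :
    ∃ l < i, κ l = some r ∧ P1f_ct κ r l = a := by
  induction i with
  | zero => rw [P1f_ct_zero] at h; omega
  | succ i ih =>
    rw [P1f_ct_succ] at h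
    by_cases h1 : a < P1f_ct κ r i
    · obtain ⟨l, hl, h2⟩ := ih h1
      exact ⟨l, by omega, h2⟩
    · split_ifs at h with h2
      · exact ⟨i, by omega, h2, by omega⟩
      · omega

open Classical in
/-- the double coordinate of the `i`-th node -/
def P1f_w (n p : ℕ) (κ : ℕ → Option ℕ) (i : ℕ) : ℕ :=
  match κ i with
  | none => 0
  | some r => if multi n p r then 2 * r else (Dz n p r).toList.getD (P1f_ct κ r i) 0

lemma P1f_w_multi {n p : ℕ} {κ : ℕ → Option ℕ} {i r : ℕ} (h : κ i = some r) (hm : multi n p r) :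
    P1f_w n p κ i = 2 * r := by
  unfold P1f_w
  rw [h]
  exact if_pos hm

lemma P1f_w_single {n p : ℕ} {κ : ℕ → Option ℕ} {i r : ℕ} (h : κ i = some r) (hm : ¬ multi n p r) :
    P1f_w n p κ i = (Dz n p r).toList.getD (P1f_ct κ r i) 0 := by
  unfold P1f_w
  rw [h]
  exact if_neg hm

lemma P1f_gz_multi {n p r : ℕ} (hm : multi n p r) : gz n p r = 6 := by
  unfold gz
  exact if_pos hm

lemma P1f_gz_single {n p r : ℕ} (hm : ¬ multi n p r) : gz n p r = (Dz n p r).card := by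
  unfold gz
  exact if_neg hm

lemma P1f_w_mem {n p : ℕ} {κ : ℕ → Option ℕ} {i r : ℕ} (h : κ i = some r) (hm : ¬ multi n p r)
    (hc : P1f_ct κ r i < gz n p r) : P1f_w n p κ i ∈ Dz n p r := by
  rw [P1f_w_single h hm]
  rw [P1f_gz_single hm, ← Finset.length_toList] at hc
  rw [List.getD_eq_getElem _ _ hc, ← Finset.mem_toList]
  exact List.getElem_mem hc

lemma P1f_w_surj {n p : ℕ} {κ : ℕ → Option ℕ} {i r : ℕ} (hm : ¬ multi n p r)
    (hc : gz n p r ≤ P1f_ct κ r i) {w : ℕ} (hw : w ∈ Dz n p r) : ∃ l < i, P1f_w n p κ l = w := by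
  rw [← Finset.mem_toList] at hw
  obtain ⟨a, ha, hwa⟩ := List.getElem_of_mem hw
  have ha' : a < P1f_ct κ r i := by
    rw [P1f_gz_single hm, ← Finset.length_toList] at hc
    omega
  obtain ⟨l, hl, h1, h2⟩ := P1f_ct_ivt κ r a i ha'
  refine ⟨l, hl, ?_⟩
  rw [P1f_w_single h1 hm, h2, List.getD_eq_getElem _ _ ha, hwa]

/-- node polynomials -/
def P1f_ND (n p : ℕ) (κ : ℕ → Option ℕ) (i : ℕ) : ℚ[X] := ∏ l ∈ Finset.range i, XD n (P1f_w n p κ l)

lemma P1f_ND_monic (n p : ℕ) (κ : ℕ → Option ℕ) (i : ℕ) :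
    (P1f_ND n p κ i).Monic ∧ (P1f_ND n p κ i).natDegree = i := by
  unfold P1f_ND XD
  refine ⟨Polynomial.monic_prod_of_monic _ _ fun l _ => Polynomial.monic_X_add_C _, ?_⟩
  rw [Polynomial.natDegree_prod_of_monic _ _ fun l _ => Polynomial.monic_X_add_C _]
  simp only [Polynomial.natDegree_X_add_C, Finset.sum_const, Finset.card_range, smul_eq_mul, mul_one]

lemma P1f_ND_PB1 (p : ℕ) [Fact p.Prime] (hp2 : p ≠ 2) (ρ : ℚ) (hρ : 1 ≤ ρ) (n k : ℕ) (κ : ℕ → Option ℕ)
    (i : ℕ) : PB p ρ 1 (TS (-(k : ℚ)) ((P1f_ND n p κ i).comp (xp n))) := by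
  unfold P1f_ND
  rw [Polynomial.prod_comp, map_prod]
  have := PB.prod (p := p) (Finset.range i) (fun _ => (1 : ℚ))
    (fun l => TS (-(k : ℚ)) ((XD n (P1f_w n p κ l)).comp (xp n))) (by linarith : (0 : ℚ) ≤ ρ)
    (fun _ _ => zero_le_one) (fun l _ => P1f_XD p hp2 ρ hρ n k _)
  simpa using this

lemma P1f_w_dvd {n p k : ℕ} (hk : k ≤ 24 * n) {κ : ℕ → Option ℕ} {l : ℕ} (hl : κ l = some (kap n p k))
    (hc : P1f_ct κ (kap n p k) l < gz n p (kap n p k)) :
    (p : ℤ) ∣ (P1f_w n p κ l : ℤ) - 2 * k ∨ (p : ℤ) ∣ 48 * (n : ℤ) - P1f_w n p κ l - 2 * k := by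
  have h1 : (p : ℤ) ∣ (P1f_w n p κ l : ℤ) - 2 * (kap n p k : ℕ) := by
    by_cases hm : multi n p (kap n p k)
    · rw [P1f_w_multi hl hm]
      simp
    · have h2 := P1f_w_mem hl hm hc
      unfold Dz at h2
      rw [Finset.mem_filter] at h2
      exact h2.2.1
  rcases P1f_kap_cases (n := n) (p := p) (k := k) hk with h | h
  · left
    have e : (P1f_w n p κ l : ℤ) - 2 * k = (P1f_w n p κ l : ℤ) - 2 * (kap n p k : ℕ) -
      2 * ((k : ℤ) - (kap n p k : ℕ)) := by ring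
    rw [e]
    exact dvd_sub h1 (h.2.mul_left 2)
  · right
    have e : 48 * (n : ℤ) - P1f_w n p κ l - 2 * k = 2 * (24 * (n : ℤ) - k - (kap n p k : ℕ)) -
      ((P1f_w n p κ l : ℤ) - 2 * (kap n p k : ℕ)) := by ring
    rw [e]
    exact dvd_sub (h.2.mul_left 2) h1

lemma P1f_ND_PB (p : ℕ) [hp : Fact p.Prime] (hp2 : p ≠ 2) (n k : ℕ) (hk : k ≤ 24 * n) (κ : ℕ → Option ℕ)
    (hκ : ∀ i r, κ i = some r → P1f_ct κ r i < gz n p r) (i : ℕ) :
    PB p (p : ℚ) ((p : ℚ)⁻¹ ^ (P1f_ct κ (kap n p k) i)) (TS (-(k : ℚ)) ((P1f_ND n p κ i).comp (xp n))) := by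
  have hp0 : (0 : ℚ) < p := by exact_mod_cast hp.1.pos
  have hp1 : (1 : ℚ) ≤ p := by exact_mod_cast hp.1.one_le
  unfold P1f_ND
  rw [Polynomial.prod_comp, map_prod]
  have h := PB.prod (p := p) (Finset.range i) (fun l => if κ l = some (kap n p k) then (p : ℚ)⁻¹ else 1)
    (fun l => TS (-(k : ℚ)) ((XD n (P1f_w n p κ l)).comp (xp n))) hp0.le
    (fun l _ => by split_ifs <;> positivity) (fun l _ => by
      show PB p (p : ℚ) (if κ l = some (kap n p k) then (p : ℚ)⁻¹ else 1) _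
      split_ifs with hl
      · exact P1f_XD_zero p hp2 n k _ (P1f_w_dvd hk hl (hκ _ _ hl))
      · exact P1f_XD p hp2 (p : ℚ) hp1 n k _)
  rw [Finset.prod_ite, Finset.prod_const, Finset.prod_const_one, mul_one] at h
  exact h

lemma P1f_EE (n : ℕ) (Q Q' : ℚ[X]) : EE n (Q * Q') = xp n ^ 49 * (Q.comp (xp n) * Q'.comp (xp n)) := by
  unfold EE
  rw [Polynomial.mul_comp, Polynomial.mul_comp, Polynomial.X_pow_comp]

lemma P1f_xp_deg (n : ℕ) : (xp n).natDegree ≤ 2 := by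
  unfold xp
  refine Polynomial.natDegree_mul_le.trans ?_
  rw [Polynomial.natDegree_X, Polynomial.natDegree_X_add_C]

lemma P1f_EE_deg (n p : ℕ) (κ : ℕ → Option ℕ) (i j : ℕ) :
    (EE n (P1f_ND n p κ i * P1f_ND n p κ j)).natDegree ≤ 2 * (49 + i + j) := by
  rw [P1f_EE]
  have h1 : (xp n ^ 49).natDegree ≤ 49 * 2 :=
    Polynomial.natDegree_pow_le.trans (Nat.mul_le_mul_left _ (P1f_xp_deg n))
  have h2 : ∀ i, ((P1f_ND n p κ i).comp (xp n)).natDegree ≤ i * 2 := by
    intro i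
    rw [Polynomial.natDegree_comp, (P1f_ND_monic n p κ i).2]
    exact Nat.mul_le_mul_left _ (P1f_xp_deg n)
  have h3 := h2 i
  have h4 := h2 j
  have h5 := Polynomial.natDegree_mul_le (p := (P1f_ND n p κ i).comp (xp n)) (q := (P1f_ND n p κ j).comp (xp n))
  have h6 := Polynomial.natDegree_mul_le (p := xp n ^ 49)
    (q := (P1f_ND n p κ i).comp (xp n) * (P1f_ND n p κ j).comp (xp n))
  omega

/-- if all the nodes of the class are used, the polynomial vanishes at all evaluation points -/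
lemma P1f_ND_eval {n p k : ℕ} (hk : k ≤ 24 * n) {κ : ℕ → Option ℕ} {i : ℕ} (hm : ¬ multi n p (kap n p k))
    (hc : gz n p (kap n p k) ≤ P1f_ct κ (kap n p k) i) {w : ℕ} (hw : w ∈ Dz n p k) :
    ((P1f_ND n p κ i).comp (xp n)).eval (-(w : ℚ) / 2) = 0 := by
  have hw' := hw
  unfold Dz at hw'
  rw [Finset.mem_filter, Finset.mem_range] at hw'
  obtain ⟨hw1, hw2, hw3, hw4⟩ := hw'
  have hz : ∀ w', (w' = w ∨ w' = 48 * n - w) → ((XD n w').comp (xp n)).eval (-(w : ℚ) / 2) = 0 := by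
    intro w' hh
    rw [P1f_XD_comp]
    simp only [Polynomial.eval_mul, Polynomial.eval_add, Polynomial.eval_X, Polynomial.eval_C]
    rcases hh with h | h
    · rw [h]; ring
    · rw [h, Nat.cast_sub hw1.le]; push_cast; ring
  have hex : ∃ w' ∈ Dz n p (kap n p k), (w' = w ∨ w' = 48 * n - w) := by
    rcases P1f_kap_cases (n := n) (p := p) (k := k) hk with h | h
    · refine ⟨w, ?_, Or.inl rfl⟩
      unfold Dz
      rw [Finset.mem_filter, Finset.mem_range]
      refine ⟨hw1, ?_, hw3, hw4⟩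
      have e : (w : ℤ) - 2 * (kap n p k : ℕ) = (w : ℤ) - 2 * k + 2 * ((k : ℤ) - (kap n p k : ℕ)) := by ring
      rw [e]
      exact dvd_add hw2 (h.2.mul_left 2)
    · refine ⟨48 * n - w, ?_, Or.inr rfl⟩
      unfold Dz
      rw [Finset.mem_filter, Finset.mem_range]
      refine ⟨by omega, ?_, by omega, ?_⟩
      · have e : ((48 * n - w : ℕ) : ℤ) - 2 * (kap n p k : ℕ) =
            2 * (24 * (n : ℤ) - k - (kap n p k : ℕ)) - ((w : ℤ) - 2 * k) := by
          rw [Nat.cast_sub hw1.le]; push_cast; ring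
        rw [e]
        exact dvd_sub (h.2.mul_left 2) hw2
      · rcases hw4 with ⟨h5, h6⟩ | ⟨h5, h6, h7⟩
        · left
          refine ⟨?_, by omega⟩
          obtain ⟨c, hc⟩ := h5
          exact ⟨24 * n - c, by omega⟩
        · right
          rw [Nat.not_even_iff_odd] at h5 ⊢
          refine ⟨?_, by omega, by omega⟩
          obtain ⟨c, hc⟩ := h5
          exact ⟨24 * n - c - 1, by omega⟩
  obtain ⟨w', hw'1, hw'2⟩ := hex
  obtain ⟨l, hl, hl2⟩ := P1f_w_surj (κ := κ) (i := i) hm hc hw'1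
  unfold P1f_ND
  rw [Polynomial.prod_comp, Polynomial.eval_prod]
  apply Finset.prod_eq_zero (Finset.mem_range.2 hl)
  rw [hl2]
  exact hz w' hw'2

theorem P1_det_large {n p : ℕ} [Fact p.Prime] (hn : 2 ≤ n) (hp9 : 9 * n ≤ p) (q : ℕ) (u : ℚ)
    (hu : UInt q u) (m : ℕ) (hm : m ≤ 23 * (n - 1)) (μ : ℤ) (hcst : padicNorm p (cstN n) ≤ (p : ℚ) ^ μ) :
    padicNorm p ((q : ℚ) ^ m * DET n u m) ≤
      (p : ℚ) ^ (m * μ + ∑ κ ∈ Kset n p, TC (gz n p κ) (-(eeN p n κ) - μ)) := by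
  have hpp : p.Prime := Fact.out
  have hp0 : (0 : ℚ) < p := by exact_mod_cast hpp.pos
  have hp1 : (1 : ℚ) ≤ p := by exact_mod_cast hpp.one_le
  have hpo : p ≠ 2 := by omega
  have hp9' : 9 * n < p := by
    rcases hp9.lt_or_eq with h | h
    · exact h
    · exfalso
      have h3 : 3 ∣ p := ⟨3 * n, by omega⟩
      have := (Nat.prime_dvd_prime_iff_eq Nat.prime_three hpp).1 h3
      omega
  have hp24 : 24 * n < p ^ 2 := by nlinarith
  obtain ⟨κ, s, -, hs1, hs2, hs4, hs3⟩ := P1_greedy_sum (Kset n p) (fun r => -(eeN p n r)) (gz n p) μ m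
  have hκ : ∀ i r, κ i = some r → P1f_ct κ r i < gz n p r := hs4
  have hmat : padicNorm p (Matrix.of fun i j : Fin m =>
      (q : ℚ) * NL n u (P1f_ND n p κ i * P1f_ND n p κ j)).det ≤ ∏ i ∈ Finset.range m, (p : ℚ) ^ (s i) := by
    refine HD.A3_padic_det p m _ (fun i => (p : ℚ) ^ (s i)) (fun i => by positivity) fun i j => ?_
    rw [Matrix.of_apply, NL_apply]
    have hW : padicNorm p ((q : ℚ) * xf n u (PPn n * EE n (P1f_ND n p κ i * P1f_ND n p κ j))) ≤
        (p : ℚ) ^ ((s i + s j) / 2) := by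
      refine P1_xf_le hn hp9 q u hu _ ?_ ((p : ℚ) ^ ((s i + s j) / 2))
        (fun k => (p : ℚ)⁻¹ ^ (P1f_ct κ (kap n p k) i) * (p : ℚ)⁻¹ ^ (P1f_ct κ (kap n p k) j))
        (fun k => by positivity) ?_ ?_ ?_ ?_
      · refine (P1f_EE_deg n p κ i j).trans ?_
        have := i.2
        have := j.2
        omega
      · intro k hk
        have hk24 : k ≤ 24 * n := by
          have := (Finset.mem_Icc.1 hk).2
          omega
        rw [P1f_EE, map_mul, map_pow, map_mul]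
        have h1 := PB.pow hp0.le zero_le_one (P1f_xp p hpo (p : ℚ) hp1 n k) 49
        have h2 := PB.mul hp0.le (by positivity) (by positivity) (P1f_ND_PB p hpo n k hk24 κ hκ i)
          (P1f_ND_PB p hpo n k hk24 κ hκ j)
        have h3 := PB.mul hp0.le (by positivity) (by positivity) h1 h2
        simpa using h3
      · intro k hk
        rw [P1f_EE, map_mul, map_pow, map_mul]
        have h1 := PB.pow zero_le_one zero_le_one (P1f_xp p hpo 1 le_rfl n k) 49
        have h2 := PB.mul zero_le_one zero_le_one zero_le_one (P1f_ND_PB1 p hpo 1 le_rfl n k κ i)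
          (P1f_ND_PB1 p hpo 1 le_rfl n k κ j)
        have h3 := PB.mul zero_le_one (by norm_num) (by norm_num) h1 h2
        simpa using h3
      · refine le_trans hcst (zpow_le_zpow_right₀ hp1 ?_)
        have h1 := hs1 i
        have h2 := hs1 j
        omega
      · intro k hk
        have hk24 : k ≤ 24 * n := by
          have := (Finset.mem_Icc.1 hk).2
          omega
        have hmem := P1f_kap_mem (n := n) hpp.pos hk24
        have h2 := hs3 _ hmem i
        have h3 := hs3 _ hmem j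
        change -(eeN p n (kap n p k)) - 2 * (P1f_ct κ (kap n p k) i : ℤ) ≤ s i ∨
          gz n p (kap n p k) ≤ P1f_ct κ (kap n p k) i at h2
        change -(eeN p n (kap n p k)) - 2 * (P1f_ct κ (kap n p k) j : ℤ) ≤ s j ∨
          gz n p (kap n p k) ≤ P1f_ct κ (kap n p k) j at h3
        rw [P1f_ee_kap hk24] at h2 h3
        have hleft : -(eeN p n k) - 2 * (P1f_ct κ (kap n p k) i : ℤ) ≤ s i →
            -(eeN p n k) - 2 * (P1f_ct κ (kap n p k) j : ℤ) ≤ s j →
            (p : ℚ) ^ (-(eeN p n k)) * ((p : ℚ)⁻¹ ^ (P1f_ct κ (kap n p k) i) *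
              (p : ℚ)⁻¹ ^ (P1f_ct κ (kap n p k) j)) ≤ (p : ℚ) ^ ((s i + s j) / 2) := by
          intro h4 h5
          set a := P1f_ct κ (kap n p k) i
          set b := P1f_ct κ (kap n p k) j
          have e : (p : ℚ) ^ (-(eeN p n k)) * ((p : ℚ)⁻¹ ^ a * (p : ℚ)⁻¹ ^ b) =
              (p : ℚ) ^ (-(eeN p n k) - a - b : ℤ) := by
            generalize -(eeN p n k) = z
            rw [zpow_sub₀ hp0.ne', zpow_sub₀ hp0.ne', zpow_natCast, zpow_natCast,
              inv_pow, inv_pow, div_eq_mul_inv, div_eq_mul_inv, mul_assoc]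
          rw [e]
          refine zpow_le_zpow_right₀ hp1 ?_
          omega
        by_cases hmu : multi n p (kap n p k)
        · left
          have h6 := P1f_ee_multi hp9' hp24 k μ hcst
          rw [P1f_gz_multi hmu] at h2 h3
          have h7 := hs1 i
          have h8 := hs1 j
          apply hleft
          · rcases h2 with h2 | h2
            · exact h2
            · have : (6 : ℤ) ≤ P1f_ct κ (kap n p k) i := by exact_mod_cast h2
              linarith
          · rcases h3 with h3 | h3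
            · exact h3
            · have : (6 : ℤ) ≤ P1f_ct κ (kap n p k) j := by exact_mod_cast h3
              linarith
        · have hiso : ∀ k' ∈ Finset.Icc (3 * n) (21 * n), k' ≠ k → ¬ (p : ℤ) ∣ (k' : ℤ) - k :=
            fun k' hk' hkk hd => hmu (P1f_multi_of hk hk' hkk hd)
          rcases h2 with h2 | h2
          · rcases h3 with h3 | h3
            · exact Or.inl (hleft h2 h3)
            · right
              refine ⟨hiso, fun w hw => ?_⟩
              rw [P1f_EE, Polynomial.eval_mul, Polynomial.eval_mul, P1f_ND_eval hk24 hmu h3 hw, mul_zero, mul_zero]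
          · right
            refine ⟨hiso, fun w hw => ?_⟩
            rw [P1f_EE, Polynomial.eval_mul, Polynomial.eval_mul, P1f_ND_eval hk24 hmu h2 hw, zero_mul, mul_zero]
    calc padicNorm p ((q : ℚ) * xf n u (PPn n * EE n (P1f_ND n p κ i * P1f_ND n p κ j))) ^ 2
        ≤ ((p : ℚ) ^ ((s i + s j) / 2)) ^ 2 := pow_le_pow_left₀ (padicNorm.nonneg _) hW 2
      _ = (p : ℚ) ^ ((s i + s j) / 2 * 2) := by
          rw [← zpow_natCast, ← zpow_mul]
          rfl
      _ ≤ (p : ℚ) ^ (s i + s j) := zpow_le_zpow_right₀ hp1 (by omega)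
      _ = (p : ℚ) ^ (s i) * (p : ℚ) ^ (s j) := zpow_add₀ hp0.ne' _ _
  have hdet : (Matrix.of fun i j : Fin m =>
      (q : ℚ) * NL n u (P1f_ND n p κ i * P1f_ND n p κ j)).det = (q : ℚ) ^ m * DET n u m := by
    have h1 : (Matrix.of fun i j : Fin m => (q : ℚ) * NL n u (P1f_ND n p κ i * P1f_ND n p κ j)) =
        (q : ℚ) • (Matrix.of fun i j : Fin m => NL n u (P1f_ND n p κ i * P1f_ND n p κ j)) := by
      ext i j
      simp
    rw [h1, Matrix.det_smul, Fintype.card_fin,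
      HD.A1_det_monic (NL n u) m (P1f_ND n p κ) (fun i _ => P1f_ND_monic n p κ i)]
    rfl
  rw [← hdet]
  refine le_trans hmat ?_
  have hprod : ∏ i ∈ Finset.range m, (p : ℚ) ^ (s i) = (p : ℚ) ^ (∑ i ∈ Finset.range m, s i) := by
    clear hmat hdet hs2 hm
    induction m with
    | zero => simp
    | succ m ih => rw [Finset.prod_range_succ, Finset.sum_range_succ, zpow_add₀ hp0.ne', ih]
  rw [hprod]
  exact zpow_le_zpow_right₀ hp1 hs2

end

end Pool.Agent.H336R2.Z5
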