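import Pool.Agent.H336R2.Z5.DefsP
import Pool.Agent.H336R2.HD.D2

/-! Task P21: the exponent `e_p`, the constant and the symmetry. -/

open Polynomial Pool.Agent.H337R2 Filter Topology

namespace Pool.Agent.H336R2.Z5

noncomputable section

theorem P3_ee_form (n p k : ℕ) : eeN p n k = (vv n p : ℤ) - 2 * sr n p k := by
  unfold eeN ee nq vv sr
  have h1 : 24 * n - 3 * n = 21 * n := by omega
  have h2 : 24 * n - 4 * n = 20 * n := by omega
  have h3 : 24 * n - 5 * n = 19 * n := by omega
  simp only [h1, h2, h3, List.map_cons, List.map_nil, List.sum_cons, List.sum_nil]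
  push_cast
  norm_num
  ring

theorem P3_cst {n p : ℕ} [Fact p.Prime] (hp2 : 48 * n < p ^ 2) :
    padicNorm p (cstN n) = (p : ℚ) ^ (-(vv n p : ℤ)) := by
  have h := norm_cst (p := p) 0 24 2 n dz (by omega) (by simp) (by norm_num)
  rw [show cstN n = cst 0 24 2 n dz from rfl, h]
  congr 1
  unfold vv
  simp only [List.map_cons, List.map_nil, List.sum_cons, List.sum_nil]
  push_cast
  norm_num
  ring

private lemma P21_congr {n p k k' : ℕ} (h : k % p = k' % p) : eeN p n k = eeN p n k' := by
  unfold eeN ee n1 nq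
  simp only [HD.D2_cnt_congr h]

private lemma P21_refl {n p k : ℕ} (hk : k ≤ 24 * n) : eeN p n (24 * n - k) = eeN p n k := by
  rw [P3_ee_form, P3_ee_form]
  unfold sr
  rw [HD.D2_cnt_refl (by omega) (by omega) hk, HD.D2_cnt_refl (by omega) (by omega) hk,
    HD.D2_cnt_refl (by omega) (by omega) hk]
  have h1 : 24 * n - 21 * n = 3 * n := by omega
  have h2 : 24 * n - 3 * n = 21 * n := by omega
  have h3 : 24 * n - 20 * n = 4 * n := by omega
  have h4 : 24 * n - 4 * n = 20 * n := by omega
  have h5 : 24 * n - 19 * n = 5 * n := by omega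
  have h6 : 24 * n - 5 * n = 19 * n := by omega
  rw [h1, h2, h3, h4, h5, h6]

theorem P3_ee_sym {n p r : ℕ} (hp : p.Prime) (hn : 1 ≤ n) (hr : r < p) (hpn : p < 24 * n) :
    eeN p n r = eeN p n ((24 * n - r) % p) := by
  rw [P21_congr (Nat.mod_mod (24 * n - r) p), P21_refl (by omega)]

end

end Pool.Agent.H336R2.Z5
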