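import Pool.Agent.H336R2.Z5.DefsP
import Pool.Agent.H336R2.HD.E2

/-! Task P23: pairs of points in the same class, two concentric intervals. -/

open Polynomial Pool.Agent.H337R2

namespace Pool.Agent.H336R2.Z5

noncomputable section

/-- pairs of points in the same class, two concentric intervals -/
theorem P3_pairs {n p : ℕ} (hp : p.Prime) (hn : 7 ≤ n) (hpn : n < 20 * p) (A L D : ℕ) (hLD : L + D ≤ 18 * n) :
    ((∑ r ∈ Finset.range p, cnt p A (A + L + 2 * D) r * cnt p (A + D) (A + D + L) r : ℕ) : ℝ) ≤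
      (L + 1) + 2 * ∑ j ∈ J, (tn (L + D) j p - tn D j p + 1) := by
  have hp0 : 0 < p := hp.pos
  have hJ : ∀ j : ℕ, 1 ≤ j → j < 360 → j ∈ J := fun j h1 h2 => Finset.mem_Icc.2 ⟨h1, by omega⟩
  generalize J = K at hJ ⊢
  refine le_trans (Nat.cast_le.2
    (Pool.Agent.H336R2.HD.E2_pairs_le p A (A + L + 2 * D) (A + D) (A + D + L))) ?_
  have hj360 : ∀ j : ℕ, j * p ≤ L + D → j < 360 := by
    intro j hj
    by_contra hcon
    push Not at hcon
    have : 360 * p ≤ j * p := Nat.mul_le_mul_right _ hcon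
    omega
  have hsub : ((Finset.Icc A (A + L + 2 * D) ×ˢ Finset.Icc (A + D) (A + D + L)).filter
        fun x : ℕ × ℕ => (p : ℤ) ∣ (x.1 : ℤ) - x.2) ⊆
      (Finset.Icc (A + D) (A + D + L)).image (fun y => (y, y)) ∪
        ((K.biUnion fun j => (Finset.Ico (max (A + D) (A + j * p)) (A + D + L + 1)).image
            fun y => (y - j * p, y)) ∪
         (K.biUnion fun j => (Finset.Ico (A + D) (min (A + D + L + 1) (A + L + 2 * D + 1 - j * p))).image
            fun y => (y + j * p, y))) := by
    rintro ⟨x, y⟩ hx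
    rw [Finset.mem_filter, Finset.mem_product, Finset.mem_Icc, Finset.mem_Icc] at hx
    obtain ⟨⟨⟨hx1, hx2⟩, hy1, hy2⟩, q, hq⟩ := hx
    simp only at hx1 hx2 hy1 hy2 hq
    rw [Finset.mem_union, Finset.mem_union]
    rcases lt_trichotomy q 0 with h | h | h
    · -- y = x + j p
      right; left
      obtain ⟨j, rfl⟩ : ∃ j : ℕ, q = -(j : ℤ) := ⟨q.natAbs, by omega⟩
      have hj1 : 1 ≤ j := by omega
      have hy : y = x + j * p := by
        zify; linarith
      have hjL : j * p ≤ L + D := by omega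
      rw [Finset.mem_biUnion]
      refine ⟨j, hJ j hj1 (hj360 j hjL), ?_⟩
      rw [Finset.mem_image]
      refine ⟨y, Finset.mem_Ico.2 ⟨max_le hy1 (by omega), by omega⟩, ?_⟩
      rw [hy, Nat.add_sub_cancel]
    · left
      rw [Finset.mem_image]
      refine ⟨y, Finset.mem_Icc.2 ⟨hy1, hy2⟩, ?_⟩
      rw [h] at hq
      have : x = y := by omega
      rw [this]
    · right; right
      obtain ⟨j, rfl⟩ : ∃ j : ℕ, q = (j : ℤ) := ⟨q.natAbs, by omega⟩
      have hj1 : 1 ≤ j := by omega
      have hy : x = y + j * p := by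
        zify; linarith
      have hjL : j * p ≤ L + D := by omega
      rw [Finset.mem_biUnion]
      refine ⟨j, hJ j hj1 (hj360 j hjL), ?_⟩
      rw [Finset.mem_image]
      exact ⟨y, Finset.mem_Ico.2 ⟨hy1, lt_min (by omega) (by omega)⟩, by rw [hy]⟩
  have hb : ∀ (g : ℕ → Finset ℕ) (f : ℕ → ℕ → ℕ × ℕ),
      (∀ j, (g j).card + (D - j * p) ≤ (L + D - j * p) + 1) →
      ((K.biUnion fun j => (g j).image (f j)).card : ℝ) ≤
        ∑ j ∈ K, (tn (L + D) j p - tn D j p + 1) := by
    intro g f hg
    have e1 : (K.biUnion fun j => (g j).image (f j)).card ≤ ∑ j ∈ K, (g j).card := by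
      refine Finset.card_biUnion_le.trans (Finset.sum_le_sum fun j _ => ?_)
      exact Finset.card_image_le
    have e2 : ((∑ j ∈ K, (g j).card : ℕ) : ℝ) ≤ ∑ j ∈ K, (tn (L + D) j p - tn D j p + 1) := by
      rw [Nat.cast_sum]
      refine Finset.sum_le_sum fun j _ => ?_
      unfold tn
      have h := hg j
      have h' : ((g j).card : ℝ) + ((D - j * p : ℕ) : ℝ) ≤ ((L + D - j * p : ℕ) : ℝ) + 1 := by
        exact_mod_cast h
      linarith
    exact le_trans (by exact_mod_cast e1) e2
  have hc := Finset.card_le_card hsub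
  have hc2 := hc.trans ((Finset.card_union_le _ _).trans
    (Nat.add_le_add_left (Finset.card_union_le _ _) _))
  have hd : ((Finset.Icc (A + D) (A + D + L)).image (fun y => (y, y))).card ≤ L + 1 := by
    refine Finset.card_image_le.trans ?_
    rw [Nat.card_Icc]; omega
  have b1 := hb (fun j => Finset.Ico (max (A + D) (A + j * p)) (A + D + L + 1))
    (fun j y => (y - j * p, y)) (fun j => by
      rw [Nat.card_Ico]
      generalize j * p = d
      omega)
  have b2 := hb (fun j => Finset.Ico (A + D) (min (A + D + L + 1) (A + L + 2 * D + 1 - j * p)))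
    (fun j y => (y + j * p, y)) (fun j => by
      rw [Nat.card_Ico]
      generalize j * p = d
      omega)
  have hd' : (((Finset.Icc (A + D) (A + D + L)).image (fun y => (y, y))).card : ℝ) ≤ (L : ℝ) + 1 := by
    exact_mod_cast hd
  refine le_trans (Nat.cast_le.2 hc2) ?_
  push_cast
  linarith

end

end Pool.Agent.H336R2.Z5
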