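import Pool.Agent.H336R2.Z5.DefsP
import Pool.Agent.H336R2.Z5.P23
import Pool.Agent.H336R2.HD.E3Base

/-! Task P24: the sum of `sr` over the classes, and the sum of the squares. -/

open Polynomial Pool.Agent.H337R2 Filter Topology

namespace Pool.Agent.H336R2.Z5

noncomputable section

theorem P3_sum_sr {n p : ℕ} (hp : p.Prime) : ∑ r ∈ Finset.range p, sr n p r = 48 * n + 3 := by
  unfold sr
  rw [Finset.sum_add_distrib, Finset.sum_add_distrib, HD.E3_sum_cnt _ _ _ hp.pos,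
    HD.E3_sum_cnt _ _ _ hp.pos, HD.E3_sum_cnt _ _ _ hp.pos]
  omega

lemma P24_tn_zero (j p : ℕ) : tn 0 j p = 0 := by
  simp [tn]

lemma P24_sum (L D : ℕ) (p : ℕ) : ∑ j ∈ J, (tn (L + D) j p - tn D j p + 1) =
    ∑ j ∈ J, tn (L + D) j p - ∑ j ∈ J, tn D j p + 920 := by
  rw [Finset.sum_add_distrib, Finset.sum_sub_distrib, Finset.sum_const, Nat.card_Icc]
  norm_num

theorem P24_key (hpairs : ∀ n p : ℕ, p.Prime → 7 ≤ n → n < 20 * p → ∀ A L D : ℕ,
      L + D ≤ 18 * n →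
      ((∑ r ∈ Finset.range p, cnt p A (A + L + 2 * D) r * cnt p (A + D) (A + D + L) r : ℕ) : ℝ) ≤
      (L + 1) + 2 * ∑ j ∈ J, (tn (L + D) j p - tn D j p + 1)) :
    ∃ K0 : ℝ, ∀ n p : ℕ, p.Prime → 7 ≤ n → n < 20 * p →
    ((∑ r ∈ Finset.range p, sr n p r ^ 2 : ℕ) : ℝ) ≤ 136 * n +
      2 * ∑ j ∈ J, (tn (18 * n) j p + 2 * tn (17 * n) j p + 3 * tn (16 * n) j p + 2 * tn (15 * n) j p
      + tn (14 * n) j p - 4 * tn n j p - 2 * tn (2 * n) j p) + K0 := by
  refine ⟨9 + 2 * 920 * 9, fun n p hp hn hpn => ?_⟩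
  have h1 := hpairs n p hp hn hpn (3 * n) (18 * n) 0 (by omega)
  have h2 := hpairs n p hp hn hpn (4 * n) (16 * n) 0 (by omega)
  have h3 := hpairs n p hp hn hpn (5 * n) (14 * n) 0 (by omega)
  have h4 := hpairs n p hp hn hpn (3 * n) (16 * n) n (by omega)
  have h5 := hpairs n p hp hn hpn (3 * n) (14 * n) (2 * n) (by omega)
  have h6 := hpairs n p hp hn hpn (4 * n) (14 * n) n (by omega)
  have hz : ∑ j ∈ J, tn 0 j p = 0 := Finset.sum_eq_zero fun j _ => P24_tn_zero j p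
  rw [P24_sum] at h1 h2 h3 h4 h5 h6
  rw [hz] at h1 h2 h3
  have a1 : 3 * n + 18 * n + 2 * 0 = 21 * n := by ring
  have a2 : 3 * n + 0 + 18 * n = 21 * n := by ring
  have a3 : 4 * n + 16 * n + 2 * 0 = 20 * n := by ring
  have a4 : 4 * n + 0 + 16 * n = 20 * n := by ring
  have a5 : 5 * n + 14 * n + 2 * 0 = 19 * n := by ring
  have a6 : 5 * n + 0 + 14 * n = 19 * n := by ring
  have a7 : 3 * n + 16 * n + 2 * n = 21 * n := by ring
  have a8 : 3 * n + n = 4 * n := by ring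
  have a9 : 3 * n + n + 16 * n = 20 * n := by ring
  have a10 : 3 * n + 14 * n + 2 * (2 * n) = 21 * n := by ring
  have a11 : 3 * n + 2 * n = 5 * n := by ring
  have a12 : 3 * n + 2 * n + 14 * n = 19 * n := by ring
  have a13 : 4 * n + 14 * n + 2 * n = 20 * n := by ring
  have a14 : 4 * n + n = 5 * n := by ring
  have a15 : 4 * n + n + 14 * n = 19 * n := by ring
  have a16 : 16 * n + n = 17 * n := by ring
  have a17 : 14 * n + 2 * n = 16 * n := by ring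
  have a18 : 14 * n + n = 15 * n := by ring
  rw [a1, a2, add_zero, add_zero] at h1
  rw [a3, a4, add_zero, add_zero] at h2
  rw [a5, a6, add_zero, add_zero] at h3
  rw [a7, a9, a8, a16] at h4
  rw [a10, a12, a11, a17] at h5
  rw [a13, a15, a14, a18] at h6
  have hsq : ∑ r ∈ Finset.range p, sr n p r ^ 2 =
      ∑ r ∈ Finset.range p, cnt p (3 * n) (21 * n) r * cnt p (3 * n) (21 * n) r +
      ∑ r ∈ Finset.range p, cnt p (4 * n) (20 * n) r * cnt p (4 * n) (20 * n) r +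
      ∑ r ∈ Finset.range p, cnt p (5 * n) (19 * n) r * cnt p (5 * n) (19 * n) r +
      2 * ∑ r ∈ Finset.range p, cnt p (3 * n) (21 * n) r * cnt p (4 * n) (20 * n) r +
      2 * ∑ r ∈ Finset.range p, cnt p (3 * n) (21 * n) r * cnt p (5 * n) (19 * n) r +
      2 * ∑ r ∈ Finset.range p, cnt p (4 * n) (20 * n) r * cnt p (5 * n) (19 * n) r := by
    rw [Finset.mul_sum, Finset.mul_sum, Finset.mul_sum, ← Finset.sum_add_distrib,
      ← Finset.sum_add_distrib, ← Finset.sum_add_distrib, ← Finset.sum_add_distrib,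
      ← Finset.sum_add_distrib]
    refine Finset.sum_congr rfl fun r _ => ?_
    unfold sr
    ring
  have hT : ∑ j ∈ J, (tn (18 * n) j p + 2 * tn (17 * n) j p + 3 * tn (16 * n) j p +
      2 * tn (15 * n) j p + tn (14 * n) j p - 4 * tn n j p - 2 * tn (2 * n) j p) =
      ∑ j ∈ J, tn (18 * n) j p + 2 * ∑ j ∈ J, tn (17 * n) j p + 3 * ∑ j ∈ J, tn (16 * n) j p +
      2 * ∑ j ∈ J, tn (15 * n) j p + ∑ j ∈ J, tn (14 * n) j p - 4 * ∑ j ∈ J, tn n j p -
      2 * ∑ j ∈ J, tn (2 * n) j p := by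
    simp only [Finset.sum_add_distrib, Finset.sum_sub_distrib, Finset.mul_sum]
  rw [hsq, hT]
  rw [Nat.cast_add, Nat.cast_add, Nat.cast_add, Nat.cast_add, Nat.cast_add, Nat.cast_mul,
    Nat.cast_mul, Nat.cast_mul]
  rw [Nat.cast_mul, Nat.cast_ofNat] at h1 h2 h3 h4 h5 h6
  rw [Nat.cast_ofNat]
  linarith

theorem P3_sum_sr2 : ∃ K0 : ℝ, ∀ n p : ℕ, p.Prime → 7 ≤ n → n < 20 * p →
    ((∑ r ∈ Finset.range p, sr n p r ^ 2 : ℕ) : ℝ) ≤ 136 * n +
      2 * ∑ j ∈ J, (tn (18 * n) j p + 2 * tn (17 * n) j p + 3 * tn (16 * n) j p + 2 * tn (15 * n) j p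
      + tn (14 * n) j p - 4 * tn n j p - 2 * tn (2 * n) j p) + K0 :=
  P24_key fun _ _ hp hn hpn A L D hLD => P3_pairs hp hn hpn A L D hLD

end

end Pool.Agent.H336R2.Z5
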