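import Pool.Agent.H336R2.Z5.DefsP
import Pool.Agent.H336R2.HD.E3Base
import Pool.Agent.H336R2.Z5.P21
import Pool.Agent.H336R2.Z5.P22
import Pool.Agent.H336R2.Z5.P24
import Pool.Agent.H336R2.Z5.P25

/-! Task P26. -/

open Polynomial Pool.Agent.H337R2

namespace Pool.Agent.H336R2.Z5

noncomputable section

lemma P26_cnt {p A B r n : ℕ} (hp : 0 < p) (hpn : n < 20 * p) (hAB : A ≤ B + 1)
    (hB : B ≤ A + 18 * n) : cnt p A B r ≤ 360 := by
  have h1 := Pool.Agent.H336R2.HD.E3_cnt_le p A B r hp hAB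
  have hp' : (0 : ℤ) < p := by exact_mod_cast hp
  have h2 : ((B : ℤ) - A + 1) / p < 360 := by
    apply Int.ediv_lt_of_lt_mul hp'
    have h3 : (B : ℤ) ≤ A + 18 * n := by exact_mod_cast hB
    have h4 : (n : ℤ) < 20 * p := by exact_mod_cast hpn
    linarith
  omega

lemma P26_sr {n p : ℕ} (hp : 0 < p) (hpn : n < 20 * p) (r : ℕ) : sr n p r ≤ 1080 := by
  unfold sr
  have h1 := P26_cnt (r := r) (A := 3 * n) (B := 21 * n) hp hpn (by omega) (by omega)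
  have h2 := P26_cnt (r := r) (A := 4 * n) (B := 20 * n) hp hpn (by omega) (by omega)
  have h3 := P26_cnt (r := r) (A := 5 * n) (B := 19 * n) hp hpn (by omega) (by omega)
  omega

lemma P26_rh {n p : ℕ} (hp : 0 < p) (hpn : n < 20 * p) : rh n p ≤ 40 := by
  unfold rh
  apply Nat.le_of_lt_succ
  rw [Nat.div_lt_iff_lt_mul (by omega)]
  omega

lemma P26_vv {n p : ℕ} (hp : 0 < p) (hpn : n < 20 * p) : vv n p ≤ 1920 := by
  unfold vv
  have h1 : 18 * n / p < 360 := by rw [Nat.div_lt_iff_lt_mul hp]; omega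
  have h2 : 16 * n / p < 320 := by rw [Nat.div_lt_iff_lt_mul hp]; omega
  have h3 : 14 * n / p < 280 := by rw [Nat.div_lt_iff_lt_mul hp]; omega
  omega

lemma P26_TT (d : ℤ) : TT (2 * d - 1) ≤ d ^ 2 := by
  unfold TT
  split_ifs
  · have h : (2 * d - 1 + 1) ^ 2 = 4 * d ^ 2 := by ring
    rw [h, Int.mul_ediv_cancel_left _ (by norm_num)]
  · positivity

theorem P3_A : ∃ K0 : ℝ, ∀ n p : ℕ, p.Prime → 7 ≤ n → n < 20 * p → p < 12 * n → 48 * n < p ^ 2 →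
    ((((mN n : ℕ) : ℤ) * (1 + 2 * (rh n p : ℤ) - vv n p) +
      ∑ κ ∈ Kset n p, TT (-(eeN p n κ) - (1 + 2 * (rh n p : ℤ) - vv n p)) : ℤ) : ℝ) ≤ EA n p + K0 := by
  obtain ⟨K1, hK1⟩ := P3_sum_sr2
  refine ⟨1920 * 23 + K1 / 2 + 1080 ^ 2 / 2, ?_⟩
  intro n p hp hn hpn hp12 hp2
  have hp0 := hp.pos
  have hsr := P26_sr hp0 hpn
  have hrh := P26_rh hp0 hpn
  have hvv := P26_vv hp0 hpn
  have hp2' : p ≠ 2 := by
    rintro rfl
    omega
  obtain ⟨d, hd⟩ : ∃ d : ℕ → ℤ, d = fun r => (sr n p r : ℤ) - rh n p := ⟨_, rfl⟩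
  have hTT : ∀ κ, TT (-(eeN p n κ) - (1 + 2 * (rh n p : ℤ) - vv n p)) ≤ d κ ^ 2 := by
    intro κ
    have e : -(eeN p n κ) - (1 + 2 * (rh n p : ℤ) - vv n p) = 2 * d κ - 1 := by
      rw [P3_ee_form, hd]
      ring
    rw [e]
    exact P26_TT _
  have hK := P3_Kset_sum hp hp2' (by omega : p < 24 * n) (fun r => d r ^ 2) (1080 ^ 2) (by norm_num)
    (by
      intro r hr
      have h1 := P3_ee_sym hp (by omega : 1 ≤ n) hr (by omega)
      rw [P3_ee_form, P3_ee_form] at h1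
      have h2 : (sr n p r : ℤ) = sr n p ((24 * n - r) % p) := by linarith
      simp only [hd]
      rw [h2])
    (by
      intro r _
      have h1 := hsr r
      simp only [hd]
      apply sq_le_sq'
      · omega
      · omega)
  have hS : (∑ κ ∈ Kset n p, TT (-(eeN p n κ) - (1 + 2 * (rh n p : ℤ) - vv n p))) ≤
      ∑ κ ∈ Kset n p, d κ ^ 2 := Finset.sum_le_sum fun κ _ => hTT κ
  have hsum : ((∑ r ∈ Finset.range p, d r ^ 2 : ℤ) : ℝ) =
      ((∑ r ∈ Finset.range p, sr n p r ^ 2 : ℕ) : ℝ) - 2 * rh n p * (48 * n + 3) +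
        p * (rh n p : ℝ) ^ 2 := by
    have h1 := P3_sum_sr (n := n) hp
    have h1' : (∑ r ∈ Finset.range p, (sr n p r : ℝ)) = 48 * n + 3 := by
      exact_mod_cast h1
    rw [hd]
    push_cast
    have h2 : ∀ r ∈ Finset.range p, ((sr n p r : ℝ) - rh n p) ^ 2 =
        (sr n p r : ℝ) ^ 2 - 2 * rh n p * (sr n p r : ℝ) + (rh n p : ℝ) ^ 2 := by
      intro r _
      ring
    rw [Finset.sum_congr rfl h2, Finset.sum_add_distrib, Finset.sum_sub_distrib, ← Finset.mul_sum,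
      h1', Finset.sum_const, Finset.card_range, nsmul_eq_mul]
  have hKR : 2 * ((∑ κ ∈ Kset n p, d κ ^ 2 : ℤ) : ℝ) ≤
      ((∑ r ∈ Finset.range p, d r ^ 2 : ℤ) : ℝ) + 1080 ^ 2 := by
    exact_mod_cast hK
  have hSR : ((∑ κ ∈ Kset n p, TT (-(eeN p n κ) - (1 + 2 * (rh n p : ℤ) - vv n p)) : ℤ) : ℝ) ≤
      ((∑ κ ∈ Kset n p, d κ ^ 2 : ℤ) : ℝ) := by exact_mod_cast hS
  have h2 := hK1 n p hp hn hpn
  have h3 := P3_rho hp hpn
  have hm : ((mN n : ℕ) : ℝ) = 23 * n - 23 := by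
    unfold mN
    rw [Nat.cast_mul, Nat.cast_sub (by omega)]
    push_cast
    ring
  have hvvR : (vv n p : ℝ) ≤ 1920 := by exact_mod_cast hvv
  have hrh0 : (0 : ℝ) ≤ rh n p := Nat.cast_nonneg _
  unfold EA
  rw [Int.cast_add, Int.cast_mul, Int.cast_natCast, hm]
  have e1 : (((1 + 2 * (rh n p : ℤ) - vv n p : ℤ)) : ℝ) = 1 + 2 * (rh n p : ℝ) - vv n p := by
    push_cast
    ring
  rw [e1]
  rw [hsum] at hKR
  generalize ∑ j ∈ J, (tn (18 * n) j p + 2 * tn (17 * n) j p + 3 * tn (16 * n) j p +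
    2 * tn (15 * n) j p + tn (14 * n) j p - 4 * tn n j p - 2 * tn (2 * n) j p) = Sj at h2 ⊢
  generalize ∑ j ∈ J.filter Odd, tn (4 * n) j p = So at h3 ⊢
  generalize ((∑ κ ∈ Kset n p, TT (-(eeN p n κ) - (1 + 2 * (rh n p : ℤ) - vv n p)) : ℤ) : ℝ) = t1
    at hSR ⊢
  generalize ((∑ κ ∈ Kset n p, d κ ^ 2 : ℤ) : ℝ) = t2 at hSR hKR
  generalize ((∑ r ∈ Finset.range p, sr n p r ^ 2 : ℕ) : ℝ) = t3 at h2 hKR
  generalize (rh n p : ℝ) = ρ at *
  generalize (vv n p : ℝ) = v at *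
  nlinarith

end

end Pool.Agent.H336R2.Z5
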