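import Pool.Agent.H336R2.Z5.DefsP

/-!
# P3_gz: number of evaluation points of a one-site class
-/

open Polynomial Pool.Agent.H337R2

namespace Pool.Agent.H336R2.Z5

theorem P3_gz_mem {n p k : ℕ} (hp : p.Prime) (hn : 7 ≤ n) (hp12 : 12 * n ≤ p)
    (hk : k ∈ Finset.Icc (3 * n) (21 * n)) (h1 : k < 3 * n + p) (h2 : 21 * n < k + p) (w : ℕ) :
    w ∈ Dz n p k ↔ ((w + p = 2 * k ∧ 8 * n + p < 2 * k) ∨ (w = 2 * k + p ∧ 2 * k + p < 40 * n) ∨
      (w + 2 * p = 2 * k ∧ p < k) ∨ (w = 2 * k + 2 * p ∧ k + p < 24 * n)) := by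
  rw [Finset.mem_Icc] at hk
  have hodd : p % 2 = 1 := by
    rcases hp.eq_two_or_odd with h | h
    · omega
    · exact h
  unfold Dz
  rw [Finset.mem_filter, Finset.mem_range, Nat.not_even_iff, Nat.even_iff]
  constructor
  · rintro ⟨hw, ⟨j, hj⟩, hw0, hcase⟩
    have hj1 : j ≤ 3 := by
      by_contra hc
      have h4 : (4 : ℤ) ≤ j := by omega
      have h5 : (p : ℤ) * 4 ≤ p * j := mul_le_mul_of_nonneg_left h4 (by positivity)
      omega
    have hj2 : -3 ≤ j := by
      by_contra hc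
      have h4 : j ≤ (-4 : ℤ) := by omega
      have h5 : (p : ℤ) * j ≤ p * (-4) := mul_le_mul_of_nonneg_left h4 (by positivity)
      omega
    interval_cases j <;> omega
  · rintro (⟨h3, h4⟩ | ⟨h3, h4⟩ | ⟨h3, h4⟩ | ⟨h3, h4⟩)
    · refine ⟨by omega, ⟨-1, by omega⟩, by omega, by omega⟩
    · refine ⟨by omega, ⟨1, by omega⟩, by omega, by omega⟩
    · refine ⟨by omega, ⟨-2, by omega⟩, by omega, by omega⟩
    · refine ⟨by omega, ⟨2, by omega⟩, by omega, by omega⟩

theorem P3_gz_ite (P : Prop) [Decidable P] (a w : ℕ) :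
    w ∈ (if P then ({a} : Finset ℕ) else ∅) ↔ (w = a ∧ P) := by
  split_ifs with h
  · simp [h]
  · simp [h]

theorem P3_gz_card (P : Prop) [Decidable P] (a : ℕ) :
    (if P then ({a} : Finset ℕ) else ∅).card = if P then 1 else 0 := by
  split_ifs <;> simp

/-- number of evaluation points of a one-site class -/
theorem P3_gz {n p k : ℕ} (hp : p.Prime) (hn : 7 ≤ n) (hp12 : 12 * n ≤ p)
    (hk : k ∈ Finset.Icc (3 * n) (21 * n)) (h1 : k < 3 * n + p) (h2 : 21 * n < k + p) :
    (Dz n p k).card = (if 8 * n + p < 2 * k then 1 else 0) + (if 2 * k + p < 40 * n then 1 else 0) +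
      (if p < k then 1 else 0) + (if k + p < 24 * n then 1 else 0) := by
  have hp0 : 0 < p := hp.pos
  have hset : Dz n p k = (((if 8 * n + p < 2 * k then {2 * k - p} else ∅) ∪
      (if 2 * k + p < 40 * n then {2 * k + p} else ∅)) ∪
      (if p < k then {2 * k - 2 * p} else ∅)) ∪ (if k + p < 24 * n then {2 * k + 2 * p} else ∅) := by
    ext w
    rw [P3_gz_mem hp hn hp12 hk h1 h2]
    simp only [Finset.mem_union, P3_gz_ite]
    omega
  rw [hset, Finset.card_union_of_disjoint, Finset.card_union_of_disjoint,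
    Finset.card_union_of_disjoint, P3_gz_card, P3_gz_card, P3_gz_card, P3_gz_card]
  · rw [Finset.disjoint_left]
    intro w
    simp only [P3_gz_ite]
    omega
  · rw [Finset.disjoint_left]
    intro w
    simp only [Finset.mem_union, P3_gz_ite]
    omega
  · rw [Finset.disjoint_left]
    intro w
    simp only [Finset.mem_union, P3_gz_ite]
    omega

end Pool.Agent.H336R2.Z5
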