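import Pool.Agent.H336R2.Z5.DefsSw
import Pool.Agent.H336R2.Z5.P21
import Pool.Agent.H336R2.Z5.P27

/-! Task P28: reduction of the class sum to one-site and two-site classes (`p ≥ 12 n`). -/

open Polynomial Pool.Agent.H337R2

namespace Pool.Agent.H336R2.Z5

noncomputable section

lemma P28_cnt {n p r A B : ℕ} (hn : 7 ≤ n) (hp : 12 * n ≤ p) (hr : r < p) (hB : B ≤ 21 * n) :
    cnt p A B r = (if A ≤ r ∧ r ≤ B then 1 else 0) +
      (if A ≤ r + p ∧ r + p ≤ B then 1 else 0) := by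
  unfold cnt
  have h1 : (Finset.Icc A B).filter (fun m : ℕ => (p : ℤ) ∣ (m : ℤ) - r) =
      ({r, r + p} : Finset ℕ).filter (fun m => A ≤ m ∧ m ≤ B) := by
    ext m
    simp only [Finset.mem_filter, Finset.mem_Icc, Finset.mem_insert, Finset.mem_singleton]
    constructor
    · rintro ⟨⟨h1, h2⟩, ⟨c, hc⟩⟩
      refine ⟨?_, h1, h2⟩
      have hpos : (0 : ℤ) < p := by omega
      have hc0 : 0 ≤ c := by
        by_contra hneg
        push Not at hneg
        have : (p : ℤ) * c ≤ p * (-1) := mul_le_mul_of_nonneg_left (by omega) hpos.le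
        omega
      have hc1 : c ≤ 1 := by
        by_contra hneg
        push Not at hneg
        have : (p : ℤ) * 2 ≤ p * c := mul_le_mul_of_nonneg_left (by omega) hpos.le
        omega
      have hc2 : c = 0 ∨ c = 1 := by omega
      rcases hc2 with rfl | rfl
      · left; omega
      · right; omega
    · rintro ⟨h1 | h1, h2, h3⟩
      · exact ⟨⟨h2, h3⟩, ⟨0, by rw [h1]; ring⟩⟩
      · exact ⟨⟨h2, h3⟩, ⟨1, by rw [h1]; push_cast; ring⟩⟩
  rw [h1, Finset.card_filter, Finset.sum_pair (by omega)]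

lemma P28_TC_zero (g : ℕ) : TC g 0 = 0 := by
  unfold TC
  refine Finset.sum_eq_zero fun a _ => ?_
  rw [max_eq_left]
  omega

lemma P28_TC_nonneg (g : ℕ) (y : ℤ) : 0 ≤ TC g y :=
  Finset.sum_nonneg fun _ _ => le_max_left _ _

lemma P28_TT_nonneg (y : ℤ) : 0 ≤ TT y := by
  unfold TT
  split_ifs
  · positivity
  · exact le_refl 0

lemma P28_TC_six (s : ℕ) (hs : s ≤ 6) : TC 6 (2 * (s : ℤ)) = TT (2 * (s : ℤ)) := by
  interval_cases s <;> simp [TC, TT, Finset.sum_range_succ]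

/-- the class condition, resolved -/
lemma P28_Kset {n p r : ℕ} (hn : 7 ≤ n) (hp : 12 * n ≤ p) (hr : r ∈ Kset n p) :
    r < p ∧ r ≤ 12 * n ∧ (r + p ≤ 24 * n → 2 * r + p ≤ 24 * n) := by
  unfold Kset at hr
  rw [Finset.mem_filter, Finset.mem_range] at hr
  obtain ⟨h1, h2⟩ := hr
  by_cases h3 : r + p ≤ 24 * n
  · have h4 : (24 * n - r) % p = (24 * n - r - p) % p := by
      rw [Nat.mod_eq_sub_mod (by omega)]
    rcases Nat.lt_or_ge (24 * n - r - p) p with h5 | h5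
    · rw [h4, Nat.mod_eq_of_lt h5] at h2
      refine ⟨h1, by omega, fun _ => by omega⟩
    · have h6 : r = 0 ∧ p = 12 * n := by omega
      refine ⟨h1, by omega, fun _ => by omega⟩
  · have h4 : (24 * n - r) % p = 24 * n - r := Nat.mod_eq_of_lt (by omega)
    rw [h4] at h2
    exact ⟨h1, by omega, fun h => absurd h h3⟩

lemma P28_Dz_congr {n p r : ℕ} : Dz n p (r + p) = Dz n p r := by
  unfold Dz
  refine Finset.filter_congr fun w _ => ?_
  have : ((p : ℤ) ∣ (w : ℤ) - 2 * ((r + p : ℕ) : ℤ)) ↔ ((p : ℤ) ∣ (w : ℤ) - 2 * (r : ℤ)) := by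
    constructor
    · rintro ⟨c, hc⟩
      exact ⟨c + 2, by push_cast at hc; linarith [mul_add (p : ℤ) c 2]⟩
    · rintro ⟨c, hc⟩
      exact ⟨c - 2, by push_cast; linarith [mul_sub (p : ℤ) c 2]⟩
  rw [this]

lemma P28_gz_two {n p r : ℕ} (hn : 7 ≤ n) (hp : 12 * n ≤ p) (hr : r < p) (h3 : 3 * n ≤ r)
    (h4 : r + p ≤ 21 * n) : gz n p r = 6 := by
  unfold gz
  rw [if_pos]
  refine ⟨r, Finset.mem_Icc.mpr ⟨h3, by omega⟩, r + p, Finset.mem_Icc.mpr ⟨by omega, h4⟩,
    by omega, Nat.mod_eq_of_lt hr, ?_⟩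
  rw [Nat.add_mod_right, Nat.mod_eq_of_lt hr]

lemma P28_gz_one {n p r : ℕ} (hn : 7 ≤ n) (hp : 12 * n ≤ p) (hr : r < p)
    (h3 : ¬ (3 * n ≤ r ∧ r + p ≤ 21 * n)) : gz n p r = (Dz n p r).card := by
  unfold gz
  rw [if_neg]
  have key : ∀ k ∈ Finset.Icc (3 * n) (21 * n), k % p = r → k = r ∨ k = r + p := by
    intro k hk hkr
    rw [Finset.mem_Icc] at hk
    rcases Nat.lt_or_ge k p with h5 | h5
    · left; rw [← hkr, Nat.mod_eq_of_lt h5]
    · right
      rw [Nat.mod_eq_sub_mod h5, Nat.mod_eq_of_lt (by omega)] at hkr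
      omega
  rintro ⟨k, hk, k', hk', hne, h5, h6⟩
  have h7 := key k hk h5
  have h8 := key k' hk' h6
  rw [Finset.mem_Icc] at hk hk'
  omega

/-- the multiplicity of a class -/
lemma P28_sr {n p r : ℕ} (hn : 7 ≤ n) (hp12 : 12 * n ≤ p) (hlt : r < p) :
    sr n p r = (if 3 * n ≤ r ∧ r ≤ 21 * n then 1 else 0) +
          (if 3 * n ≤ r + p ∧ r + p ≤ 21 * n then 1 else 0) +
          ((if 4 * n ≤ r ∧ r ≤ 20 * n then 1 else 0) +
          (if 4 * n ≤ r + p ∧ r + p ≤ 20 * n then 1 else 0)) +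
          ((if 5 * n ≤ r ∧ r ≤ 19 * n then 1 else 0) +
          (if 5 * n ≤ r + p ∧ r + p ≤ 19 * n then 1 else 0)) := by
  unfold sr
  rw [P28_cnt hn hp12 hlt (le_refl _), P28_cnt hn hp12 hlt (by omega),
      P28_cnt hn hp12 hlt (by omega)]

lemma P28_sr_le {n p r : ℕ} (hn : 7 ≤ n) (hp12 : 12 * n ≤ p) (hlt : r < p) : sr n p r ≤ 6 := by
  have hi : ∀ (P : Prop) [Decidable P], (if P then 1 else 0 : ℕ) ≤ 1 := fun P _ => by
    split_ifs <;> omega
  rw [P28_sr hn hp12 hlt]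
  exact add_le_add (add_le_add (add_le_add (hi _) (hi _)) (add_le_add (hi _) (hi _)))
    (add_le_add (hi _) (hi _))

lemma P28_two {n p r : ℕ} (hn : 7 ≤ n) (hp12 : 12 * n ≤ p) (hlt : r < p) (h1 : 3 * n ≤ r)
    (h2 : r + p ≤ 21 * n) :
    2 * (sr n p r : ℤ) =
      Sw n (9 * n - (r - 3 * n)) + Sw n (9 * n - (18 * n - p - (r - 3 * n))) := by
  have e1 : 9 * n - (r - 3 * n) = 12 * n - r := by omega
  have e2 : 9 * n - (18 * n - p - (r - 3 * n)) = r + p - 12 * n := by omega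
  have c1 : (3 * n ≤ r ∧ r ≤ 21 * n) ↔ (12 * n - r ≤ 9 * n) := by omega
  have c2 : (4 * n ≤ r ∧ r ≤ 20 * n) ↔ (12 * n - r ≤ 8 * n) := by omega
  have c3 : (5 * n ≤ r ∧ r ≤ 19 * n) ↔ (12 * n - r ≤ 7 * n) := by omega
  have c4 : (3 * n ≤ r + p ∧ r + p ≤ 21 * n) ↔ (r + p - 12 * n ≤ 9 * n) := by omega
  have c5 : (4 * n ≤ r + p ∧ r + p ≤ 20 * n) ↔ (r + p - 12 * n ≤ 8 * n) := by omega
  have c6 : (5 * n ≤ r + p ∧ r + p ≤ 19 * n) ↔ (r + p - 12 * n ≤ 7 * n) := by omega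
  rw [P28_sr hn hp12 hlt, Sw, Sw, e1, e2]
  simp only [c1, c2, c3, c4, c5, c6]
  push_cast
  ring

lemma P28_oneA {n p r : ℕ} (hn : 7 ≤ n) (hp12 : 12 * n ≤ p) (hlt : r < p) (h1 : 3 * n ≤ r)
    (h2 : 21 * n < r + p) (h12 : r ≤ 12 * n) :
    2 * (sr n p r : ℤ) = Sw n (12 * n - r) := by
  have c1 : (3 * n ≤ r ∧ r ≤ 21 * n) ↔ (12 * n - r ≤ 9 * n) := by omega
  have c2 : (4 * n ≤ r ∧ r ≤ 20 * n) ↔ (12 * n - r ≤ 8 * n) := by omega
  have c3 : (5 * n ≤ r ∧ r ≤ 19 * n) ↔ (12 * n - r ≤ 7 * n) := by omega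
  have c4 : ¬ (3 * n ≤ r + p ∧ r + p ≤ 21 * n) := by omega
  have c5 : ¬ (4 * n ≤ r + p ∧ r + p ≤ 20 * n) := by omega
  have c6 : ¬ (5 * n ≤ r + p ∧ r + p ≤ 19 * n) := by omega
  rw [P28_sr hn hp12 hlt, Sw, if_neg c4, if_neg c5, if_neg c6]
  simp only [c1, c2, c3]
  push_cast
  ring

lemma P28_oneB {n p r : ℕ} (hn : 7 ≤ n) (hp12 : 12 * n ≤ p) (hlt : r < p) (h1 : r < 3 * n)
    (h2 : r + p ≤ 21 * n) :
    2 * (sr n p r : ℤ) = Sw n (r + p - 12 * n) := by
  have c1 : ¬ (3 * n ≤ r ∧ r ≤ 21 * n) := by omega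
  have c2 : ¬ (4 * n ≤ r ∧ r ≤ 20 * n) := by omega
  have c3 : ¬ (5 * n ≤ r ∧ r ≤ 19 * n) := by omega
  have c4 : (3 * n ≤ r + p ∧ r + p ≤ 21 * n) ↔ (r + p - 12 * n ≤ 9 * n) := by omega
  have c5 : (4 * n ≤ r + p ∧ r + p ≤ 20 * n) ↔ (r + p - 12 * n ≤ 8 * n) := by omega
  have c6 : (5 * n ≤ r + p ∧ r + p ≤ 19 * n) ↔ (r + p - 12 * n ≤ 7 * n) := by omega
  rw [P28_sr hn hp12 hlt, Sw, if_neg c1, if_neg c2, if_neg c3]
  simp only [c4, c5, c6]
  push_cast
  ring

/-- generic transport of a sum along an injection -/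
lemma P28_transport (S : Finset ℕ) (W : Finset ℕ) (f F : ℕ → ℤ) (φ : ℕ → ℕ)
    (hφ : ∀ r ∈ S, φ r ∈ W) (hinj : ∀ r ∈ S, ∀ r' ∈ S, φ r = φ r' → r = r')
    (hf : ∀ r ∈ S, f r ≤ F (φ r)) (hF : ∀ w ∈ W, 0 ≤ F w) :
    ∑ r ∈ S, f r ≤ ∑ w ∈ W, F w := by
  calc ∑ r ∈ S, f r ≤ ∑ r ∈ S, F (φ r) := Finset.sum_le_sum hf
    _ = ∑ w ∈ S.image φ, F w := by
        rw [Finset.sum_image]
        intro r hr r' hr' h
        exact hinj r hr r' hr' h
    _ ≤ ∑ w ∈ W, F w := by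
        refine Finset.sum_le_sum_of_subset_of_nonneg ?_ fun w hw _ => hF w hw
        intro w hw
        obtain ⟨r, hr, rfl⟩ := Finset.mem_image.mp hw
        exact hφ r hr

/-- reduction to one-site classes (distance `w` of the pole to the centre, `w + 9n < p`) and two-site classes
(poles `3n + u`, `3n + u + p`, with mirror image `3n + u'`, `u + u' = 18n - p`) -/
theorem P3_B1 {n p : ℕ} (hp : p.Prime) (hn : 7 ≤ n) (hp12 : 12 * n ≤ p) (hp2 : 48 * n < p ^ 2) :
    ∑ κ ∈ Kset n p, TC (gz n p κ) (-(eeN p n κ) - (-(vv n p : ℤ))) ≤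
      ∑ w ∈ (Finset.range (9 * n + 1)).filter (fun w => w + 9 * n < p), TC (gw n p w) (Sw n w) +
      ∑ u ∈ (Finset.range (18 * n + 1 - p)).filter (fun u => 2 * u ≤ 18 * n - p),
        TT (Sw n (9 * n - u) + Sw n (9 * n - (18 * n - p - u))) := by
  have hee : ∀ κ, -(eeN p n κ) - (-(vv n p : ℤ)) = 2 * (sr n p κ : ℤ) := by
    intro κ; rw [P3_ee_form]; ring
  simp only [hee]
  -- split
  set P2 : ℕ → Prop := fun r => 3 * n ≤ r ∧ r + p ≤ 21 * n with hP2
  set P1 : ℕ → Prop := fun r => (3 * n ≤ r ∧ 21 * n < r + p) ∨ (r < 3 * n ∧ r + p ≤ 21 * n) with hP1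
  have hdecP2 : DecidablePred P2 := fun r => by rw [hP2]; infer_instance
  have hdecP1 : DecidablePred P1 := fun r => by rw [hP1]; infer_instance
  rw [← Finset.sum_filter_add_sum_filter_not (Kset n p) P2, add_comm]
  refine add_le_add ?_ ?_
  · -- one-site classes and empty classes
    have h0 : ∑ κ ∈ (Kset n p).filter (fun r => ¬ P2 r), TC (gz n p κ) (2 * (sr n p κ : ℤ)) =
        ∑ κ ∈ (Kset n p).filter P1, TC (gz n p κ) (2 * (sr n p κ : ℤ)) := by
      symm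
      apply Finset.sum_subset
      · intro r hr
        rw [Finset.mem_filter] at hr ⊢
        refine ⟨hr.1, fun h => ?_⟩
        have h1 := hr.2
        simp only [hP1, hP2] at h h1
        omega
      · intro r hr hr'
        rw [Finset.mem_filter] at hr hr'
        obtain ⟨hK, hnot⟩ := hr
        have hnot1 : ¬ P1 r := fun h => hr' ⟨hK, h⟩
        obtain ⟨hlt, h12, -⟩ := P28_Kset hn hp12 hK
        simp only [hP1, hP2] at hnot hnot1
        have hs : sr n p r = 0 := by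
          unfold sr
          rw [P28_cnt hn hp12 hlt (le_refl _), P28_cnt hn hp12 hlt (by omega),
            P28_cnt hn hp12 hlt (by omega)]
          rw [if_neg (by omega), if_neg (by omega), if_neg (by omega), if_neg (by omega),
            if_neg (by omega), if_neg (by omega)]
        rw [hs]
        simpa using P28_TC_zero _
    rw [h0]
    refine P28_transport _ _ _ _ (fun r => if 3 * n ≤ r then 12 * n - r else r + p - 12 * n)
      ?_ ?_ ?_ (fun w _ => P28_TC_nonneg _ _)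
    · intro r hr
      rw [Finset.mem_filter] at hr
      obtain ⟨hK, h1⟩ := hr
      obtain ⟨hlt, h12, h24⟩ := P28_Kset hn hp12 hK
      simp only [hP1] at h1
      simp only [Finset.mem_filter, Finset.mem_range]
      split_ifs with h3 <;> omega
    · intro r hr r' hr' h
      rw [Finset.mem_filter] at hr hr'
      obtain ⟨hlt, h12, h24⟩ := P28_Kset hn hp12 hr.1
      obtain ⟨hlt', h12', h24'⟩ := P28_Kset hn hp12 hr'.1
      have h1 := hr.2
      have h1' := hr'.2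
      simp only [hP1] at h1 h1'
      split_ifs at h with h3 h4 h4 <;> omega
    · intro r hr
      rw [Finset.mem_filter] at hr
      obtain ⟨hK, h1⟩ := hr
      obtain ⟨hlt, h12, h24⟩ := P28_Kset hn hp12 hK
      simp only [hP1] at h1
      have hg := P28_gz_one hn hp12 hlt (r := r) (by omega)
      rw [hg]
      by_cases h3 : 3 * n ≤ r
      · rw [if_pos h3]
        have hD := P3_gz hp hn hp12 (k := r) (Finset.mem_Icc.mpr ⟨h3, by omega⟩) (by omega)
          (by omega)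
        have hgw : (Dz n p r).card = gw n p (12 * n - r) := by
          rw [hD, gw]
          split_ifs <;> omega
        have hSw := P28_oneA hn hp12 hlt h3 (by omega) h12
        rw [hgw, hSw]
      · rw [if_neg h3]
        have hD := P3_gz hp hn hp12 (k := r + p) (Finset.mem_Icc.mpr ⟨by omega, by omega⟩)
          (by omega) (by omega)
        rw [P28_Dz_congr] at hD
        have hgw : (Dz n p r).card = gw n p (r + p - 12 * n) := by
          rw [hD, gw]
          split_ifs <;> omega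
        have hSw := P28_oneB hn hp12 hlt (by omega) (by omega)
        rw [hgw, hSw]
  · refine P28_transport _ _ _ _ (fun r => r - 3 * n) ?_ ?_ ?_ (fun w _ => P28_TT_nonneg _)
    · intro r hr
      rw [Finset.mem_filter] at hr
      obtain ⟨hK, h1⟩ := hr
      obtain ⟨hlt, h12, h24⟩ := P28_Kset hn hp12 hK
      simp only [hP2] at h1
      simp only [Finset.mem_filter, Finset.mem_range]
      omega
    · intro r hr r' hr' h
      rw [Finset.mem_filter] at hr hr'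
      have h1 := hr.2
      have h1' := hr'.2
      simp only [hP2] at h1 h1'
      omega
    · intro r hr
      rw [Finset.mem_filter] at hr
      obtain ⟨hK, h1⟩ := hr
      obtain ⟨hlt, h12, h24⟩ := P28_Kset hn hp12 hK
      simp only [hP2] at h1
      have hg := P28_gz_two hn hp12 hlt h1.1 h1.2
      have hs6 : sr n p r ≤ 6 := P28_sr_le hn hp12 hlt
      rw [hg, P28_TC_six _ hs6]
      have hSw := P28_two hn hp12 hlt h1.1 h1.2
      rw [hSw]

end

end Pool.Agent.H336R2.Z5
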