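import Pool.Agent.H336R2.Z5.DefsSw

/-!
# The one-site classes for `12 n ≤ p < 34 n` (P29)
-/

open Polynomial Pool.Agent.H337R2 Finset

namespace Pool.Agent.H336R2.Z5

namespace P29x

/-- indicator in `ℤ` -/
def ind (P : Prop) [Decidable P] : ℤ := if P then 1 else 0

theorem pw {n p w : ℕ} (hp : 12 * n ≤ p) (hw : w ≤ 9 * n) (hwp : w + 9 * n < p) :
    TC (gw n p w) (Sw n w) =
      2 * ind (p < 16 * n + 2 * w) + 2 * ind (w ≤ 8 * n ∧ p < 16 * n + 2 * w) +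
      2 * ind (w ≤ 7 * n ∧ p < 16 * n + 2 * w) + 4 * ind (2 * w + p < 16 * n) +
      2 * ind (w ≤ 8 * n ∧ p < 12 * n + w) + 2 * ind (w ≤ 7 * n ∧ p < 12 * n + w) -
      2 * ind (2 * w + p < 16 * n ∧ p < 12 * n + w) := by
  unfold TC gw Sw ind
  by_cases h8 : w ≤ 8 * n <;> by_cases h7 : w ≤ 7 * n <;> by_cases ha : p < 16 * n + 2 * w <;>
    by_cases hb : 2 * w + p < 16 * n <;> by_cases hc : p < 12 * n + w <;>
    first
      | (exfalso; omega)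
      | (simp [hw, h8, h7, ha, hb, hc, Finset.sum_range_succ])

theorem ind_sum (s : Finset ℕ) (P : ℕ → Prop) [DecidablePred P] :
    ∑ w ∈ s, ind (P w) = ((s.filter P).card : ℤ) := by
  unfold ind
  rw [Finset.sum_boole]

theorem card_le_Ico {s : Finset ℕ} {a b : ℕ} (h : ∀ w ∈ s, a ≤ w ∧ w < b) : (s.card : ℤ) ≤ ((b - a : ℕ) : ℤ) := by
  have : s ⊆ Finset.Ico a b := fun w hw => Finset.mem_Ico.2 (h w hw)
  have h2 := Finset.card_le_card this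
  rw [Nat.card_Ico] at h2
  exact_mod_cast h2

theorem le_card_Ico {s : Finset ℕ} {a b : ℕ} (h : ∀ w, a ≤ w → w < b → w ∈ s) : ((b - a : ℕ) : ℤ) ≤ (s.card : ℤ) := by
  have : Finset.Ico a b ⊆ s := fun w hw => h w (Finset.mem_Ico.1 hw).1 (Finset.mem_Ico.1 hw).2
  have h2 := Finset.card_le_card this
  rw [Nat.card_Ico] at h2
  exact_mod_cast h2

theorem e9 {n p : ℕ} (hp : 12 * n ≤ p) (hp34 : p < 34 * n) :
    2 * ((min (9 * n + 1) (p - 9 * n) - (p - 16 * n) / 2 : ℕ) : ℤ) ≤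
      ((34 * n - 1 * p : ℕ) : ℤ) - 2 * ((18 * n - 1 * p : ℕ) : ℤ) - ((16 * n - 1 * p : ℕ) : ℤ) + 4 := by omega

theorem e8 {n p : ℕ} (hp : 12 * n ≤ p) (hp34 : p < 34 * n) :
    2 * ((min (8 * n + 1) (p - 9 * n) - (p - 16 * n) / 2 : ℕ) : ℤ) ≤
      ((32 * n - 1 * p : ℕ) : ℤ) - 2 * ((17 * n - 1 * p : ℕ) : ℤ) - ((16 * n - 1 * p : ℕ) : ℤ) + 4 := by omega

theorem e7 {n p : ℕ} (hp : 12 * n ≤ p) (hp34 : p < 34 * n) :
    2 * ((min (7 * n + 1) (p - 9 * n) - (p - 16 * n) / 2 : ℕ) : ℤ) ≤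
      ((30 * n - 1 * p : ℕ) : ℤ) - 3 * ((16 * n - 1 * p : ℕ) : ℤ) + 4 := by omega

theorem eb {n p : ℕ} (hp : 12 * n ≤ p) (hp34 : p < 34 * n) :
    4 * (((16 * n - p + 1) / 2 - 0 : ℕ) : ℤ) ≤ 2 * ((16 * n - 1 * p : ℕ) : ℤ) + 4 := by omega

theorem ec8 {n p : ℕ} (hp : 12 * n ≤ p) (hp34 : p < 34 * n) :
    2 * ((min (8 * n + 1) (p - 9 * n) - (p - 12 * n) : ℕ) : ℤ) ≤
      2 * ((20 * n - 1 * p : ℕ) : ℤ) - 2 * ((17 * n - 1 * p : ℕ) : ℤ) + 4 := by omega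

theorem ec7 {n p : ℕ} (hp : 12 * n ≤ p) (hp34 : p < 34 * n) :
    2 * ((min (7 * n + 1) (p - 9 * n) - (p - 12 * n) : ℕ) : ℤ) ≤
      2 * ((19 * n - 1 * p : ℕ) : ℤ) - 2 * ((16 * n - 1 * p : ℕ) : ℤ) + 4 := by omega

theorem ebc {n p : ℕ} (hp : 12 * n ≤ p) (hp34 : p < 34 * n) :
    ((40 * n - 3 * p : ℕ) : ℤ) - 6 ≤ 2 * (((16 * n - p + 1) / 2 - (p - 12 * n + 1) : ℕ) : ℤ) := by omega

theorem bound {n p : ℕ} (hn : 7 ≤ n) (hp : 12 * n ≤ p) (hp34 : p < 34 * n) :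
    ∑ w ∈ (Finset.range (9 * n + 1)).filter (fun w => w + 9 * n < p), TC (gw n p w) (Sw n w) ≤
      ((34 * n - 1 * p : ℕ) : ℤ) + ((32 * n - 1 * p : ℕ) : ℤ) + ((30 * n - 1 * p : ℕ) : ℤ) +
        2 * ((20 * n - 1 * p : ℕ) : ℤ) + 2 * ((19 * n - 1 * p : ℕ) : ℤ) - 2 * ((18 * n - 1 * p : ℕ) : ℤ) -
        4 * ((17 * n - 1 * p : ℕ) : ℤ) - 5 * ((16 * n - 1 * p : ℕ) : ℤ) - ((40 * n - 3 * p : ℕ) : ℤ) + 50 := by
  have hS : ∑ w ∈ (Finset.range (9 * n + 1)).filter (fun w => w + 9 * n < p), TC (gw n p w) (Sw n w) =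
      ∑ w ∈ (Finset.range (9 * n + 1)).filter (fun w => w + 9 * n < p),
        (2 * ind (p < 16 * n + 2 * w) + 2 * ind (w ≤ 8 * n ∧ p < 16 * n + 2 * w) +
      2 * ind (w ≤ 7 * n ∧ p < 16 * n + 2 * w) + 4 * ind (2 * w + p < 16 * n) +
      2 * ind (w ≤ 8 * n ∧ p < 12 * n + w) + 2 * ind (w ≤ 7 * n ∧ p < 12 * n + w) -
      2 * ind (2 * w + p < 16 * n ∧ p < 12 * n + w)) := by
    refine Finset.sum_congr rfl (fun w hw => ?_)
    rw [Finset.mem_filter, Finset.mem_range] at hw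
    exact pw hp (by omega) hw.2
  rw [hS]
  simp only [Finset.sum_add_distrib, Finset.sum_sub_distrib, ← Finset.mul_sum, ind_sum]
  set F := (Finset.range (9 * n + 1)).filter (fun w => w + 9 * n < p) with hF
  have hmem : ∀ w, w ∈ F ↔ w < 9 * n + 1 ∧ w + 9 * n < p := fun w => by
    rw [hF, Finset.mem_filter, Finset.mem_range]
  have h9 : ((F.filter (fun w => p < 16 * n + 2 * w)).card : ℤ) ≤
      ((min (9 * n + 1) (p - 9 * n) - (p - 16 * n) / 2 : ℕ) : ℤ) := card_le_Ico (fun w hw => by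
    rw [Finset.mem_filter, hmem] at hw; omega)
  have h8 : ((F.filter (fun w => w ≤ 8 * n ∧ p < 16 * n + 2 * w)).card : ℤ) ≤
      ((min (8 * n + 1) (p - 9 * n) - (p - 16 * n) / 2 : ℕ) : ℤ) := card_le_Ico (fun w hw => by
    rw [Finset.mem_filter, hmem] at hw; omega)
  have h7 : ((F.filter (fun w => w ≤ 7 * n ∧ p < 16 * n + 2 * w)).card : ℤ) ≤
      ((min (7 * n + 1) (p - 9 * n) - (p - 16 * n) / 2 : ℕ) : ℤ) := card_le_Ico (fun w hw => by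
    rw [Finset.mem_filter, hmem] at hw; omega)
  have hb : ((F.filter (fun w => 2 * w + p < 16 * n)).card : ℤ) ≤
      (((16 * n - p + 1) / 2 - 0 : ℕ) : ℤ) := card_le_Ico (fun w hw => by
    rw [Finset.mem_filter, hmem] at hw; omega)
  have hc8 : ((F.filter (fun w => w ≤ 8 * n ∧ p < 12 * n + w)).card : ℤ) ≤
      ((min (8 * n + 1) (p - 9 * n) - (p - 12 * n) : ℕ) : ℤ) := card_le_Ico (fun w hw => by
    rw [Finset.mem_filter, hmem] at hw; omega)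
  have hc7 : ((F.filter (fun w => w ≤ 7 * n ∧ p < 12 * n + w)).card : ℤ) ≤
      ((min (7 * n + 1) (p - 9 * n) - (p - 12 * n) : ℕ) : ℤ) := card_le_Ico (fun w hw => by
    rw [Finset.mem_filter, hmem] at hw; omega)
  have hbc : (((16 * n - p + 1) / 2 - (p - 12 * n + 1) : ℕ) : ℤ) ≤
      ((F.filter (fun w => 2 * w + p < 16 * n ∧ p < 12 * n + w)).card : ℤ) := le_card_Ico (fun w h1 h2 => by
    rw [Finset.mem_filter, hmem]; omega)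
  have e9 := e9 hp hp34
  have e8 := e8 hp hp34
  have e7 := e7 hp hp34
  have eb := eb hp hp34
  have ec8 := ec8 hp hp34
  have ec7 := ec7 hp hp34
  have ebc := ebc hp hp34
  linarith

end P29x

theorem P3_B2 : ∃ K0 : ℝ, ∀ n p : ℕ, 7 ≤ n → 12 * n ≤ p → p < 34 * n →
    ((∑ w ∈ (Finset.range (9 * n + 1)).filter (fun w => w + 9 * n < p), TC (gw n p w) (Sw n w) : ℤ) : ℝ) ≤
      tn (34 * n) 1 p + tn (32 * n) 1 p + tn (30 * n) 1 p + 2 * tn (20 * n) 1 p + 2 * tn (19 * n) 1 p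
        - 2 * tn (18 * n) 1 p - 4 * tn (17 * n) 1 p - 5 * tn (16 * n) 1 p - tn (40 * n) 3 p + K0 := by
  refine ⟨50, fun n p hn hp hp34 => ?_⟩
  have h := P29x.bound hn hp hp34
  have h2 : ((∑ w ∈ (Finset.range (9 * n + 1)).filter (fun w => w + 9 * n < p), TC (gw n p w) (Sw n w) : ℤ) : ℝ) ≤
    ((((34 * n - 1 * p : ℕ) : ℤ) + ((32 * n - 1 * p : ℕ) : ℤ) + ((30 * n - 1 * p : ℕ) : ℤ) +
        2 * ((20 * n - 1 * p : ℕ) : ℤ) + 2 * ((19 * n - 1 * p : ℕ) : ℤ) - 2 * ((18 * n - 1 * p : ℕ) : ℤ) -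
        4 * ((17 * n - 1 * p : ℕ) : ℤ) - 5 * ((16 * n - 1 * p : ℕ) : ℤ) - ((40 * n - 3 * p : ℕ) : ℤ) + 50 : ℤ) : ℝ) :=
    Int.cast_le.2 h
  refine h2.trans (le_of_eq ?_)
  unfold tn
  simp only [Int.cast_add, Int.cast_sub, Int.cast_mul, Int.cast_natCast, Int.cast_ofNat]

end Pool.Agent.H336R2.Z5
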