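import Pool.Agent.H336R2.Z5.DefsSw

/-! Task P30 (helper899): `P3_B3`, the two-site classes for `p ≥ 12 n`. -/

open Polynomial Pool.Agent.H337R2

namespace Pool.Agent.H336R2.Z5

noncomputable section

namespace P30aux

/-- indicator of `a ≤ u`, `b ≤ L - u` -/
def cc (L a b u : ℕ) : ℤ := if a ≤ u ∧ b ≤ L - u then 1 else 0

lemma sum_cc (L a b : ℕ) : ∑ u ∈ Finset.range (L + 1), cc L a b u = ((L + 1 - (a + b) : ℕ) : ℤ) := by
  unfold cc
  rw [Finset.sum_ite]
  simp only [Finset.sum_const, Finset.sum_const_zero, add_zero, nsmul_eq_mul, mul_one]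
  have : (Finset.range (L + 1)).filter (fun u => a ≤ u ∧ b ≤ L - u) = Finset.Ico a (L + 1 - b) := by
    ext u
    simp only [Finset.mem_filter, Finset.mem_range, Finset.mem_Ico]
    omega
  rw [this, Nat.card_Ico]
  congr 1
  omega

lemma TT_even (s : ℤ) (hs : 0 < s) : TT (2 * s) = s ^ 2 + s := by
  unfold TT
  rw [if_pos (by omega)]
  have : (2 * s + 1) ^ 2 = 4 * (s ^ 2 + s) + 1 := by ring
  rw [this]
  omega

lemma Sw_eq (n u : ℕ) (hu : u ≤ 9 * n) :
    Sw n (9 * n - u) = 2 * (1 + (if n ≤ u then 1 else 0) + (if 2 * n ≤ u then 1 else 0)) := by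
  unfold Sw
  have h1 : 9 * n - u ≤ 9 * n := by omega
  have h2 : 9 * n - u ≤ 8 * n ↔ n ≤ u := by omega
  have h3 : 9 * n - u ≤ 7 * n ↔ 2 * n ≤ u := by omega
  simp only [h1, h2, h3, if_true]

lemma g_eq (n L u : ℕ) (hL : L ≤ 6 * n) (hu : u ≤ L) :
    TT (Sw n (9 * n - u) + Sw n (9 * n - (L - u))) =
      6 * cc L 0 0 u + 6 * cc L n 0 u + 8 * cc L (2 * n) 0 u + 6 * cc L 0 n u + 8 * cc L 0 (2 * n) u
        + 2 * cc L n n u + 2 * cc L n (2 * n) u + 2 * cc L (2 * n) n u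
        + 2 * cc L (2 * n) (2 * n) u := by
  rw [Sw_eq n u (by omega), Sw_eq n (L - u) (by omega), ← mul_add, TT_even]
  · unfold cc
    by_cases h1 : n ≤ u <;> by_cases h2 : 2 * n ≤ u <;> by_cases h3 : n ≤ L - u <;>
      by_cases h4 : 2 * n ≤ L - u <;> simp [h1, h2, h3, h4] <;> omega
  · split_ifs <;> norm_num

lemma g_bd (n L u : ℕ) (hL : L ≤ 6 * n) (hu : u ≤ L) :
    0 ≤ TT (Sw n (9 * n - u) + Sw n (9 * n - (L - u))) ∧
      TT (Sw n (9 * n - u) + Sw n (9 * n - (L - u))) ≤ 42 := by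
  rw [g_eq n L u hL hu]
  have h : ∀ a b, 0 ≤ cc L a b u ∧ cc L a b u ≤ 1 := by
    intro a b
    unfold cc
    split_ifs <;> norm_num
  have h1 := h 0 0
  have h2 := h n 0
  have h3 := h (2 * n) 0
  have h4 := h 0 n
  have h5 := h 0 (2 * n)
  have h6 := h n n
  have h7 := h n (2 * n)
  have h8 := h (2 * n) n
  have h9 := h (2 * n) (2 * n)
  constructor
  · linarith [h1.1, h2.1, h3.1, h4.1, h5.1, h6.1, h7.1, h8.1, h9.1]
  · linarith [h1.2, h2.2, h3.2, h4.2, h5.2, h6.2, h7.2, h8.2, h9.2]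

lemma half (L : ℕ) (g : ℕ → ℤ) (hs : ∀ u ≤ L, g (L - u) = g u) (h0 : ∀ u ≤ L, 0 ≤ g u)
    (hb : ∀ u ≤ L, g u ≤ 42) :
    2 * ∑ u ∈ (Finset.range (L + 1)).filter (fun u => 2 * u ≤ L), g u ≤
      ∑ u ∈ Finset.range (L + 1), g u + 42 := by
  have h1 : ∑ u ∈ Finset.range (L + 1), g u =
      ∑ u ∈ (Finset.range (L + 1)).filter (fun u => 2 * u ≤ L), g u +
      ∑ u ∈ (Finset.range (L + 1)).filter (fun u => ¬ 2 * u ≤ L), g u :=
    (Finset.sum_filter_add_sum_filter_not _ _ _).symm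
  have h2 : ∑ u ∈ (Finset.range (L + 1)).filter (fun u => ¬ 2 * u ≤ L), g u =
      ∑ u ∈ (Finset.range (L + 1)).filter (fun u => 2 * u < L), g u := by
    refine Finset.sum_nbij' (fun u => L - u) (fun u => L - u) ?_ ?_ ?_ ?_ ?_
    · intro u hu
      simp only [Finset.mem_filter, Finset.mem_range] at hu ⊢
      omega
    · intro u hu
      simp only [Finset.mem_filter, Finset.mem_range] at hu ⊢
      omega
    · intro u hu
      simp only [Finset.mem_filter, Finset.mem_range] at hu ⊢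
      omega
    · intro u hu
      simp only [Finset.mem_filter, Finset.mem_range] at hu ⊢
      omega
    · intro u hu
      simp only [Finset.mem_filter, Finset.mem_range] at hu
      rw [hs u (by omega)]
  have h3 : ∑ u ∈ (Finset.range (L + 1)).filter (fun u => 2 * u ≤ L), g u ≤
      ∑ u ∈ (Finset.range (L + 1)).filter (fun u => 2 * u < L), g u + 42 := by
    have e : (Finset.range (L + 1)).filter (fun u => 2 * u ≤ L) ⊆
        insert (L / 2) ((Finset.range (L + 1)).filter (fun u => 2 * u < L)) := by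
      intro u hu
      simp only [Finset.mem_filter, Finset.mem_range, Finset.mem_insert] at hu ⊢
      omega
    calc ∑ u ∈ (Finset.range (L + 1)).filter (fun u => 2 * u ≤ L), g u
        ≤ ∑ u ∈ insert (L / 2) ((Finset.range (L + 1)).filter (fun u => 2 * u < L)), g u := by
          refine Finset.sum_le_sum_of_subset_of_nonneg e ?_
          intro u hu _
          simp only [Finset.mem_filter, Finset.mem_range, Finset.mem_insert] at hu
          exact h0 u (by omega)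
      _ ≤ ∑ u ∈ (Finset.range (L + 1)).filter (fun u => 2 * u < L), g u + 42 := by
          by_cases hm : L / 2 ∈ (Finset.range (L + 1)).filter (fun u => 2 * u < L)
          · rw [Finset.insert_eq_of_mem hm]; omega
          · rw [Finset.sum_insert hm]
            have := hb (L / 2) (by omega)
            omega
  rw [h2] at h1
  linarith

end P30aux

open P30aux in
theorem P3_B3 : ∃ K0 : ℝ, ∀ n p : ℕ, 7 ≤ n → 12 * n ≤ p →
    ((∑ u ∈ (Finset.range (18 * n + 1 - p)).filter (fun u => 2 * u ≤ 18 * n - p),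
        TT (Sw n (9 * n - u) + Sw n (9 * n - (18 * n - p - u))) : ℤ) : ℝ) ≤
      3 * tn (18 * n) 1 p + 6 * tn (17 * n) 1 p + 9 * tn (16 * n) 1 p + 2 * tn (15 * n) 1 p + tn (14 * n) 1 p + K0 := by
  refine ⟨42, fun n p hn hp => ?_⟩
  have t0 : ∀ a, 0 ≤ tn a 1 p := fun a => by unfold tn; positivity
  by_cases hpn : 18 * n < p
  · have e : 18 * n + 1 - p = 0 := by omega
    rw [e]
    simp only [Finset.range_zero, Finset.filter_empty, Finset.sum_empty, Int.cast_zero]
    linarith [t0 (18 * n), t0 (17 * n), t0 (16 * n), t0 (15 * n), t0 (14 * n)]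
  · have hpn' : p ≤ 18 * n := by omega
    obtain ⟨L, hL⟩ : ∃ L, L = 18 * n - p := ⟨_, rfl⟩
    have e1 : 18 * n + 1 - p = L + 1 := by omega
    rw [e1, ← hL]
    have hL6 : L ≤ 6 * n := by omega
    have hh := half L (fun u => TT (Sw n (9 * n - u) + Sw n (9 * n - (L - u))))
      (fun u hu => by
        show TT (Sw n (9 * n - (L - u)) + Sw n (9 * n - (L - (L - u)))) = _
        rw [Nat.sub_sub_self hu, add_comm])
      (fun u hu => (g_bd n L u hL6 hu).1) (fun u hu => (g_bd n L u hL6 hu).2)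
    have hf : ∑ u ∈ Finset.range (L + 1), TT (Sw n (9 * n - u) + Sw n (9 * n - (L - u))) =
        6 * ((L + 1 - (0 + 0) : ℕ) : ℤ) + 6 * ((L + 1 - (n + 0) : ℕ) : ℤ)
        + 8 * ((L + 1 - (2 * n + 0) : ℕ) : ℤ) + 6 * ((L + 1 - (0 + n) : ℕ) : ℤ)
        + 8 * ((L + 1 - (0 + 2 * n) : ℕ) : ℤ) + 2 * ((L + 1 - (n + n) : ℕ) : ℤ)
        + 2 * ((L + 1 - (n + 2 * n) : ℕ) : ℤ) + 2 * ((L + 1 - (2 * n + n) : ℕ) : ℤ)
        + 2 * ((L + 1 - (2 * n + 2 * n) : ℕ) : ℤ) := by
      rw [Finset.sum_congr rfl (fun u hu => g_eq n L u hL6 (by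
        simp only [Finset.mem_range] at hu; omega))]
      simp only [Finset.sum_add_distrib, ← Finset.mul_sum, sum_cc]
    rw [hf] at hh
    have hk : ∑ u ∈ (Finset.range (L + 1)).filter (fun u => 2 * u ≤ L),
        TT (Sw n (9 * n - u) + Sw n (9 * n - (L - u))) ≤
        3 * ((18 * n - 1 * p : ℕ) : ℤ) + 6 * ((17 * n - 1 * p : ℕ) : ℤ)
          + 9 * ((16 * n - 1 * p : ℕ) : ℤ) + 2 * ((15 * n - 1 * p : ℕ) : ℤ)
          + ((14 * n - 1 * p : ℕ) : ℤ) + 42 := by
      omega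
    have := (Int.cast_le (R := ℝ)).mpr hk
    refine this.trans (le_of_eq ?_)
    unfold tn
    push_cast
    ring

end

end Pool.Agent.H336R2.Z5
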