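import Pool.Agent.H336R2.Z5.P31a
import Pool.Agent.H336R2.Z5.DefsSw
import Pool.Agent.H336R2.Z5.P28
import Pool.Agent.H336R2.Z5.P29
import Pool.Agent.H336R2.Z5.P30

/-! Task P31 (helper423): `P3_B`. -/

open Polynomial Pool.Agent.H337R2

namespace Pool.Agent.H336R2.Z5

noncomputable section

theorem P3_B : ∃ K0 : ℝ, ∀ n p : ℕ, p.Prime → 7 ≤ n → 12 * n ≤ p → p < 34 * n → 48 * n < p ^ 2 →
    ((((mN n : ℕ) : ℤ) * (-(vv n p : ℤ)) +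
      ∑ κ ∈ Kset n p, TC (gz n p κ) (-(eeN p n κ) - (-(vv n p : ℤ))) : ℤ) : ℝ) ≤ EB n p + K0 :=
  P3_B_of (fun _ _ hp hn h12 h2 => P3_B1 hp hn h12 h2) P3_B2 P3_B3

end

end Pool.Agent.H336R2.Z5
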