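import Pool.Agent.H336R2.Z5.DefsP

/-! Task P31 (helper423): `P3_B` with its three ingredients as hypotheses. -/

open Polynomial Pool.Agent.H337R2

namespace Pool.Agent.H336R2.Z5

noncomputable section

theorem vv_le_six {n p : ℕ} (hn : 7 ≤ n) (hp12 : 12 * n ≤ p) : vv n p ≤ 6 := by
  have hp : 0 < p := by omega
  have h1 : 18 * n / p ≤ 1 := by
    rw [← Nat.lt_succ_iff, Nat.div_lt_iff_lt_mul hp]; omega
  have h2 : 16 * n / p ≤ 1 := by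
    rw [← Nat.lt_succ_iff, Nat.div_lt_iff_lt_mul hp]; omega
  have h3 : 14 * n / p ≤ 1 := by
    rw [← Nat.lt_succ_iff, Nat.div_lt_iff_lt_mul hp]; omega
  unfold vv
  omega

theorem P3_B_of {X Y : ℕ → ℕ → ℤ}
    (h1 : ∀ n p : ℕ, p.Prime → 7 ≤ n → 12 * n ≤ p → 48 * n < p ^ 2 →
      ∑ κ ∈ Kset n p, TC (gz n p κ) (-(eeN p n κ) - (-(vv n p : ℤ))) ≤ X n p + Y n p)
    (h2 : ∃ K0 : ℝ, ∀ n p : ℕ, 7 ≤ n → 12 * n ≤ p → p < 34 * n →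
      ((X n p : ℤ) : ℝ) ≤
      tn (34 * n) 1 p + tn (32 * n) 1 p + tn (30 * n) 1 p + 2 * tn (20 * n) 1 p + 2 * tn (19 * n) 1 p
        - 2 * tn (18 * n) 1 p - 4 * tn (17 * n) 1 p - 5 * tn (16 * n) 1 p - tn (40 * n) 3 p + K0)
    (h3 : ∃ K0 : ℝ, ∀ n p : ℕ, 7 ≤ n → 12 * n ≤ p →
      ((Y n p : ℤ) : ℝ) ≤
      3 * tn (18 * n) 1 p + 6 * tn (17 * n) 1 p + 9 * tn (16 * n) 1 p + 2 * tn (15 * n) 1 p
        + tn (14 * n) 1 p + K0) :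
    ∃ K0 : ℝ, ∀ n p : ℕ, p.Prime → 7 ≤ n → 12 * n ≤ p → p < 34 * n → 48 * n < p ^ 2 →
    ((((mN n : ℕ) : ℤ) * (-(vv n p : ℤ)) +
      ∑ κ ∈ Kset n p, TC (gz n p κ) (-(eeN p n κ) - (-(vv n p : ℤ))) : ℤ) : ℝ) ≤ EB n p + K0 := by
  obtain ⟨K2, h2⟩ := h2
  obtain ⟨K3, h3⟩ := h3
  refine ⟨K2 + K3 + 138, fun n p hp hn hp12 hp34 hp2 => ?_⟩
  have e1 := h1 n p hp hn hp12 hp2
  have e2 := h2 n p hn hp12 hp34
  have e3 := h3 n p hn hp12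
  have hv := vv_le_six hn hp12
  have e1' : ((∑ κ ∈ Kset n p, TC (gz n p κ) (-(eeN p n κ) - (-(vv n p : ℤ))) : ℤ) : ℝ) ≤
      (X n p : ℝ) + (Y n p : ℝ) := by exact_mod_cast e1
  have hm : ((mN n : ℕ) : ℝ) = 23 * n - 23 := by
    have : mN n = 23 * (n - 1) := rfl
    rw [this]
    push_cast [Nat.cast_sub (show 1 ≤ n by omega)]
    ring
  have hv' : (vv n p : ℝ) ≤ 6 := by exact_mod_cast hv
  rw [Int.cast_add, Int.cast_mul, Int.cast_neg, Int.cast_natCast, Int.cast_natCast, hm]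
  unfold EB
  have : (0 : ℝ) ≤ (vv n p : ℝ) := Nat.cast_nonneg _
  nlinarith [e1', e2, e3, hv']

end

end Pool.Agent.H336R2.Z5
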