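import Pool.Agent.H336R2.Z5.DefsP

/-! # P3_C: nothing happens for `p ≥ 34 n` -/

open Polynomial Pool.Agent.H337R2

namespace Pool.Agent.H336R2.Z5

noncomputable section

namespace P32aux

lemma cnt_zero {n p κ A B : ℕ} (hp34 : 34 * n ≤ p) (hn : 1 ≤ n) (hκ : κ < p)
    (hA : 3 * n ≤ A) (hB : B ≤ 21 * n) (hno : κ ∉ Finset.Icc (3 * n) (21 * n)) : cnt p A B κ = 0 := by
  unfold cnt
  rw [Finset.card_eq_zero, Finset.filter_eq_empty_iff]
  intro m hm hd
  rw [Finset.mem_Icc] at hm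
  have h2 : (m : ℤ) - κ = 0 := by
    apply Int.eq_zero_of_abs_lt_dvd hd
    rw [abs_lt]
    constructor <;> omega
  apply hno
  rw [Finset.mem_Icc]
  constructor <;> omega

lemma ee_zero {n p κ : ℕ} (hp34 : 34 * n ≤ p) (hn : 1 ≤ n) (hκ : κ < p)
    (hno : κ ∉ Finset.Icc (3 * n) (21 * n)) : eeN p n κ = 0 := by
  unfold eeN ee n1 nq
  have h1 : 24 * n - 3 * n = 21 * n := by omega
  have h2 : 24 * n - 4 * n = 20 * n := by omega
  have h3 : 24 * n - 5 * n = 19 * n := by omega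
  have e1 : cnt p (3 * n) (21 * n) κ = 0 := cnt_zero hp34 hn hκ le_rfl le_rfl hno
  have e2 : cnt p (4 * n) (20 * n) κ = 0 := cnt_zero hp34 hn hκ (by omega) (by omega) hno
  have e3 : cnt p (5 * n) (19 * n) κ = 0 := cnt_zero hp34 hn hκ (by omega) (by omega) hno
  have d1 : 18 * n / p = 0 := Nat.div_eq_of_lt (by omega)
  have d2 : 16 * n / p = 0 := Nat.div_eq_of_lt (by omega)
  have d3 : 14 * n / p = 0 := Nat.div_eq_of_lt (by omega)
  simp only [h1, h2, h3, List.map_cons, List.map_nil, List.sum_cons, List.sum_nil, e1, e2, e3]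
  norm_num [d1, d2, d3]

lemma Dz_empty {n p k : ℕ} (hp : p.Prime) (hn : 7 ≤ n) (hp34 : 34 * n ≤ p)
    (hk : k ∈ Finset.Icc (3 * n) (21 * n)) : Dz n p k = ∅ := by
  rw [Finset.mem_Icc] at hk
  have hodd : ¬ Even p := by
    intro h
    have := (Nat.Prime.even_iff hp).1 h
    omega
  unfold Dz
  rw [Finset.filter_eq_empty_iff]
  rintro w hw ⟨⟨j, hj⟩, hw0, hw2⟩
  rw [Finset.mem_range] at hw
  have hp' : (0 : ℤ) < p := by exact_mod_cast hp.pos
  have hpn : 34 * (n : ℤ) ≤ p := by exact_mod_cast hp34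
  have hoddZ : ¬ Even (p : ℤ) := by
    rw [Int.even_coe_nat]; exact hodd
  rcases hw2 with ⟨he, hw2⟩ | ⟨ho, hw2⟩
  · have hje : Even j := by
      have h1 : Even ((p : ℤ) * j) := by
        rw [← hj]
        exact Even.sub (by rw [Int.even_coe_nat]; exact he) ⟨k, by ring⟩
      rcases Int.even_mul.1 h1 with h | h
      · exact absurd h hoddZ
      · exact h
    obtain ⟨i, hi⟩ := hje
    rcases lt_trichotomy i 0 with h | h | h
    · have h1 : (p : ℤ) * j ≤ p * (-2) := mul_le_mul_of_nonneg_left (by omega) hp'.le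
      omega
    · rw [h] at hi
      rw [hi] at hj
      omega
    · have h1 : (p : ℤ) * 2 ≤ p * j := mul_le_mul_of_nonneg_left (by omega) hp'.le
      omega
  · rcases lt_trichotomy j 0 with h | h | h
    · have h1 : (p : ℤ) * j ≤ p * (-1) := mul_le_mul_of_nonneg_left (by omega) hp'.le
      omega
    · rw [h] at hj
      apply ho
      exact ⟨k, by omega⟩
    · have h1 : (p : ℤ) * 1 ≤ p * j := mul_le_mul_of_nonneg_left (by omega) hp'.le
      omega

lemma gz_zero {n p κ : ℕ} (hp : p.Prime) (hn : 7 ≤ n) (hp34 : 34 * n ≤ p)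
    (hk : κ ∈ Finset.Icc (3 * n) (21 * n)) : gz n p κ = 0 := by
  unfold gz
  rw [if_neg]
  · rw [Dz_empty hp hn hp34 hk, Finset.card_empty]
  · rintro ⟨k, hk1, k', hk2, hne, h1, h2⟩
    rw [Finset.mem_Icc] at hk1 hk2
    rw [Nat.mod_eq_of_lt (by omega)] at h1 h2
    omega

end P32aux

theorem P3_C {n p : ℕ} (hp : p.Prime) (hn : 7 ≤ n) (hp34 : 34 * n ≤ p) :
    vv n p = 0 ∧ ∑ κ ∈ Kset n p, TC (gz n p κ) (-(eeN p n κ)) = 0 := by
  constructor
  · unfold vv
    have d1 : 18 * n / p = 0 := Nat.div_eq_of_lt (by omega)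
    have d2 : 16 * n / p = 0 := Nat.div_eq_of_lt (by omega)
    have d3 : 14 * n / p = 0 := Nat.div_eq_of_lt (by omega)
    rw [d1, d2, d3]
  · apply Finset.sum_eq_zero
    intro κ hκ
    have hκp : κ < p := by
      unfold Kset at hκ
      rw [Finset.mem_filter, Finset.mem_range] at hκ
      exact hκ.1
    by_cases hk : κ ∈ Finset.Icc (3 * n) (21 * n)
    · rw [P32aux.gz_zero hp hn hp34 hk]
      unfold TC
      simp
    · rw [P32aux.ee_zero hp34 (by omega) hκp hk]
      unfold TC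
      apply Finset.sum_eq_zero
      intro a _
      apply max_eq_left
      omega

end

end Pool.Agent.H336R2.Z5
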