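import Pool.Agent.H336R2.Z5.P33a
import Pool.Agent.H336R2.Z5.P1e
import Pool.Agent.H336R2.Z5.P1f
import Pool.Agent.H336R2.Z5.P21
import Pool.Agent.H336R2.Z5.P26
import Pool.Agent.H336R2.Z5.P31
import Pool.Agent.H336R2.Z5.P32

/-! Task P33 (helper978): p-adic size of the determinant, all primes `p > n/20`. -/

open Polynomial Pool.Agent.H337R2

namespace Pool.Agent.H336R2.Z5

noncomputable section

theorem P4_padic : ∃ K0 : ℝ, 0 ≤ K0 ∧ ∀ n : ℕ, 7 ≤ n → ∀ p : ℕ, p.Prime → n < 20 * p → 48 * n < p ^ 2 →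
    ∀ (q : ℕ) (u : ℚ), UInt q u →
    ((padicNorm p ((q : ℚ) ^ (mN n) * DET n u (mN n)) : ℚ) : ℝ) ≤
      if p < 34 * n then (p : ℝ) ^ (EW n p + K0) else 1 := by
  refine P4_of ?_ ?_ ?_ P3_A P3_B ?_
  · intro n p _ hn hp2 q u hu m μ
    exact P1_det_med hn hp2 q u hu m μ
  · intro n p _ hn hp9 q u hu m hm μ hc
    exact P1_det_large hn hp9 q u hu m hm μ hc
  · intro n p _ hp2
    exact P3_cst hp2
  · intro n p hp hn h34
    exact P3_C hp hn h34

end

end Pool.Agent.H336R2.Z5
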