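import Pool.Agent.H336R2.Z5.DefsP

/-! Task P33 (helper978): p-adic size of the determinant, all primes `p > n/20`;
version with the results of the blocks P1, P3 as hypotheses. -/

open Polynomial Pool.Agent.H337R2

namespace Pool.Agent.H336R2.Z5

noncomputable section

theorem P4_to_rpow {p : ℕ} (hp : 1 ≤ p) {x : ℚ} {z : ℤ} {E : ℝ} (h : x ≤ (p : ℚ) ^ z) (hz : (z : ℝ) ≤ E) :
    (x : ℝ) ≤ (p : ℝ) ^ E := by
  have hp1 : (1 : ℝ) ≤ (p : ℝ) := by exact_mod_cast hp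
  have h1 : (x : ℝ) ≤ (((p : ℚ) ^ z : ℚ) : ℝ) := by exact_mod_cast h
  refine h1.trans ?_
  rw [Rat.cast_zpow, Rat.cast_natCast, ← Real.rpow_intCast]
  exact Real.rpow_le_rpow_of_exponent_le hp1 hz

theorem P4_of
    (hmed : ∀ {n p : ℕ} [Fact p.Prime], 1 ≤ n → 48 * n < p ^ 2 → ∀ (q : ℕ) (u : ℚ),
      UInt q u → ∀ (m : ℕ) (μ : ℤ),
      padicNorm p ((q : ℚ) ^ m * DET n u m) ≤ (p : ℚ) ^ (m * μ + ∑ κ ∈ Kset n p, TT (-(eeN p n κ) - μ)))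
    (hlarge : ∀ {n p : ℕ} [Fact p.Prime], 2 ≤ n → 9 * n ≤ p → ∀ (q : ℕ) (u : ℚ),
      UInt q u → ∀ (m : ℕ), m ≤ 23 * (n - 1) → ∀ (μ : ℤ), padicNorm p (cstN n) ≤ (p : ℚ) ^ μ →
      padicNorm p ((q : ℚ) ^ m * DET n u m) ≤
        (p : ℚ) ^ (m * μ + ∑ κ ∈ Kset n p, TC (gz n p κ) (-(eeN p n κ) - μ)))
    (hcst : ∀ {n p : ℕ} [Fact p.Prime], 48 * n < p ^ 2 →
      padicNorm p (cstN n) = (p : ℚ) ^ (-(vv n p : ℤ)))
    (hA : ∃ K0 : ℝ, ∀ n p : ℕ, p.Prime → 7 ≤ n → n < 20 * p → p < 12 * n → 48 * n < p ^ 2 →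
      ((((mN n : ℕ) : ℤ) * (1 + 2 * (rh n p : ℤ) - vv n p) +
        ∑ κ ∈ Kset n p, TT (-(eeN p n κ) - (1 + 2 * (rh n p : ℤ) - vv n p)) : ℤ) : ℝ) ≤ EA n p + K0)
    (hB : ∃ K0 : ℝ, ∀ n p : ℕ, p.Prime → 7 ≤ n → 12 * n ≤ p → p < 34 * n → 48 * n < p ^ 2 →
      ((((mN n : ℕ) : ℤ) * (-(vv n p : ℤ)) +
        ∑ κ ∈ Kset n p, TC (gz n p κ) (-(eeN p n κ) - (-(vv n p : ℤ))) : ℤ) : ℝ) ≤ EB n p + K0)
    (hC : ∀ {n p : ℕ}, p.Prime → 7 ≤ n → 34 * n ≤ p →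
      vv n p = 0 ∧ ∑ κ ∈ Kset n p, TC (gz n p κ) (-(eeN p n κ)) = 0) :
    ∃ K0 : ℝ, 0 ≤ K0 ∧ ∀ n : ℕ, 7 ≤ n → ∀ p : ℕ, p.Prime → n < 20 * p → 48 * n < p ^ 2 →
    ∀ (q : ℕ) (u : ℚ), UInt q u →
    ((padicNorm p ((q : ℚ) ^ (mN n) * DET n u (mN n)) : ℚ) : ℝ) ≤
      if p < 34 * n then (p : ℝ) ^ (EW n p + K0) else 1 := by
  obtain ⟨KA, hKA⟩ := hA
  obtain ⟨KB, hKB⟩ := hB
  refine ⟨max (max KA KB) 0, le_max_right _ _, ?_⟩
  intro n hn p hp hnp hp2 q u hu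
  have : Fact p.Prime := ⟨hp⟩
  have hp1 : 1 ≤ p := hp.one_lt.le
  by_cases h12 : p < 12 * n
  · rw [if_pos (by omega)]
    have h3 := hmed (n := n) (p := p) (by omega) hp2 q u hu (mN n) (1 + 2 * (rh n p : ℤ) - vv n p)
    refine P4_to_rpow hp1 h3 ?_
    have h4 := hKA n p hp hn hnp h12 hp2
    refine h4.trans ?_
    rw [EW, if_pos h12]
    have : KA ≤ max (max KA KB) 0 := (le_max_left KA KB).trans (le_max_left _ _)
    linarith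
  · by_cases h34 : p < 34 * n
    · rw [if_pos h34]
      have h3 := hlarge (n := n) (p := p) (by omega) (by omega) q u hu (mN n) le_rfl (-(vv n p : ℤ))
        (hcst hp2).le
      refine P4_to_rpow hp1 h3 ?_
      have h4 := hKB n p hp hn (by omega) h34 hp2
      refine h4.trans ?_
      rw [EW, if_neg h12]
      have : KB ≤ max (max KA KB) 0 := (le_max_right KA KB).trans (le_max_left _ _)
      linarith
    · rw [if_neg h34]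
      obtain ⟨hv, hs⟩ := hC (n := n) (p := p) hp hn (by omega)
      have h3 := hlarge (n := n) (p := p) (by omega) (by omega) q u hu (mN n) le_rfl 0
        (by rw [hcst hp2, hv]; simp)
      simp only [mul_zero, zero_add, sub_zero] at h3
      rw [hs, zpow_zero] at h3
      exact_mod_cast h3

end

end Pool.Agent.H336R2.Z5
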