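import Pool.Agent.H336R2.Z5.P41
import Pool.Agent.H336R2.Z5.P42pre

/-! Task P42: floor sums over primes. -/

open Polynomial Pool.Agent.H337R2 Filter Topology

namespace Pool.Agent.H336R2.Z5

noncomputable section

theorem P5_floor (α : ℕ) (lo hi : ℚ) (h0 : 1 / 20 ≤ lo) (h1 : lo ≤ hi) (h2 : hi ≤ 48) (hα : α ≤ 46) :
    Tendsto (fun n : ℕ => (∑ p ∈ PS lo hi n, (n : ℝ) * ((α * n / p : ℕ) : ℝ) * Real.log p) / (n : ℝ) ^ 2) atTop
      (𝓝 ((Ifl α lo hi : ℚ) : ℝ)) :=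
  P42a.F1_floor_of P5_const α lo hi h0 h1 h2 hα

end

end Pool.Agent.H336R2.Z5
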