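import Pool.Agent.H336R2.Z5.P43pre
import Pool.Agent.H336R2.Z5.P41
import Pool.Agent.H336R2.Z5.P42

/-! `P5_A`, `P5_B`, `P5_U`. -/

open Filter Topology

namespace Pool.Agent.H336R2.Z5

noncomputable section

theorem P5_A : Tendsto (fun n : ℕ => (∑ p ∈ PS (1 / 20) 12 n, EA n p * Real.log p) / (n : ℝ) ^ 2) atTop (𝓝 (LA : ℝ)) :=
  P5_A_of P5_tent P5_const P5_floor

theorem P5_B : Tendsto (fun n : ℕ => (∑ p ∈ PS 12 34 n, EB n p * Real.log p) / (n : ℝ) ^ 2) atTop (𝓝 (LB : ℝ)) :=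
  P5_B_of P5_tent P5_floor

theorem P5_U : Tendsto (fun n : ℕ => (∑ p ∈ PS (1 / 20) 46 n, (∑ j ∈ J, tn (46 * n) j p) * Real.log p) / (n : ℝ) ^ 2)
    atTop (𝓝 (LU : ℝ)) :=
  P5_U_of P5_tent

end

end Pool.Agent.H336R2.Z5
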