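import Pool.Agent.H336R2.Z5.DefsP
import Pool.Agent.H336R2.HD.F2pre

/-!
# Linear combinations of the prime sums (`P5_A`, `P5_B`, `P5_U`) from the elementary limits
-/

open Filter Topology
open Pool.Agent.H336R2.HD (Lm Lm.add Lm.sub Lm.mul Lm.sum Lm.of_eq)

namespace Pool.Agent.H336R2.Z5

noncomputable section

/-- the statement of `P5_tent` -/
def P5T : Prop := ∀ (α j : ℕ) (_ : 1 ≤ j) (lo hi : ℚ) (_ : 0 < lo) (_ : lo ≤ hi) (_ : hi ≤ 48),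
    Tendsto (fun n : ℕ => (∑ p ∈ PS lo hi n, tn (α * n) j p * Real.log p) / (n : ℝ) ^ 2) atTop
      (𝓝 ((It α j lo hi : ℚ) : ℝ))

/-- the statement of `P5_const` -/
def P5C : Prop := ∀ (lo hi : ℚ) (_ : 0 < lo) (_ : lo ≤ hi) (_ : hi ≤ 48),
    Tendsto (fun n : ℕ => (∑ p ∈ PS lo hi n, (n : ℝ) * Real.log p) / (n : ℝ) ^ 2) atTop
      (𝓝 (((hi - lo : ℚ)) : ℝ))

/-- the statement of `P5_floor` -/
def P5F : Prop := ∀ (α : ℕ) (lo hi : ℚ) (_ : 1 / 20 ≤ lo) (_ : lo ≤ hi) (_ : hi ≤ 48) (_ : α ≤ 46),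
    Tendsto (fun n : ℕ => (∑ p ∈ PS lo hi n, (n : ℝ) * ((α * n / p : ℕ) : ℝ) * Real.log p) / (n : ℝ) ^ 2) atTop
      (𝓝 ((Ifl α lo hi : ℚ) : ℝ))

theorem P5_A_of (hT : P5T) (hC : P5C) (hF : P5F) :
    Tendsto (fun n : ℕ => (∑ p ∈ PS (1 / 20) 12 n, EA n p * Real.log p) / (n : ℝ) ^ 2) atTop (𝓝 (LA : ℝ)) := by
  have T : ∀ α j : ℕ, j ∈ J → Lm (PS ((1 / 20 : ℚ) : ℝ) ((12 : ℚ) : ℝ)) (fun n p => tn (α * n) j p)
      ((It α j (1 / 20) 12 : ℚ) : ℝ) := fun α j hj =>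
    hT α j (Finset.mem_Icc.mp hj).1 (1 / 20) 12 (by norm_num) (by norm_num) (by norm_num)
  have T1 : ∀ j : ℕ, j ∈ J → Lm (PS ((1 / 20 : ℚ) : ℝ) ((12 : ℚ) : ℝ)) (fun n p => tn n j p)
      ((It 1 j (1 / 20) 12 : ℚ) : ℝ) := fun j hj =>
    (T 1 j hj).of_eq rfl (fun n p => by rw [one_mul]) rfl
  have F : ∀ α : ℕ, α ≤ 46 → Lm (PS ((1 / 20 : ℚ) : ℝ) ((12 : ℚ) : ℝ)) (fun n p => (n : ℝ) * ((α * n / p : ℕ) : ℝ))
      ((Ifl α (1 / 20) 12 : ℚ) : ℝ) := fun α hα =>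
    hF α (1 / 20) 12 (by norm_num) (by norm_num) (by norm_num) hα
  have K : Lm (PS ((1 / 20 : ℚ) : ℝ) ((12 : ℚ) : ℝ)) (fun n _ => (n : ℝ)) (((12 - 1 / 20 : ℚ)) : ℝ) :=
    hC (1 / 20) 12 (by norm_num) (by norm_num) (by norm_num)
  have SX := Lm.sum J (fun j hj => ((((((T 18 j hj).add ((T 17 j hj).mul 2)).add ((T 16 j hj).mul 3)).add
    ((T 15 j hj).mul 2)).add (T 14 j hj)).sub ((T1 j hj).mul 4)).sub ((T 2 j hj).mul 2))
  have SO := Lm.sum (J.filter Odd) (fun j hj => T 4 j (Finset.mem_filter.mp hj).1)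
  have H := (((K.mul 91).sub ((((F 18 (by norm_num)).add (F 16 (by norm_num))).add (F 14 (by norm_num))).mul 46)).add
    SX).sub (SO.mul (1 / 2))
  refine Lm.of_eq H ?_ ?_ ?_
  · push_cast; rfl
  · intro n p
    unfold EA vv
    push_cast
    ring
  · unfold LA
    push_cast
    ring

theorem P5_B_of (hT : P5T) (hF : P5F) :
    Tendsto (fun n : ℕ => (∑ p ∈ PS 12 34 n, EB n p * Real.log p) / (n : ℝ) ^ 2) atTop (𝓝 (LB : ℝ)) := by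
  have T : ∀ α j : ℕ, j ∈ J → Lm (PS ((12 : ℚ) : ℝ) ((34 : ℚ) : ℝ)) (fun n p => tn (α * n) j p)
      ((It α j 12 34 : ℚ) : ℝ) := fun α j hj =>
    hT α j (Finset.mem_Icc.mp hj).1 12 34 (by norm_num) (by norm_num) (by norm_num)
  have F : ∀ α : ℕ, α ≤ 46 → Lm (PS ((12 : ℚ) : ℝ) ((34 : ℚ) : ℝ)) (fun n p => (n : ℝ) * ((α * n / p : ℕ) : ℝ))
      ((Ifl α 12 34 : ℚ) : ℝ) := fun α hα =>
    hF α 12 34 (by norm_num) (by norm_num) (by norm_num) hα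
  have h1 : 1 ∈ J := Finset.mem_Icc.mpr ⟨le_refl _, by norm_num⟩
  have h3 : 3 ∈ J := Finset.mem_Icc.mpr ⟨by norm_num, by norm_num⟩
  have H := (((((((((((T 34 1 h1).add (T 32 1 h1)).add (T 30 1 h1)).add ((T 20 1 h1).mul 2)).add
    ((T 19 1 h1).mul 2)).add (T 18 1 h1)).add ((T 17 1 h1).mul 2)).add ((T 16 1 h1).mul 4)).add
    ((T 15 1 h1).mul 2)).add (T 14 1 h1)).sub (T 40 3 h3)).sub
    ((((F 18 (by norm_num)).add (F 16 (by norm_num))).add (F 14 (by norm_num))).mul 46)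
  refine Lm.of_eq H ?_ ?_ ?_
  · push_cast; rfl
  · intro n p
    unfold EB vv
    push_cast
    ring
  · unfold LB
    push_cast
    ring

theorem P5_U_of (hT : P5T) :
    Tendsto (fun n : ℕ => (∑ p ∈ PS (1 / 20) 46 n, (∑ j ∈ J, tn (46 * n) j p) * Real.log p) / (n : ℝ) ^ 2)
      atTop (𝓝 (LU : ℝ)) := by
  have T : ∀ α j : ℕ, j ∈ J → Lm (PS ((1 / 20 : ℚ) : ℝ) ((46 : ℚ) : ℝ)) (fun n p => tn (α * n) j p)
      ((It α j (1 / 20) 46 : ℚ) : ℝ) := fun α j hj =>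
    hT α j (Finset.mem_Icc.mp hj).1 (1 / 20) 46 (by norm_num) (by norm_num) (by norm_num)
  have H := Lm.sum J (fun j hj => T 46 j hj)
  refine Lm.of_eq H ?_ ?_ ?_
  · push_cast; rfl
  · intro n p
    rfl
  · unfold LU
    push_cast
    rfl

end

end Pool.Agent.H336R2.Z5
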