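import Pool.Agent.H336R2.Z5.DefsP

/-! Task P44: the numerical value of the three limits (`= 1836.9016...`), by kernel evaluation. -/

namespace Pool.Agent.H336R2.Z5

theorem P5_numeric : LA + LB + LU ≤ 1837 := by
  decide +kernel

end Pool.Agent.H336R2.Z5
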