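import Pool.Agent.H336R2.Z5.DefsP

/-!
# `log 46 ≥ 3.8285`
-/

namespace Pool.Agent.H336R2.Z5

theorem P5_log46 : (3.8285 : ℝ) ≤ Real.log 46 := by
  have h1 : 2 * Real.log 46 = 11 * Real.log 2 + Real.log (1 + 17 / 512) := by
    have h2 : (46 : ℝ) ^ 2 = 2 ^ 11 * (1 + 17 / 512) := by norm_num
    have h3 : Real.log ((46 : ℝ) ^ 2) = Real.log (2 ^ 11 * (1 + 17 / 512)) := by rw [h2]
    rw [Real.log_pow, Real.log_mul (by norm_num) (by norm_num), Real.log_pow] at h3
    push_cast at h3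
    exact h3
  have h4 := Real.le_log_one_add_of_nonneg (x := 17 / 512) (by norm_num)
  have h5 := Real.log_two_gt_d9
  norm_num at h4 h1 h5 ⊢
  linarith

end Pool.Agent.H336R2.Z5
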