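import Pool.Agent.H336R2.Z5.P49c
import Pool.Agent.H336R2.Z5.P33

/-! `P_main_strong`, `P_main`, `P_large`. -/

set_option autoImplicit false

open Filter Topology Polynomial Pool.Agent.H337R2

namespace Pool.Agent.H336R2.Z5

theorem P_main_strong : ∀ ε : ℝ, 0 < ε → ∀ᶠ n : ℕ in atTop, ∀ (q : ℕ) (u : ℚ), UInt q u →
    DET n u (mN n) ≠ 0 →
    ∑ p ∈ (Finset.range (48 * n + 1)).filter Nat.Prime,
      Real.log ((padicNorm p ((q : ℚ) ^ (mN n) * DET n u (mN n)) : ℚ) : ℝ) ≤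
      -(1058 * (n : ℝ) ^ 2 * Real.log n) - (6195 / 10 - ε) * (n : ℝ) ^ 2 :=
  P_main_strong_c P4_padic

theorem P_main : ∀ ε : ℝ, 0 < ε → ∀ᶠ n : ℕ in atTop, ∀ (q : ℕ) (u : ℚ), UInt q u →
    DET n u (mN n) ≠ 0 →
    ∑ p ∈ (Finset.range (48 * n + 1)).filter Nat.Prime,
      Real.log ((padicNorm p ((q : ℚ) ^ (mN n) * DET n u (mN n)) : ℚ) : ℝ) ≤
      -(1058 * (n : ℝ) ^ 2 * Real.log n) - (6125 / 10 - ε) * (n : ℝ) ^ 2 :=
  P_main_c P4_padic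

theorem P_large : ∀ᶠ n : ℕ in atTop, ∀ (q : ℕ) (u : ℚ), UInt q u → ∀ p : ℕ, p.Prime → 48 * n < p →
    padicNorm p ((q : ℚ) ^ (mN n) * DET n u (mN n)) ≤ 1 :=
  P_large_c P4_padic

end Pool.Agent.H336R2.Z5
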