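import Pool.Agent.H336R2.Z5.P49pre
import Pool.Agent.H336R2.Z5.P1d
import Pool.Agent.H336R2.Z5.P43
import Pool.Agent.H336R2.Z5.P44
import Pool.Agent.H336R2.Z5.P45
import Pool.Agent.H336R2.Z5.P46
import Pool.Agent.H336R2.Z5.P47
import Pool.Agent.H336R2.Z5.P48

/-! `P_main_strong`, `P_main`, `P_large` from `P4_padic` alone. -/

set_option autoImplicit false

open Filter Topology Polynomial Pool.Agent.H337R2

namespace Pool.Agent.H336R2.Z5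

theorem P_main_strong_c (h4 : P49.S_P4) :
    ∀ ε : ℝ, 0 < ε → ∀ᶠ n : ℕ in atTop, ∀ (q : ℕ) (u : ℚ), UInt q u →
    DET n u (mN n) ≠ 0 →
    ∑ p ∈ (Finset.range (48 * n + 1)).filter Nat.Prime,
      Real.log ((padicNorm p ((q : ℚ) ^ (mN n) * DET n u (mN n)) : ℚ) : ℝ) ≤
      -(1058 * (n : ℝ) ^ 2 * Real.log n) - (6195 / 10 - ε) * (n : ℝ) ^ 2 :=
  P49.strong_of h4 P2_small_med P2_small_crude P5_A P5_B P5_U P5_numeric P5_small P5_fact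
    P5_superfac P5_log46

theorem P_main_c (h4 : P49.S_P4) :
    ∀ ε : ℝ, 0 < ε → ∀ᶠ n : ℕ in atTop, ∀ (q : ℕ) (u : ℚ), UInt q u →
    DET n u (mN n) ≠ 0 →
    ∑ p ∈ (Finset.range (48 * n + 1)).filter Nat.Prime,
      Real.log ((padicNorm p ((q : ℚ) ^ (mN n) * DET n u (mN n)) : ℚ) : ℝ) ≤
      -(1058 * (n : ℝ) ^ 2 * Real.log n) - (6125 / 10 - ε) * (n : ℝ) ^ 2 :=
  P49.main_of (P_main_strong_c h4)

theorem P_large_c (h4 : P49.S_P4) :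
    ∀ᶠ n : ℕ in atTop, ∀ (q : ℕ) (u : ℚ), UInt q u → ∀ p : ℕ, p.Prime → 48 * n < p →
    padicNorm p ((q : ℚ) ^ (mN n) * DET n u (mN n)) ≤ 1 := P49.large_of h4

end Pool.Agent.H336R2.Z5
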