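import Pool.Agent.H336R2.Z5.DefsP

/-!
# Sum over the primes (task P49), from the statements of the other tasks
-/

open Polynomial Pool.Agent.H337R2 Filter Topology

namespace Pool.Agent.H336R2.Z5

noncomputable section

namespace P49

/-! ### statements of the other tasks -/

def S_P4 : Prop := ∃ K0 : ℝ, 0 ≤ K0 ∧ ∀ n : ℕ, 7 ≤ n → ∀ p : ℕ, p.Prime → n < 20 * p → 48 * n < p ^ 2 →
    ∀ (q : ℕ) (u : ℚ), UInt q u →
    ((padicNorm p ((q : ℚ) ^ (mN n) * DET n u (mN n)) : ℚ) : ℝ) ≤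
      if p < 34 * n then (p : ℝ) ^ (EW n p + K0) else 1

def S_med : Prop := ∀ {n p : ℕ} [Fact p.Prime], 1 ≤ n → 48 * n < p ^ 2 → ∀ (q : ℕ) (u : ℚ),
    UInt q u → ∀ (m : ℕ), m ≤ 23 * n →
    padicNorm p ((q : ℚ) ^ m * DET n u m) ≤
      ((p : ℚ) ^ 6) ^ m * ∏ i ∈ Finset.range m, padicNorm p (((2 * i - 1).factorial : ℕ) : ℚ) ^ 2

def S_crude : Prop := ∀ {n p : ℕ} [Fact p.Prime], 1 ≤ n → ∀ (q : ℕ) (u : ℚ),
    UInt q u → ∀ (m : ℕ), m ≤ 23 * n →
    padicNorm p ((q : ℚ) ^ m * DET n u m) ≤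
      (((48 * n + 1 : ℕ) : ℚ) ^ 60) ^ m * ∏ i ∈ Finset.range m, padicNorm p (((2 * i - 1).factorial : ℕ) : ℚ) ^ 2

def S_A : Prop := Tendsto (fun n : ℕ => (∑ p ∈ PS (1 / 20) 12 n, EA n p * Real.log p) / (n : ℝ) ^ 2) atTop (𝓝 (LA : ℝ))

def S_B : Prop := Tendsto (fun n : ℕ => (∑ p ∈ PS 12 34 n, EB n p * Real.log p) / (n : ℝ) ^ 2) atTop (𝓝 (LB : ℝ))

def S_U : Prop := Tendsto (fun n : ℕ => (∑ p ∈ PS (1 / 20) 46 n, (∑ j ∈ J, tn (46 * n) j p) * Real.log p) / (n : ℝ) ^ 2)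
    atTop (𝓝 (LU : ℝ))

def S_num : Prop := LA + LB + LU ≤ 1837

def S_small : Prop := ∀ (B : ℝ), 0 ≤ B → ∀ ε : ℝ, 0 < ε → ∀ᶠ n : ℕ in atTop,
    23 * (n : ℝ) * (∑ p ∈ (Finset.range (n + 1)).filter (fun p : ℕ => p.Prime ∧ p ^ 2 ≤ 48 * n),
        B * Real.log (48 * n + 1) +
      ∑ p ∈ (Finset.range (n + 1)).filter (fun p : ℕ => p.Prime ∧ 20 * p ≤ n), 6 * Real.log p) ≤
    (69 / 10 + ε) * (n : ℝ) ^ 2

def S_fact : Prop := ∀ᶠ n : ℕ in atTop,
    ∑ p ∈ (Finset.range (n + 1)).filter (fun p : ℕ => p.Prime ∧ 20 * p ≤ n), ∑ i ∈ Finset.range (mN n),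
      Real.log ((padicNorm p (((2 * i - 1).factorial : ℕ) : ℚ) ^ 2 : ℚ) : ℝ) ≤
    - 2 * ∑ i ∈ Finset.range (mN n), Real.log ((2 * i - 1).factorial : ℝ) +
      ∑ p ∈ PS (1 / 20) 46 n, (∑ j ∈ J, tn (46 * n) j p) * Real.log p

def S_super : Prop := ∀ ε : ℝ, 0 < ε → ∀ᶠ n : ℕ in atTop,
    1058 * (n : ℝ) ^ 2 * Real.log n + (1058 * Real.log 46 - 1587 - ε) * (n : ℝ) ^ 2 ≤
      2 * ∑ i ∈ Finset.range (mN n), Real.log ((2 * i - 1).factorial : ℝ)

def S_log46 : Prop := (3.8285 : ℝ) ≤ Real.log 46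

/-! ### local factors -/

/-- bound of the local factor, small primes -/
def Bf (n p : ℕ) : ℝ :=
  (if p ^ 2 ≤ 48 * n then ((((48 * n + 1 : ℕ) : ℝ) ^ 60) ^ (mN n)) else ((p : ℝ) ^ 6) ^ (mN n)) *
      ∏ i ∈ Finset.range (mN n), ((padicNorm p (((2 * i - 1).factorial : ℕ) : ℚ) ^ 2 : ℚ) : ℝ)

lemma norm_fac_pos (p N : ℕ) (hp : p.Prime) : 0 < ((padicNorm p ((N.factorial : ℕ) : ℚ) ^ 2 : ℚ) : ℝ) := by
  have : Fact p.Prime := ⟨hp⟩
  have : 0 < padicNorm p ((N.factorial : ℕ) : ℚ) :=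
    lt_of_le_of_ne (padicNorm.nonneg _) (Ne.symm (padicNorm.nonzero (by exact_mod_cast Nat.factorial_ne_zero N)))
  exact_mod_cast pow_pos this 2

lemma mN_le (n : ℕ) : mN n ≤ 23 * n := by unfold mN; omega

/-- the log of the local factor, small primes -/
lemma log_Bf_small (n p : ℕ) (hp : p.Prime) :
    Real.log (Bf n p) ≤ 23 * (n : ℝ) * ((if p ^ 2 ≤ 48 * n then 60 * Real.log (48 * n + 1) else 0) + 6 * Real.log p) +
      ∑ i ∈ Finset.range (mN n), Real.log ((padicNorm p (((2 * i - 1).factorial : ℕ) : ℚ) ^ 2 : ℚ) : ℝ) := by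
  have hp0 : (0 : ℝ) < p := by exact_mod_cast hp.pos
  have hlp : 0 ≤ Real.log p := Real.log_nonneg (by exact_mod_cast hp.one_lt.le)
  have hn0 : (0 : ℝ) ≤ n := by positivity
  have hl : 0 ≤ Real.log (48 * (n : ℝ) + 1) := Real.log_nonneg (by linarith)
  have hprod : Real.log (∏ i ∈ Finset.range (mN n), ((padicNorm p (((2 * i - 1).factorial : ℕ) : ℚ) ^ 2 : ℚ) : ℝ))
      = ∑ i ∈ Finset.range (mN n), Real.log ((padicNorm p (((2 * i - 1).factorial : ℕ) : ℚ) ^ 2 : ℚ) : ℝ) :=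
    Real.log_prod (fun i _ => (norm_fac_pos p _ hp).ne')
  have hpp : 0 < ∏ i ∈ Finset.range (mN n), ((padicNorm p (((2 * i - 1).factorial : ℕ) : ℚ) ^ 2 : ℚ) : ℝ) :=
    Finset.prod_pos fun i _ => norm_fac_pos p _ hp
  have hm : ((mN n : ℕ) : ℝ) ≤ 23 * n := by
    have := mN_le n
    exact_mod_cast this
  unfold Bf
  rw [Real.log_mul (by split_ifs <;> positivity) hpp.ne', hprod]
  apply add_le_add_left
  split_ifs with h2
  · rw [Real.log_pow, Real.log_pow]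
    push_cast
    have h4 : ((mN n : ℕ) : ℝ) * (60 * Real.log (48 * (n : ℝ) + 1)) ≤ 23 * n * (60 * Real.log (48 * (n : ℝ) + 1)) :=
      mul_le_mul_of_nonneg_right hm (by positivity)
    have h5 : 0 ≤ 23 * (n : ℝ) * (6 * Real.log p) := by positivity
    push_cast at h4
    nlinarith
  · rw [Real.log_pow, Real.log_pow]
    push_cast
    have h4 : ((mN n : ℕ) : ℝ) * (6 * Real.log p) ≤ 23 * n * (6 * Real.log p) :=
      mul_le_mul_of_nonneg_right hm (by positivity)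
    push_cast at h4
    linarith

lemma norm_le_Bf (hmed : S_med) (hcr : S_crude) (n p : ℕ) (hn : 1 ≤ n) (hp : p.Prime) (q : ℕ) (u : ℚ)
    (hu : UInt q u) :
    ((padicNorm p ((q : ℚ) ^ (mN n) * DET n u (mN n)) : ℚ) : ℝ) ≤ Bf n p := by
  have : Fact p.Prime := ⟨hp⟩
  unfold Bf
  by_cases h2 : p ^ 2 ≤ 48 * n
  · rw [if_pos h2]
    have := hcr (p := p) hn q u hu (mN n) (mN_le n)
    have h3 : ((padicNorm p ((q : ℚ) ^ (mN n) * DET n u (mN n)) : ℚ) : ℝ) ≤
      (((((48 * n + 1 : ℕ) : ℚ) ^ 60) ^ (mN n) *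
        ∏ i ∈ Finset.range (mN n), padicNorm p (((2 * i - 1).factorial : ℕ) : ℚ) ^ 2 : ℚ) : ℝ) := by
      exact_mod_cast this
    refine h3.trans (le_of_eq ?_)
    push_cast
    rfl
  · rw [if_neg h2]
    have := hmed (p := p) hn (by omega) q u hu (mN n) (mN_le n)
    have h3 : ((padicNorm p ((q : ℚ) ^ (mN n) * DET n u (mN n)) : ℚ) : ℝ) ≤
      ((((p : ℚ) ^ 6) ^ (mN n) *
        ∏ i ∈ Finset.range (mN n), padicNorm p (((2 * i - 1).factorial : ℕ) : ℚ) ^ 2 : ℚ) : ℝ) := by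
      exact_mod_cast this
    refine h3.trans (le_of_eq ?_)
    push_cast
    rfl

lemma EW_split (n : ℕ) (hn : 7 ≤ n) (K0 : ℝ) (hK0 : 0 ≤ K0) :
    ∑ p ∈ ((Finset.range (34 * n)).filter Nat.Prime).filter (fun p => ¬ 20 * p ≤ n), (EW n p + K0) * Real.log p ≤
      ∑ p ∈ PS (1 / 20) 12 n, EA n p * Real.log p + ∑ p ∈ PS 12 34 n, EB n p * Real.log p +
      K0 * (Real.log 4 * (34 * n)) := by
  classical
  have hn0 : (0 : ℝ) < n := by exact_mod_cast (by omega : 0 < n)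
  simp only [add_mul, Finset.sum_add_distrib]
  apply add_le_add
  · apply le_of_eq
    set T := ((Finset.range (34 * n)).filter Nat.Prime).filter (fun p => ¬ 20 * p ≤ n) with hT
    have e1 : PS (1 / 20) 12 n = T.filter (fun p => p < 12 * n) := by
      ext p
      unfold PS
      rw [hT]
      simp only [Finset.mem_filter, Finset.mem_range]
      constructor
      · rintro ⟨h1, h2, h3, h4⟩
        have h5 : n < 20 * p := by
          have : (n : ℝ) < 20 * p := by linarith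
          exact_mod_cast this
        have h6 : p < 12 * n := by exact_mod_cast h4
        exact ⟨⟨⟨by omega, h2⟩, by omega⟩, h6⟩
      · rintro ⟨⟨⟨h1, h2⟩, h3⟩, h4⟩
        refine ⟨by omega, h2, ?_, by exact_mod_cast h4⟩
        have : (n : ℝ) < 20 * p := by exact_mod_cast (by omega : n < 20 * p)
        linarith
    have e2 : PS 12 34 n = T.filter (fun p => ¬ p < 12 * n) := by
      ext p
      unfold PS
      rw [hT]
      simp only [Finset.mem_filter, Finset.mem_range]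
      constructor
      · rintro ⟨h1, h2, h3, h4⟩
        have h5 : 12 * n < p := by exact_mod_cast h3
        have h6 : p < 34 * n := by exact_mod_cast h4
        exact ⟨⟨⟨by omega, h2⟩, by omega⟩, by omega⟩
      · rintro ⟨⟨⟨h1, h2⟩, h3⟩, h4⟩
        refine ⟨by omega, h2, ?_, by exact_mod_cast h1⟩
        have h6 : 12 * n ≠ p := by
          rintro rfl
          exact Nat.not_prime_mul (by norm_num) (by omega) h2
        exact_mod_cast (by omega : 12 * n < p)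
    rw [e1, e2, ← Finset.sum_filter_add_sum_filter_not T (fun p => p < 12 * n)]
    congr 1
    · apply Finset.sum_congr rfl
      intro p hp
      rw [Finset.mem_filter] at hp
      unfold EW
      rw [if_pos hp.2]
    · apply Finset.sum_congr rfl
      intro p hp
      rw [Finset.mem_filter] at hp
      unfold EW
      rw [if_neg hp.2]
  · rw [← Finset.mul_sum]
    apply mul_le_mul_of_nonneg_left _ hK0
    refine le_trans ?_ (Chebyshev.theta_le_log4_mul_x (x := 34 * n) (by positivity))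
    unfold Chebyshev.theta
    apply Finset.sum_le_sum_of_subset_of_nonneg
    · intro p hp
      rw [Finset.mem_filter, Finset.mem_filter, Finset.mem_range] at hp
      rw [Finset.mem_filter, Finset.mem_Ioc]
      refine ⟨⟨hp.1.2.pos, ?_⟩, hp.1.2⟩
      rw [Nat.le_floor_iff (by positivity)]
      have : ((p : ℕ) : ℝ) ≤ ((34 * n : ℕ) : ℝ) := by exact_mod_cast hp.1.1.le
      push_cast at this
      exact this
    · intro p hp _
      rw [Finset.mem_filter] at hp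
      exact Real.log_nonneg (by exact_mod_cast hp.2.one_lt.le)

lemma ev_of_tendsto {f : ℕ → ℝ} {L : ℝ} (h : Tendsto (fun n : ℕ => f n / (n : ℝ) ^ 2) atTop (𝓝 L)) (ε : ℝ) (hε : 0 < ε) :
    ∀ᶠ n : ℕ in atTop, f n ≤ (L + ε) * (n : ℝ) ^ 2 := by
  filter_upwards [h.eventually_lt_const (show L < L + ε by linarith), eventually_ge_atTop 1] with n h1 hn
  have hn0 : (0 : ℝ) < (n : ℝ) ^ 2 := by
    have : (0 : ℝ) < n := by exact_mod_cast hn
    positivity
  rw [div_lt_iff₀ hn0] at h1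
  exact h1.le

/-- the sum over all primes up to `48 n` -/
theorem strong_of (h4 : S_P4) (hmed : S_med) (hcr : S_crude) (hA : S_A) (hB : S_B) (hU : S_U) (hnum : S_num)
    (hsm : S_small) (hf : S_fact) (hsup : S_super) (hl46 : S_log46) :
    ∀ ε : ℝ, 0 < ε → ∀ᶠ n : ℕ in atTop, ∀ (q : ℕ) (u : ℚ), UInt q u →
    DET n u (mN n) ≠ 0 →
    ∑ p ∈ (Finset.range (48 * n + 1)).filter Nat.Prime,
      Real.log ((padicNorm p ((q : ℚ) ^ (mN n) * DET n u (mN n)) : ℚ) : ℝ) ≤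
      -(1058 * (n : ℝ) ^ 2 * Real.log n) - (6195 / 10 - ε) * (n : ℝ) ^ 2 := by
  intro ε hε
  obtain ⟨K0, hK0, hE4⟩ := h4
  have hnumr : (LA : ℝ) + LB + LU ≤ 1837 := by
    have h := (Rat.cast_le (K := ℝ)).2 hnum
    push_cast at h
    exact h
  have hε' : 0 < ε / 10 := by positivity
  have ev9 : ∀ᶠ n : ℕ in atTop, K0 * (Real.log 4 * 34) ≤ ε / 10 * n := by
    have := (tendsto_natCast_atTop_atTop (R := ℝ)).const_mul_atTop hε'
    exact this.eventually_ge_atTop _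
  filter_upwards [ev_of_tendsto hA (ε / 10) hε', ev_of_tendsto hB (ε / 10) hε', ev_of_tendsto hU (ε / 10) hε',
    hsm 60 (by norm_num) (ε / 10) hε', hf, hsup (ε / 10) hε', ev9, eventually_ge_atTop 20000] with
    n g2 g3 g5 g6 g7 g8 g9 hn q u hu hD
  have hn7 : 7 ≤ n := by omega
  have hn0 : (0 : ℝ) < n := by exact_mod_cast (by omega : 0 < n)
  obtain ⟨hq0, _⟩ := id hu
  set z : ℚ := (q : ℚ) ^ (mN n) * DET n u (mN n) with hz
  have hz0 : z ≠ 0 := mul_ne_zero (by positivity) hD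
  set S := (Finset.range (48 * n + 1)).filter Nat.Prime with hS
  have hpos : ∀ p : ℕ, p.Prime → 0 < ((padicNorm p z : ℚ) : ℝ) := by
    intro p hp
    have : Fact p.Prime := ⟨hp⟩
    have h1 : 0 < padicNorm p z := lt_of_le_of_ne (padicNorm.nonneg _) (Ne.symm (padicNorm.nonzero hz0))
    exact_mod_cast h1
  rw [← Finset.sum_filter_add_sum_filter_not S (fun p => 20 * p ≤ n)]
  -- small primes
  have hsmall : ∑ p ∈ S.filter (fun p => 20 * p ≤ n), Real.log ((padicNorm p z : ℚ) : ℝ) ≤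
      23 * (n : ℝ) * (∑ p ∈ (Finset.range (n + 1)).filter (fun p : ℕ => p.Prime ∧ p ^ 2 ≤ 48 * n),
        60 * Real.log (48 * n + 1) +
      ∑ p ∈ (Finset.range (n + 1)).filter (fun p : ℕ => p.Prime ∧ 20 * p ≤ n), 6 * Real.log p) +
      ∑ p ∈ (Finset.range (n + 1)).filter (fun p : ℕ => p.Prime ∧ 20 * p ≤ n), ∑ i ∈ Finset.range (mN n),
      Real.log ((padicNorm p (((2 * i - 1).factorial : ℕ) : ℚ) ^ 2 : ℚ) : ℝ) := by
    have e1 : S.filter (fun p => 20 * p ≤ n) = (Finset.range (n + 1)).filter (fun p : ℕ => p.Prime ∧ 20 * p ≤ n) := by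
      ext p
      rw [hS]
      simp only [Finset.mem_filter, Finset.mem_range]
      constructor
      · rintro ⟨⟨h1, h2⟩, h3⟩; exact ⟨by omega, h2, h3⟩
      · rintro ⟨h1, h2, h3⟩; exact ⟨⟨by omega, h2⟩, h3⟩
    rw [e1]
    calc _ ≤ ∑ p ∈ (Finset.range (n + 1)).filter (fun p : ℕ => p.Prime ∧ 20 * p ≤ n),
          (23 * (n : ℝ) * ((if p ^ 2 ≤ 48 * n then 60 * Real.log (48 * n + 1) else 0) + 6 * Real.log p) +
          ∑ i ∈ Finset.range (mN n), Real.log ((padicNorm p (((2 * i - 1).factorial : ℕ) : ℚ) ^ 2 : ℚ) : ℝ)) := by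
          apply Finset.sum_le_sum
          intro p hp
          rw [Finset.mem_filter] at hp
          exact (Real.log_le_log (hpos p hp.2.1) (norm_le_Bf hmed hcr n p (by omega) hp.2.1 q u hu)).trans
            (log_Bf_small n p hp.2.1)
      _ ≤ _ := by
          rw [Finset.sum_add_distrib, ← Finset.mul_sum, Finset.sum_add_distrib]
          apply add_le_add_left
          apply mul_le_mul_of_nonneg_left _ (by positivity)
          apply add_le_add_left
          rw [← Finset.sum_filter]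
          apply Finset.sum_le_sum_of_subset_of_nonneg
          · intro p hp
            simp only [Finset.mem_filter, Finset.mem_range] at hp ⊢
            exact ⟨hp.1.1, hp.1.2.1, hp.2⟩
          · intro p _ _
            have : 0 ≤ Real.log (48 * (n : ℝ) + 1) := Real.log_nonneg (by linarith)
            positivity
  -- large primes
  have hlarge : ∑ p ∈ S.filter (fun p => ¬ 20 * p ≤ n), Real.log ((padicNorm p z : ℚ) : ℝ) ≤
      ∑ p ∈ PS (1 / 20) 12 n, EA n p * Real.log p + ∑ p ∈ PS 12 34 n, EB n p * Real.log p +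
      K0 * (Real.log 4 * (34 * n)) := by
    refine le_trans ?_ (EW_split n hn7 K0 hK0)
    have e1 : ((Finset.range (34 * n)).filter Nat.Prime).filter (fun p => ¬ 20 * p ≤ n) =
        (S.filter (fun p => ¬ 20 * p ≤ n)).filter (fun p => p < 34 * n) := by
      ext p
      rw [hS]
      simp only [Finset.mem_filter, Finset.mem_range]
      constructor
      · rintro ⟨⟨h1, h2⟩, h3⟩; exact ⟨⟨⟨by omega, h2⟩, h3⟩, h1⟩
      · rintro ⟨⟨⟨h1, h2⟩, h3⟩, h4⟩; exact ⟨⟨h4, h2⟩, h3⟩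
    rw [e1, ← Finset.sum_filter_add_sum_filter_not (S.filter (fun p => ¬ 20 * p ≤ n)) (fun p => p < 34 * n)]
    have hlo : ∑ p ∈ (S.filter (fun p => ¬ 20 * p ≤ n)).filter (fun p => p < 34 * n),
        Real.log ((padicNorm p z : ℚ) : ℝ) ≤
        ∑ p ∈ (S.filter (fun p => ¬ 20 * p ≤ n)).filter (fun p => p < 34 * n), (EW n p + K0) * Real.log p := by
      apply Finset.sum_le_sum
      intro p hp
      rw [hS, Finset.mem_filter, Finset.mem_filter, Finset.mem_filter] at hp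
      obtain ⟨⟨⟨_, h2⟩, h3⟩, h5⟩ := hp
      have h6 := hE4 n hn7 p h2 (by omega) (by nlinarith) q u hu
      rw [if_pos h5] at h6
      have h7 := Real.log_le_log (hpos p h2) h6
      rw [Real.log_rpow (by exact_mod_cast h2.pos)] at h7
      exact h7
    have hhi : ∑ p ∈ (S.filter (fun p => ¬ 20 * p ≤ n)).filter (fun p => ¬ p < 34 * n),
        Real.log ((padicNorm p z : ℚ) : ℝ) ≤ 0 := by
      apply Finset.sum_nonpos
      intro p hp
      rw [hS, Finset.mem_filter, Finset.mem_filter, Finset.mem_filter] at hp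
      obtain ⟨⟨⟨_, h2⟩, h3⟩, h5⟩ := hp
      have h6 := hE4 n hn7 p h2 (by omega) (by nlinarith) q u hu
      rw [if_neg h5] at h6
      exact Real.log_nonpos (hpos p h2).le h6
    linarith
  have hfin : K0 * (Real.log 4 * (34 * n)) ≤ ε / 10 * (n : ℝ) ^ 2 := by
    have := mul_le_mul_of_nonneg_right g9 hn0.le
    nlinarith
  have hn2 : (0 : ℝ) < (n : ℝ) ^ 2 := by positivity
  have hlog : (4050553 / 1000 : ℝ) ≤ 1058 * Real.log 46 := by
    have : (3.8285 : ℝ) ≤ Real.log 46 := hl46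
    norm_num at this ⊢
    linarith
  have hcon : ((LA : ℝ) + ε / 10 + (LB + ε / 10) + (LU + ε / 10) + (69 / 10 + ε / 10) -
      (1058 * Real.log 46 - 1587 - ε / 10) + ε / 10) * (n : ℝ) ^ 2 ≤ -(6195 / 10 - ε) * (n : ℝ) ^ 2 := by
    apply mul_le_mul_of_nonneg_right _ hn2.le
    linarith
  linarith

theorem main_of (h : ∀ ε : ℝ, 0 < ε → ∀ᶠ n : ℕ in atTop, ∀ (q : ℕ) (u : ℚ), UInt q u →
    DET n u (mN n) ≠ 0 →
    ∑ p ∈ (Finset.range (48 * n + 1)).filter Nat.Prime,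
      Real.log ((padicNorm p ((q : ℚ) ^ (mN n) * DET n u (mN n)) : ℚ) : ℝ) ≤
      -(1058 * (n : ℝ) ^ 2 * Real.log n) - (6195 / 10 - ε) * (n : ℝ) ^ 2) :
    ∀ ε : ℝ, 0 < ε → ∀ᶠ n : ℕ in atTop, ∀ (q : ℕ) (u : ℚ), UInt q u →
    DET n u (mN n) ≠ 0 →
    ∑ p ∈ (Finset.range (48 * n + 1)).filter Nat.Prime,
      Real.log ((padicNorm p ((q : ℚ) ^ (mN n) * DET n u (mN n)) : ℚ) : ℝ) ≤
      -(1058 * (n : ℝ) ^ 2 * Real.log n) - (6125 / 10 - ε) * (n : ℝ) ^ 2 := by
  intro ε hε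
  filter_upwards [h ε hε] with n hn q u hu hD
  have h1 := hn q u hu hD
  have h2 : (0 : ℝ) ≤ (n : ℝ) ^ 2 := by positivity
  nlinarith

theorem large_of (h4 : S_P4) : ∀ᶠ n : ℕ in atTop, ∀ (q : ℕ) (u : ℚ), UInt q u → ∀ p : ℕ, p.Prime → 48 * n < p →
    padicNorm p ((q : ℚ) ^ (mN n) * DET n u (mN n)) ≤ 1 := by
  obtain ⟨K0, _, hE4⟩ := h4
  filter_upwards [eventually_ge_atTop 7] with n hn q u hu p hp hpn
  have h := hE4 n hn p hp (by omega) (by nlinarith) q u hu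
  rw [if_neg (by omega)] at h
  exact_mod_cast h

end P49

end

end Pool.Agent.H336R2.Z5
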