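import Pool.Agent.H336R2.Z5.Defs2
import Pool.Agent.H337R2.FormX

/-! STUBS (blocks B, H, Z) of the project `ζ(5)` is irrational. Never import this file in a finished module. -/

open Polynomial Pool.Agent.H337R2 Filter Topology

namespace Pool.Agent.H336R2.Z5

noncomputable section

/-! ### B. The linear form as a series -/

theorem B1_pf_real (s : Finset ℕ) (μ : ℕ → ℕ) (P : ℚ[X]) (hdeg : P.degree < (QQ s μ).degree) (r : ℕ)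
    (hr : ∀ k ∈ s, μ k ≤ r) (t : ℝ) (ht : ∀ k ∈ s, μ k ≠ 0 → t + k ≠ 0) :
    aeval t P / aeval t (QQ s μ) = ∑ k ∈ s, ∑ i ∈ Finset.Icc 1 r, ((pa s μ P k i : ℚ) : ℝ) / (t + k) ^ i := by
  sorry

theorem B2_half {e : ℕ} (he : 2 ≤ e) (M : ℤ) :
    HasSum (fun j : ℕ => 1 / ((j : ℝ) + M + 1 / 2) ^ e) ((2 ^ e - 1) * zr e - ((ho e M : ℚ) : ℝ)) := by
  sorry

theorem B3_res (s : Finset ℕ) (a : ℕ → ℝ) (ha : ∑ k ∈ s, a k = 0) (h1 : ∀ k ∈ s, 1 ≤ k) :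
    HasSum (fun t : ℕ => ∑ k ∈ s, a k / ((t : ℝ) + k)) (-∑ k ∈ s, a k * ((hs 1 (k - 1) : ℚ) : ℝ)) := by
  sorry

theorem B3_resh (s : Finset ℕ) (a : ℕ → ℝ) (ha : ∑ k ∈ s, a k = 0) (c : ℤ) :
    HasSum (fun j : ℕ => ∑ k ∈ s, a k / ((j : ℝ) + (((k : ℤ) - c : ℤ) : ℝ) + 1 / 2))
      (-∑ k ∈ s, a k * ((ho 1 ((k : ℤ) - c) : ℚ) : ℝ)) := by
  sorry

theorem B4_int {n : ℕ} (hn : 2 ≤ n) (Q : ℚ[X]) (hQ : Q.natDegree ≤ 48 * n - 48) :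
    HasSum (fun t : ℕ => aeval (t : ℝ) (PPn n * EE n Q) / aeval (t : ℝ) (QQ (sN n) (muN n)))
      (((∑ k ∈ sN n, pa (sN n) (muN n) (PPn n * EE n Q) k 3 : ℚ) : ℝ) * zr 3 +
        ((∑ k ∈ sN n, pa (sN n) (muN n) (PPn n * EE n Q) k 5 : ℚ) : ℝ) * zr 5 -
        ((∑ i ∈ Finset.Icc 1 6, ∑ k ∈ sN n, pa (sN n) (muN n) (PPn n * EE n Q) k i * hs i (k - 1) : ℚ) : ℝ)) := by
  sorry

theorem B5_half {n : ℕ} (hn : 2 ≤ n) (Q : ℚ[X]) (hQ : Q.natDegree ≤ 48 * n - 48) :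
    HasSum (fun j : ℕ => aeval (-(4 * (n : ℝ)) + j + 1 / 2) (PPn n * EE n Q) /
        aeval (-(4 * (n : ℝ)) + j + 1 / 2) (QQ (sN n) (muN n)))
      (7 * ((∑ k ∈ sN n, pa (sN n) (muN n) (PPn n * EE n Q) k 3 : ℚ) : ℝ) * zr 3 +
        31 * ((∑ k ∈ sN n, pa (sN n) (muN n) (PPn n * EE n Q) k 5 : ℚ) : ℝ) * zr 5 -
        ((∑ i ∈ Finset.Icc 1 6, ∑ k ∈ sN n, pa (sN n) (muN n) (PPn n * EE n Q) k i *
          ho i ((k : ℤ) - 4 * n) : ℚ) : ℝ)) := by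
  sorry

theorem B6_hasSum {n : ℕ} (hn : 2 ≤ n) (u : ℚ) (h5 : zr 5 = (u : ℝ)) (Q : ℚ[X]) (hQ : Q.natDegree ≤ 48 * n - 48) :
    HasSum (fun s : ℕ => Wt n s * aeval (xr n (tau n s)) Q) ((NL n u Q : ℚ) : ℝ) := by
  sorry

/-! ### H. Non-vanishing at `n = p` -/

theorem H1_ho {p : ℕ} [Fact p.Prime] (a r : ℤ) (e : ℕ) (he : 1 ≤ e) (hp : 41 < p) (ha : |a| ≤ 20) (hr : 2 * |r| < p) :
    padicNorm p ((p : ℚ) ^ e * ho e (a * p + r) - ho e a) ≤ (p : ℚ)⁻¹ := by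
  sorry

/-- principal coefficients in the classes `±r` -/
theorem H2_pa {p : ℕ} [Fact p.Prime] (hp : 60 ≤ p) (r : ℕ) (hr1 : 1 ≤ r) (hr2 : 2 * r < p) :
    ∃ w : ℚ, padicNorm p w = 1 ∧ ∀ e j i : ℕ, e ≤ 90 → 3 ≤ j → j ≤ 20 → 1 ≤ i → i ≤ om j →
      padicNorm p (pa (sN p) (muN p) (PPn p * EE p (XN p r ^ e * Nod p r 92)) (r + j * p) i / (p : ℚ) ^ (i + e) -
        w * (-2 * r) ^ e * PowerSeries.coeff (om j - i) (ser j e)) ≤ (p : ℚ)⁻¹ := by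
  sorry

theorem H3_diag {p : ℕ} [Fact p.Prime] (hp : 60 ≤ p) (u : ℚ) (hu : padicNorm p u ≤ 1)
    (r : ℕ) (hr1 : 1 ≤ r) (hr2 : 2 * r < p) :
    ∃ w : ℚ, padicNorm p w = 1 ∧ ∀ e : ℕ, e ≤ 90 →
      padicNorm p ((p : ℚ) ^ (-(e : ℤ)) * NL p u (XN p r ^ e * Nod p r 92) - w * (-2 * r) ^ e * Fm e) ≤ (p : ℚ)⁻¹ := by
  sorry

theorem H4_offdiag {p : ℕ} [Fact p.Prime] (hp : 60 ≤ p) (u : ℚ) (hu : padicNorm p u ≤ 1)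
    (r s l l' : ℕ) (hr1 : 1 ≤ r) (hr2 : 2 * r < p) (hs1 : 1 ≤ s) (hs2 : 2 * s < p) (hrs : r ≠ s)
    (hl : l < 46) (hl' : l' < 46) :
    padicNorm p ((p : ℚ) ^ (-(l : ℤ) - (l' : ℤ)) * NL p u
      ((XN p r ^ l * Nod p r 46) * (XN p s ^ l' * Nod p s 46))) ≤ (p : ℚ)⁻¹ := by
  sorry

theorem H5_local : (Matrix.of fun l l' : Fin 46 => Fm (l.1 + l'.1)).det ≠ 0 := by
  sorry

theorem H6_nonvanish (u : ℚ) : ∃ p0 : ℕ, ∀ p : ℕ, p0 ≤ p → p.Prime → DET p u (mN p) ≠ 0 := by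
  sorry

/-! ### Interfaces of the blocks A and P -/

theorem A_main : ∃ D : ℕ, 1 ≤ D ∧ ∀ ε : ℝ, 0 < ε → ∀ᶠ N : ℕ in atTop, ∀ n : ℕ, n = D * N + 1 → ∀ u : ℚ,
    zr 5 = (u : ℝ) → DET n u (mN n) ≠ 0 →
    Real.log |((DET n u (mN n) : ℚ) : ℝ)| ≤ 1058 * (n : ℝ) ^ 2 * Real.log n + (611 + ε) * (n : ℝ) ^ 2 := by
  sorry

theorem P_main : ∀ ε : ℝ, 0 < ε → ∀ᶠ n : ℕ in atTop, ∀ (q : ℕ) (u : ℚ), UInt q u → DET n u (mN n) ≠ 0 →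
    ∑ p ∈ (Finset.range (48 * n + 1)).filter Nat.Prime,
      Real.log ((padicNorm p ((q : ℚ) ^ (mN n) * DET n u (mN n)) : ℚ) : ℝ) ≤
    -(1058 * (n : ℝ) ^ 2 * Real.log n) - (612.5 - ε) * (n : ℝ) ^ 2 := by
  sorry

theorem P_large {n p : ℕ} (hn : 1 ≤ n) (hp : p.Prime) (hpn : 48 * n < p) (q : ℕ) (u : ℚ) (hu : UInt q u) :
    padicNorm p ((q : ℚ) ^ (mN n) * DET n u (mN n)) ≤ 1 := by
  sorry

/-! ### Z. Conclusion -/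

theorem Z_main : Irrational (zr 5) := by
  sorry

end

end Pool.Agent.H336R2.Z5
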