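import Pool.Agent.H336R2.Z5.DefsSw
import Pool.Agent.H337R2.Asym

/-! STUBS of the p-adic block (P) (helper297). Never import this file in a finished module. -/

open Polynomial Pool.Agent.H337R2 Filter Topology

namespace Pool.Agent.H336R2.Z5

noncomputable section

/-! ### local part (helper975) -/

theorem P1_det_med {n p : ℕ} [Fact p.Prime] (hn : 1 ≤ n) (hp2 : 48 * n < p ^ 2) (q : ℕ) (u : ℚ)
    (hu : UInt q u) (m : ℕ) (μ : ℤ) :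
    padicNorm p ((q : ℚ) ^ m * DET n u m) ≤ (p : ℚ) ^ (m * μ + ∑ κ ∈ Kset n p, TT (-(eeN p n κ) - μ)) := by
  sorry

theorem P1_det_large {n p : ℕ} [Fact p.Prime] (hn : 2 ≤ n) (hp9 : 9 * n ≤ p) (q : ℕ) (u : ℚ)
    (hu : UInt q u) (m : ℕ) (hm : m ≤ 23 * (n - 1)) (μ : ℤ) (hcst : padicNorm p (cstN n) ≤ (p : ℚ) ^ μ) :
    padicNorm p ((q : ℚ) ^ m * DET n u m) ≤
      (p : ℚ) ^ (m * μ + ∑ κ ∈ Kset n p, TC (gz n p κ) (-(eeN p n κ) - μ)) := by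
  sorry

theorem P2_small_med {n p : ℕ} [Fact p.Prime] (hn : 1 ≤ n) (hp2 : 48 * n < p ^ 2) (q : ℕ) (u : ℚ)
    (hu : UInt q u) (m : ℕ) (hm : m ≤ 23 * n) :
    padicNorm p ((q : ℚ) ^ m * DET n u m) ≤
      ((p : ℚ) ^ 6) ^ m * ∏ i ∈ Finset.range m, padicNorm p (((2 * i - 1).factorial : ℕ) : ℚ) ^ 2 := by
  sorry

theorem P2_small_crude {n p : ℕ} [Fact p.Prime] (hn : 1 ≤ n) (q : ℕ) (u : ℚ)
    (hu : UInt q u) (m : ℕ) (hm : m ≤ 23 * n) :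
    padicNorm p ((q : ℚ) ^ m * DET n u m) ≤
      (((48 * n + 1 : ℕ) : ℚ) ^ 60) ^ m * ∏ i ∈ Finset.range m, padicNorm p (((2 * i - 1).factorial : ℕ) : ℚ) ^ 2 := by
  sorry

/-! ### P3: class sums -/

theorem P3_ee_form (n p k : ℕ) : eeN p n k = (vv n p : ℤ) - 2 * sr n p k := by
  sorry

theorem P3_cst {n p : ℕ} [Fact p.Prime] (hp2 : 48 * n < p ^ 2) :
    padicNorm p (cstN n) = (p : ℚ) ^ (-(vv n p : ℤ)) := by
  sorry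

/-- symmetric functions on the classes (as HD.E1_Kset_sum) -/
theorem P3_Kset_sum {n p : ℕ} (hp : p.Prime) (hp2 : p ≠ 2) (hpn : p < 24 * n) (f : ℕ → ℤ) (M : ℤ) (hM : 0 ≤ M)
    (hf : ∀ r < p, f r = f ((24 * n - r) % p)) (hfM : ∀ r < p, f r ≤ M) :
    2 * ∑ r ∈ Kset n p, f r ≤ ∑ r ∈ Finset.range p, f r + M := by
  sorry

theorem P3_ee_sym {n p r : ℕ} (hp : p.Prime) (hn : 1 ≤ n) (hr : r < p) (hpn : p < 24 * n) :
    eeN p n r = eeN p n ((24 * n - r) % p) := by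
  sorry

/-- pairs of points in the same class, two concentric intervals -/
theorem P3_pairs {n p : ℕ} (hp : p.Prime) (hn : 7 ≤ n) (hpn : n < 20 * p) (A L D : ℕ) (hLD : L + D ≤ 18 * n) :
    ((∑ r ∈ Finset.range p, cnt p A (A + L + 2 * D) r * cnt p (A + D) (A + D + L) r : ℕ) : ℝ) ≤
      (L + 1) + 2 * ∑ j ∈ J, (tn (L + D) j p - tn D j p + 1) := by
  sorry

theorem P3_sum_sr {n p : ℕ} (hp : p.Prime) : ∑ r ∈ Finset.range p, sr n p r = 48 * n + 3 := by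
  sorry

theorem P3_sum_sr2 : ∃ K0 : ℝ, ∀ n p : ℕ, p.Prime → 7 ≤ n → n < 20 * p →
    ((∑ r ∈ Finset.range p, sr n p r ^ 2 : ℕ) : ℝ) ≤ 136 * n +
      2 * ∑ j ∈ J, (tn (18 * n) j p + 2 * tn (17 * n) j p + 3 * tn (16 * n) j p + 2 * tn (15 * n) j p
      + tn (14 * n) j p - 4 * tn n j p - 2 * tn (2 * n) j p) + K0 := by
  sorry

theorem P3_rho {n p : ℕ} (hp : p.Prime) (hpn : n < 20 * p) :
    -(2 * (n : ℝ) * rh n p) + 1 / 2 * (rh n p : ℝ) ^ 2 * p = -(1 / 2) * ∑ j ∈ J.filter Odd, tn (4 * n) j p := by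
  sorry

theorem P3_A : ∃ K0 : ℝ, ∀ n p : ℕ, p.Prime → 7 ≤ n → n < 20 * p → p < 12 * n → 48 * n < p ^ 2 →
    ((((mN n : ℕ) : ℤ) * (1 + 2 * (rh n p : ℤ) - vv n p) +
      ∑ κ ∈ Kset n p, TT (-(eeN p n κ) - (1 + 2 * (rh n p : ℤ) - vv n p)) : ℤ) : ℝ) ≤ EA n p + K0 := by
  sorry

/-- number of evaluation points of a one-site class -/
theorem P3_gz {n p k : ℕ} (hp : p.Prime) (hn : 7 ≤ n) (hp12 : 12 * n ≤ p) (hk : k ∈ Finset.Icc (3 * n) (21 * n))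
    (h1 : k < 3 * n + p) (h2 : 21 * n < k + p) :
    (Dz n p k).card = (if 8 * n + p < 2 * k then 1 else 0) + (if 2 * k + p < 40 * n then 1 else 0) +
      (if p < k then 1 else 0) + (if k + p < 24 * n then 1 else 0) := by
  sorry

/-- reduction to one-site classes (distance `w` of the pole to the centre, `w + 9n < p`) and two-site classes
(poles `3n + u`, `3n + u + p`, with mirror image `3n + u'`, `u + u' = 18n - p`) -/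
theorem P3_B1 {n p : ℕ} (hp : p.Prime) (hn : 7 ≤ n) (hp12 : 12 * n ≤ p) (hp2 : 48 * n < p ^ 2) :
    ∑ κ ∈ Kset n p, TC (gz n p κ) (-(eeN p n κ) - (-(vv n p : ℤ))) ≤
      ∑ w ∈ (Finset.range (9 * n + 1)).filter (fun w => w + 9 * n < p), TC (gw n p w) (Sw n w) +
      ∑ u ∈ (Finset.range (18 * n + 1 - p)).filter (fun u => 2 * u ≤ 18 * n - p),
        TT (Sw n (9 * n - u) + Sw n (9 * n - (18 * n - p - u))) := by
  sorry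

theorem P3_B2 : ∃ K0 : ℝ, ∀ n p : ℕ, 7 ≤ n → 12 * n ≤ p → p < 34 * n →
    ((∑ w ∈ (Finset.range (9 * n + 1)).filter (fun w => w + 9 * n < p), TC (gw n p w) (Sw n w) : ℤ) : ℝ) ≤
      tn (34 * n) 1 p + tn (32 * n) 1 p + tn (30 * n) 1 p + 2 * tn (20 * n) 1 p + 2 * tn (19 * n) 1 p
        - 2 * tn (18 * n) 1 p - 4 * tn (17 * n) 1 p - 5 * tn (16 * n) 1 p - tn (40 * n) 3 p + K0 := by
  sorry

theorem P3_B3 : ∃ K0 : ℝ, ∀ n p : ℕ, 7 ≤ n → 12 * n ≤ p →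
    ((∑ u ∈ (Finset.range (18 * n + 1 - p)).filter (fun u => 2 * u ≤ 18 * n - p),
        TT (Sw n (9 * n - u) + Sw n (9 * n - (18 * n - p - u))) : ℤ) : ℝ) ≤
      3 * tn (18 * n) 1 p + 6 * tn (17 * n) 1 p + 9 * tn (16 * n) 1 p + 2 * tn (15 * n) 1 p + tn (14 * n) 1 p + K0 := by
  sorry

theorem P3_B : ∃ K0 : ℝ, ∀ n p : ℕ, p.Prime → 7 ≤ n → 12 * n ≤ p → p < 34 * n → 48 * n < p ^ 2 →
    ((((mN n : ℕ) : ℤ) * (-(vv n p : ℤ)) +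
      ∑ κ ∈ Kset n p, TC (gz n p κ) (-(eeN p n κ) - (-(vv n p : ℤ))) : ℤ) : ℝ) ≤ EB n p + K0 := by
  sorry

theorem P3_C {n p : ℕ} (hp : p.Prime) (hn : 7 ≤ n) (hp34 : 34 * n ≤ p) :
    vv n p = 0 ∧ ∑ κ ∈ Kset n p, TC (gz n p κ) (-(eeN p n κ)) = 0 := by
  sorry

/-! ### P4: all primes `p > n/20` -/

theorem P4_padic : ∃ K0 : ℝ, 0 ≤ K0 ∧ ∀ n : ℕ, 7 ≤ n → ∀ p : ℕ, p.Prime → n < 20 * p → 48 * n < p ^ 2 →
    ∀ (q : ℕ) (u : ℚ), UInt q u →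
    ((padicNorm p ((q : ℚ) ^ (mN n) * DET n u (mN n)) : ℚ) : ℝ) ≤
      if p < 34 * n then (p : ℝ) ^ (EW n p + K0) else 1 := by
  sorry

/-! ### P5: prime number theorem sums -/

theorem P5_tent (α j : ℕ) (hj : 1 ≤ j) (lo hi : ℚ) (h0 : 0 < lo) (h1 : lo ≤ hi) (h2 : hi ≤ 48) :
    Tendsto (fun n : ℕ => (∑ p ∈ PS lo hi n, tn (α * n) j p * Real.log p) / (n : ℝ) ^ 2) atTop
      (𝓝 ((It α j lo hi : ℚ) : ℝ)) := by
  sorry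

theorem P5_const (lo hi : ℚ) (h0 : 0 < lo) (h1 : lo ≤ hi) (h2 : hi ≤ 48) :
    Tendsto (fun n : ℕ => (∑ p ∈ PS lo hi n, (n : ℝ) * Real.log p) / (n : ℝ) ^ 2) atTop
      (𝓝 (((hi - lo : ℚ)) : ℝ)) := by
  sorry

theorem P5_floor (α : ℕ) (lo hi : ℚ) (h0 : 1 / 20 ≤ lo) (h1 : lo ≤ hi) (h2 : hi ≤ 48) (hα : α ≤ 46) :
    Tendsto (fun n : ℕ => (∑ p ∈ PS lo hi n, (n : ℝ) * ((α * n / p : ℕ) : ℝ) * Real.log p) / (n : ℝ) ^ 2) atTop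
      (𝓝 ((Ifl α lo hi : ℚ) : ℝ)) := by
  sorry

theorem P5_A : Tendsto (fun n : ℕ => (∑ p ∈ PS (1 / 20) 12 n, EA n p * Real.log p) / (n : ℝ) ^ 2) atTop (𝓝 (LA : ℝ)) := by
  sorry

theorem P5_B : Tendsto (fun n : ℕ => (∑ p ∈ PS 12 34 n, EB n p * Real.log p) / (n : ℝ) ^ 2) atTop (𝓝 (LB : ℝ)) := by
  sorry

theorem P5_U : Tendsto (fun n : ℕ => (∑ p ∈ PS (1 / 20) 46 n, (∑ j ∈ J, tn (46 * n) j p) * Real.log p) / (n : ℝ) ^ 2)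
    atTop (𝓝 (LU : ℝ)) := by
  sorry

theorem P5_numeric : LA + LB + LU ≤ 1837 := by
  sorry

/-- small primes: trivial exponents -/
theorem P5_small (B : ℝ) (hB : 0 ≤ B) : ∀ ε : ℝ, 0 < ε → ∀ᶠ n : ℕ in atTop,
    23 * (n : ℝ) * (∑ p ∈ (Finset.range (n + 1)).filter (fun p : ℕ => p.Prime ∧ p ^ 2 ≤ 48 * n),
        B * Real.log (48 * n + 1) +
      ∑ p ∈ (Finset.range (n + 1)).filter (fun p : ℕ => p.Prime ∧ 20 * p ≤ n), 6 * Real.log p) ≤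
    (69 / 10 + ε) * (n : ℝ) ^ 2 := by
  sorry

/-- factorials: the small prime part -/
theorem P5_fact : ∀ᶠ n : ℕ in atTop,
    ∑ p ∈ (Finset.range (n + 1)).filter (fun p : ℕ => p.Prime ∧ 20 * p ≤ n), ∑ i ∈ Finset.range (mN n),
      Real.log ((padicNorm p (((2 * i - 1).factorial : ℕ) : ℚ) ^ 2 : ℚ) : ℝ) ≤
    - 2 * ∑ i ∈ Finset.range (mN n), Real.log ((2 * i - 1).factorial : ℝ) +
      ∑ p ∈ PS (1 / 20) 46 n, (∑ j ∈ J, tn (46 * n) j p) * Real.log p := by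
  sorry

theorem P5_superfac : ∀ ε : ℝ, 0 < ε → ∀ᶠ n : ℕ in atTop,
    1058 * (n : ℝ) ^ 2 * Real.log n + (1058 * Real.log 46 - 1587 - ε) * (n : ℝ) ^ 2 ≤
      2 * ∑ i ∈ Finset.range (mN n), Real.log ((2 * i - 1).factorial : ℝ) := by
  sorry

theorem P5_log46 : (3.8285 : ℝ) ≤ Real.log 46 := by
  sorry

/-! ### P_main -/

theorem P_main_strong : ∀ ε : ℝ, 0 < ε → ∀ᶠ n : ℕ in atTop, ∀ (q : ℕ) (u : ℚ), UInt q u →
    DET n u (mN n) ≠ 0 →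
    ∑ p ∈ (Finset.range (48 * n + 1)).filter Nat.Prime,
      Real.log ((padicNorm p ((q : ℚ) ^ (mN n) * DET n u (mN n)) : ℚ) : ℝ) ≤
      -(1058 * (n : ℝ) ^ 2 * Real.log n) - (6195 / 10 - ε) * (n : ℝ) ^ 2 := by
  sorry

theorem P_main : ∀ ε : ℝ, 0 < ε → ∀ᶠ n : ℕ in atTop, ∀ (q : ℕ) (u : ℚ), UInt q u →
    DET n u (mN n) ≠ 0 →
    ∑ p ∈ (Finset.range (48 * n + 1)).filter Nat.Prime,
      Real.log ((padicNorm p ((q : ℚ) ^ (mN n) * DET n u (mN n)) : ℚ) : ℝ) ≤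
      -(1058 * (n : ℝ) ^ 2 * Real.log n) - (6125 / 10 - ε) * (n : ℝ) ^ 2 := by
  sorry

theorem P_large : ∀ᶠ n : ℕ in atTop, ∀ (q : ℕ) (u : ℚ), UInt q u → ∀ p : ℕ, p.Prime → 48 * n < p →
    padicNorm p ((q : ℚ) ^ (mN n) * DET n u (mN n)) ≤ 1 := by
  sorry

end

end Pool.Agent.H336R2.Z5
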