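import Pool.Agent.H336R2.Z5.P31a
import Pool.Agent.H336R2.Z5.P28
import Pool.Agent.H336R2.Z5.P29
import Pool.Agent.H336R2.Z5.P30
import Pool.Agent.H336R2.Z5.P33a
import Pool.Agent.H336R2.Z5.P1e
import Pool.Agent.H336R2.Z5.P1f
import Pool.Agent.H336R2.Z5.P21
import Pool.Agent.H336R2.Z5.P26
import Pool.Agent.H336R2.Z5.P32
import Pool.Agent.H336R2.Z5.P49c

/-!
# The p-adic block of the proof that `ζ(5)` is irrational: assembly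
-/

open Polynomial Pool.Agent.H337R2 Filter Topology

namespace Pool.Agent.H336R2.Z5.ZP

noncomputable section

theorem P3_B : ∃ K0 : ℝ, ∀ n p : ℕ, p.Prime → 7 ≤ n → 12 * n ≤ p → p < 34 * n → 48 * n < p ^ 2 →
    ((((mN n : ℕ) : ℤ) * (-(vv n p : ℤ)) +
      ∑ κ ∈ Kset n p, TC (gz n p κ) (-(eeN p n κ) - (-(vv n p : ℤ))) : ℤ) : ℝ) ≤ EB n p + K0 :=
  P3_B_of
    (X := fun n p => ∑ w ∈ (Finset.range (9 * n + 1)).filter (fun w => w + 9 * n < p), TC (gw n p w) (Sw n w))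
    (Y := fun n p => ∑ u ∈ (Finset.range (18 * n + 1 - p)).filter (fun u => 2 * u ≤ 18 * n - p),
        TT (Sw n (9 * n - u) + Sw n (9 * n - (18 * n - p - u))))
    (fun _ _ hp hn hp12 hp2 => P3_B1 hp hn hp12 hp2) P3_B2 P3_B3

theorem P4_padic : ∃ K0 : ℝ, 0 ≤ K0 ∧ ∀ n : ℕ, 7 ≤ n → ∀ p : ℕ, p.Prime → n < 20 * p → 48 * n < p ^ 2 →
    ∀ (q : ℕ) (u : ℚ), UInt q u →
    ((padicNorm p ((q : ℚ) ^ (mN n) * DET n u (mN n)) : ℚ) : ℝ) ≤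
      if p < 34 * n then (p : ℝ) ^ (EW n p + K0) else 1 :=
  P4_of P1_det_med P1_det_large P3_cst P3_A P3_B P3_C

theorem P_main : ∀ ε : ℝ, 0 < ε → ∀ᶠ n : ℕ in atTop, ∀ (q : ℕ) (u : ℚ), UInt q u →
    DET n u (mN n) ≠ 0 →
    ∑ p ∈ (Finset.range (48 * n + 1)).filter Nat.Prime,
      Real.log ((padicNorm p ((q : ℚ) ^ (mN n) * DET n u (mN n)) : ℚ) : ℝ) ≤
      -(1058 * (n : ℝ) ^ 2 * Real.log n) - (6125 / 10 - ε) * (n : ℝ) ^ 2 := P_main_c P4_padic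

theorem P_large : ∀ᶠ n : ℕ in atTop, ∀ (q : ℕ) (u : ℚ), UInt q u → ∀ p : ℕ, p.Prime → 48 * n < p →
    padicNorm p ((q : ℚ) ^ (mN n) * DET n u (mN n)) ≤ 1 := P_large_c P4_padic

end

end Pool.Agent.H336R2.Z5.ZP
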