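import Pool.Agent.H336R2.Z5.ZDraft
import Pool.Agent.H336R2.Z5.B4
import Pool.Agent.H336R2.Z5.B5
import Pool.Agent.H336R2.Z5.B6
import Pool.Agent.H336R2.Z5.H6
import Pool.Agent.H336R2.Z5.ZP
import Pool.Agent.H312R.ZA.Main

/-!
# `ζ(5)` is irrational

The three blocks: the linear form and the archimedean bound (`Z_stA`), the non-vanishing of the Hankel
determinants for prime parameters (`H6_nonvanish`), the p-adic bound (`ZP.P_main`, `ZP.P_large`).
-/

open Polynomial Pool.Agent.H337R2 Filter Topology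

namespace Pool.Agent.H336R2.Z5

noncomputable section

theorem Z_stA : StA := by
  refine ⟨1, le_rfl, fun ε hε => ?_⟩
  have h := Pool.Agent.H312R.ZA.A_main
  rw [eventually_atTop] at h ⊢
  obtain ⟨N0, h0⟩ := h
  refine ⟨N0 + 1, fun N hN n hn u hu hD => ?_⟩
  have h1 := h0 n (by omega) u (fun Q hQ => B6_hasSum @B4_int @B5_half (by omega) u hu Q hQ) hD
  have h2 : (0 : ℝ) ≤ ε * (n : ℝ) ^ 2 := by positivity
  linarith [h1, h2]

/-- `ζ(5)` is irrational -/
theorem Z_main : Irrational (zr 5) :=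
  Z_of (fun u => H6_nonvanish u) Z_stA ZP.P_main ZP.P_large

end

end Pool.Agent.H336R2.Z5
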