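import Pool.Agent.H336R2.Z5.Defs
import Pool.Agent.H336R2.HD.A5

/-!
# Assembly: `ζ(5)` is irrational (from the three blocks)
-/

open Polynomial Pool.Agent.H337R2 Filter Topology

namespace Pool.Agent.H336R2.Z5

noncomputable section

/-- non-vanishing -/
def StH : Prop := ∀ u : ℚ, ∃ p0 : ℕ, ∀ p : ℕ, p0 ≤ p → p.Prime → DET p u (mN p) ≠ 0

/-- archimedean bound -/
def StA : Prop := ∃ D : ℕ, 1 ≤ D ∧ ∀ ε : ℝ, 0 < ε → ∀ᶠ N : ℕ in atTop, ∀ n : ℕ, n = D * N + 1 → ∀ u : ℚ,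
    zr 5 = (u : ℝ) → DET n u (mN n) ≠ 0 →
    Real.log |((DET n u (mN n) : ℚ) : ℝ)| ≤ 1058 * (n : ℝ) ^ 2 * Real.log n + (611 + ε) * (n : ℝ) ^ 2

/-- p-adic bound -/
def StP : Prop := ∀ ε : ℝ, 0 < ε → ∀ᶠ n : ℕ in atTop, ∀ (q : ℕ) (u : ℚ), UInt q u → DET n u (mN n) ≠ 0 →
    ∑ p ∈ (Finset.range (48 * n + 1)).filter Nat.Prime,
      Real.log ((padicNorm p ((q : ℚ) ^ (mN n) * DET n u (mN n)) : ℚ) : ℝ) ≤
    -(1058 * (n : ℝ) ^ 2 * Real.log n) - (6125 / 10 - ε) * (n : ℝ) ^ 2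

/-- large primes -/
def StL : Prop := ∀ᶠ n : ℕ in atTop, ∀ (q : ℕ) (u : ℚ), UInt q u → ∀ p : ℕ, p.Prime → 48 * n < p →
    padicNorm p ((q : ℚ) ^ (mN n) * DET n u (mN n)) ≤ 1

theorem Z_of (hH : StH) (hA : StA) (hP : StP) (hL : StL) : Irrational (zr 5) := by
  rintro ⟨u, hu5⟩
  have h5 : zr 5 = (u : ℝ) := hu5.symm
  have hu : UInt u.den u := ⟨u.den_pos, u.num, by
    have := Rat.den_mul_eq_num u
    exact_mod_cast this⟩
  set q := u.den with hq
  have hq0 : 0 < q := hu.1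
  obtain ⟨p0, hp0⟩ := hH u
  obtain ⟨D, hD, hA⟩ := hA
  have hA1 := hA (1 / 4) (by norm_num)
  have hP1 := hP (1 / 4) (by norm_num)
  have hP2 := hP1.and hL
  rw [eventually_atTop] at hA1 hP2
  obtain ⟨N1, hN1⟩ := hA1
  obtain ⟨N2, hN2⟩ := hP2
  -- the bound for the power of q
  have hlq : 0 ≤ Real.log q := Real.log_nonneg (by exact_mod_cast hq0)
  obtain ⟨N3, hN3⟩ := exists_nat_gt (23 * Real.log q)
  obtain ⟨n, hnp, hngt, hnmod⟩ := Nat.exists_prime_gt_modEq_one (k := D) (D * N1 + N2 + p0 + N3 + 2) (by omega)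
  have hn1 : 1 ≤ n := hnp.one_lt.le
  obtain ⟨N, hN⟩ : ∃ N, n = D * N + 1 := by
    have h1 : D ∣ n - 1 := (Nat.modEq_iff_dvd' hn1).1 hnmod.symm
    obtain ⟨N, hN⟩ := h1
    exact ⟨N, by omega⟩
  have hNN1 : N1 ≤ N := by
    by_contra h
    push Not at h
    have : D * N ≤ D * N1 := Nat.mul_le_mul_left D h.le
    omega
  have hDne : DET n u (mN n) ≠ 0 := hp0 n (by omega) hnp
  have hAn := hN1 N hNN1 n hN u h5 hDne
  have hPn := (hN2 n (by omega)).1 q u hu hDne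
  have hLn := (hN2 n (by omega)).2 q u hu
  set z : ℚ := (q : ℚ) ^ (mN n) * DET n u (mN n) with hz
  have hz0 : z ≠ 0 := mul_ne_zero (pow_ne_zero _ (by exact_mod_cast hq0.ne')) hDne
  set S : Finset ℕ := (Finset.range (48 * n + 1)).filter Nat.Prime with hS
  have hpf := Pool.Agent.H336R2.HD.A5_prod_formula z hz0 S (fun p hp => (Finset.mem_filter.1 hp).2)
    (fun p => ((padicNorm p z : ℚ) : ℝ)) (fun p _ => le_rfl) (fun p hp hpS => by
      rw [hS, Finset.mem_filter, Finset.mem_range] at hpS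
      have h1 : 48 * n < p := by
        by_contra h; exact hpS ⟨by omega, hp⟩
      exact hLn p hp h1)
  have hpos : ∀ p ∈ S, 0 < ((padicNorm p z : ℚ) : ℝ) := by
    intro p hp
    have : Fact p.Prime := ⟨(Finset.mem_filter.1 hp).2⟩
    have h1 : 0 < padicNorm p z := lt_of_le_of_ne (padicNorm.nonneg _) (Ne.symm (padicNorm.nonzero hz0))
    exact_mod_cast h1
  have hprodpos : 0 < ∏ p ∈ S, ((padicNorm p z : ℚ) : ℝ) := Finset.prod_pos hpos
  have hzabs : 0 < |(z : ℝ)| := abs_pos.2 (by exact_mod_cast hz0)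
  have hlog := Real.log_nonneg hpf
  rw [Real.log_mul hzabs.ne' hprodpos.ne', Real.log_prod (fun p hp => (hpos p hp).ne')] at hlog
  have hzlog : Real.log |(z : ℝ)| = ((mN n : ℕ) : ℝ) * Real.log q + Real.log |((DET n u (mN n) : ℚ) : ℝ)| := by
    rw [hz]
    push_cast
    have hqq : (0 : ℝ) < (q : ℝ) := by exact_mod_cast hq0
    rw [abs_mul, Real.log_mul (abs_pos.2 (by positivity)).ne' (abs_pos.2 (by exact_mod_cast hDne)).ne',
      abs_of_pos (by positivity), Real.log_pow]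
    push_cast
    ring
  have hmq : ((mN n : ℕ) : ℝ) * Real.log q ≤ 23 * n * Real.log q := by
    apply mul_le_mul_of_nonneg_right _ hlq
    have : mN n ≤ 23 * n := by unfold mN; omega
    exact_mod_cast this
  have hn0 : (0 : ℝ) < n := by exact_mod_cast hn1
  have hnN3 : (N3 : ℝ) ≤ n := by exact_mod_cast (by omega : N3 ≤ n)
  have h1 : 23 * n * Real.log q ≤ (n : ℝ) ^ 2 := by
    have : 23 * Real.log q ≤ n := by linarith
    nlinarith
  have h2 : (0 : ℝ) < (n : ℝ) ^ 2 := by positivity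
  nlinarith

end

end Pool.Agent.H336R2.Z5
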